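import Pool.Agent.W_0c5e58_h61.GVol

/-!
# Lower bounds from tilings
-/

open MeasureTheory Metric Set Filter
open scoped Topology ENNReal

namespace Pool.TC

theorem GTile_null {n : ℕ} {B : Set (EuclideanSpace ℝ (Fin n))} (hB : IsCompact B)
    (hBf : volume (frontier B) = 0) (g g' : EuclideanSpace ℝ (Fin n) ≃ᵢ EuclideanSpace ℝ (Fin n))
    (h : Disjoint (interior (g '' B)) (interior (g' '' B))) :
    volume (g '' B ∩ g' '' B) = 0 := by
  have hcl : ∀ g : EuclideanSpace ℝ (Fin n) ≃ᵢ EuclideanSpace ℝ (Fin n), IsClosed (g '' B) :=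
    fun g => (hB.image g.continuous).isClosed
  have hfr : ∀ g : EuclideanSpace ℝ (Fin n) ≃ᵢ EuclideanSpace ℝ (Fin n),
      volume (frontier (g '' B)) = 0 := by
    intro g
    have h1 : g '' frontier B = frontier (g '' B) := g.toHomeomorph.image_frontier B
    rw [← h1, vol_isom, hBf]
  have hsub : g '' B ∩ g' '' B ⊆ frontier (g '' B) ∪ frontier (g' '' B) := by
    rintro x ⟨hx, hx'⟩
    by_contra hcon
    rw [mem_union, not_or] at hcon
    have k1 : x ∈ interior (g '' B) := by
      by_contra hi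
      exact hcon.1 ⟨subset_closure hx, hi⟩
    have k2 : x ∈ interior (g' '' B) := by
      by_contra hi
      exact hcon.2 ⟨subset_closure hx', hi⟩
    exact Set.disjoint_left.1 h k1 k2
  refine measure_mono_null hsub ?_
  exact measure_union_null (hfr g) (hfr g')

/-- A subset `K` of a compact tile `B` with null frontier has packing density at least
`vol K / vol B`.

Proof.  Take the packing `{g '' K | g ∈ T}`; different members have disjoint interiors.  Let
`D` be a bound for the diameter of `B`.  For `r > D` let `s` be the set of `g ∈ T` with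
`g '' B` meeting `ball 0 (r - D)`: all these tiles lie in `ball 0 r`, have null overlaps
(`interior`s disjoint, frontiers null) and the same positive volume, so `s` is finite; they cover
`ball 0 (r - D)`, so `card s * vol B ≥ vol (ball 0 (r - D))`.  The sets `g '' K`, `g ∈ s`, have null
overlaps, so `vol (⋃₀ packing ∩ ball 0 r) ≥ card s * vol K ≥ (vol K / vol B) vol (ball 0 (r-D))`.
Divide by `vol (ball 0 r)` and use `ball_ratio` (with `a = - D`); `limsup ≥` the limit of the lower
bound. -/
theorem tile_density {n : ℕ} (hn : 0 < n) {B K : Set (EuclideanSpace ℝ (Fin n))}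
    (hB : IsCompact B) (hBi : (interior B).Nonempty) (hBf : volume (frontier B) = 0)
    (hT : Tiles B) (hKB : K ⊆ B) (hK : MeasurableSet K) :
    volume K / volume B ≤ packDensity K := by
  obtain ⟨T, hcov, hdis⟩ := hT
  have hB0 : volume B ≠ 0 := (lt_of_lt_of_le (isOpen_interior.measure_pos volume hBi)
    (measure_mono interior_subset)).ne'
  have hBt : volume B ≠ ⊤ := hB.measure_lt_top.ne
  -- countability
  have hTc : T.Countable := by
    refine Set.PairwiseDisjoint.countable_of_isOpen
      (s := fun g : EuclideanSpace ℝ (Fin n) ≃ᵢ EuclideanSpace ℝ (Fin n) => interior (g '' B))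
      (a := T) ?_ (fun g _ => isOpen_interior) ?_
    · intro g hg g' hg' hne
      exact hdis hg hg' hne
    · intro g _
      have h1 : g '' interior B = interior (g '' B) := g.toHomeomorph.image_interior B
      rw [← h1]
      exact hBi.image g
  obtain ⟨D, hD⟩ := Metric.isBounded_iff.1 hB.isBounded
  -- the packing
  set P : Set (Set (EuclideanSpace ℝ (Fin n))) :=
    (fun g : EuclideanSpace ℝ (Fin n) ≃ᵢ EuclideanSpace ℝ (Fin n) => g '' K) '' T with hP
  have hmain : ∀ r : ℝ, volume K / volume B * (volume (ball (0 : EuclideanSpace ℝ (Fin n))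
      (r + -D)) / volume (ball (0 : EuclideanSpace ℝ (Fin n)) r)) ≤
      volume (⋃₀ P ∩ ball (0 : EuclideanSpace ℝ (Fin n)) r) /
        volume (ball (0 : EuclideanSpace ℝ (Fin n)) r) := by
    intro r
    set s : Set (EuclideanSpace ℝ (Fin n) ≃ᵢ EuclideanSpace ℝ (Fin n)) :=
      {g | g ∈ T ∧ (g '' B ∩ ball (0 : EuclideanSpace ℝ (Fin n)) (r + -D)).Nonempty} with hs
    have hsc : s.Countable := hTc.mono fun g hg => hg.1
    have : Countable s := hsc.to_subtype
    have hin : ∀ g ∈ s, g '' B ⊆ ball (0 : EuclideanSpace ℝ (Fin n)) r := by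
      rintro g ⟨_, y, ⟨⟨b, hb, rfl⟩, hy⟩⟩ _ ⟨b', hb', rfl⟩
      rw [mem_ball] at hy ⊢
      have h1 : dist (g b') (g b) ≤ D := by
        rw [g.dist_eq]
        exact hD hb' hb
      have h2 := dist_triangle (g b') (g b) 0
      linarith
    have hcov' : ball (0 : EuclideanSpace ℝ (Fin n)) (r + -D) ⊆ ⋃ g : s, g.1 '' B := by
      intro y hy
      have h1 : y ∈ ⋃ g ∈ T, g '' B := by rw [hcov]; exact mem_univ y
      obtain ⟨g, hg, hyg⟩ := mem_iUnion₂.1 h1
      exact mem_iUnion.2 ⟨⟨g, hg, ⟨y, hyg, hy⟩⟩, hyg⟩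
    have h1 : volume (ball (0 : EuclideanSpace ℝ (Fin n)) (r + -D)) ≤
        (∑' _ : s, (1 : ℝ≥0∞)) * volume B := by
      refine (measure_mono hcov').trans ((measure_iUnion_le _).trans ?_)
      rw [← ENNReal.tsum_mul_right]
      refine ENNReal.tsum_le_tsum fun g => ?_
      rw [vol_isom, one_mul]
    have h2 : (∑' _ : s, (1 : ℝ≥0∞)) * volume K ≤
        volume (⋃₀ P ∩ ball (0 : EuclideanSpace ℝ (Fin n)) r) := by
      have h3 : volume (⋃ g : s, g.1 '' K) = ∑' g : s, volume (g.1 '' K) := by
        refine measure_iUnion₀ ?_ ?_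
        · intro g g' hne
          have h4 := GTile_null hB hBf g.1 g'.1
            (hdis g.2.1 g'.2.1 (fun e => hne (Subtype.ext e)))
          exact measure_mono_null (inter_subset_inter (image_mono hKB) (image_mono hKB)) h4
        · intro g
          exact (g.1.toHomeomorph.measurableEmbedding.measurableSet_image.2 hK).nullMeasurableSet
      have h4 : (∑' _ : s, (1 : ℝ≥0∞)) * volume K = ∑' g : s, volume (g.1 '' K) := by
        rw [← ENNReal.tsum_mul_right]
        refine tsum_congr fun g => ?_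
        rw [vol_isom, one_mul]
      rw [h4, ← h3]
      refine measure_mono ?_
      refine iUnion_subset fun g => ?_
      intro y hy
      refine ⟨?_, hin g.1 g.2 (image_mono hKB hy)⟩
      exact mem_sUnion.2 ⟨g.1 '' K, ⟨g.1, g.2.1, rfl⟩, hy⟩
    rw [← mul_div_assoc]
    refine ENNReal.div_le_div_right ?_ _
    calc volume K / volume B * volume (ball (0 : EuclideanSpace ℝ (Fin n)) (r + -D))
        ≤ volume K / volume B * ((∑' _ : s, (1 : ℝ≥0∞)) * volume B) :=
          mul_le_mul_right h1 _
      _ = (∑' _ : s, (1 : ℝ≥0∞)) * (volume K / volume B * volume B) := by ring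
      _ = (∑' _ : s, (1 : ℝ≥0∞)) * volume K := by rw [ENNReal.div_mul_cancel hB0 hBt]
      _ ≤ _ := h2
  have hlim : Tendsto (fun r : ℝ => volume K / volume B *
      (volume (ball (0 : EuclideanSpace ℝ (Fin n)) (r + -D)) /
        volume (ball (0 : EuclideanSpace ℝ (Fin n)) r))) atTop (𝓝 (volume K / volume B * 1)) :=
    ENNReal.Tendsto.const_mul (ball_ratio hn (-D)) (Or.inl one_ne_zero)
  rw [mul_one] at hlim
  have hle : volume K / volume B ≤ Filter.limsup (fun r : ℝ =>
      volume (⋃₀ P ∩ Metric.ball (0 : EuclideanSpace ℝ (Fin n)) r) /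
        volume (Metric.ball (0 : EuclideanSpace ℝ (Fin n)) r)) Filter.atTop := by
    rw [← hlim.limsup_eq]
    exact Filter.limsup_le_limsup (Filter.Eventually.of_forall hmain)
  refine hle.trans (le_sSup ?_)
  refine ⟨P, ?_, ?_, rfl⟩
  · rintro A ⟨g, _, rfl⟩
    exact ⟨g, rfl⟩
  · rintro A ⟨g, hg, rfl⟩ A' ⟨g', hg', rfl⟩ hne
    have hgg : g ≠ g' := by
      rintro rfl
      exact hne rfl
    exact (hdis hg hg' hgg).mono (interior_mono (image_mono hKB))
      (interior_mono (image_mono hKB))

/-- Stacking a plane tiling: `T' = {exists_lift g (m h) | g ∈ T, m ∈ ℤ}`.  Covers: given `x`,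
take `g` with `pr x ∈ g '' B` and `m = ⌊x 2 / h⌋`.  Interiors: `pr_interior` (different `m`:
different heights; the same `m`, different `g`: disjoint plane interiors).  (An isometry of `E3` is
determined by its values, so use a set of isometries chosen by `exists_lift`.) -/
theorem tiles_cyl {B : Set E2} (hT : Tiles B) {h : ℝ} (hh : 0 < h) : Tiles (cyl B h) := by
  obtain ⟨T, hcov, hdis⟩ := hT
  choose G hG1 hG2 using exists_lift
  refine ⟨{f | ∃ g ∈ T, ∃ m : ℤ, f = G g (m * h)}, ?_, ?_⟩
  · refine eq_univ_of_forall fun x => ?_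
    have h1 : pr x ∈ ⋃ g ∈ T, g '' B := by rw [hcov]; exact mem_univ _
    obtain ⟨g, hg, y, hy, hyx⟩ := mem_iUnion₂.1 h1
    refine mem_iUnion₂.2 ⟨G g (⌊x 2 / h⌋ * h), ⟨g, hg, _, rfl⟩, ?_⟩
    refine ⟨(G g (⌊x 2 / h⌋ * h)).symm x, ?_, (G g (⌊x 2 / h⌋ * h)).apply_symm_apply x⟩
    have h2 := hG1 g (⌊x 2 / h⌋ * h) ((G g (⌊x 2 / h⌋ * h)).symm x)
    have h3 := hG2 g (⌊x 2 / h⌋ * h) ((G g (⌊x 2 / h⌋ * h)).symm x)
    rw [IsometryEquiv.apply_symm_apply] at h2 h3
    have h4 : pr ((G g (⌊x 2 / h⌋ * h)).symm x) = y := by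
      apply g.injective
      rw [← h2, hyx]
    have h5 : (⌊x 2 / h⌋ : ℝ) * h ≤ x 2 := by
      have := Int.floor_le (x 2 / h)
      rwa [le_div_iff₀ hh] at this
    have h6 : x 2 < ((⌊x 2 / h⌋ : ℝ) + 1) * h := by
      have := Int.lt_floor_add_one (x 2 / h)
      rwa [div_lt_iff₀ hh] at this
    refine ⟨?_, ?_, ?_⟩
    · show pr ((G g (⌊x 2 / h⌋ * h)).symm x) ∈ B
      rw [h4]
      exact hy
    · show 0 ≤ ((G g (⌊x 2 / h⌋ * h)).symm x) 2
      linarith
    · show ((G g (⌊x 2 / h⌋ * h)).symm x) 2 ≤ h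
      linarith
  · rintro _ ⟨g, hg, m, rfl⟩ _ ⟨g', hg', m', rfl⟩ hne
    rw [Set.disjoint_left]
    intro z hz hz'
    have i1 : G g (m * h) '' interior (cyl B h) = interior (G g (m * h) '' cyl B h) :=
      (G g (m * h)).toHomeomorph.image_interior _
    have i2 : G g' (m' * h) '' interior (cyl B h) = interior (G g' (m' * h) '' cyl B h) :=
      (G g' (m' * h)).toHomeomorph.image_interior _
    rw [← i1] at hz
    rw [← i2] at hz'
    obtain ⟨x, hx, hxz⟩ := hz
    obtain ⟨x', hx', hxz'⟩ := hz'
    obtain ⟨p1, p2, p3⟩ := pr_interior hx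
    obtain ⟨q1, q2, q3⟩ := pr_interior hx'
    have a1 := hG1 g (m * h) x
    have a2 := hG2 g (m * h) x
    have b1 := hG1 g' (m' * h) x'
    have b2 := hG2 g' (m' * h) x'
    rw [hxz] at a1 a2
    rw [hxz'] at b1 b2
    have hmm : m = m' := by
      have e1 : x 2 + m * h = x' 2 + m' * h := by rw [← a2, ← b2]
      have e2 : ((m : ℝ) - m') * h < 1 * h := by linarith
      have e3 : ((m' : ℝ) - m) * h < 1 * h := by linarith
      have e4 := lt_of_mul_lt_mul_right e2 hh.le
      have e5 := lt_of_mul_lt_mul_right e3 hh.le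
      have e6 : m < m' + 1 := by
        have : (m : ℝ) < m' + 1 := by linarith
        exact_mod_cast this
      have e7 : m' < m + 1 := by
        have : (m' : ℝ) < m + 1 := by linarith
        exact_mod_cast this
      omega
    have hgg : g ≠ g' := by
      rintro rfl
      apply hne
      rw [hmm]
    have j1 : g '' interior B = interior (g '' B) := g.toHomeomorph.image_interior _
    have j2 : g' '' interior B = interior (g' '' B) := g'.toHomeomorph.image_interior _
    have hdj : Disjoint (interior (g '' B)) (interior (g' '' B)) := hdis hg hg' hgg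
    rw [Set.disjoint_left] at hdj
    refine @hdj (pr z) ?_ ?_
    · rw [← j1, a1]
      exact ⟨_, p1, rfl⟩
    · rw [← j2, b1]
      exact ⟨_, q1, rfl⟩

end Pool.TC
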