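import Pool.Agent.W_0c5e58_h61.GDefs

/-!
# The regular hexagon
-/

open MeasureTheory Metric Set Filter
open scoped Topology ENNReal

namespace Pool.TC

/-- the regular hexagon with inradius `1` -/
noncomputable def hexP : Pgon 6 where
  u := ![!₂[1, 0], !₂[1 / 2, √3 / 2], !₂[-(1 / 2), √3 / 2], !₂[-1, 0], !₂[-(1 / 2), -(√3 / 2)],
    !₂[1 / 2, -(√3 / 2)]]
  c := fun _ => 1

/-- first coordinate -/
noncomputable def GHex_a (x : E2) : ℝ := x 0

/-- second coordinate -/
noncomputable def GHex_b (x : E2) : ℝ := -(x 0) / 2 + √3 / 2 * x 1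

/-- the six linear forms -/
noncomputable def GHex_w (x : E2) : Fin 6 → ℝ :=
  ![GHex_a x, GHex_a x + GHex_b x, GHex_b x, -GHex_a x, -(GHex_a x + GHex_b x), -GHex_b x]

theorem GHex_inner (k : Fin 6) (x : E2) : inner ℝ (hexP.u k) x = GHex_w x k := by
  have h : ∀ (p q : ℝ), inner ℝ (!₂[p, q] : E2) x = p * x 0 + q * x 1 := by
    intro p q
    rw [PiLp.inner_apply]
    simp [Fin.sum_univ_two]
    ring
  fin_cases k <;> simp only [hexP, GHex_w, GHex_a, GHex_b] <;> simp [h] <;> ring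

theorem GHex_mem (x : E2) : x ∈ hexP.body ↔ ∀ k, GHex_w x k ≤ 1 := by
  simp only [Pgon.body, Set.mem_ofPred_eq, GHex_inner]
  rfl

theorem GHex_facts {x : E2} (hx : x ∈ hexP.body) :
    GHex_a x ≤ 1 ∧ GHex_a x + GHex_b x ≤ 1 ∧ GHex_b x ≤ 1 ∧ -GHex_a x ≤ 1 ∧
      -(GHex_a x + GHex_b x) ≤ 1 ∧ -GHex_b x ≤ 1 := by
  have h := (GHex_mem x).1 hx
  exact ⟨h 0, h 1, h 2, h 3, h 4, h 5⟩

theorem GHex_mem' (x : E2) (h0 : GHex_a x ≤ 1) (h1 : GHex_a x + GHex_b x ≤ 1) (h2 : GHex_b x ≤ 1)
    (h3 : -GHex_a x ≤ 1) (h4 : -(GHex_a x + GHex_b x) ≤ 1) (h5 : -GHex_b x ≤ 1) :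
    x ∈ hexP.body := by
  rw [GHex_mem]
  intro k
  fin_cases k
  · exact h0
  · exact h1
  · exact h2
  · exact h3
  · exact h4
  · exact h5

theorem GHex_sqrt3 : √3 * √3 = (3 : ℝ) := Real.mul_self_sqrt (by norm_num)

theorem GHex_sqrt3_pos : (0 : ℝ) < √3 := Real.sqrt_pos.2 (by norm_num)

theorem GHex_norm_sq (x : E2) :
    ‖x‖ ^ 2 = 4 / 3 * (GHex_a x ^ 2 + GHex_a x * GHex_b x + GHex_b x ^ 2) := by
  rw [EuclideanSpace.norm_sq_eq, Fin.sum_univ_two]
  simp only [Real.norm_eq_abs, sq_abs, GHex_a, GHex_b]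
  have h3 := GHex_sqrt3
  linear_combination (1 / 3 : ℝ) * (-(x 1) ^ 2) * h3

/-- the values of the forms at the normals -/
theorem GHex_ab (k : Fin 6) : GHex_a (hexP.u k) = (![1, 1 / 2, -(1 / 2), -1, -(1 / 2), 1 / 2] : Fin 6 → ℝ) k ∧
    GHex_b (hexP.u k) = (![-(1 / 2), 1 / 2, 1, 1 / 2, -(1 / 2), -1] : Fin 6 → ℝ) k := by
  have h3 := GHex_sqrt3
  fin_cases k <;> simp [GHex_a, GHex_b, hexP] <;> nlinarith [h3]

theorem GHex_half {k l : Fin 6} {v : E2} (h : hexP.Vertex k l v) :
    inner ℝ (hexP.u k) (hexP.u l) = 1 / 2 := by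
  obtain ⟨hne, hv, h1, h2⟩ := h
  rw [GHex_inner] at h1 h2 ⊢
  obtain ⟨f0, f1, f2, f3, f4, f5⟩ := GHex_facts hv
  have e : ∀ i, hexP.c i = 1 := fun _ => rfl
  rw [e] at h1 h2
  obtain ⟨ha, hb⟩ := GHex_ab l
  simp only [GHex_w, ha, hb] at h1 h2 ⊢
  fin_cases k <;> fin_cases l <;> first
    | exact absurd rfl hne
    | (simp at h1 h2 ⊢; done)
    | (exfalso; simp at h1 h2; linarith)
    | norm_num

/-- the open hexagon -/
theorem GHex_open : IsOpen {x : E2 | ∀ k, inner ℝ (hexP.u k) x < 1} := by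
  rw [Set.ofPred_forall]
  exact isOpen_iInter_of_finite fun k => isOpen_lt (by fun_prop) continuous_const

theorem GHex_open_sub : {x : E2 | ∀ k, inner ℝ (hexP.u k) x < 1} ⊆ hexP.body :=
  fun _ hx k => (hx k).le

theorem GHex_unit (k : Fin 6) : ‖hexP.u k‖ = 1 := by
  have h : ‖hexP.u k‖ ^ 2 = 1 := by
    rw [GHex_norm_sq]
    obtain ⟨ha, hb⟩ := GHex_ab k
    rw [ha, hb]
    fin_cases k <;> simp <;> norm_num
  have h0 := norm_nonneg (hexP.u k)
  nlinarith

theorem GHex_ball : ball (0 : E2) 1 ⊆ {x : E2 | ∀ k, inner ℝ (hexP.u k) x < 1} := by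
  intro x hx k
  have h1 : ‖x‖ < 1 := by simpa using hx
  calc inner ℝ (hexP.u k) x ≤ ‖hexP.u k‖ * ‖x‖ := real_inner_le_norm _ _
    _ = ‖x‖ := by rw [GHex_unit, one_mul]
    _ < 1 := h1

theorem GHex_closed : IsClosed hexP.body := by
  unfold Pgon.body
  rw [Set.ofPred_forall]
  exact isClosed_iInter fun k => isClosed_le (by fun_prop) continuous_const

theorem GHex_norm_le {x : E2} (hx : x ∈ hexP.body) : ‖x‖ ≤ 2 := by
  obtain ⟨f0, f1, f2, f3, f4, f5⟩ := GHex_facts hx
  have h := GHex_norm_sq x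
  have h0 := norm_nonneg x
  have ha : GHex_a x ^ 2 ≤ 1 := by nlinarith
  have hb : GHex_b x ^ 2 ≤ 1 := by nlinarith
  have hab : GHex_a x * GHex_b x ≤ 1 := by nlinarith [sq_nonneg (GHex_a x - GHex_b x)]
  nlinarith

theorem GHex_cpt : IsCompact hexP.body := by
  refine Metric.isCompact_of_isClosed_isBounded GHex_closed ?_
  refine (Metric.isBounded_closedBall (x := (0 : E2)) (r := 2)).subset fun x hx => ?_
  simpa using GHex_norm_le hx

theorem GHex_interior {x : E2} (hx : x ∈ interior hexP.body) (k : Fin 6) :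
    inner ℝ (hexP.u k) x < 1 := by
  rw [mem_interior_iff_mem_nhds, Metric.mem_nhds_iff] at hx
  obtain ⟨ε, hε, hb⟩ := hx
  have h1 : x + (ε / 2) • hexP.u k ∈ hexP.body := by
    apply hb
    rw [mem_ball, dist_eq_norm]
    simp only [add_sub_cancel_left]
    rw [norm_smul, GHex_unit, mul_one, Real.norm_eq_abs, abs_of_pos (half_pos hε)]
    exact half_lt_self hε
  have h2 := h1 k
  rw [inner_add_right, inner_smul_right, real_inner_self_eq_norm_sq, GHex_unit] at h2
  have e : hexP.c k = 1 := rfl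
  rw [e] at h2
  linarith

theorem GHex_pm (y : ℝ) (hy : y ^ 2 = 1) : y = 1 ∨ y = -1 := by
  have h : (y - 1) * (y + 1) = 0 := by linear_combination hy
  rcases mul_eq_zero.1 h with h | h
  · left; linarith
  · right; linarith

theorem GHex_prod {x y : ℝ} (hx : x ^ 2 ≤ 1) (hy : 0 ≤ y) (h : 1 ≤ x ^ 2 - y) :
    (x = 1 ∨ x = -1) ∧ y = 0 := ⟨GHex_pm x (by linarith), by linarith⟩

theorem GHex_cases (a b : ℝ) (f0 : a ≤ 1) (f1 : a + b ≤ 1) (f2 : b ≤ 1) (f3 : -a ≤ 1)
    (f4 : -(a + b) ≤ 1) (f5 : -b ≤ 1) (hq : 1 ≤ a ^ 2 + a * b + b ^ 2) :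
    (a = 1 ∧ b = 0) ∨ (a = 0 ∧ b = 1) ∨ (a = -1 ∧ b = 1) ∨ (a = -1 ∧ b = 0) ∨
        (a = 0 ∧ b = -1) ∨ (a = 1 ∧ b = -1) := by
  have hab2 : (a + b) ^ 2 ≤ 1 := (sq_le_one_iff_abs_le_one _).2 (abs_le.2 ⟨by linarith, f1⟩)
  have ha2 : a ^ 2 ≤ 1 := (sq_le_one_iff_abs_le_one _).2 (abs_le.2 ⟨by linarith, f0⟩)
  have hb2 : b ^ 2 ≤ 1 := (sq_le_one_iff_abs_le_one _).2 (abs_le.2 ⟨by linarith, f2⟩)
  -- one of `a b`, `b c`, `c a` is nonnegative, `c = -(a+b)`
  have key : 0 ≤ a * b ∨ 0 ≤ -(b * (a + b)) ∨ 0 ≤ -(a * (a + b)) := by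
    by_contra hcon
    push Not at hcon
    obtain ⟨h1, h2, h3⟩ := hcon
    have h4 : (a + b) ^ 2 = a * (a + b) + b * (a + b) := by ring
    rcases lt_trichotomy (a + b) 0 with h | h | h
    · have ha : a < 0 := by
        by_contra hc
        have := mul_nonpos_of_nonneg_of_nonpos (not_lt.1 hc) h.le
        linarith
      have hb : b < 0 := by
        by_contra hc
        have := mul_nonpos_of_nonneg_of_nonpos (not_lt.1 hc) h.le
        linarith
      have := mul_pos_of_neg_of_neg ha hb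
      linarith
    · rw [h] at h2; simp at h2
    · have ha : 0 < a := by
        by_contra hc
        have := mul_nonpos_of_nonpos_of_nonneg (not_lt.1 hc) h.le
        linarith
      have hb : 0 < b := by
        by_contra hc
        have := mul_nonpos_of_nonpos_of_nonneg (not_lt.1 hc) h.le
        linarith
      have := mul_pos ha hb
      linarith
  rcases key with h | h | h
  · obtain ⟨h1, h2⟩ := GHex_prod hab2 h (by linarith [show (a + b) ^ 2 - a * b = a ^ 2 + a * b + b ^ 2 by ring])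
    rcases mul_eq_zero.1 h2 with h0 | h0
    · rcases h1 with h1 | h1
      · right; left; exact ⟨h0, by linarith⟩
      · right; right; right; right; left; exact ⟨h0, by linarith⟩
    · rcases h1 with h1 | h1
      · left; exact ⟨by linarith, h0⟩
      · right; right; right; left; exact ⟨by linarith, h0⟩
  · obtain ⟨h1, h2⟩ := GHex_prod ha2 h (by linarith [show a ^ 2 - -(b * (a + b)) = a ^ 2 + a * b + b ^ 2 by ring])
    rcases mul_eq_zero.1 (neg_eq_zero.1 h2) with h0 | h0
    · rcases h1 with h1 | h1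
      · left; exact ⟨h1, h0⟩
      · right; right; right; left; exact ⟨h1, h0⟩
    · rcases h1 with h1 | h1
      · right; right; right; right; right; exact ⟨h1, by linarith⟩
      · right; right; left; exact ⟨h1, by linarith⟩
  · obtain ⟨h1, h2⟩ := GHex_prod hb2 h (by linarith [show b ^ 2 - -(a * (a + b)) = a ^ 2 + a * b + b ^ 2 by ring])
    rcases mul_eq_zero.1 (neg_eq_zero.1 h2) with h0 | h0
    · rcases h1 with h1 | h1
      · right; left; exact ⟨h0, h1⟩
      · right; right; right; right; left; exact ⟨h0, h1⟩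
    · rcases h1 with h1 | h1
      · right; right; left; exact ⟨by linarith, h1⟩
      · right; right; right; right; right; exact ⟨by linarith, h1⟩

/-- Compact: closed, and `|x 0| ≤ 1`, `|x 1| ≤ 2/√3`.  Interior: contains a small ball around `0`.
`simple`: three sides through a point: use `u k + u (k+2) = u (k+1)`, `u k + u (k+3) = 0`,
`u k + u (k+2) + u (k+4) = 0`.  `nonacute`: sides `k, k+2` through `v` force `inner (u (k+1)) v = 2`,
opposite sides are impossible; neighbours have inner product `1/2`.  `star`: positive inner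
products of different sides are `1/2`, `1/4 + 1/4 ≠ 1`. -/
theorem hex_good : hexP.Good := by
  refine ⟨GHex_unit, ?_, GHex_cpt, ?_, ?_, ?_, ?_⟩
  · intro k l hkl
    have h1 := (GHex_ab k).1
    have h2 := (GHex_ab k).2
    rw [hkl, (GHex_ab l).1] at h1
    rw [hkl, (GHex_ab l).2] at h2
    fin_cases k <;> fin_cases l <;> first
      | rfl
      | (exfalso; norm_num at h1 h2; done)
      | (exfalso; norm_num at h1; done)
      | (exfalso; norm_num at h2; done)
  · refine ⟨0, ?_⟩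
    rw [mem_interior]
    exact ⟨_, GHex_open_sub, GHex_open, GHex_ball (by simp)⟩
  · intro x hx k l m h1 h2 h3
    obtain ⟨f0, f1, f2, f3, f4, f5⟩ := GHex_facts hx
    rw [GHex_inner] at h1 h2 h3
    have e : ∀ i, hexP.c i = 1 := fun _ => rfl
    rw [e] at h1 h2 h3
    by_contra hcon
    push Not at hcon
    obtain ⟨n1, n2, n3⟩ := hcon
    simp only [GHex_w] at h1 h2 h3
    fin_cases k <;> fin_cases l <;> first
      | exact absurd rfl n1
      | (fin_cases m <;> first
          | exact absurd rfl n2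
          | exact absurd rfl n3
          | (simp at h1 h2 h3; linarith))
  · intro k l v hv
    rw [GHex_half hv]
    norm_num
  · intro k l v k' l' v' hv hv' _ _
    rw [GHex_half hv, GHex_half hv']
    norm_num

/-- Translations by `2 m u₀ + 2 n u₂`.  In the coordinates `a = inner u₀ x`, `b = inner u₂ x`,
`a + b = inner u₁ x` the hexagon is `|a|, |b|, |a + b| ≤ 1` and the lattice is
`{(2m - n, 2n - m)} = {(i, j) ∈ ℤ² | 3 ∣ i - j}`.  Covering: `i = ⌊a⌋`, `j = ⌊b⌋`, fractional parts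
`α, β`; if `3 ∣ i - j` use `(i, j)` (if `α + β ≤ 1`) or `(i+1, j+1)`; if `i - j ≡ 1` use
`(i, j+1)`; if `i - j ≡ 2` use `(i+1, j)`.  Disjoint interiors: interior points satisfy the strict
inequalities; two translates by different lattice vectors would give a nonzero `(i, j)` with
`3 ∣ i - j`, `|i| < 2`, `|j| < 2`, `|i + j| < 2`. -/
theorem hex_tiles : Tiles hexP.body := by
  -- translations
  set tr : ℤ → ℤ → E2 := fun m n => (2 * m : ℝ) • hexP.u 0 + (2 * n : ℝ) • hexP.u 2 with htr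
  have hat : ∀ m n : ℤ, GHex_a (tr m n) = ((2 * m - n : ℤ) : ℝ) := by
    intro m n
    have h0 := (GHex_ab 0).1
    have h2 := (GHex_ab 2).1
    simp only [GHex_a] at h0 h2 ⊢
    simp only [htr, PiLp.add_apply, PiLp.smul_apply, smul_eq_mul, h0, h2]
    push_cast
    simp
    ring
  have hbt : ∀ m n : ℤ, GHex_b (tr m n) = ((2 * n - m : ℤ) : ℝ) := by
    intro m n
    have h0 := (GHex_ab 0).2
    have h2 := (GHex_ab 2).2
    simp only [GHex_b] at h0 h2 ⊢
    simp only [htr, PiLp.add_apply, PiLp.smul_apply, smul_eq_mul]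
    have e : -(2 * (m : ℝ) * hexP.u 0 0 + 2 * (n : ℝ) * hexP.u 2 0) / 2
        + √3 / 2 * (2 * (m : ℝ) * hexP.u 0 1 + 2 * (n : ℝ) * hexP.u 2 1)
        = 2 * m * (-(hexP.u 0 0) / 2 + √3 / 2 * hexP.u 0 1)
          + 2 * n * (-(hexP.u 2 0) / 2 + √3 / 2 * hexP.u 2 1) := by ring
    rw [e, h0, h2]
    push_cast
    simp
    ring
  have hsub : ∀ x y : E2, GHex_a (x - y) = GHex_a x - GHex_a y := by
    intro x y; simp [GHex_a]
  have hsubb : ∀ x y : E2, GHex_b (x - y) = GHex_b x - GHex_b y := by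
    intro x y; simp [GHex_b]; ring
  refine ⟨{g | ∃ m n : ℤ, g = IsometryEquiv.addRight (tr m n)}, ?_, ?_⟩
  · rw [Set.eq_univ_iff_forall]
    intro x
    set a := GHex_a x with ha
    set b := GHex_b x with hb
    -- the lattice point
    obtain ⟨i, j, hij, h⟩ : ∃ i j : ℤ, (3 : ℤ) ∣ i - j ∧ (a - i ≤ 1 ∧ (a - i) + (b - j) ≤ 1 ∧
        b - j ≤ 1 ∧ -(a - i) ≤ 1 ∧ -((a - i) + (b - j)) ≤ 1 ∧ -(b - j) ≤ 1) := by
      have a1 := Int.floor_le a
      have a2 := Int.lt_floor_add_one a
      have b1 := Int.floor_le b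
      have b2 := Int.lt_floor_add_one b
      rcases (by omega : (⌊a⌋ - ⌊b⌋) % 3 = 0 ∨ (⌊a⌋ - ⌊b⌋) % 3 = 1 ∨ (⌊a⌋ - ⌊b⌋) % 3 = 2) with h | h | h
      · by_cases hs : (a - ⌊a⌋) + (b - ⌊b⌋) ≤ 1
        · exact ⟨⌊a⌋, ⌊b⌋, by omega, by linarith, hs, by linarith, by linarith, by linarith,
            by linarith⟩
        · push Not at hs
          refine ⟨⌊a⌋ + 1, ⌊b⌋ + 1, by omega, ?_⟩
          push_cast
          refine ⟨by linarith, by linarith, by linarith, by linarith, by linarith, by linarith⟩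
      · refine ⟨⌊a⌋, ⌊b⌋ + 1, by omega, ?_⟩
        push_cast
        refine ⟨by linarith, by linarith, by linarith, by linarith, by linarith, by linarith⟩
      · refine ⟨⌊a⌋ + 1, ⌊b⌋, by omega, ?_⟩
        push_cast
        refine ⟨by linarith, by linarith, by linarith, by linarith, by linarith, by linarith⟩
    obtain ⟨q, hq⟩ := hij
    -- `m = (2 i + j) / 3`, `n = (i + 2 j) / 3`
    have hm : ∃ m n : ℤ, 2 * m - n = i ∧ 2 * n - m = j := ⟨i - q, j + q, by omega, by omega⟩
    obtain ⟨m, n, hmi, hnj⟩ := hm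
    simp only [Set.mem_iUnion, exists_prop]
    refine ⟨IsometryEquiv.addRight (tr m n), ⟨m, n, rfl⟩, x - tr m n, ?_, ?_⟩
    · have e1 : GHex_a (x - tr m n) = a - i := by rw [hsub, hat, hmi]
      have e2 : GHex_b (x - tr m n) = b - j := by rw [hsubb, hbt, hnj]
      obtain ⟨g0, g1, g2, g3, g4, g5⟩ := h
      exact GHex_mem' _ (by rw [e1]; exact g0) (by rw [e1, e2]; exact g1) (by rw [e2]; exact g2)
        (by rw [e1]; exact g3) (by rw [e1, e2]; exact g4) (by rw [e2]; exact g5)
    · simp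
  · rintro g ⟨m, n, rfl⟩ g' ⟨m', n', rfl⟩ hne
    rw [Set.disjoint_left]
    intro x hx hx'
    have hint : ∀ (m n : ℤ), x ∈ interior ((IsometryEquiv.addRight (tr m n)) '' hexP.body) →
        x - tr m n ∈ interior hexP.body := by
      intro m n hx
      have h1 : interior ((IsometryEquiv.addRight (tr m n)) '' hexP.body)
          = (IsometryEquiv.addRight (tr m n)) '' interior hexP.body :=
        ((IsometryEquiv.addRight (tr m n)).toHomeomorph.image_interior hexP.body).symm
      rw [h1] at hx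
      obtain ⟨y, hy, hyx⟩ := hx
      have : x - tr m n = y := by
        rw [← hyx]; simp
      rw [this]; exact hy
    have h1 := fun k => GHex_interior (hint m n hx) k
    have h2 := fun k => GHex_interior (hint m' n' hx') k
    simp only [GHex_inner] at h1 h2
    have g0 : GHex_a (x - tr m n) < 1 := h1 0
    have g1 : GHex_a (x - tr m n) + GHex_b (x - tr m n) < 1 := h1 1
    have g2 : GHex_b (x - tr m n) < 1 := h1 2
    have g3 : -GHex_a (x - tr m n) < 1 := h1 3
    have g4 : -(GHex_a (x - tr m n) + GHex_b (x - tr m n)) < 1 := h1 4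
    have g5 : -GHex_b (x - tr m n) < 1 := h1 5
    have k0 : GHex_a (x - tr m' n') < 1 := h2 0
    have k1 : GHex_a (x - tr m' n') + GHex_b (x - tr m' n') < 1 := h2 1
    have k2 : GHex_b (x - tr m' n') < 1 := h2 2
    have k3 : -GHex_a (x - tr m' n') < 1 := h2 3
    have k4 : -(GHex_a (x - tr m' n') + GHex_b (x - tr m' n')) < 1 := h2 4
    have k5 : -GHex_b (x - tr m' n') < 1 := h2 5
    rw [hsub, hat] at g0 g3 k0 k3
    rw [hsubb, hbt] at g2 g5 k2 k5
    rw [hsub, hsubb, hat, hbt] at g1 g4 k1 k4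
    -- integer inequalities
    have i1 : (2 * m - n) - (2 * m' - n') < (2 : ℤ) := by
      have : (((2 * m - n) - (2 * m' - n') : ℤ) : ℝ) < ((2 : ℤ) : ℝ) := by push_cast; push_cast at *; linarith
      exact_mod_cast this
    have i2 : (-2 : ℤ) < (2 * m - n) - (2 * m' - n') := by
      have : ((-2 : ℤ) : ℝ) < (((2 * m - n) - (2 * m' - n') : ℤ) : ℝ) := by push_cast; push_cast at *; linarith
      exact_mod_cast this
    have i3 : (2 * n - m) - (2 * n' - m') < (2 : ℤ) := by
      have : (((2 * n - m) - (2 * n' - m') : ℤ) : ℝ) < ((2 : ℤ) : ℝ) := by push_cast; push_cast at *; linarith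
      exact_mod_cast this
    have i4 : (-2 : ℤ) < (2 * n - m) - (2 * n' - m') := by
      have : ((-2 : ℤ) : ℝ) < (((2 * n - m) - (2 * n' - m') : ℤ) : ℝ) := by push_cast; push_cast at *; linarith
      exact_mod_cast this
    have i5 : (m + n) - (m' + n') < (2 : ℤ) := by
      have : (((m + n) - (m' + n') : ℤ) : ℝ) < ((2 : ℤ) : ℝ) := by push_cast; push_cast at *; linarith
      exact_mod_cast this
    have i6 : (-2 : ℤ) < (m + n) - (m' + n') := by
      have : ((-2 : ℤ) : ℝ) < (((m + n) - (m' + n') : ℤ) : ℝ) := by push_cast; push_cast at *; linarith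
      exact_mod_cast this
    have hmm : m = m' := by omega
    have hnn : n = n' := by omega
    exact hne (by rw [hmm, hnn])

/-- A slightly rounded hexagon: `K = P.body ∩ closedBall 0 R` with `R < 2/√3` close to `2/√3`.
Points of the hexagon have norm `≤ 2/√3`, with equality only at the six vertices (which are obtuse
vertices, inner product `1/2`): for `x = α u k + β u (k+1)`, `α, β ≥ 0`,
`‖x‖² = α (α + β/2) + β (α/2 + β) ≤ α + β ≤ 4/3`.  By compactness of the set of points of the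
hexagon at distance `≥ ε` from all vertices, their norm is at most some `R < 2/√3`
(take also `R > 1`). `K` is convex, compact, with interior, and smaller volume: near a vertex there
is an open set of interior points of the hexagon of norm `> R`. -/
theorem hex_trunc {ε : ℝ} (hε : 0 < ε) :
    ∃ K, Trunc hexP ε K ∧ Convex ℝ K ∧ (interior K).Nonempty ∧
      volume K < volume hexP.body := by
  have hs3 := GHex_sqrt3
  have hs3p := GHex_sqrt3_pos
  -- points of large norm are obtuse vertices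
  have hlarge : ∀ x ∈ hexP.body, 4 / 3 ≤ ‖x‖ ^ 2 → hexP.Obt x := by
    intro x hx hn
    obtain ⟨f0, f1, f2, f3, f4, f5⟩ := GHex_facts hx
    rw [GHex_norm_sq] at hn
    set a := GHex_a x with ha
    set b := GHex_b x with hb
    have hq : 1 ≤ a ^ 2 + a * b + b ^ 2 := by linarith
    have hV : ∀ k l : Fin 6, k ≠ l → GHex_w x k = 1 → GHex_w x l = 1 → hexP.Obt x := by
      intro k l hkl h1 h2
      have hv : hexP.Vertex k l x := ⟨hkl, hx, by rw [GHex_inner, h1]; rfl, by
        rw [GHex_inner, h2]; rfl⟩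
      exact ⟨k, l, hv, by rw [GHex_half hv]; norm_num⟩
    have w0 : GHex_w x 0 = a := rfl
    have w1 : GHex_w x 1 = a + b := rfl
    have w2 : GHex_w x 2 = b := rfl
    have w3 : GHex_w x 3 = -a := rfl
    have w4 : GHex_w x 4 = -(a + b) := rfl
    have w5 : GHex_w x 5 = -b := rfl
    -- the six cases
    have hcases : (a = 1 ∧ b = 0) ∨ (a = 0 ∧ b = 1) ∨ (a = -1 ∧ b = 1) ∨ (a = -1 ∧ b = 0) ∨
        (a = 0 ∧ b = -1) ∨ (a = 1 ∧ b = -1) := GHex_cases a b f0 f1 f2 f3 f4 f5 hq
    rcases hcases with ⟨h1, h2⟩ | ⟨h1, h2⟩ | ⟨h1, h2⟩ | ⟨h1, h2⟩ | ⟨h1, h2⟩ | ⟨h1, h2⟩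
    · exact hV 0 1 (by decide) (by rw [w0, h1]) (by rw [w1, h1, h2]; norm_num)
    · exact hV 1 2 (by decide) (by rw [w1, h1, h2]; norm_num) (by rw [w2, h2])
    · exact hV 2 3 (by decide) (by rw [w2, h2]) (by rw [w3, h1]; norm_num)
    · exact hV 3 4 (by decide) (by rw [w3, h1]; norm_num) (by rw [w4, h1, h2]; norm_num)
    · exact hV 4 5 (by decide) (by rw [w4, h1, h2]; norm_num) (by rw [w5, h2]; norm_num)
    · exact hV 5 0 (by decide) (by rw [w5, h2]; norm_num) (by rw [w0, h1])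
  -- the compact set of points far from the vertices
  set E : Set E2 := {x | x ∈ hexP.body ∧ ∀ v, hexP.Obt v → ε ≤ dist x v} with hE
  have hEc : IsCompact E := by
    refine GHex_cpt.of_isClosed_subset ?_ (fun x hx => hx.1)
    have : E = hexP.body ∩ ⋂ v, ⋂ (_ : hexP.Obt v), {x | ε ≤ dist x v} := by
      ext x
      simp [hE]
    rw [this]
    refine GHex_closed.inter (isClosed_iInter fun v => isClosed_iInter fun _ => ?_)
    exact isClosed_le continuous_const (by fun_prop)
  have hElt : ∀ x ∈ E, ‖x‖ ^ 2 < 4 / 3 := by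
    intro x hx
    by_contra hcon
    push Not at hcon
    have := hx.2 x (hlarge x hx.1 hcon)
    rw [dist_self] at this
    linarith
  obtain ⟨R, hR1, hR2, hRE⟩ : ∃ R : ℝ, 1 ≤ R ∧ R ^ 2 < 4 / 3 ∧ ∀ x ∈ E, ‖x‖ ≤ R := by
    rcases E.eq_empty_or_nonempty with he | hne
    · exact ⟨1, le_rfl, by norm_num, by rw [he]; simp⟩
    · obtain ⟨x0, hx0, hmax⟩ := hEc.exists_isMaxOn hne (continuous_norm.continuousOn)
      refine ⟨max ‖x0‖ 1, le_max_right _ _, ?_, fun x hx => (hmax hx).trans (le_max_left _ _)⟩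
      rcases le_total ‖x0‖ 1 with h | h
      · rw [max_eq_right h]; norm_num
      · rw [max_eq_left h]; exact hElt x0 hx0
  have hR0 : 0 < R := by linarith
  -- a vertex
  set v0 : E2 := !₂[1, 1 / √3] with hv0
  have hv0n : ‖v0‖ ^ 2 = 4 / 3 := by
    rw [EuclideanSpace.norm_sq_eq, Fin.sum_univ_two]
    simp only [Real.norm_eq_abs, sq_abs, hv0]
    simp
    norm_num
  have hv0b : ∀ k, inner ℝ (hexP.u k) v0 ≤ 1 := by
    have ha : GHex_a v0 = 1 := by simp [GHex_a, hv0]
    have hb : GHex_b v0 = 0 := by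
      simp only [GHex_b, hv0]
      simp
      field_simp
      norm_num
    intro k
    rw [GHex_inner]
    fin_cases k <;> simp [GHex_w, ha, hb]
  set K : Set E2 := hexP.body ∩ closedBall 0 R with hK
  have hKc : IsCompact K := GHex_cpt.inter_right isClosed_closedBall
  have hsubK : ball (0 : E2) 1 ⊆ K := by
    intro x hx
    refine ⟨GHex_open_sub (GHex_ball hx), ?_⟩
    rw [mem_closedBall]
    exact (le_of_lt hx).trans hR1
  refine ⟨K, ⟨hKc, Set.inter_subset_left, fun x hx hd => ⟨hx, ?_⟩⟩, ?_, ?_, ?_⟩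
  · rw [mem_closedBall, dist_zero_right]
    exact hRE x ⟨hx, hd⟩
  · refine Convex.inter ?_ (convex_closedBall _ _)
    unfold Pgon.body
    rw [Set.ofPred_forall]
    exact convex_iInter fun k => convex_halfSpace_le (LinearMap.isLinear (innerₛₗ ℝ (hexP.u k))) _
  · exact ⟨0, mem_interior.2 ⟨_, hsubK, isOpen_ball, by simp⟩⟩
  · -- volume
    set U : Set E2 := {x : E2 | ∀ k, inner ℝ (hexP.u k) x < 1} ∩ (closedBall 0 R)ᶜ with hU
    have hUo : IsOpen U := GHex_open.inter isClosed_closedBall.isOpen_compl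
    have hUne : U.Nonempty := by
      -- `s • v0` with `R < s * ‖v0‖`, `s < 1`
      have hn0 : 0 < ‖v0‖ := by
        by_contra hcon
        have h0 : ‖v0‖ = 0 := le_antisymm (not_lt.1 hcon) (norm_nonneg _)
        rw [h0] at hv0n
        norm_num at hv0n
      have hRv : R < ‖v0‖ := by
        have : R ^ 2 < ‖v0‖ ^ 2 := by rw [hv0n]; exact hR2
        exact lt_of_pow_lt_pow_left₀ 2 hn0.le this
      obtain ⟨s, hs1, hs2⟩ := exists_between ((div_lt_one hn0).2 hRv)
      have hs0 : 0 < s := lt_trans (by positivity) hs1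
      refine ⟨s • v0, ?_, ?_⟩
      · intro k
        rw [inner_smul_right]
        have := hv0b k
        nlinarith
      · rw [Set.mem_compl_iff, mem_closedBall, dist_zero_right, norm_smul, Real.norm_eq_abs,
          abs_of_pos hs0, not_le]
        exact (div_lt_iff₀ hn0).1 hs1
    have hUpos : 0 < volume U := hUo.measure_pos volume hUne
    have hdis : Disjoint K U := by
      rw [Set.disjoint_left]
      intro x hx hx'
      exact hx'.2 hx.2
    have hKfin : volume K ≠ ⊤ := hKc.measure_lt_top.ne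
    calc volume K < volume K + volume U := ENNReal.lt_add_right hKfin hUpos.ne'
      _ = volume (K ∪ U) := (measure_union hdis hUo.measurableSet).symm
      _ ≤ volume hexP.body := measure_mono (Set.union_subset Set.inter_subset_left
          (Set.inter_subset_left.trans GHex_open_sub))

end Pool.TC
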