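import Pool.Agent.W_0c5e58_h61.GDefs

/-!
# The prism over a polygon
-/

open MeasureTheory Metric Set Filter
open scoped Topology ENNReal

namespace Pool.TC

variable {N : ℕ}

theorem GPrism_inner3 (x y : E3) :
    inner ℝ x y = x 0 * y 0 + x 1 * y 1 + x 2 * y 2 := by
  simp only [PiLp.inner_apply, Fin.sum_univ_three, RCLike.inner_apply, conj_trivial]
  ring

theorem GPrism_inner2 (x y : E2) : inner ℝ x y = x 0 * y 0 + x 1 * y 1 := by
  simp only [PiLp.inner_apply, Fin.sum_univ_two, RCLike.inner_apply, conj_trivial]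
  ring

theorem GPrism_ll (P : Pgon N) (k l : Fin N) :
    inner ℝ (nrm P (Sum.inl k)) (nrm P (Sum.inl l)) = inner ℝ (P.u k) (P.u l) := by
  rw [GPrism_inner3, GPrism_inner2]
  simp [nrm]

theorem GPrism_one (x : E3) (h : inner ℝ x x = (1 : ℝ)) : ‖x‖ = 1 := by
  rw [real_inner_self_eq_norm_sq] at h
  have h0 := norm_nonneg x
  nlinarith

theorem nrm_unit {P : Pgon N} (hP : P.Good) (f : Fin N ⊕ Bool) : ‖nrm P f‖ = 1 := by
  apply GPrism_one
  rcases f with k | b
  · rw [GPrism_ll, real_inner_self_eq_norm_sq, hP.unit k]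
    norm_num
  · rw [GPrism_inner3]
    cases b <;> simp [nrm]

theorem inner_nrm_ll (P : Pgon N) (k l : Fin N) :
    inner ℝ (nrm P (Sum.inl k)) (nrm P (Sum.inl l)) = inner ℝ (P.u k) (P.u l) :=
  GPrism_ll P k l

theorem inner_nrm_le (P : Pgon N) (k : Fin N) (b : Bool) :
    inner ℝ (nrm P (Sum.inl k)) (nrm P (Sum.inr b)) = 0 := by
  rw [GPrism_inner3]
  cases b <;> simp [nrm]

theorem inner_nrm_pr (P : Pgon N) (k : Fin N) (x : E3) :
    inner ℝ (nrm P (Sum.inl k)) x = inner ℝ (P.u k) (pr x) := by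
  rw [GPrism_inner3, GPrism_inner2]
  simp [nrm, pr]

theorem inner_nrm_end (P : Pgon N) (x : E3) :
    inner ℝ (nrm P (Sum.inr true)) x = x 2 ∧ inner ℝ (nrm P (Sum.inr false)) x = - x 2 := by
  rw [GPrism_inner3, GPrism_inner3]
  constructor <;> simp [nrm]

theorem cyl_eq (P : Pgon N) (h : ℝ) :
    cyl P.body h = {x | ∀ f, inner ℝ (nrm P f) x ≤ off P h f} := by
  ext x
  constructor
  · rintro ⟨h1, h2, h3⟩ f
    rcases f with k | b
    · rw [inner_nrm_pr]
      exact h1 k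
    · cases b
      · rw [(inner_nrm_end P x).2]
        have h4 : (0 : ℝ) ≤ x 2 := h2
        change -x 2 ≤ 0
        linarith
      · rw [(inner_nrm_end P x).1]
        exact h3
  · intro hx
    refine ⟨fun k => ?_, ?_, ?_⟩
    · have h1 := hx (Sum.inl k)
      rw [inner_nrm_pr] at h1
      exact h1
    · have h1 := hx (Sum.inr false)
      rw [(inner_nrm_end P x).2] at h1
      have h2 : -x 2 ≤ 0 := h1
      change 0 ≤ x 2
      linarith
    · have h1 := hx (Sum.inr true)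
      rw [(inner_nrm_end P x).1] at h1
      exact h1

/-- Active lateral faces of the prism at a point give a vertex of the polygon. -/
theorem vertex_of_active (P : Pgon N) {h : ℝ} {x : E3} (hx : x ∈ cyl P.body h) {k l : Fin N}
    (hkl : k ≠ l) (hk : inner ℝ (nrm P (Sum.inl k)) x = P.c k)
    (hl : inner ℝ (nrm P (Sum.inl l)) x = P.c l) : P.Vertex k l (pr x) := by
  rw [inner_nrm_pr] at hk hl
  exact ⟨hkl, hx.1, hk, hl⟩

/-- Two different sides have inner product `< 1` (unit vectors, injectivity). -/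
theorem gram_lt_one {P : Pgon N} (hP : P.Good) {k l : Fin N} (hkl : k ≠ l) :
    inner ℝ (P.u k) (P.u l) < 1 :=
  (inner_lt_one_iff_real_of_norm_eq_one (hP.unit k) (hP.unit l)).2 fun h => hkl (hP.inj h)

theorem convex_body (P : Pgon N) : Convex ℝ P.body := by
  intro x hx y hy a b ha hb hab k
  rw [inner_add_right, inner_smul_right, inner_smul_right]
  have h1 := mul_le_mul_of_nonneg_left (hx k) ha
  have h2 := mul_le_mul_of_nonneg_left (hy k) hb
  calc a * inner ℝ (P.u k) x + b * inner ℝ (P.u k) y ≤ a * P.c k + b * P.c k := add_le_add h1 h2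
    _ = P.c k := by rw [← add_mul, hab, one_mul]

theorem isClosed_body (P : Pgon N) : IsClosed P.body := by
  unfold Pgon.body
  rw [ofPred_forall]
  exact isClosed_iInter fun k => isClosed_le (by fun_prop) continuous_const

theorem GPrism_norm (x : E3) : ‖x‖ ≤ ‖pr x‖ + |x 2| := by
  have h1 : ‖x‖ ^ 2 = ‖pr x‖ ^ 2 + (x 2) ^ 2 := by
    rw [← real_inner_self_eq_norm_sq, ← real_inner_self_eq_norm_sq, GPrism_inner3, GPrism_inner2]
    simp [pr]
    ring
  have h2 := norm_nonneg (pr x)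
  have h3 := abs_nonneg (x 2)
  have h4 : (x 2) ^ 2 = |x 2| ^ 2 := (sq_abs _).symm
  rw [h4] at h1
  refine abs_le_of_sq_le_sq' ?_ (by positivity) |>.2
  nlinarith

/-- Points of the prism are bounded. -/
theorem prism_bound {P : Pgon N} (hP : P.Good) :
    ∃ R₀ > 0, ∀ h, ∀ x ∈ cyl P.body h, ‖x‖ ≤ R₀ + h := by
  obtain ⟨R, hR0, hR⟩ := hP.cpt.isBounded.exists_pos_norm_le
  refine ⟨R, hR0, fun h x hx => ?_⟩
  have h1 := hR (pr x) hx.1
  have h2 : (0 : ℝ) ≤ x 2 := hx.2.1
  have h3 : x 2 ≤ h := hx.2.2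
  have h4 := GPrism_norm x
  rw [abs_of_nonneg h2] at h4
  linarith

/-- An interior disc of the polygon with margin.  (A ball `ball y (2 r)` inside the body; test with
`x + r u k`.) -/
theorem disc_margin {P : Pgon N} (hP : P.Good) :
    ∃ y : E2, ∃ r > 0, ∀ x ∈ ball y r, ∀ k, inner ℝ (P.u k) x < P.c k - r := by
  obtain ⟨y, hy⟩ := hP.int
  obtain ⟨R, hR0, hR⟩ := Metric.isOpen_iff.1 isOpen_interior y hy
  refine ⟨y, R / 3, by positivity, fun x hx k => ?_⟩
  have h1 : x + (2 * (R / 3)) • P.u k ∈ ball y R := by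
    rw [mem_ball, dist_eq_norm] at hx ⊢
    have h2 : x + (2 * (R / 3)) • P.u k - y = (x - y) + (2 * (R / 3)) • P.u k := by abel
    rw [h2]
    have h3 := norm_add_le (x - y) ((2 * (R / 3)) • P.u k)
    rw [norm_smul, hP.unit k, mul_one, Real.norm_eq_abs, abs_of_pos (by positivity)] at h3
    linarith
  have h4 := interior_subset (hR h1) k
  rw [inner_add_right, inner_smul_right, real_inner_self_eq_norm_sq, hP.unit k] at h4
  linarith

/-- Polarisation: a norm preserving continuous linear map preserves inner products. -/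
theorem inner_iso {L : E3 →L[ℝ] E3} (hL : ∀ x, ‖L x‖ = ‖x‖) (x y : E3) :
    inner ℝ (L x) (L y) = inner ℝ x y := by
  have h := (⟨(L : E3 →ₗ[ℝ] E3), hL⟩ : E3 →ₗᵢ[ℝ] E3).inner_map_map x y
  exact h

/-- A norm preserving linear map of `E3` is onto. -/
theorem iso_surj {L : E3 →L[ℝ] E3} (hL : ∀ x, ‖L x‖ = ‖x‖) (y : E3) : ∃ x, L x = y := by
  have hinj : Function.Injective (L : E3 →ₗ[ℝ] E3) := by
    rw [← LinearMap.ker_eq_bot, LinearMap.ker_eq_bot']
    intro x hx
    have h1 := hL x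
    have h2 : L x = 0 := hx
    rw [h2, norm_zero] at h1
    exact norm_eq_zero.1 h1.symm
  exact LinearMap.injective_iff_surjective.1 hinj y

/-- The moved prism is the image of the prism. -/
theorem Qb_image (P : Pgon N) {L : E3 →L[ℝ] E3} (hL : ∀ x, ‖L x‖ = ‖x‖) (t : E3) (h : ℝ) :
    Qb P L t h = (fun x => L x + t) '' cyl P.body h := by
  rw [cyl_eq]
  ext x
  constructor
  · intro hx
    obtain ⟨z, hz⟩ := iso_surj hL (x - t)
    refine ⟨z, fun f => ?_, ?_⟩
    · have h1 := hx f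
      rwa [← hz, inner_iso hL] at h1
    · change L z + t = x
      rw [hz, sub_add_cancel]
  · rintro ⟨z, hz, rfl⟩ f
    have h1 := hz f
    change inner ℝ (L (nrm P f)) (L z + t - t) ≤ off P h f
    rw [add_sub_cancel_right, inner_iso hL]
    exact h1

theorem isClosed_Qb (P : Pgon N) (L : E3 →L[ℝ] E3) (t : E3) (h : ℝ) : IsClosed (Qb P L t h) := by
  unfold Qb
  rw [ofPred_forall]
  exact isClosed_iInter fun f => isClosed_le (by fun_prop) continuous_const

/-- Tubes are closed. (They are a finite union over the pairs `(k,l)` for which a vertex exists.) -/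
theorem isClosed_Tb (P : Pgon N) (L : E3 →L[ℝ] E3) (t : E3) (ε : ℝ) :
    IsClosed (Tb P L t ε) := by
  have h1 : Tb P L t ε = ⋃ q : {q : Fin N × Fin N // (∃ v, P.Vertex q.1 q.2 v) ∧
      0 < inner ℝ (P.u q.1) (P.u q.2)},
      {x | P.c q.1.1 - ε ≤ inner ℝ (L (nrm P (Sum.inl q.1.1))) (x - t) ∧
        P.c q.1.2 - ε ≤ inner ℝ (L (nrm P (Sum.inl q.1.2))) (x - t)} := by
    ext x
    rw [mem_iUnion]
    constructor
    · rintro ⟨k, l, v, hv, h2, h3, h4⟩
      exact ⟨⟨(k, l), ⟨v, hv⟩, h2⟩, h3, h4⟩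
    · rintro ⟨⟨⟨k, l⟩, ⟨v, hv⟩, h2⟩, h3, h4⟩
      exact ⟨k, l, v, hv, h2, h3, h4⟩
  rw [h1]
  refine isClosed_iUnion_of_finite fun q => ?_
  have h2 : ∀ k : Fin N, Continuous fun x : E3 => inner ℝ (L (nrm P (Sum.inl k))) (x - t) :=
    fun k => by fun_prop
  exact (isClosed_le continuous_const (h2 _)).inter (isClosed_le continuous_const (h2 _))

theorem Qb_bound {P : Pgon N} (hP : P.Good) :
    ∃ R₀ > 0, ∀ (L : E3 →L[ℝ] E3), (∀ x, ‖L x‖ = ‖x‖) → ∀ t h, ∀ x ∈ Qb P L t h,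
      ‖x - t‖ ≤ R₀ + h := by
  obtain ⟨R, hR0, hR⟩ := prism_bound hP
  refine ⟨R, hR0, fun L hL t h x hx => ?_⟩
  rw [Qb_image P hL] at hx
  obtain ⟨z, hz, rfl⟩ := hx
  change ‖L z + t - t‖ ≤ R + h
  rw [add_sub_cancel_right, hL]
  exact hR h z hz

/-- Every isometry of `E3` is `x ↦ L x + t` (Mazur–Ulam, `IsometryEquiv.toRealAffineIsometryEquiv`). -/
theorem isom_affine (g : E3 ≃ᵢ E3) :
    ∃ (L : E3 →L[ℝ] E3) (t : E3), (∀ x, ‖L x‖ = ‖x‖) ∧ ∀ x, g x = L x + t := by
  set A := g.toRealAffineIsometryEquiv with hA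
  refine ⟨(A.linearIsometryEquiv.toContinuousLinearEquiv : E3 →L[ℝ] E3), g 0, fun x => ?_,
    fun x => ?_⟩
  · exact A.linearIsometryEquiv.norm_map x
  · have h1 := A.map_vadd (0 : E3) x
    have h2 : ∀ z, A z = g z := fun z => rfl
    rw [h2, h2, vadd_eq_add, vadd_eq_add, add_zero] at h1
    exact h1

end Pool.TC
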