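import Pool.Agent.W_0c5e58_h61.GVol
import Pool.Agent.W_0c5e58_h61.GPrism

/-!
# Upper bounds for the packing densities from the upper bound property
-/

open MeasureTheory Metric Set Filter
open scoped Topology ENNReal

namespace Pool.TC

variable {N : ℕ}

theorem GUpper_vol_ne {P : Pgon N} (hP : P.Good) : volume P.body ≠ 0 := by
  have h1 : 0 < volume (interior P.body) := isOpen_interior.measure_pos volume hP.int
  exact (lt_of_lt_of_le h1 (measure_mono interior_subset)).ne'

theorem GUpper_norm_sq (x : E3) : ‖x‖ ^ 2 = ‖pr x‖ ^ 2 + (x 2) ^ 2 := by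
  rw [EuclideanSpace.norm_sq_eq, EuclideanSpace.norm_sq_eq, Fin.sum_univ_castSucc]
  simp only [Real.norm_eq_abs, sq_abs]
  rfl

theorem GUpper_pr_map_sub (x y : E3) : pr (x - y) = pr x - pr y := by
  ext i
  simp [pr]

theorem GUpper_abs_le {a b : ℝ} (h : a ^ 2 ≤ b ^ 2) (hb : 0 ≤ b) : a ≤ b := by
  by_contra hc
  push Not at hc
  nlinarith

theorem GUpper_pr_sub (x y : E3) : ‖pr x - pr y‖ ≤ ‖x - y‖ := by
  rw [← GUpper_pr_map_sub]
  apply GUpper_abs_le _ (norm_nonneg _)
  rw [GUpper_norm_sq (x - y)]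
  nlinarith [sq_nonneg ((x - y) 2)]

theorem GUpper_two_sub (x y : E3) : |x 2 - y 2| ≤ ‖x - y‖ := by
  apply GUpper_abs_le _ (norm_nonneg _)
  rw [GUpper_norm_sq (x - y), sq_abs]
  have : (x - y) 2 = x 2 - y 2 := rfl
  rw [this]
  nlinarith [sq_nonneg ‖pr (x - y)‖]

theorem GUpper_pr_cont : Continuous (pr : E3 → E2) := by
  rw [Metric.continuous_iff]
  intro b ε hε
  refine ⟨ε, hε, fun a ha => ?_⟩
  rw [dist_eq_norm] at ha ⊢
  exact lt_of_le_of_lt (GUpper_pr_sub a b) ha

/-- From a count to the density.  Let `C ⊆ B` in Euclidean `n`-space (`n ≥ 1`), `B` compact of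
positive volume, `a > 0`, such that for every `r > 0` and every finite family of copies `g i '' C`
(`i` in a finite type) with pairwise disjoint interiors and all meeting `ball 0 r`:
`card * vol B ≤ vol (ball 0 (r + a))`.  Then `packDensity C ≤ vol C / vol B`.

Proof.  Let `𝒫` be a packing by copies of `C` (as a set of sets), `r > 0`.  The members meeting
`ball 0 r` : every finite subset `s` of them has `card s * vol B ≤ vol (ball 0 (r + a))`, so they
form a finite set; `vol (⋃₀ 𝒫 ∩ ball 0 r) ≤ card * vol C ≤ (vol C / vol B) * vol (ball 0 (r+a))`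
(`vol_isom`).  Divide by `vol (ball 0 r)` and use `ball_ratio`. -/
theorem density_le {n : ℕ} (hn : 0 < n) {B C : Set (EuclideanSpace ℝ (Fin n))}
    (hB : IsCompact B) (hB0 : volume B ≠ 0) {a : ℝ} (ha : 0 < a)
    (H : ∀ r > 0, ∀ (κ : Type) [Fintype κ]
      (g : κ → EuclideanSpace ℝ (Fin n) ≃ᵢ EuclideanSpace ℝ (Fin n)),
      Pairwise (fun i j => Disjoint (interior (g i '' C)) (interior (g j '' C))) →
      (∀ i, (g i '' C ∩ ball 0 r).Nonempty) →
      (Fintype.card κ : ℝ≥0∞) * volume B ≤ volume (ball (0 : EuclideanSpace ℝ (Fin n)) (r + a))) :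
    packDensity C ≤ volume C / volume B := by
  classical
  have hBfin : volume B ≠ ⊤ := hB.measure_lt_top.ne
  apply sSup_le
  rintro d ⟨P, hcop, hdis, rfl⟩
  -- the finite bound
  have hfinb : ∀ r > 0, ∀ s : Finset (Set (EuclideanSpace ℝ (Fin n))),
      (∀ A ∈ s, A ∈ P ∧ (A ∩ ball 0 r).Nonempty) →
      (s.card : ℝ≥0∞) * volume B ≤ volume (ball (0 : EuclideanSpace ℝ (Fin n)) (r + a)) := by
    intro r hr s hs
    choose g hg using fun A : {A // A ∈ s} => hcop A.1 (hs A.1 A.2).1
    have h1 := H r hr {A // A ∈ s} g ?_ ?_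
    · simpa using h1
    · intro i j hij
      rw [← hg i, ← hg j]
      exact hdis (hs i.1 i.2).1 (hs j.1 j.2).1 (fun h => hij (Subtype.ext h))
    · intro i
      rw [← hg i]
      exact (hs i.1 i.2).2
  have hmain : ∀ r > 0, volume (⋃₀ P ∩ ball (0 : EuclideanSpace ℝ (Fin n)) r) ≤
      volume C / volume B * volume (ball (0 : EuclideanSpace ℝ (Fin n)) (r + a)) := by
    intro r hr
    set V := volume (ball (0 : EuclideanSpace ℝ (Fin n)) (r + a)) with hV
    have hVfin : V ≠ ⊤ := measure_ball_lt_top.ne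
    set Mr : Set (Set (EuclideanSpace ℝ (Fin n))) := {A | A ∈ P ∧ (A ∩ ball 0 r).Nonempty} with hMr
    have hfin : Mr.Finite := by
      by_contra hinf
      have hinf' : Mr.Infinite := hinf
      have hq : V / volume B ≠ ⊤ := ENNReal.div_ne_top hVfin hB0
      obtain ⟨m, hm⟩ := ENNReal.exists_nat_gt hq
      obtain ⟨t, ht, hcard⟩ := hinf'.exists_subset_card_eq m
      have h1 := hfinb r hr t (fun A hA => ht hA)
      rw [hcard] at h1
      have h2 : (m : ℝ≥0∞) ≤ V / volume B :=
        (ENNReal.le_div_iff_mul_le (Or.inl hB0) (Or.inl hBfin)).2 h1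
      exact absurd hm (not_lt.2 h2)
    have h1 := hfinb r hr hfin.toFinset (fun A hA => by simpa [hMr] using hA)
    have hcv : (hfin.toFinset.card : ℝ≥0∞) ≤ V / volume B :=
      (ENNReal.le_div_iff_mul_le (Or.inl hB0) (Or.inl hBfin)).2 h1
    have hsub : ⋃₀ P ∩ ball (0 : EuclideanSpace ℝ (Fin n)) r ⊆ ⋃ A ∈ hfin.toFinset, A := by
      rintro x ⟨⟨A, hA, hxA⟩, hxr⟩
      simp only [Set.mem_iUnion, exists_prop]
      exact ⟨A, by simp [hMr]; exact ⟨hA, x, hxA, hxr⟩, hxA⟩
    calc volume (⋃₀ P ∩ ball (0 : EuclideanSpace ℝ (Fin n)) r)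
        ≤ volume (⋃ A ∈ hfin.toFinset, A) := measure_mono hsub
      _ ≤ ∑ A ∈ hfin.toFinset, volume A := measure_biUnion_finset_le _ _
      _ = ∑ A ∈ hfin.toFinset, volume C := by
          refine Finset.sum_congr rfl fun A hA => ?_
          have hA' : A ∈ P := by
            have : A ∈ Mr := by simpa using hA
            exact this.1
          obtain ⟨g, hg⟩ := hcop A hA'
          rw [hg, vol_isom]
      _ = (hfin.toFinset.card : ℝ≥0∞) * volume C := by
          rw [Finset.sum_const, nsmul_eq_mul]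
      _ ≤ (V / volume B) * volume C := by gcongr
      _ = volume C / volume B * V := by
          rw [ENNReal.div_eq_inv_mul, ENNReal.div_eq_inv_mul]
          ring
  have hlim : Tendsto (fun r : ℝ => volume C / volume B *
      (volume (ball (0 : EuclideanSpace ℝ (Fin n)) (r + a)) /
        volume (ball (0 : EuclideanSpace ℝ (Fin n)) r))) atTop (𝓝 (volume C / volume B * 1)) :=
    ENNReal.Tendsto.const_mul (ball_ratio hn a) (Or.inl one_ne_zero)
  rw [mul_one] at hlim
  rw [← hlim.limsup_eq]
  refine limsup_le_limsup ?_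
  filter_upwards [eventually_gt_atTop (0 : ℝ)] with r hr
  calc volume (⋃₀ P ∩ ball (0 : EuclideanSpace ℝ (Fin n)) r) /
        volume (ball (0 : EuclideanSpace ℝ (Fin n)) r)
      ≤ (volume C / volume B * volume (ball (0 : EuclideanSpace ℝ (Fin n)) (r + a))) /
        volume (ball (0 : EuclideanSpace ℝ (Fin n)) r) := by
        gcongr
        exact hmain r hr
    _ = _ := by rw [mul_div_assoc]

/-- In space: for a finite packing of copies meeting `ball 0 r` use `UB` with
`Ω = ball 0 (r + R₀ + h ...)` which contains the prisms (diameter `≤ 2 (R₀ + h)`, `prism_bound`):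
`card * vol prism = ∑ vol (prism i ∩ Ω) ≤ vol (thickening 4 Ω)`. -/
theorem density_cyl_le {P : Pgon N} (hP : P.Good) {K : Set E2} (hKm : MeasurableSet K)
    (hKs : K ⊆ P.body) {h : ℝ} (hh : 0 < h) (H : UB P K h) :
    packDensity (cyl K h) ≤ volume K / volume P.body := by
  obtain ⟨R₀, hR₀, hb⟩ := prism_bound hP
  have hvP : volume P.body ≠ 0 := GUpper_vol_ne hP
  have hvPf : volume P.body ≠ ⊤ := hP.cpt.measure_lt_top.ne
  have hho : ENNReal.ofReal h ≠ 0 := by simpa using hh
  have hratio : volume (cyl K h) / volume (cyl P.body h) = volume K / volume P.body := by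
    rw [vol_cyl hKm hh.le, vol_cyl hP.cpt.measurableSet hh.le]
    exact ENNReal.mul_div_mul_right _ _ hho ENNReal.ofReal_ne_top
  rw [← hratio]
  refine density_le (by norm_num) (cyl_compact hP.cpt h) ?_ (a := 2 * (R₀ + h) + 4) (by positivity) ?_
  · rw [vol_cyl hP.cpt.measurableSet hh.le]
    exact mul_ne_zero hvP hho
  · intro r hr κ _ g hdis hmeet
    set s : ℝ := r + 2 * (R₀ + h) with hs
    have hsub : ∀ i, g i '' cyl P.body h ⊆ ball (0 : E3) s := by
      rintro i _ ⟨z, hz, rfl⟩
      obtain ⟨_, ⟨y, hy, rfl⟩, hyr⟩ := hmeet i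
      have hy' : y ∈ cyl P.body h := ⟨hKs hy.1, hy.2⟩
      have h1 : dist (g i z) (g i y) = dist z y := (g i).isometry.dist_eq z y
      have h2 : dist z y ≤ 2 * (R₀ + h) := by
        calc dist z y ≤ dist z 0 + dist 0 y := dist_triangle _ _ _
          _ = ‖z‖ + ‖y‖ := by rw [dist_zero_right, dist_zero_left]
          _ ≤ (R₀ + h) + (R₀ + h) := add_le_add (hb h z hz) (hb h y hy')
          _ = _ := by ring
      rw [mem_ball] at hyr ⊢
      calc dist (g i z) 0 ≤ dist (g i z) (g i y) + dist (g i y) 0 := dist_triangle _ _ _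
        _ < 2 * (R₀ + h) + r := by linarith
        _ = s := by rw [hs]; ring
    have h1 := H κ g hdis (ball 0 s) measurableSet_ball isBounded_ball
    calc (Fintype.card κ : ℝ≥0∞) * volume (cyl P.body h)
        = ∑ i : κ, volume (g i '' cyl P.body h ∩ ball 0 s) := by
          rw [← Finset.card_univ, ← nsmul_eq_mul, ← Finset.sum_const]
          refine Finset.sum_congr rfl fun i _ => ?_
          rw [Set.inter_eq_left.2 (hsub i), vol_isom]
      _ ≤ volume (Metric.thickening 4 (ball (0 : E3) s)) := h1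
      _ ≤ volume (ball (0 : E3) (r + (2 * (R₀ + h) + 4))) := by
          refine measure_mono ?_
          intro x hx
          obtain ⟨y, hy, hxy⟩ := Metric.mem_thickening_iff.1 hx
          rw [mem_ball] at hy ⊢
          calc dist x 0 ≤ dist x y + dist y 0 := dist_triangle _ _ _
            _ < 4 + s := by linarith
            _ = _ := by rw [hs]; ring

/-- In the plane: let `g i`, `i ∈ κ`, be plane isometries with `g i '' K` of disjoint interiors
and meeting `ball 0 r`.  For `M ≥ 1` stack `M` layers: index type `κ × Fin M`, isometries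
`exists_lift (g i) (j h)`; the interiors of the lifted cylinders are disjoint (`pr_interior`).
`UB` for `Ω = {x | pr x ∈ closedBall 0 (r + 2R₀ + 1), 0 ≤ x 2 ≤ M h}` (contains all prisms, where
`‖x‖ ≤ R₀` on `P.body`) gives `card κ * M * (vol P.body * h) ≤ vol (ball 0 (r + 2R₀ + 6)) * (M h + 8)`
(`thickening 4 Ω ⊆ {pr x ∈ closedBall 0 (r + 2R₀ + 5), -4 ≤ x 2 ≤ M h + 4}`, `vol_slab`).  Divide by
`M h` and let `M → ∞`: `card κ * vol P.body ≤ vol (ball 0 (r + 2R₀ + 6))`.  Then `density_le`. -/
theorem density_plane_le {P : Pgon N} (hP : P.Good) {K : Set E2} (hKs : K ⊆ P.body) {h : ℝ}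
    (hh : 0 < h) (H : UB P K h) : packDensity K ≤ volume K / volume P.body := by
  classical
  have hvP : volume P.body ≠ 0 := GUpper_vol_ne hP
  have hvPf : volume P.body ≠ ⊤ := hP.cpt.measure_lt_top.ne
  obtain ⟨R1, hR1⟩ := hP.cpt.isBounded.subset_closedBall (0 : E2)
  set R : ℝ := max R1 0 with hR
  have hR0 : 0 ≤ R := le_max_right _ _
  have hbd : ∀ x ∈ P.body, ‖x‖ ≤ R := by
    intro x hx
    have := hR1 hx
    rw [mem_closedBall, dist_zero_right] at this
    exact this.trans (le_max_left _ _)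
  refine density_le (by norm_num) hP.cpt hvP (a := 2 * R + 5) (by positivity) ?_
  intro r hr κ _ g hdis hmeet
  set ρ : ℝ := r + 2 * R with hρ
  have hρ0 : 0 ≤ ρ := by positivity
  -- the bound for every number of layers
  have hlay : ∀ M : ℕ, 1 ≤ M → (Fintype.card κ : ℝ≥0∞) * M * (volume P.body * ENNReal.ofReal h) ≤
      volume (closedBall (0 : E2) (ρ + 4)) * ENNReal.ofReal (M * h + 8) := by
    intro M hM
    choose G hG using fun q : κ × Fin M => exists_lift (g q.1) ((q.2 : ℕ) * h)
    have hint : ∀ q : κ × Fin M, ∀ x ∈ interior (G q '' cyl K h),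
        pr x ∈ interior (g q.1 '' K) ∧ (q.2 : ℕ) * h < x 2 ∧ x 2 < (q.2 : ℕ) * h + h := by
      intro q x hx
      have h1 : interior (G q '' cyl K h) = G q '' interior (cyl K h) :=
        ((G q).toHomeomorph.image_interior (cyl K h)).symm
      rw [h1] at hx
      obtain ⟨y, hy, rfl⟩ := hx
      obtain ⟨h2, h3, h4⟩ := pr_interior hy
      refine ⟨?_, ?_, ?_⟩
      · rw [(hG q y).1]
        have h5 : interior (g q.1 '' K) = g q.1 '' interior K :=
          ((g q.1).toHomeomorph.image_interior K).symm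
        rw [h5]
        exact ⟨_, h2, rfl⟩
      · rw [(hG q y).2]; linarith
      · rw [(hG q y).2]; linarith
    have hpd : Pairwise (fun i j => Disjoint (interior (G i '' cyl K h))
        (interior (G j '' cyl K h))) := by
      rintro ⟨i, j⟩ ⟨i', j'⟩ hne
      rw [Set.disjoint_left]
      intro x hx hx'
      obtain ⟨a1, a2, a3⟩ := hint _ x hx
      obtain ⟨b1, b2, b3⟩ := hint _ x hx'
      by_cases hii : i = i'
      · subst hii
        have hjj : j ≠ j' := fun h => hne (by rw [h])
        simp only at a2 a3 b2 b3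
        rcases lt_or_gt_of_ne (fun h : (j : ℕ) = (j' : ℕ) => hjj (Fin.ext h)) with h1 | h1
        · have h2 : ((j : ℕ) : ℝ) + 1 ≤ ((j' : ℕ) : ℝ) := by exact_mod_cast h1
          nlinarith
        · have h2 : ((j' : ℕ) : ℝ) + 1 ≤ ((j : ℕ) : ℝ) := by exact_mod_cast h1
          nlinarith
      · exact Set.disjoint_left.1 (hdis hii) a1 b1
    set Ω : Set E3 := {x | pr x ∈ closedBall (0 : E2) ρ ∧ 0 ≤ x 2 ∧ x 2 ≤ M * h} with hΩ
    have hprc : Continuous (pr : E3 → E2) := GUpper_pr_cont
    have hΩc : IsClosed Ω := by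
      have : Ω = (pr ⁻¹' closedBall (0 : E2) ρ) ∩ ({x : E3 | 0 ≤ x 2} ∩ {x : E3 | x 2 ≤ M * h}) := by
        ext x; simp [hΩ]
      rw [this]
      exact (isClosed_closedBall.preimage hprc).inter
        ((isClosed_le continuous_const (by fun_prop)).inter (isClosed_le (by fun_prop) continuous_const))
    have hΩb : Bornology.IsBounded Ω := by
      refine (isBounded_closedBall (x := (0 : E3)) (r := ρ + M * h)).subset fun x hx => ?_
      rw [mem_closedBall, dist_zero_right]
      have h1 : ‖pr x‖ ≤ ρ := by simpa using hx.1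
      have h2 : ‖x‖ ^ 2 = ‖pr x‖ ^ 2 + (x 2) ^ 2 := GUpper_norm_sq x
      have h3 : 0 ≤ x 2 := hx.2.1
      have h4 : x 2 ≤ M * h := hx.2.2
      have h5 : ‖x‖ ^ 2 ≤ (ρ + M * h) ^ 2 := by
        rw [h2]
        nlinarith [norm_nonneg (pr x)]
      exact GUpper_abs_le h5 (by positivity)
    have hsub : ∀ q, G q '' cyl P.body h ⊆ Ω := by
      rintro ⟨i, j⟩ _ ⟨z, hz, rfl⟩
      obtain ⟨_, ⟨y, hy, rfl⟩, hyr⟩ := hmeet i
      have hz1 : pr z ∈ P.body := hz.1
      have hz2 : 0 ≤ z 2 := hz.2.1
      have hz3 : z 2 ≤ h := hz.2.2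
      have hg1 := (hG (i, j) z).1
      have hg2 := (hG (i, j) z).2
      refine ⟨?_, ?_, ?_⟩
      · rw [mem_closedBall, hg1]
        rw [mem_ball] at hyr
        have h1 : dist (g i (pr z)) (g i y) = dist (pr z) y := (g i).isometry.dist_eq _ _
        have h2 : dist (pr z) y ≤ 2 * R := by
          calc dist (pr z) y ≤ dist (pr z) 0 + dist 0 y := dist_triangle _ _ _
            _ = ‖pr z‖ + ‖y‖ := by rw [dist_zero_right, dist_zero_left]
            _ ≤ R + R := add_le_add (hbd _ hz1) (hbd _ (hKs hy))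
            _ = _ := by ring
        calc dist (g i (pr z)) 0 ≤ dist (g i (pr z)) (g i y) + dist (g i y) 0 := dist_triangle _ _ _
          _ ≤ 2 * R + r := by linarith
          _ = ρ := by rw [hρ]; ring
      · rw [hg2]; positivity
      · rw [hg2]
        have h1 : ((j : ℕ) : ℝ) + 1 ≤ M := by exact_mod_cast j.2
        simp only
        nlinarith
    have h1 := H (κ × Fin M) G hpd Ω hΩc.measurableSet hΩb
    calc (Fintype.card κ : ℝ≥0∞) * M * (volume P.body * ENNReal.ofReal h)
        = ∑ q : κ × Fin M, volume (G q '' cyl P.body h ∩ Ω) := by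
          have h2 : ∀ q : κ × Fin M, volume (G q '' cyl P.body h ∩ Ω)
              = volume P.body * ENNReal.ofReal h := by
            intro q
            rw [Set.inter_eq_left.2 (hsub q), vol_isom, vol_cyl hP.cpt.measurableSet hh.le]
          simp_rw [h2]
          rw [Finset.sum_const, nsmul_eq_mul, Finset.card_univ, Fintype.card_prod, Fintype.card_fin]
          push_cast
          ring
      _ ≤ volume (Metric.thickening 4 Ω) := h1
      _ ≤ volume {x : E3 | pr x ∈ closedBall (0 : E2) (ρ + 4) ∧ -4 ≤ x 2 ∧ x 2 ≤ M * h + 4} := by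
          refine measure_mono ?_
          intro x hx
          obtain ⟨y, hy, hxy⟩ := Metric.mem_thickening_iff.1 hx
          have h3 : ‖pr x - pr y‖ ≤ ‖x - y‖ := GUpper_pr_sub x y
          have h4 : |x 2 - y 2| ≤ ‖x - y‖ := GUpper_two_sub x y
          rw [dist_eq_norm] at hxy
          have h5 : ‖pr y‖ ≤ ρ := by simpa using hy.1
          have h6 : 0 ≤ y 2 := hy.2.1
          have h7 : y 2 ≤ M * h := hy.2.2
          rw [abs_le] at h4
          refine ⟨?_, by linarith [h4.1], by linarith [h4.2]⟩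
          rw [mem_closedBall, dist_zero_right]
          calc ‖pr x‖ = ‖(pr x - pr y) + pr y‖ := by rw [sub_add_cancel]
            _ ≤ ‖pr x - pr y‖ + ‖pr y‖ := norm_add_le _ _
            _ ≤ ρ + 4 := by linarith
      _ = volume (closedBall (0 : E2) (ρ + 4)) * ENNReal.ofReal (M * h + 8) := by
          rw [vol_slab isClosed_closedBall.measurableSet (by
            have : (0 : ℝ) ≤ M * h := by positivity
            linarith)]
          congr 2
          ring
  -- to the limit
  have hVf : volume (closedBall (0 : E2) (ρ + 4)) ≠ ⊤ := measure_closedBall_lt_top.ne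
  set V : ℝ := (volume (closedBall (0 : E2) (ρ + 4))).toReal with hV
  set p : ℝ := (volume P.body).toReal with hp
  have hV0 : 0 ≤ V := ENNReal.toReal_nonneg
  have hreal : ∀ M : ℕ, 1 ≤ M → (Fintype.card κ : ℝ) * M * (p * h) ≤ V * (M * h + 8) := by
    intro M hM
    have h1 := hlay M hM
    have h2 := ENNReal.toReal_mono (ENNReal.mul_ne_top hVf ENNReal.ofReal_ne_top) h1
    rw [ENNReal.toReal_mul, ENNReal.toReal_mul, ENNReal.toReal_mul, ENNReal.toReal_mul,
      ENNReal.toReal_ofReal hh.le, ENNReal.toReal_ofReal (by positivity), ENNReal.toReal_natCast,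
      ENNReal.toReal_natCast] at h2
    exact h2
  have hcp : (Fintype.card κ : ℝ) * p ≤ V := by
    by_contra hcon
    push Not at hcon
    obtain ⟨M, hM⟩ := exists_nat_gt (8 * V / (h * ((Fintype.card κ : ℝ) * p - V)))
    have hpos : 0 < h * ((Fintype.card κ : ℝ) * p - V) := mul_pos hh (by linarith)
    rw [div_lt_iff₀ hpos] at hM
    have hM1 : 1 ≤ M := by
      rcases Nat.eq_zero_or_pos M with h0 | h0
      · exfalso
        rw [h0] at hM
        simp at hM
        linarith
      · exact h0
    have h3 := hreal M hM1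
    nlinarith
  calc (Fintype.card κ : ℝ≥0∞) * volume P.body
      = ENNReal.ofReal ((Fintype.card κ : ℝ) * p) := by
        rw [ENNReal.ofReal_mul (by positivity), hp, ENNReal.ofReal_toReal hvPf,
          ENNReal.ofReal_natCast]
    _ ≤ ENNReal.ofReal V := ENNReal.ofReal_le_ofReal hcp
    _ = volume (closedBall (0 : E2) (ρ + 4)) := by rw [hV, ENNReal.ofReal_toReal hVf]
    _ ≤ volume (ball (0 : E2) (r + (2 * R + 5))) := by
        refine measure_mono fun x hx => ?_
        rw [mem_closedBall] at hx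
        rw [mem_ball]
        have : ρ + 4 < r + (2 * R + 5) := by rw [hρ]; linarith
        linarith

end Pool.TC
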