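import Pool.Agent.W_0c5e58_h61.GPack
import Pool.Agent.W_0c5e58_h61.GUpper
import Pool.Agent.W_0c5e58_h61.GTile
import Pool.Agent.W_0c5e58_h61.GHex

/-!
# Theorem A
-/

open MeasureTheory Metric Set Filter
open scoped Topology ENNReal

namespace Pool.TC

variable {N : ℕ}

/-- **Theorem A.**  `ub_all`, `density_cyl_le`, `density_plane_le`, `tile_density` in the plane and
in space (`tiles_cyl`, `vol_cyl`, `cyl_compact`, `Convex.addHaar_frontier`), where
`vol (cyl K h) / vol (cyl P.body h) = vol K / vol P.body`. -/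
theorem theoremA {P : Pgon N} (hP : P.Good) (hT : Tiles P.body) {h₀ : ℝ} (h0 : 0 < h₀) :
    ∃ ε > 0, ∀ K, Trunc P ε K → ∀ h, h₀ ≤ h →
      packDensity (cyl K h) = packDensity K ∧ packDensity K = volume K / volume P.body := by
  obtain ⟨ε, hε, H⟩ := ub_all hP h0
  refine ⟨ε, hε, fun K hK h hh => ?_⟩
  have hpos : 0 < h := lt_of_lt_of_le h0 hh
  have hUB : UB P K h := H ε hε.le le_rfl K hK h hh
  have hKm : MeasurableSet K := hK.cpt.isClosed.measurableSet
  have hPm : MeasurableSet P.body := hP.cpt.isClosed.measurableSet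
  have up3 := density_cyl_le hP hKm hK.sub hpos hUB
  have up2 := density_plane_le hP hK.sub hpos hUB
  have low2 : volume K / volume P.body ≤ packDensity K :=
    tile_density (by norm_num) hP.cpt hP.int ((convex_body P).addHaar_frontier volume) hT
      hK.sub hKm
  have hint : (interior (cyl P.body h)).Nonempty := by
    obtain ⟨y, hy⟩ := hP.int
    refine ⟨WithLp.toLp 2 ![y 0, y 1, h / 2], interior_cyl ?_ ?_ ?_⟩
    · have : pr (WithLp.toLp 2 ![y 0, y 1, h / 2]) = y := by
        ext i
        fin_cases i <;> simp [pr]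
      rw [this]
      exact hy
    · simpa using hpos
    · simpa using hpos
  have hsub : cyl K h ⊆ cyl P.body h := fun x hx => ⟨hK.sub hx.1, hx.2⟩
  have low3 : volume (cyl K h) / volume (cyl P.body h) ≤ packDensity (cyl K h) :=
    tile_density (by norm_num) (cyl_compact hP.cpt h) hint
      ((cyl_convex (convex_body P) h).addHaar_frontier volume) (tiles_cyl hT hpos) hsub
      (cyl_compact hK.cpt h).isClosed.measurableSet
  have hratio : volume (cyl K h) / volume (cyl P.body h) = volume K / volume P.body := by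
    rw [vol_cyl hKm hpos.le, vol_cyl hPm hpos.le]
    refine ENNReal.mul_div_mul_right _ _ ?_ ENNReal.ofReal_ne_top
    simpa using hpos
  rw [hratio] at low3
  have e2 : packDensity K = volume K / volume P.body := le_antisymm up2 low2
  exact ⟨by rw [e2]; exact le_antisymm up3 low3, e2⟩

/-- A convex body which is not a tile: its packing density is `< 1`, and for all `h ≥ h₀` the
cylinder has the same density. -/
theorem hexagon_example {h₀ : ℝ} (h0 : 0 < h₀) :
    ∃ K : Set E2, IsCompact K ∧ Convex ℝ K ∧ (interior K).Nonempty ∧ packDensity K < 1 ∧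
      ∀ h, h₀ ≤ h → packDensity (cyl K h) = packDensity K := by
  obtain ⟨ε, hε, H⟩ := theoremA hex_good hex_tiles h0
  obtain ⟨K, hK, hc, hi, hv⟩ := hex_trunc hε
  have e := H K hK
  refine ⟨K, hK.cpt, hc, hi, ?_, fun h hh => (e h hh).1⟩
  rw [(e h₀ le_rfl).2]
  have hfin : volume hexP.body ≠ ⊤ := hex_good.cpt.measure_lt_top.ne
  have hne : volume hexP.body ≠ 0 := (lt_of_le_of_lt bot_le hv).ne'
  rw [ENNReal.div_lt_iff (Or.inl hne) (Or.inl hfin)]
  simpa using hv

end Pool.TC
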