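import Pool.Agent.W_0c5e58_h61.GPrism

/-!
# From the local inequality to the global one (averaging over the center of the ball)
-/

open MeasureTheory Metric Set Filter
open scoped Topology ENNReal

namespace Pool.TC

variable {N : ℕ}

/-- Averaging: for a measurable set `S`, `∫ vol (S ∩ ball p r) dp = vol S * vol (ball 0 r)`
(Tonelli; `x ∈ ball p r ↔ p ∈ ball x r`). -/
theorem aver_ball {S : Set E3} (hS : MeasurableSet S) (r : ℝ) :
    ∫⁻ p, volume (S ∩ ball p r) = volume S * volume (ball (0 : E3) r) := by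
  have hmeas : MeasurableSet {q : E3 × E3 | q.2 ∈ S ∧ dist q.2 q.1 < r} := by
    apply MeasurableSet.inter
    · exact measurable_snd hS
    · exact (isOpen_lt (continuous_snd.dist continuous_fst) continuous_const).measurableSet
  have h1 : ∀ p : E3, volume (S ∩ ball p r)
      = ∫⁻ x, {q : E3 × E3 | q.2 ∈ S ∧ dist q.2 q.1 < r}.indicator 1 (p, x) := by
    intro p
    have : (fun x => {q : E3 × E3 | q.2 ∈ S ∧ dist q.2 q.1 < r}.indicator (1 : E3 × E3 → ℝ≥0∞) (p, x))
        = (S ∩ ball p r).indicator 1 := by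
      funext x
      by_cases hx : x ∈ S ∩ ball p r
      · rw [indicator_of_mem hx, indicator_of_mem]
        · rfl
        · exact ⟨hx.1, hx.2⟩
      · rw [indicator_of_notMem hx, indicator_of_notMem]
        exact fun h => hx ⟨h.1, h.2⟩
    rw [this, lintegral_indicator_one (hS.inter measurableSet_ball)]
  simp_rw [h1]
  rw [lintegral_lintegral_swap]
  · have h2 : ∀ x : E3, ∫⁻ p, {q : E3 × E3 | q.2 ∈ S ∧ dist q.2 q.1 < r}.indicator
        (1 : E3 × E3 → ℝ≥0∞) (p, x) = S.indicator (fun _ => volume (ball (0 : E3) r)) x := by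
      intro x
      by_cases hx : x ∈ S
      · rw [indicator_of_mem hx]
        have : (fun p => {q : E3 × E3 | q.2 ∈ S ∧ dist q.2 q.1 < r}.indicator
            (1 : E3 × E3 → ℝ≥0∞) (p, x)) = (ball x r).indicator 1 := by
          funext p
          by_cases hp : p ∈ ball x r
          · rw [indicator_of_mem hp, indicator_of_mem]
            · rfl
            · exact ⟨hx, by rw [dist_comm]; exact hp⟩
          · rw [indicator_of_notMem hp, indicator_of_notMem]
            intro h
            apply hp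
            rw [mem_ball, dist_comm]
            exact h.2
        rw [this, lintegral_indicator_one measurableSet_ball]
        exact Measure.addHaar_ball_center volume x r
      · rw [indicator_of_notMem hx]
        have : (fun p => {q : E3 × E3 | q.2 ∈ S ∧ dist q.2 q.1 < r}.indicator
            (1 : E3 × E3 → ℝ≥0∞) (p, x)) = fun _ => 0 := by
          funext p
          rw [indicator_of_notMem]
          exact fun h => hx h.1
        rw [this, lintegral_zero]
    simp_rw [h2]
    rw [lintegral_indicator_const hS, mul_comm]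
  · exact ((measurable_one.indicator hmeas).aemeasurable)

theorem GAver_bonf {κ : Type} [DecidableEq κ] (Q : κ → Set E3) (hm : ∀ i, MeasurableSet (Q i))
    {Ω : Set E3} (hΩ : MeasurableSet Ω) (s : Finset κ) :
    ∑ i ∈ s, volume (Q i ∩ Ω) ≤ volume (Ω ∩ ⋃ i ∈ s, Q i) +
      ∑ i ∈ s, ∑ j ∈ s, (if i = j then 0 else volume (Q i ∩ Q j ∩ Ω)) := by
  induction s using Finset.induction_on with
  | empty => simp
  | insert a s ha ih =>
    rw [Finset.sum_insert ha]
    have hU : MeasurableSet (Ω ∩ ⋃ i ∈ s, Q i) :=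
      hΩ.inter (Finset.measurableSet_biUnion s fun i _ => hm i)
    have h1 := measure_union_add_inter (μ := volume) (Q a ∩ Ω) hU
    have h2 : (Q a ∩ Ω) ∪ (Ω ∩ ⋃ i ∈ s, Q i) = Ω ∩ ⋃ i ∈ insert a s, Q i := by
      ext x
      simp only [mem_union, mem_inter_iff, mem_iUnion, Finset.mem_insert, exists_prop]
      constructor
      · rintro (⟨g1, g2⟩ | ⟨g1, i, hi, g3⟩)
        · exact ⟨g2, a, Or.inl rfl, g1⟩
        · exact ⟨g1, i, Or.inr hi, g3⟩
      · rintro ⟨g1, i, hi, g3⟩
        rcases hi with hi | hi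
        · subst hi
          exact Or.inl ⟨g3, g1⟩
        · exact Or.inr ⟨g1, i, hi, g3⟩
    have h3 : volume ((Q a ∩ Ω) ∩ (Ω ∩ ⋃ i ∈ s, Q i)) ≤ ∑ i ∈ s, volume (Q a ∩ Q i ∩ Ω) := by
      refine le_trans (measure_mono ?_) (measure_biUnion_finset_le s fun i => Q a ∩ Q i ∩ Ω)
      rintro x ⟨⟨h1, h2⟩, _, h4⟩
      simp only [mem_iUnion, exists_prop] at h4 ⊢
      obtain ⟨i, hi, h5⟩ := h4
      exact ⟨i, hi, ⟨h1, h5⟩, h2⟩
    have h4 : ∑ i ∈ s, ∑ j ∈ s, (if i = j then 0 else volume (Q i ∩ Q j ∩ Ω)) +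
        ∑ i ∈ s, volume (Q a ∩ Q i ∩ Ω) ≤
        ∑ i ∈ insert a s, ∑ j ∈ insert a s, (if i = j then 0 else volume (Q i ∩ Q j ∩ Ω)) := by
      rw [Finset.sum_insert ha, Finset.sum_insert ha, add_comm]
      apply add_le_add
      · rw [if_pos rfl, zero_add]
        apply Finset.sum_le_sum
        intro i hi
        have : a ≠ i := fun h => ha (h ▸ hi)
        rw [if_neg this]
      · apply Finset.sum_le_sum
        intro i _
        rw [Finset.sum_insert ha]
        exact le_add_self
    rw [h2] at h1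
    calc volume (Q a ∩ Ω) + ∑ i ∈ s, volume (Q i ∩ Ω)
        ≤ volume (Q a ∩ Ω) + (volume (Ω ∩ ⋃ i ∈ s, Q i) +
          ∑ i ∈ s, ∑ j ∈ s, (if i = j then 0 else volume (Q i ∩ Q j ∩ Ω))) := by gcongr
      _ = (volume (Q a ∩ Ω) + volume (Ω ∩ ⋃ i ∈ s, Q i)) +
          ∑ i ∈ s, ∑ j ∈ s, (if i = j then 0 else volume (Q i ∩ Q j ∩ Ω)) := by ring
      _ = (volume (Ω ∩ ⋃ i ∈ insert a s, Q i) + volume ((Q a ∩ Ω) ∩ (Ω ∩ ⋃ i ∈ s, Q i))) +
          ∑ i ∈ s, ∑ j ∈ s, (if i = j then 0 else volume (Q i ∩ Q j ∩ Ω)) := by rw [h1]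
      _ ≤ (volume (Ω ∩ ⋃ i ∈ insert a s, Q i) + ∑ i ∈ s, volume (Q a ∩ Q i ∩ Ω)) +
          ∑ i ∈ s, ∑ j ∈ s, (if i = j then 0 else volume (Q i ∩ Q j ∩ Ω)) := by gcongr
      _ = volume (Ω ∩ ⋃ i ∈ insert a s, Q i) +
          (∑ i ∈ s, ∑ j ∈ s, (if i = j then 0 else volume (Q i ∩ Q j ∩ Ω)) +
          ∑ i ∈ s, volume (Q a ∩ Q i ∩ Ω)) := by ring
      _ ≤ _ := by gcongr

/-- Abstract averaging.  `Q i` finitely many measurable sets of finite volume such that for every
`p` the overlap in `ball p 1` is at most `1/27` of the void in `ball p 3`.  Then for every bounded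
measurable `Ω`, `∑ vol (Q i ∩ Ω) ≤ vol (thickening 4 Ω)`.

Proof.  Pointwise, with `k` the number of sets containing `x`: `k ≤ 1_{k ≥ 1} + k (k-1)`, so
`∑ vol (Q i ∩ Ω) ≤ vol (Ω ∩ ⋃ Q) + ∑_{i ≠ j} vol (Q i ∩ Q j ∩ Ω)`.  Let `Ov p` be the sum over
`i ≠ j` of `vol (Q i ∩ Q j ∩ Ω ∩ ball p 1)`; it vanishes unless `p ∈ thickening 1 Ω`, and
`Ov p ≤ (1/27) vol (ball p 3 \ ⋃ Q)`; for `p ∈ thickening 1 Ω`, `ball p 3 ⊆ thickening 4 Ω`.  Integrate
over `p` with `aver_ball` (`V₁ = vol (ball 0 1)`, `vol (ball 0 3) = 27 V₁`):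
`V₁ ∑_{i≠j} vol (Q i ∩ Q j ∩ Ω) ≤ (1/27) * 27 V₁ * vol (thickening 4 Ω \ ⋃ Q)`.  So
`∑ vol (Q i ∩ Ω) ≤ vol (Ω ∩ ⋃ Q) + vol (thickening 4 Ω \ ⋃ Q) ≤ vol (thickening 4 Ω)`. -/
theorem aver_main {κ : Type} [Fintype κ] [DecidableEq κ] (Q : κ → Set E3)
    (hm : ∀ i, MeasurableSet (Q i))
    (hLI : ∀ p, ∑ i, ∑ j, (if i = j then 0 else volume.real (Q i ∩ Q j ∩ ball p 1)) ≤
      1 / 27 * volume.real (ball p 3 \ ⋃ i, Q i))
    {Ω : Set E3} (hΩ : MeasurableSet Ω) (hb : Bornology.IsBounded Ω) :
    ∑ i, volume (Q i ∩ Ω) ≤ volume (thickening 4 Ω) := by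
  set U : Set E3 := ⋃ i, Q i with hU
  have hUm : MeasurableSet U := MeasurableSet.iUnion hm
  have hTm : MeasurableSet (thickening 4 Ω) := isOpen_thickening.measurableSet
  set V : ℝ≥0∞ := volume (ball (0 : E3) 1) with hV
  have hV0 : V ≠ 0 := (measure_ball_pos volume (0 : E3) one_pos).ne'
  have hVt : V ≠ ⊤ := measure_ball_lt_top.ne
  have hV3 : volume (ball (0 : E3) 3) = ENNReal.ofReal 27 * V := by
    rw [Measure.addHaar_ball volume (0 : E3) (by norm_num : (0 : ℝ) ≤ 3)]
    congr 2
    simp
    norm_num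
  -- the local inequality in `ℝ≥0∞`
  have hloc : ∀ p, ∑ i, ∑ j, (if i = j then 0 else volume (Q i ∩ Q j ∩ ball p 1)) ≤
      ENNReal.ofReal (1 / 27) * volume (ball p 3 \ U) := by
    intro p
    have hfin : ∀ i j, volume (Q i ∩ Q j ∩ ball p 1) ≠ ⊤ := fun i j =>
      ((measure_mono inter_subset_right).trans_lt measure_ball_lt_top).ne
    have hfin3 : volume (ball p 3 \ U) ≠ ⊤ :=
      ((measure_mono sdiff_subset).trans_lt measure_ball_lt_top).ne
    have h1 : ∑ i, ∑ j, (if i = j then 0 else volume (Q i ∩ Q j ∩ ball p 1)) =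
        ENNReal.ofReal (∑ i, ∑ j, (if i = j then 0 else volume.real (Q i ∩ Q j ∩ ball p 1))) := by
      rw [ENNReal.ofReal_sum_of_nonneg]
      · apply Finset.sum_congr rfl
        intro i _
        rw [ENNReal.ofReal_sum_of_nonneg]
        · apply Finset.sum_congr rfl
          intro j _
          split_ifs with h
          · simp
          · rw [Measure.real, ENNReal.ofReal_toReal (hfin i j)]
        · intro j _
          split_ifs with h
          · exact le_rfl
          · exact measureReal_nonneg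
      · intro i _
        apply Finset.sum_nonneg
        intro j _
        split_ifs with h
        · exact le_rfl
        · exact measureReal_nonneg
    rw [h1]
    calc ENNReal.ofReal (∑ i, ∑ j, (if i = j then 0 else volume.real (Q i ∩ Q j ∩ ball p 1)))
        ≤ ENNReal.ofReal (1 / 27 * volume.real (ball p 3 \ U)) := ENNReal.ofReal_le_ofReal (hLI p)
      _ = ENNReal.ofReal (1 / 27) * volume (ball p 3 \ U) := by
        rw [ENNReal.ofReal_mul (by norm_num), Measure.real, ENNReal.ofReal_toReal hfin3]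
  -- the localised version
  have hloc2 : ∀ p, ∑ i, ∑ j, (if i = j then 0 else volume (Q i ∩ Q j ∩ Ω ∩ ball p 1)) ≤
      ENNReal.ofReal (1 / 27) * volume ((thickening 4 Ω \ U) ∩ ball p 3) := by
    intro p
    by_cases hp : p ∈ thickening 1 Ω
    · calc ∑ i, ∑ j, (if i = j then 0 else volume (Q i ∩ Q j ∩ Ω ∩ ball p 1))
          ≤ ∑ i, ∑ j, (if i = j then 0 else volume (Q i ∩ Q j ∩ ball p 1)) := by
            apply Finset.sum_le_sum
            intro i _
            apply Finset.sum_le_sum
            intro j _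
            split_ifs with h
            · exact le_rfl
            · exact measure_mono fun x hx => ⟨hx.1.1, hx.2⟩
        _ ≤ ENNReal.ofReal (1 / 27) * volume (ball p 3 \ U) := hloc p
        _ ≤ _ := by
            gcongr
            rintro x ⟨hx1, hx2⟩
            refine ⟨⟨?_, hx2⟩, hx1⟩
            rw [mem_thickening_iff] at hp ⊢
            obtain ⟨z, hz, hz2⟩ := hp
            refine ⟨z, hz, ?_⟩
            have h3 : dist x p < 3 := hx1
            have := dist_triangle x p z
            linarith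
    · have : ∑ i, ∑ j, (if i = j then 0 else volume (Q i ∩ Q j ∩ Ω ∩ ball p 1)) = 0 := by
        apply Finset.sum_eq_zero
        intro i _
        apply Finset.sum_eq_zero
        intro j _
        split_ifs with h
        · rfl
        · have : Q i ∩ Q j ∩ Ω ∩ ball p 1 = ∅ := by
            rw [eq_empty_iff_forall_notMem]
            rintro x ⟨hx1, hx2⟩
            apply hp
            rw [mem_thickening_iff]
            exact ⟨x, hx1.2, by rw [dist_comm]; exact hx2⟩
          rw [this, measure_empty]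
      rw [this]
      exact bot_le
  -- integration
  have hint : V * ∑ i, ∑ j, (if i = j then 0 else volume (Q i ∩ Q j ∩ Ω)) ≤
      V * volume (thickening 4 Ω \ U) := by
    have h1 : ∀ i j : κ, Measurable fun p : E3 => volume (Q i ∩ Q j ∩ Ω ∩ ball p 1) := by
      intro i j
      have hS : MeasurableSet (Q i ∩ Q j ∩ Ω) := ((hm i).inter (hm j)).inter hΩ
      have hmeas : MeasurableSet {q : E3 × E3 | q.2 ∈ Q i ∩ Q j ∩ Ω ∧ dist q.2 q.1 < 1} := by
        apply MeasurableSet.inter
        · exact measurable_snd hS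
        · exact (isOpen_lt (continuous_snd.dist continuous_fst) continuous_const).measurableSet
      exact measurable_measure_prodMk_left hmeas
    calc V * ∑ i, ∑ j, (if i = j then 0 else volume (Q i ∩ Q j ∩ Ω))
        = ∑ i, ∑ j, (if i = j then 0 else volume (Q i ∩ Q j ∩ Ω) * V) := by
          rw [mul_comm, Finset.sum_mul]
          apply Finset.sum_congr rfl
          intro i _
          rw [Finset.sum_mul]
          apply Finset.sum_congr rfl
          intro j _
          split_ifs
          · rw [zero_mul]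
          · rfl
      _ = ∑ i, ∑ j, ∫⁻ p, (if i = j then 0 else volume (Q i ∩ Q j ∩ Ω ∩ ball p 1)) := by
          apply Finset.sum_congr rfl
          intro i _
          apply Finset.sum_congr rfl
          intro j _
          split_ifs
          · rw [lintegral_zero]
          · rw [aver_ball (((hm i).inter (hm j)).inter hΩ) 1]
      _ = ∫⁻ p, ∑ i, ∑ j, (if i = j then 0 else volume (Q i ∩ Q j ∩ Ω ∩ ball p 1)) := by
          rw [lintegral_finsetSum]
          · apply Finset.sum_congr rfl
            intro i _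
            rw [lintegral_finsetSum]
            intro j _
            split_ifs
            · exact measurable_const
            · exact h1 i j
          · intro i _
            apply Finset.measurable_fun_sum
            intro j _
            split_ifs
            · exact measurable_const
            · exact h1 i j
      _ ≤ ∫⁻ p, ENNReal.ofReal (1 / 27) * volume ((thickening 4 Ω \ U) ∩ ball p 3) :=
          lintegral_mono hloc2
      _ = ENNReal.ofReal (1 / 27) * (volume (thickening 4 Ω \ U) * volume (ball (0 : E3) 3)) := by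
          rw [lintegral_const_mul' _ _ ENNReal.ofReal_ne_top, aver_ball (hTm.diff hUm) 3]
      _ = V * volume (thickening 4 Ω \ U) := by
          rw [hV3]
          have : ENNReal.ofReal (1 / 27) * ENNReal.ofReal 27 = 1 := by
            rw [← ENNReal.ofReal_mul (by norm_num)]
            norm_num
          calc ENNReal.ofReal (1 / 27) * (volume (thickening 4 Ω \ U) * (ENNReal.ofReal 27 * V))
              = (ENNReal.ofReal (1 / 27) * ENNReal.ofReal 27) *
                (V * volume (thickening 4 Ω \ U)) := by ring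
            _ = V * volume (thickening 4 Ω \ U) := by rw [this, one_mul]
  have hint2 : ∑ i, ∑ j, (if i = j then 0 else volume (Q i ∩ Q j ∩ Ω)) ≤
      volume (thickening 4 Ω \ U) := (ENNReal.mul_le_mul_iff_right hV0 hVt).mp hint
  have hb := GAver_bonf Q hm hΩ Finset.univ
  have hUU : (⋃ i ∈ (Finset.univ : Finset κ), Q i) = U := by simp [hU]
  rw [hUU] at hb
  calc ∑ i, volume (Q i ∩ Ω) ≤ volume (Ω ∩ U) +
        ∑ i, ∑ j, (if i = j then 0 else volume (Q i ∩ Q j ∩ Ω)) := hb
    _ ≤ volume (thickening 4 Ω ∩ U) + volume (thickening 4 Ω \ U) := by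
        gcongr
        exact self_subset_thickening (by norm_num) Ω
    _ = volume (thickening 4 Ω) := measure_inter_add_sdiff _ hUm

end Pool.TC
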