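import Pool.Agent.W_0c5e58_h61.LDefs

/-!
# Perturbations of a `Loc`
-/

open MeasureTheory Metric Set Filter
open scoped Topology

namespace Pool.TC

variable {I Φ ι : Type}

/-- the perturbed cone -/
def bodyS (A : Finset Φ) (ν : Φ → E3) (γ : Φ → ℝ) : Set E3 := {x | ∀ f ∈ A, inner ℝ (ν f) x ≤ γ f}

/-- the `ε`-tube around the obtuse lateral edge (`ν₀` : the limit normals) -/
def tubeS (A : Finset Φ) (lat : Φ → Prop) (ν₀ ν : Φ → E3) (γ : Φ → ℝ) (ε : ℝ) : Set E3 :=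
  {x | ∃ k ∈ A, ∃ l ∈ A, k ≠ l ∧ lat k ∧ lat l ∧ 0 < inner ℝ (ν₀ k) (ν₀ l) ∧
    γ k - ε ≤ inner ℝ (ν k) x ∧ γ l - ε ≤ inner ℝ (ν l) x}

/-- A family of perturbations of the `Loc` `D` along the filter `F`, in the ball of radius `ρ`:
normals `ν n i f → D.ν i f` with the same inner products, offsets `γ n i f → 0`, widths `ε n → 0`;
two bodies overlap in the ball only inside their tubes (up to a null set); the void
(part of the ball in no body) has volume tending to `0`. -/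
structure Pert (D : Loc I Φ) (F : Filter ι) where
  ρ : ℝ
  ρpos : 0 < ρ
  ν : ι → I → Φ → E3
  γ : ι → I → Φ → ℝ
  ε : ι → ℝ
  gram : ∀ n i f g, inner ℝ (ν n i f) (ν n i g) = inner ℝ (D.ν i f) (D.ν i g)
  tν : ∀ i f, Tendsto (fun n => ν n i f) F (𝓝 (D.ν i f))
  tγ : ∀ i, ∀ f ∈ D.A i, Tendsto (fun n => γ n i f) F (𝓝 0)
  tε : Tendsto ε F (𝓝 0)
  εnn : ∀ n, 0 ≤ ε n
  null : ∀ᶠ n in F, ∀ i j, i ≠ j →
    volume ((bodyS (D.A i) (ν n i) (γ n i) ∩ bodyS (D.A j) (ν n j) (γ n j) ∩ ball 0 ρ) \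
      (tubeS (D.A i) D.lat (D.ν i) (ν n i) (γ n i) (ε n) ∪
        tubeS (D.A j) D.lat (D.ν j) (ν n j) (γ n j) (ε n))) = 0
  tvoid : Tendsto (fun n => volume.real (ball (0 : E3) ρ \
    ⋃ i, bodyS (D.A i) (ν n i) (γ n i))) F (𝓝 0)

variable {D : Loc I Φ} {F : Filter ι}

noncomputable def Pert.body (R : Pert D F) (n : ι) (i : I) : Set E3 := bodyS (D.A i) (R.ν n i) (R.γ n i)

noncomputable def Pert.tube (R : Pert D F) (n : ι) (i : I) : Set E3 :=
  tubeS (D.A i) D.lat (D.ν i) (R.ν n i) (R.γ n i) (R.ε n)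

/-- the affine function of a face -/
noncomputable def Pert.ell (R : Pert D F) (n : ι) (i : I) (f : Φ) (x : E3) : ℝ :=
  inner ℝ (R.ν n i f) x - R.γ n i f

noncomputable def Pert.void (R : Pert D F) (n : ι) : ℝ := volume.real (ball (0 : E3) R.ρ \ ⋃ i, R.body n i)

end Pool.TC
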