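import Pool.Agent.W_0c5e58_h61.GPrism
import Pool.Agent.W_0c5e58_h61.PDefs

/-!
# The local cone system of a local tiling by prisms, and the perturbation in a chart
-/

open MeasureTheory Metric Set Filter
open scoped Topology ENNReal

namespace Pool.TC

variable {N : ℕ}

/-- Finitely many prisms cover `ball 0 3` and no point of it is strictly inside two of them.
Then at a point `q` of the ball the cones of the prisms containing `q` form a `Loc`.

Proof. Index type: the prisms containing `q`; `A i` = the faces `f` with
`inner (L i (nrm f)) (q - t i) = off f` (`Finset.univ.filter`, classical), `lat f` = `f.isLeft`,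
`ν i f = L i (nrm f)`.  `unit`: `nrm_unit`, `iso`.  For `i` write `q = L i y + t i`, `y` in the prism
(`iso_surj`, `inner_iso`): active faces of `i` are the active faces of the prism at `y`.
`latEnd`: `inner_iso`, `inner_nrm_le`.  `endU`: both ends active means `y 2 = h` and `y 2 = 0`,
impossible for `h > 0`.  `latU`: `simple` at `pr y`.  `nn`, `star`: `vertex_of_active`,
`nonacute`, `star`.  `lt1`: `gram_lt_one`.  `cover`: given `x`, for small `s > 0` the point
`q + s x` is in `ball 0 3` and in no prism that does not contain `q` (closed, finitely many);
a prism containing it gives, for its faces active at `q`, `s * inner (ν f) x ≤ 0`.  `disj`: if `x` is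
strict for `i ≠ j` then `q + s x` is strictly inside both prisms for small `s > 0`. -/
theorem exists_chart {P : Pgon N} (hP : P.Good) {h : ℝ} (hh : 0 < h) {m : ℕ}
    {L : Fin m → (E3 →L[ℝ] E3)} {t : Fin m → E3} (iso : ∀ i x, ‖L i x‖ = ‖x‖)
    (hcov : ∀ x ∈ ball (0 : E3) 3, ∃ i, x ∈ Qb P (L i) (t i) h)
    (hdis : ∀ x ∈ ball (0 : E3) 3, ∀ i j, i ≠ j →
      (∀ f, inner ℝ (L i (nrm P f)) (x - t i) < off P h f) →
      (∀ f, inner ℝ (L j (nrm P f)) (x - t j) < off P h f) → False)
    {q : E3} (hq : q ∈ ball (0 : E3) 3) :
    ∃ D : Loc {i : Fin m // q ∈ Qb P (L i) (t i) h} (Fin N ⊕ Bool),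
      (∀ i f, f ∈ D.A i ↔ inner ℝ (L i.1 (nrm P f)) (q - t i.1) = off P h f) ∧
      (∀ f, D.lat f ↔ f.isLeft = true) ∧ ∀ i f, D.ν i f = L i.1 (nrm P f) := by
  classical
  -- the point in the prism
  have hy : ∀ i : {i : Fin m // q ∈ Qb P (L i) (t i) h}, ∃ y : E3, y ∈ cyl P.body h ∧
      ∀ f, inner ℝ (L i.1 (nrm P f)) (q - t i.1) = inner ℝ (nrm P f) y := by
    intro i
    obtain ⟨y, hy⟩ := iso_surj (iso i.1) (q - t i.1)
    have h1 : ∀ f, inner ℝ (L i.1 (nrm P f)) (q - t i.1) = inner ℝ (nrm P f) y := fun f => by
      rw [← hy, inner_iso (iso i.1)]
    refine ⟨y, ?_, h1⟩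
    rw [cyl_eq]
    intro f
    rw [← h1 f]
    exact i.2 f
  have hg : ∀ (i : Fin m) (f g : Fin N ⊕ Bool), inner ℝ (L i (nrm P f)) (L i (nrm P g)) =
      inner ℝ (nrm P f) (nrm P g) := fun i f g => inner_iso (iso i) _ _
  have hA : ∀ (i : {i : Fin m // q ∈ Qb P (L i) (t i) h}) (f : Fin N ⊕ Bool),
      f ∈ Finset.univ.filter (fun f => inner ℝ (L i.1 (nrm P f)) (q - t i.1) = off P h f) ↔
        inner ℝ (L i.1 (nrm P f)) (q - t i.1) = off P h f := fun i f => by
    simp only [Finset.mem_filter, Finset.mem_univ, true_and]
  have hV : ∀ (i : {i : Fin m // q ∈ Qb P (L i) (t i) h}) (k l : Fin N), k ≠ l →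
      inner ℝ (L i.1 (nrm P (Sum.inl k))) (q - t i.1) = off P h (Sum.inl k) →
      inner ℝ (L i.1 (nrm P (Sum.inl l))) (q - t i.1) = off P h (Sum.inl l) →
      ∃ v, P.Vertex k l v := by
    intro i k l hkl hk hl
    obtain ⟨y, hyc, hyi⟩ := hy i
    rw [hyi] at hk hl
    exact ⟨_, vertex_of_active P hyc hkl hk hl⟩
  let D : Loc {i : Fin m // q ∈ Qb P (L i) (t i) h} (Fin N ⊕ Bool) :=
    { A := fun i => Finset.univ.filter
        (fun f => inner ℝ (L i.1 (nrm P f)) (q - t i.1) = off P h f)
      lat := fun f => f.isLeft = true
      ν := fun i f => L i.1 (nrm P f)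
      unit := fun i f => by rw [iso, nrm_unit hP]
      latEnd := by
        intro i f hf g hg' lf lg
        rw [hg]
        cases f with
        | inr b => exact absurd lf (by simp)
        | inl k =>
          cases g with
          | inl l => exact absurd rfl lg
          | inr b => exact inner_nrm_le P k b
      endU := by
        intro i f hf g hg' lf lg
        obtain ⟨y, hyc, hyi⟩ := hy i
        rw [hA, hyi] at hf hg'
        cases f with
        | inl k => exact absurd rfl lf
        | inr b =>
          cases g with
          | inl k => exact absurd rfl lg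
          | inr b' =>
            cases b with
            | true =>
              cases b' with
              | true => rfl
              | false =>
                rw [(inner_nrm_end P y).1] at hf
                rw [(inner_nrm_end P y).2] at hg'
                simp only [off] at hf hg'
                linarith
            | false =>
              cases b' with
              | false => rfl
              | true =>
                rw [(inner_nrm_end P y).2] at hf
                rw [(inner_nrm_end P y).1] at hg'
                simp only [off] at hf hg'
                linarith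
      latU := by
        intro i f hf g hg' j hj lf lg lj
        obtain ⟨y, hyc, hyi⟩ := hy i
        rw [hA, hyi] at hf hg' hj
        cases f with
        | inr b => exact absurd lf (by simp)
        | inl k =>
          cases g with
          | inr b => exact absurd lg (by simp)
          | inl l =>
            cases j with
            | inr b => exact absurd lj (by simp)
            | inl m =>
              rw [inner_nrm_pr] at hf hg' hj
              have hb : pr y ∈ P.body := hyc.1
              rcases hP.simple (pr y) hb k l m hf hg' hj with h1 | h1 | h1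
              · exact Or.inl (by rw [h1])
              · exact Or.inr (Or.inl (by rw [h1]))
              · exact Or.inr (Or.inr (by rw [h1]))
      nn := by
        intro i f hf g hg' hne lf lg
        rw [hA] at hf hg'
        rw [hg]
        cases f with
        | inr b => exact absurd lf (by simp)
        | inl k =>
          cases g with
          | inr b => exact absurd lg (by simp)
          | inl l =>
            have hkl : k ≠ l := fun e => hne (by rw [e])
            obtain ⟨v, hv⟩ := hV i k l hkl hf hg'
            rw [inner_nrm_ll]
            exact hP.nonacute k l v hv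
      lt1 := by
        intro i f hf g hg' hne lf lg
        rw [hg]
        cases f with
        | inr b => exact absurd lf (by simp)
        | inl k =>
          cases g with
          | inr b => exact absurd lg (by simp)
          | inl l =>
            have hkl : k ≠ l := fun e => hne (by rw [e])
            rw [inner_nrm_ll]
            exact gram_lt_one hP hkl
      star := by
        intro i f hf g hg' i' f' hf' g' hg'' hne hne' lf lg lf' lg' p1 p2
        rw [hA] at hf hg' hf' hg''
        rw [hg] at p1 p2 ⊢
        rw [hg]
        cases f with
        | inr b => exact absurd lf (by simp)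
        | inl k =>
          cases g with
          | inr b => exact absurd lg (by simp)
          | inl l =>
            cases f' with
            | inr b => exact absurd lf' (by simp)
            | inl k' =>
              cases g' with
              | inr b => exact absurd lg' (by simp)
              | inl l' =>
                have hkl : k ≠ l := fun e => hne (by rw [e])
                have hkl' : k' ≠ l' := fun e => hne' (by rw [e])
                obtain ⟨v, hv⟩ := hV i k l hkl hf hg'
                obtain ⟨v', hv'⟩ := hV i' k' l' hkl' hf' hg''
                rw [inner_nrm_ll] at p1 p2 ⊢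
                rw [inner_nrm_ll]
                exact hP.star k l v k' l' v' hv hv' p1 p2
      cover := by
        intro x
        have hc : Tendsto (fun s : ℝ => q + s • x) (𝓝[>] 0) (𝓝 q) := by
          have h3 : Tendsto (fun s : ℝ => q + s • x) (𝓝 0) (𝓝 (q + (0 : ℝ) • x)) :=
            (Continuous.tendsto (by fun_prop) 0)
          rw [zero_smul, add_zero] at h3
          exact h3.mono_left nhdsWithin_le_nhds
        have e1 : ∀ᶠ s in 𝓝[>] (0 : ℝ), q + s • x ∈ ball (0 : E3) 3 :=
          hc.eventually (isOpen_ball.mem_nhds hq)
        have e2 : ∀ᶠ s in 𝓝[>] (0 : ℝ), ∀ i : Fin m, q ∉ Qb P (L i) (t i) h →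
            q + s • x ∉ Qb P (L i) (t i) h := by
          refine eventually_all.2 fun i => ?_
          by_cases hi : q ∈ Qb P (L i) (t i) h
          · exact Eventually.of_forall fun s h1 => absurd hi h1
          · filter_upwards [hc.eventually ((isClosed_Qb P (L i) (t i) h).isOpen_compl.mem_nhds hi)]
              with s hs _
            exact hs
        obtain ⟨s, ⟨hs1, hs2⟩, hs0⟩ := ((e1.and e2).and self_mem_nhdsWithin).exists
        have hs0' : 0 < s := hs0
        obtain ⟨i, hi⟩ := hcov _ hs1
        have hqi : q ∈ Qb P (L i) (t i) h := by
          by_contra hcon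
          exact hs2 i hcon hi
        refine ⟨⟨i, hqi⟩, fun f hf => ?_⟩
        rw [hA] at hf
        have h1 : inner ℝ (L i (nrm P f)) (q + s • x - t i) ≤ off P h f := hi f
        have h2 : q + s • x - t i = (q - t i) + s • x := by abel
        have h3 : inner ℝ (L i (nrm P f)) (q - t i) = off P h f := hf
        rw [h2, inner_add_right, h3, inner_smul_right] at h1
        by_contra hcon
        push Not at hcon
        have := mul_pos hs0' hcon
        linarith
      disj := by
        intro i j hij x hxi hxj
        have hc : Tendsto (fun s : ℝ => q + s • x) (𝓝[>] 0) (𝓝 q) := by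
          have h3 : Tendsto (fun s : ℝ => q + s • x) (𝓝 0) (𝓝 (q + (0 : ℝ) • x)) :=
            (Continuous.tendsto (by fun_prop) 0)
          rw [zero_smul, add_zero] at h3
          exact h3.mono_left nhdsWithin_le_nhds
        have e1 : ∀ᶠ s in 𝓝[>] (0 : ℝ), q + s • x ∈ ball (0 : E3) 3 :=
          hc.eventually (isOpen_ball.mem_nhds hq)
        have e2 : ∀ k : {i : Fin m // q ∈ Qb P (L i) (t i) h},
            (∀ f ∈ Finset.univ.filter
              (fun f => inner ℝ (L k.1 (nrm P f)) (q - t k.1) = off P h f),
              inner ℝ (L k.1 (nrm P f)) x < 0) →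
            ∀ᶠ s in 𝓝[>] (0 : ℝ), ∀ f, inner ℝ (L k.1 (nrm P f)) (q + s • x - t k.1) <
              off P h f := by
          intro k hk
          refine eventually_all.2 fun f => ?_
          by_cases hf : inner ℝ (L k.1 (nrm P f)) (q - t k.1) = off P h f
          · have h1 := hk f ((hA k f).2 hf)
            filter_upwards [self_mem_nhdsWithin] with s hs
            have hs' : 0 < s := hs
            have h2 : q + s • x - t k.1 = (q - t k.1) + s • x := by abel
            rw [h2, inner_add_right, hf, inner_smul_right]
            have := mul_neg_of_pos_of_neg hs' h1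
            linarith
          · have h1 : inner ℝ (L k.1 (nrm P f)) (q - t k.1) < off P h f :=
              lt_of_le_of_ne (k.2 f) hf
            have hO : IsOpen {z : E3 | inner ℝ (L k.1 (nrm P f)) (z - t k.1) < off P h f} :=
              isOpen_lt (by fun_prop) continuous_const
            exact hc.eventually (hO.mem_nhds h1)
        obtain ⟨s, ⟨hs1, hs2⟩, hs3⟩ := ((e1.and (e2 i hxi)).and (e2 j hxj)).exists
        exact hdis _ hs1 i.1 j.1 (fun e => hij (Subtype.ext e)) hs2 hs3 }
  exact ⟨D, fun i f => hA i f, fun f => Iff.rfl, fun i f => rfl⟩

end Pool.TC
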