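import Pool.Agent.W_0c5e58_h61.GSeq

/-!
# The local inequality for a bounded number of bounded prisms (compactness)
-/

open MeasureTheory Metric Set Filter
open scoped Topology ENNReal

namespace Pool.TC

variable {N : ℕ}

/-- The overlap outside a null set is in the tubes, hence small: for a fixed polygon there is a
constant `C` with `volume.real (Qb ∩ Tb ∩ ball 0 3) ≤ C ε²`, for all placements.
In the tube of the pair `(k, l)` and in the prism: `|inner (L (nrm k)) (x - t) - c k| ≤ ε`, the same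
for `l`; `upper2` with `g = inner (u k) (u l) ∈ (0,1)`; finitely many pairs. -/
theorem tube_vol {P : Pgon N} (hP : P.Good) :
    ∃ C, 0 ≤ C ∧ ∀ (L : E3 →L[ℝ] E3), (∀ x, ‖L x‖ = ‖x‖) → ∀ t h ε, 0 ≤ ε →
      volume.real (Qb P L t h ∩ Tb P L t ε ∩ ball 0 3) ≤ C * ε ^ 2 := by
  refine ⟨∑ p : Fin N × Fin N, 48 / √(1 - (inner ℝ (P.u p.1) (P.u p.2)) ^ 2),
    Finset.sum_nonneg fun p _ => by positivity, ?_⟩
  intro L hL t h ε hε
  let S : Fin N × Fin N → Set E3 := fun p => {x | (p.1 ≠ p.2 ∧ 0 < inner ℝ (P.u p.1) (P.u p.2)) ∧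
    ‖x‖ ≤ 3 ∧
    |inner ℝ (L (nrm P (Sum.inl p.1))) x - (P.c p.1 + inner ℝ (L (nrm P (Sum.inl p.1))) t)| ≤ ε ∧
    |inner ℝ (L (nrm P (Sum.inl p.2))) x - (P.c p.2 + inner ℝ (L (nrm P (Sum.inl p.2))) t)| ≤ ε}
  have hsub : Qb P L t h ∩ Tb P L t ε ∩ ball 0 3 ⊆ ⋃ p ∈ (Finset.univ : Finset (Fin N × Fin N)),
      S p := by
    rintro x ⟨⟨hx1, k, l, v, hv, hpos, hk, hl⟩, hx3⟩
    have hq1 := hx1 (Sum.inl k)
    have hq2 := hx1 (Sum.inl l)
    have e1 : off P h (Sum.inl k) = P.c k := rfl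
    have e2 : off P h (Sum.inl l) = P.c l := rfl
    rw [e1] at hq1
    rw [e2] at hq2
    rw [inner_sub_right] at hq1 hq2 hk hl
    simp only [mem_iUnion, Finset.mem_univ, exists_prop, true_and]
    refine ⟨(k, l), ⟨hv.1, hpos⟩, ?_, ?_, ?_⟩
    · rw [mem_ball_zero_iff] at hx3
      exact hx3.le
    · rw [abs_le]
      constructor <;> linarith
    · rw [abs_le]
      constructor <;> linarith
  have hSfin : volume (⋃ p ∈ (Finset.univ : Finset (Fin N × Fin N)), S p) ≠ ⊤ := by
    refine ((measure_mono ?_).trans_lt (measure_closedBall_lt_top (x := (0 : E3)) (r := 3))).ne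
    intro x hx
    simp only [mem_iUnion, Finset.mem_univ, exists_prop, true_and] at hx
    obtain ⟨p, _, hp, _⟩ := hx
    rw [mem_closedBall_zero_iff]
    exact hp
  calc volume.real (Qb P L t h ∩ Tb P L t ε ∩ ball 0 3)
      ≤ volume.real (⋃ p ∈ (Finset.univ : Finset (Fin N × Fin N)), S p) :=
        measureReal_mono hsub hSfin
    _ ≤ ∑ p : Fin N × Fin N, volume.real (S p) := measureReal_biUnion_finset_le _ _
    _ ≤ ∑ p : Fin N × Fin N, 48 / √(1 - (inner ℝ (P.u p.1) (P.u p.2)) ^ 2) * ε ^ 2 := by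
        apply Finset.sum_le_sum
        rintro ⟨k, l⟩ _
        by_cases hc : k ≠ l ∧ 0 < inner ℝ (P.u k) (P.u l)
        · have hg := gram_lt_one hP hc.1
          have hg2 : (inner ℝ (P.u k) (P.u l)) ^ 2 < 1 := by nlinarith [hc.2]
          have hin : inner ℝ (L (nrm P (Sum.inl k))) (L (nrm P (Sum.inl l)))
              = inner ℝ (P.u k) (P.u l) := by rw [inner_iso hL, inner_nrm_ll]
          have hu := upper2 (by rw [hL, nrm_unit hP] : ‖L (nrm P (Sum.inl k))‖ = 1)
            (by rw [hL, nrm_unit hP] : ‖L (nrm P (Sum.inl l))‖ = 1) hin hg2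
            (c₁ := P.c k + inner ℝ (L (nrm P (Sum.inl k))) t)
            (c₂ := P.c l + inner ℝ (L (nrm P (Sum.inl l))) t) hε hε
            (by norm_num : (0 : ℝ) ≤ 3) (S := S (k, l)) (fun x hx => hx.2)
          refine hu.trans (le_of_eq ?_)
          simp only
          ring
        · have : S (k, l) = ∅ := by
            rw [eq_empty_iff_forall_notMem]
            intro x hx
            exact hc hx.1
          rw [this, measureReal_empty]
          positivity
    _ = _ := by rw [Finset.sum_mul]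

/-- Hence the total overlap in `ball 0 1` tends to zero with `ε`. -/
theorem overlap_vol {P : Pgon N} (hP : P.Good) (m : ℕ) :
    ∃ C, 0 ≤ C ∧ ∀ (L : Fin m → (E3 →L[ℝ] E3)) (t : Fin m → E3) (h ε : ℝ), 0 ≤ ε →
      (∀ i x, ‖L i x‖ = ‖x‖) →
      (∀ i j, i ≠ j → volume (((Qb P (L i) (t i) h ∩ Qb P (L j) (t j) h) ∩ ball 0 3) \
        (Tb P (L i) (t i) ε ∪ Tb P (L j) (t j) ε)) = 0) →
      ∑ i, ∑ j, (if i = j then 0 else
        volume.real (Qb P (L i) (t i) h ∩ Qb P (L j) (t j) h ∩ ball 0 1)) ≤ C * ε ^ 2 := by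
  obtain ⟨C, hC0, hC⟩ := tube_vol hP
  refine ⟨m * (m * (2 * C)), by positivity, ?_⟩
  intro L t h ε hε hL hnull
  have key : ∀ i j : Fin m, i ≠ j →
      volume.real (Qb P (L i) (t i) h ∩ Qb P (L j) (t j) h ∩ ball 0 1) ≤ 2 * C * ε ^ 2 := by
    intro i j hij
    set A := ((Qb P (L i) (t i) h ∩ Qb P (L j) (t j) h) ∩ ball 0 3) \
      (Tb P (L i) (t i) ε ∪ Tb P (L j) (t j) ε) with hA
    set B := Qb P (L i) (t i) h ∩ Tb P (L i) (t i) ε ∩ ball 0 3 with hB
    set D := Qb P (L j) (t j) h ∩ Tb P (L j) (t j) ε ∩ ball 0 3 with hD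
    have hsub : Qb P (L i) (t i) h ∩ Qb P (L j) (t j) h ∩ ball 0 1 ⊆ A ∪ (B ∪ D) := by
      rintro x ⟨⟨hx1, hx2⟩, hx3⟩
      have hx4 : x ∈ ball (0 : E3) 3 := ball_subset_ball (by norm_num) hx3
      by_cases h1 : x ∈ Tb P (L i) (t i) ε
      · exact Or.inr (Or.inl ⟨⟨hx1, h1⟩, hx4⟩)
      · by_cases h2 : x ∈ Tb P (L j) (t j) ε
        · exact Or.inr (Or.inr ⟨⟨hx2, h2⟩, hx4⟩)
        · exact Or.inl ⟨⟨⟨hx1, hx2⟩, hx4⟩, fun h => h.elim h1 h2⟩
    have hfin : volume (A ∪ (B ∪ D)) ≠ ⊤ := by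
      refine ((measure_mono ?_).trans_lt (measure_ball_lt_top (x := (0 : E3)) (r := 3))).ne
      rintro x (hx | hx | hx)
      · exact hx.1.2
      · exact hx.2
      · exact hx.2
    have hA0 : volume.real A = 0 := by
      rw [Measure.real, hnull i j hij]
      rfl
    calc volume.real (Qb P (L i) (t i) h ∩ Qb P (L j) (t j) h ∩ ball 0 1)
        ≤ volume.real (A ∪ (B ∪ D)) := measureReal_mono hsub hfin
      _ ≤ volume.real A + volume.real (B ∪ D) := measureReal_union_le _ _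
      _ ≤ volume.real A + (volume.real B + volume.real D) := by
          gcongr
          exact measureReal_union_le _ _
      _ ≤ 0 + (C * ε ^ 2 + C * ε ^ 2) := by
          rw [hA0]
          gcongr
          · exact hC (L i) (hL i) (t i) h ε hε
          · exact hC (L j) (hL j) (t j) h ε hε
      _ = 2 * C * ε ^ 2 := by ring
  calc ∑ i, ∑ j, (if i = j then 0 else
        volume.real (Qb P (L i) (t i) h ∩ Qb P (L j) (t j) h ∩ ball 0 1))
      ≤ ∑ _i : Fin m, ∑ _j : Fin m, 2 * C * ε ^ 2 := by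
        apply Finset.sum_le_sum
        intro i _
        apply Finset.sum_le_sum
        intro j _
        split_ifs with hij
        · positivity
        · exact key i j hij
    _ = m * (m * (2 * C)) * ε ^ 2 := by
        rw [Finset.sum_const, Finset.sum_const, Finset.card_univ, Fintype.card_fin, nsmul_eq_mul,
          nsmul_eq_mul]
        ring

/-- **Local inequality, compact form.**

Proof.  Suppose not: for every `n` there are `ε n ∈ [0, 1/(n+1)]`, `h n ∈ [h₀, h₁]`, `L n`, `t n`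
satisfying the hypotheses with `overlap n > η void n`.  Let `F` be the hyperfilter on `ℕ`
(`Filter.hyperfilter`, an ultrafilter, `NeBot`).  The sequences `h n`, `L n i` (norm `≤ 1` in the
finite-dimensional space `E3 →L[ℝ] E3`), `t n i` lie in compact sets, so they converge along `F`
(`IsCompact.ultrafilter_le_nhds`).  By `overlap_vol`, `void n < overlap n / η → 0`.  So we have a
`SeqData P m F`, and `SeqData.total` with `δ = η` contradicts `overlap n > η void n` (an eventual
property along a `NeBot` filter holds for some `n`). -/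
theorem LI_core {P : Pgon N} (hP : P.Good) {h₀ h₁ : ℝ} (h0 : 0 < h₀) (m : ℕ)
    (T₀ : ℝ) {η : ℝ} (hη : 0 < η) :
    ∃ ε₀ > 0, ∀ ε, 0 ≤ ε → ε ≤ ε₀ → ∀ h ∈ Icc h₀ h₁,
      ∀ (L : Fin m → (E3 →L[ℝ] E3)) (t : Fin m → E3), (∀ i x, ‖L i x‖ = ‖x‖) →
      (∀ i, ‖t i‖ ≤ T₀) →
      (∀ i j, i ≠ j → volume (((Qb P (L i) (t i) h ∩ Qb P (L j) (t j) h) ∩ ball 0 3) \
        (Tb P (L i) (t i) ε ∪ Tb P (L j) (t j) ε)) = 0) →
      ∑ i, ∑ j, (if i = j then 0 else
        volume.real (Qb P (L i) (t i) h ∩ Qb P (L j) (t j) h ∩ ball 0 1)) ≤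
        η * volume.real (ball (0 : E3) 3 \ ⋃ i, Qb P (L i) (t i) h) := by
  by_contra hcon
  push Not at hcon
  have hpos : ∀ n : ℕ, (0 : ℝ) < 1 / ((n : ℝ) + 1) := fun n => by positivity
  choose ε hε0 hε1 h hh L t hiso ht hnull hover using fun n : ℕ => hcon (1 / ((n : ℝ) + 1)) (hpos n)
  set F : Filter ℕ := (hyperfilter ℕ : Filter ℕ) with hF
  -- the limits
  obtain ⟨h', hh', hlim⟩ := (isCompact_Icc (a := h₀) (b := h₁)).ultrafilter_le_nhds
    (Ultrafilter.map h (hyperfilter ℕ)) (by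
      rw [le_principal_iff, Ultrafilter.coe_map, Filter.mem_map]
      exact Filter.univ_mem' (fun n => hh n))
  have hprop : ProperSpace (E3 →L[ℝ] E3) := FiniteDimensional.proper ℝ _
  have hLn : ∀ n i, ‖L n i‖ ≤ 1 := fun n i =>
    ContinuousLinearMap.opNorm_le_bound _ zero_le_one fun x => by rw [hiso n i x, one_mul]
  have hLlim : ∀ i, ∃ L', Tendsto (fun n => L n i) F (𝓝 L') := by
    intro i
    obtain ⟨L', _, hL'⟩ := (isCompact_closedBall (0 : E3 →L[ℝ] E3) 1).ultrafilter_le_nhds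
      (Ultrafilter.map (fun n => L n i) (hyperfilter ℕ)) (by
        rw [le_principal_iff, Ultrafilter.coe_map, Filter.mem_map]
        exact Filter.univ_mem' (fun n => by
          show L n i ∈ closedBall (0 : E3 →L[ℝ] E3) 1
          rw [mem_closedBall_zero_iff]
          exact hLn n i))
    exact ⟨L', hL'⟩
  have htlim : ∀ i, ∃ t', Tendsto (fun n => t n i) F (𝓝 t') := by
    intro i
    obtain ⟨t', _, ht'⟩ := (isCompact_closedBall (0 : E3) T₀).ultrafilter_le_nhds
      (Ultrafilter.map (fun n => t n i) (hyperfilter ℕ)) (by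
        rw [le_principal_iff, Ultrafilter.coe_map, Filter.mem_map]
        exact Filter.univ_mem' (fun n => by
          show t n i ∈ closedBall (0 : E3) T₀
          rw [mem_closedBall_zero_iff]
          exact ht n i))
    exact ⟨t', ht'⟩
  choose L' hL' using hLlim
  choose t' ht' using htlim
  have hle : F ≤ atTop := Nat.hyperfilter_le_atTop
  have hεlim : Tendsto ε F (𝓝 0) :=
    squeeze_zero hε0 hε1 (tendsto_one_div_add_atTop_nhds_zero_nat.mono_left hle)
  obtain ⟨C, hC0, hC⟩ := overlap_vol hP m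
  have hvlim : Tendsto (fun n => volume.real (ball (0 : E3) 3 \
      ⋃ i, Qb P (L n i) (t n i) (h n))) F (𝓝 0) := by
    have h1 : Tendsto (fun n => C * ε n ^ 2 / η) F (𝓝 (C * 0 ^ 2 / η)) :=
      ((hεlim.pow 2).const_mul C).div_const η
    have h2 : C * (0 : ℝ) ^ 2 / η = 0 := by simp
    rw [h2] at h1
    refine squeeze_zero (fun n => measureReal_nonneg) (fun n => ?_) h1
    rw [le_div_iff₀ hη]
    have h3 := hover n
    have h4 := hC (L n) (t n) (h n) (ε n) (hε0 n) (hiso n) (hnull n)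
    linarith
  let A : SeqData P m F := {
    h := h
    L := L
    t := t
    ε := ε
    h' := h'
    L' := L'
    t' := t'
    h'pos := h0.trans_le hh'.1
    iso := hiso
    th := hlim
    tL := hL'
    tt := ht'
    tε := hεlim
    εnn := hε0
    null := hnull
    tvoid := hvlim }
  obtain ⟨n, hn⟩ := (SeqData.total hP A hη).exists
  exact absurd hn (not_le.mpr (hover n))

end Pool.TC
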