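import Pool.Agent.W_0c5e58_h61.GDefs

/-!
# Measure utilities
-/

open MeasureTheory Metric Set Filter
open scoped Topology ENNReal

namespace Pool.TC

/-- Isometries of Euclidean space preserve the volume of every set. -/
theorem vol_isom {n : ℕ} (g : EuclideanSpace ℝ (Fin n) ≃ᵢ EuclideanSpace ℝ (Fin n))
    (S : Set (EuclideanSpace ℝ (Fin n))) : volume (g '' S) = volume S := by
  have h1 : (g : EuclideanSpace ℝ (Fin n) → EuclideanSpace ℝ (Fin n)) '' S =
      (fun y => y + g 0) '' (g.toRealLinearIsometryEquiv '' S) := by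
    rw [image_image]
    apply image_congr
    intro x _
    simp
  rw [h1, image_add_right, measure_preimage_add_right]
  have h2 := (g.toRealLinearIsometryEquiv).symm.measurePreserving
  have h3 : (g.toRealLinearIsometryEquiv : EuclideanSpace ℝ (Fin n) → EuclideanSpace ℝ (Fin n)) '' S
      = (g.toRealLinearIsometryEquiv).symm ⁻¹' S := by
    ext x
    constructor
    · rintro ⟨y, hy, rfl⟩
      simpa using hy
    · intro hx
      exact ⟨_, hx, by simp⟩
  rw [h3]
  exact h2.measure_preimage_emb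
    (g.toRealLinearIsometryEquiv).symm.toHomeomorph.measurableEmbedding S

/-- the map `(y, z) ↦ (y, z)` from the product to space -/
noncomputable def GVol_up (y : E2) (z : ℝ) : E3 := WithLp.toLp 2 ![y 0, y 1, z]

theorem GVol_pr_up (y : E2) (z : ℝ) : pr (GVol_up y z) = y := by
  ext i
  fin_cases i <;> simp [pr, GVol_up]

theorem GVol_up_two (y : E2) (z : ℝ) : (GVol_up y z) 2 = z := by
  simp [GVol_up]

theorem GVol_up_pr (x : E3) : GVol_up (pr x) (x 2) = x := by
  ext i
  fin_cases i <;> simp [pr, GVol_up]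

theorem GVol_pr_cont : Continuous (pr : E3 → E2) := by
  unfold pr
  apply (PiLp.continuous_toLp 2 _).comp
  fun_prop

theorem GVol_up_cont : Continuous (fun p : E2 × ℝ => GVol_up p.1 p.2) := by
  unfold GVol_up
  apply (PiLp.continuous_toLp 2 _).comp
  apply continuous_pi
  intro i
  fin_cases i
  · simp; fun_prop
  · simp; fun_prop
  · simp; fun_prop

/-- the homeomorphism of space and plane times line -/
noncomputable def GVol_H : E3 ≃ₜ E2 × ℝ where
  toFun x := (pr x, x 2)
  invFun p := GVol_up p.1 p.2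
  left_inv x := GVol_up_pr x
  right_inv p := by
    simp only [GVol_pr_up, GVol_up_two]
  continuous_toFun := by
    have := GVol_pr_cont
    fun_prop
  continuous_invFun := GVol_up_cont

theorem GVol_cyl (K : Set E2) (h : ℝ) : cyl K h = GVol_H ⁻¹' (K ×ˢ Icc 0 h) := by
  ext x
  simp only [cyl, mem_ofPred_eq, mem_preimage, mem_prod, mem_Icc]
  rfl

/-- More generally the volume of `{x | pr x ∈ S, a ≤ x₂ ≤ b}`. -/
theorem GVol_slab {S : Set E2} (hS : MeasurableSet S) {a b : ℝ} (hab : a ≤ b) :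
    volume {x : E3 | pr x ∈ S ∧ a ≤ x 2 ∧ x 2 ≤ b} = volume S * ENNReal.ofReal (b - a) := by
  have h1 := (EuclideanSpace.volume_preserving_symm_measurableEquiv_toLp (Fin 3))
  have h2 := volume_preserving_piFinSuccAbove (fun _ : Fin 3 => ℝ) (Fin.last 2)
  have h3 := (EuclideanSpace.volume_preserving_symm_measurableEquiv_toLp (Fin 2)).symm
  have h4 : MeasurePreserving (fun x : E3 => (x 2, pr x)) volume
      ((volume : Measure ℝ).prod (volume : Measure E2)) := by
    have h5 := ((MeasurePreserving.id (volume : Measure ℝ)).prod h3).comp (h2.comp h1)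
    have h7 : (fun x : E3 => (x 2, pr x)) = (Prod.map id (MeasurableEquiv.toLp 2 (Fin 2 → ℝ)).symm.symm ∘
      (MeasurableEquiv.piFinSuccAbove (fun _ : Fin 3 => ℝ) (Fin.last 2)) ∘
        (MeasurableEquiv.toLp 2 (Fin 3 → ℝ)).symm) := by
      funext x
      refine Prod.ext rfl ?_
      ext i
      fin_cases i <;> rfl
    rw [h7]
    exact h5
  have h6 : {x : E3 | pr x ∈ S ∧ a ≤ x 2 ∧ x 2 ≤ b} = (fun x : E3 => (x 2, pr x)) ⁻¹' (Icc a b ×ˢ S) := by
    ext x
    simp only [mem_ofPred_eq, mem_preimage, mem_prod, mem_Icc]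
    tauto
  rw [h6, h4.measure_preimage (measurableSet_Icc.prod hS).nullMeasurableSet, Measure.prod_prod,
    Real.volume_Icc, mul_comm]

/-- Volume of a cylinder (`K` measurable): Fubini for `E3 ≃ E2 × ℝ`. -/
theorem vol_cyl {K : Set E2} (hK : MeasurableSet K) {h : ℝ} (hh : 0 ≤ h) :
    volume (cyl K h) = volume K * ENNReal.ofReal h := by
  have h1 := GVol_slab hK hh
  rw [sub_zero] at h1
  exact h1

/-- More generally the volume of `{x | pr x ∈ S, a ≤ x₂ ≤ b}`. -/
theorem vol_slab {S : Set E2} (hS : MeasurableSet S) {a b : ℝ} (hab : a ≤ b) :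
    volume {x : E3 | pr x ∈ S ∧ a ≤ x 2 ∧ x 2 ≤ b} = volume S * ENNReal.ofReal (b - a) := by
  exact GVol_slab hS hab

theorem cyl_compact {K : Set E2} (hK : IsCompact K) (h : ℝ) : IsCompact (cyl K h) := by
  rw [GVol_cyl, Homeomorph.isCompact_preimage]
  exact hK.prod isCompact_Icc

theorem GVol_pr_add (x y : E3) : pr (x + y) = pr x + pr y := by
  ext i; simp [pr]

theorem GVol_pr_smul (a : ℝ) (x : E3) : pr (a • x) = a • pr x := by
  ext i; simp [pr]

theorem cyl_convex {K : Set E2} (hK : Convex ℝ K) (h : ℝ) : Convex ℝ (cyl K h) := by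
  intro x hx y hy a b ha hb hab
  obtain ⟨x1, x2, x3⟩ := hx
  obtain ⟨y1, y2, y3⟩ := hy
  refine ⟨?_, ?_, ?_⟩
  · have h1 : pr (a • x + b • y) ∈ K := by
      rw [GVol_pr_add, GVol_pr_smul, GVol_pr_smul]
      exact hK x1 y1 ha hb hab
    exact h1
  · simp only [PiLp.add_apply, PiLp.smul_apply, smul_eq_mul]
    positivity
  · simp only [PiLp.add_apply, PiLp.smul_apply, smul_eq_mul]
    calc a * x 2 + b * y 2 ≤ a * h + b * h :=
          add_le_add (mul_le_mul_of_nonneg_left x3 ha) (mul_le_mul_of_nonneg_left y3 hb)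
      _ = h := by rw [← add_mul, hab, one_mul]

theorem GVol_interior (K : Set E2) (h : ℝ) (x : E3) :
    x ∈ interior (cyl K h) ↔ pr x ∈ interior K ∧ 0 < x 2 ∧ x 2 < h := by
  rw [GVol_cyl, ← Homeomorph.preimage_interior, interior_prod_eq, interior_Icc]
  rfl

/-- Interior points of the cylinder project to interior points. -/
theorem pr_interior {K : Set E2} {h : ℝ} {x : E3} (hx : x ∈ interior (cyl K h)) :
    pr x ∈ interior K ∧ 0 < x 2 ∧ x 2 < h := by
  exact (GVol_interior K h x).1 hx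

/-- and conversely. -/
theorem interior_cyl {K : Set E2} {h : ℝ} {x : E3} (hx : pr x ∈ interior K) (h0 : 0 < x 2)
    (h1 : x 2 < h) : x ∈ interior (cyl K h) := by
  exact (GVol_interior K h x).2 ⟨hx, h0, h1⟩

theorem GVol_dist (x y : E3) : dist x y = Real.sqrt (dist (pr x) (pr y) ^ 2 + (x 2 - y 2) ^ 2) := by
  rw [EuclideanSpace.dist_eq, EuclideanSpace.dist_eq, Real.sq_sqrt (by positivity)]
  congr 1
  rw [Fin.sum_univ_three, Fin.sum_univ_two]
  simp only [Real.dist_eq, sq_abs]
  simp [pr]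

/-- The lift of a plane isometry and a vertical shift `s` to space:
`(x, z) ↦ (g x, z + s)`. -/
theorem exists_lift (g : E2 ≃ᵢ E2) (s : ℝ) :
    ∃ G : E3 ≃ᵢ E3, ∀ x, pr (G x) = g (pr x) ∧ G x 2 = x 2 + s := by
  refine ⟨IsometryEquiv.mk' (fun x => GVol_up (g (pr x)) (x 2 + s))
    (fun x => GVol_up (g.symm (pr x)) (x 2 - s)) ?_ ?_, ?_⟩
  · intro x
    simp only [GVol_pr_up, GVol_up_two, IsometryEquiv.apply_symm_apply, sub_add_cancel, GVol_up_pr]
  · refine Isometry.of_dist_eq ?_
    intro x y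
    rw [GVol_dist, GVol_dist x y]
    simp only [GVol_pr_up, GVol_up_two, g.dist_eq, add_sub_add_right_eq_sub]
  · intro x
    exact ⟨GVol_pr_up _ _, GVol_up_two _ _⟩

/-- Volume of balls: `volume (ball 0 (r + a)) / volume (ball 0 r) → 1` as `r → ∞`. -/
theorem ball_ratio {n : ℕ} (hn : 0 < n) (a : ℝ) :
    Tendsto (fun r : ℝ => volume (ball (0 : EuclideanSpace ℝ (Fin n)) (r + a)) /
      volume (ball (0 : EuclideanSpace ℝ (Fin n)) r)) atTop (𝓝 1) := by
  have : Nonempty (Fin n) := ⟨⟨0, hn⟩⟩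
  have h1 : Tendsto (fun r : ℝ => ENNReal.ofReal (((r + a) / r) ^ n)) atTop (𝓝 1) := by
    rw [← ENNReal.ofReal_one]
    apply ENNReal.tendsto_ofReal
    have h2 : Tendsto (fun r : ℝ => (1 + a / r) ^ n) atTop (𝓝 ((1 + 0) ^ n)) := by
      apply Tendsto.pow
      apply Tendsto.add tendsto_const_nhds
      exact tendsto_const_nhds.div_atTop tendsto_id
    rw [add_zero, one_pow] at h2
    apply h2.congr'
    filter_upwards [eventually_gt_atTop 0] with r hr
    congr 1
    field_simp
  apply h1.congr'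
  filter_upwards [eventually_gt_atTop 0, eventually_gt_atTop (-a)] with r hr hr2
  have h3 : 0 < r + a := by linarith
  have e1 := Measure.addHaar_ball (volume : Measure (EuclideanSpace ℝ (Fin n))) 0 hr.le
  have e2 := Measure.addHaar_ball (volume : Measure (EuclideanSpace ℝ (Fin n))) 0 h3.le
  rw [e1, e2, finrank_euclideanSpace_fin]
  have hv : volume (ball (0 : EuclideanSpace ℝ (Fin n)) 1) ≠ 0 :=
    (measure_ball_pos _ _ one_pos).ne'
  have hv2 : volume (ball (0 : EuclideanSpace ℝ (Fin n)) 1) ≠ ⊤ := measure_ball_lt_top.ne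
  rw [ENNReal.mul_div_mul_right _ _ hv hv2, ← ENNReal.ofReal_div_of_pos (by positivity), div_pow]

end Pool.TC
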