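import Pool.Agent.W_0c5e58_h61.GCore
import Pool.Agent.W_0c5e58_h61.GVol

/-!
# The local inequality for all finite families
-/

open MeasureTheory Metric Set Filter
open scoped Topology ENNReal

namespace Pool.TC

variable {N : ℕ}

theorem GCount_norm_pr (x : E3) : ‖pr x‖ ≤ ‖x‖ := by
  have h := GVol_dist x 0
  have h0 : pr (0 : E3) = 0 := by
    ext i
    simp [pr]
  rw [h0, dist_zero_right, dist_zero_right] at h
  rw [h]
  refine Real.le_sqrt_of_sq_le ?_
  nlinarith [sq_nonneg (x 2 - (0 : E3) 2)]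

theorem GCount_abs_two (x : E3) : |x 2| ≤ ‖x‖ := by
  have h := PiLp.norm_apply_le x 2
  rwa [Real.norm_eq_abs] at h

theorem GCount_pr_sub (x y : E3) : pr (x - y) = pr x - pr y := by
  ext i
  simp [pr]

/-- For `ε ≤ ε₁`, `h ≥ h₀` every moved prism contains a ball of radius `r₀` which misses its tubes.
(Disc of `disc_margin`, radius `r`; at height `h₀/2`; `r₀ = min r (h₀/2)`, `ε₁ = r`: a point of the
moved ball has all lateral values `< c k - r ≤ c k - ε`.)  The center is within `R₁` of `t`. -/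
theorem core_ball {P : Pgon N} (hP : P.Good) {h₀ : ℝ} (h0 : 0 < h₀) :
    ∃ r₀ > 0, ∃ ε₁ > 0, ∃ R₁, ∀ (L : E3 →L[ℝ] E3), (∀ x, ‖L x‖ = ‖x‖) → ∀ t h, h₀ ≤ h →
      ∃ y, ‖y - t‖ ≤ R₁ ∧ ball y r₀ ⊆ Qb P L t h ∧
        ∀ ε ≤ ε₁, Disjoint (ball y r₀) (Tb P L t ε) := by
  obtain ⟨y₀, r, hr, hdisc⟩ := disc_margin hP
  refine ⟨min r (h₀ / 2), lt_min hr (by linarith), r, hr, ‖GVol_up y₀ (h₀ / 2)‖, ?_⟩
  intro L hL t h hh
  have key : ∀ x ∈ ball (L (GVol_up y₀ (h₀ / 2)) + t) (min r (h₀ / 2)),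
      ∃ z : E3, x - t = L z ∧ (∀ k, inner ℝ (P.u k) (pr z) < P.c k - r) ∧ 0 < z 2 ∧ z 2 < h₀ := by
    intro x hx
    obtain ⟨z, hz⟩ := iso_surj hL (x - t)
    refine ⟨z, hz.symm, ?_⟩
    have h1 : ‖z - GVol_up y₀ (h₀ / 2)‖ < min r (h₀ / 2) := by
      rw [mem_ball, dist_eq_norm] at hx
      rw [← hL, map_sub, hz]
      have h2 : x - t - L (GVol_up y₀ (h₀ / 2)) = x - (L (GVol_up y₀ (h₀ / 2)) + t) := by abel
      rw [h2]
      exact hx
    have h3 : ‖z - GVol_up y₀ (h₀ / 2)‖ < r := h1.trans_le (min_le_left _ _)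
    have h4 : ‖z - GVol_up y₀ (h₀ / 2)‖ < h₀ / 2 := h1.trans_le (min_le_right _ _)
    have h5 : pr z ∈ ball y₀ r := by
      rw [mem_ball, dist_eq_norm]
      have h6 := GCount_norm_pr (z - GVol_up y₀ (h₀ / 2))
      rw [GCount_pr_sub, GVol_pr_up] at h6
      exact h6.trans_lt h3
    have h7 := GCount_abs_two (z - GVol_up y₀ (h₀ / 2))
    rw [PiLp.sub_apply, GVol_up_two] at h7
    have h8 := abs_lt.1 (h7.trans_lt h4)
    exact ⟨fun k => hdisc _ h5 k, by linarith [h8.1], by linarith [h8.2]⟩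
  refine ⟨L (GVol_up y₀ (h₀ / 2)) + t, ?_, ?_, ?_⟩
  · rw [add_sub_cancel_right, hL]
  · intro x hx
    obtain ⟨z, hz, hz1, hz2, hz3⟩ := key x hx
    rintro (k | b)
    · rw [hz, inner_iso hL, inner_nrm_pr]
      have h1 := hz1 k
      simp only [off]
      linarith
    · rw [hz, inner_iso hL]
      cases b
      · rw [(inner_nrm_end P z).2]
        simp only [off]
        linarith
      · rw [(inner_nrm_end P z).1]
        simp only [off]
        linarith
  · intro ε hε
    rw [Set.disjoint_left]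
    intro x hx hxT
    obtain ⟨z, hz, hz1, hz2, hz3⟩ := key x hx
    obtain ⟨k, l, v, -, -, hk, -⟩ := hxT
    rw [hz, inner_iso hL, inner_nrm_pr] at hk
    linarith [hz1 k]

/-- In a `Fam` with small `ε` the number of prisms meeting `ball p 3` is bounded: their core balls
(`core_ball`) are disjoint (two open balls with null intersection are disjoint) and lie in a ball
of radius `3 + 2 (R₀ + h₁) + R₁ + r₀` or similar around `p`; compare volumes. -/
theorem card_bound {P : Pgon N} (hP : P.Good) {h₀ h₁ : ℝ} (h0 : 0 < h₀) :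
    ∃ M : ℕ, ∃ ε₁ > 0, ∀ ε, 0 ≤ ε → ε ≤ ε₁ → ∀ h ∈ Icc h₀ h₁, ∀ (κ : Type) [Fintype κ]
      [DecidableEq κ] (A : Fam P h ε κ) (p : E3) (s : Finset κ),
      (∀ i ∈ s, (A.Q i ∩ ball p 3).Nonempty) → s.card ≤ M := by
  obtain ⟨r₀, hr₀, ε₁, hε₁, R₁, hcore⟩ := core_ball hP h0
  obtain ⟨R₀, hR₀, hQb⟩ := Qb_bound hP
  set R : ℝ := R₁ + (3 + (R₀ + h₁)) + r₀ with hR
  refine ⟨⌈volume.real (ball (0 : E3) R) / volume.real (ball (0 : E3) r₀)⌉₊, ε₁, hε₁, ?_⟩
  intro ε hε0 hε h hh κ _ _ A p s hs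
  choose y hy1 hy2 hy3 using fun i => hcore (A.L i) (A.iso i) (A.t i) h hh.1
  have hvol : ∀ (c : E3) (r : ℝ), volume (ball c r) = volume (ball (0 : E3) r) := by
    intro c r
    exact Measure.addHaar_ball_center volume c r
  have hdisj : ∀ i j, i ≠ j → Disjoint (ball (y i) r₀) (ball (y j) r₀) := by
    intro i j hij
    have hsub : ball (y i) r₀ ∩ ball (y j) r₀ ⊆ (Qb P (A.L i) (A.t i) h ∩
        Qb P (A.L j) (A.t j) h) \ (Tb P (A.L i) (A.t i) ε ∪ Tb P (A.L j) (A.t j) ε) := by
      rintro x ⟨hx1, hx2⟩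
      refine ⟨⟨hy2 i hx1, hy2 j hx2⟩, ?_⟩
      rintro (hx | hx)
      · exact Set.disjoint_left.1 (hy3 i ε hε) hx1 hx
      · exact Set.disjoint_left.1 (hy3 j ε hε) hx2 hx
    have h1 := measure_mono_null hsub (A.null i j hij)
    have h2 : IsOpen (ball (y i) r₀ ∩ ball (y j) r₀) := isOpen_ball.inter isOpen_ball
    rw [Set.disjoint_iff_inter_eq_empty]
    exact (h2.measure_eq_zero_iff volume).1 h1
  have hin : ∀ i ∈ s, ball (y i) r₀ ⊆ ball p R := by
    intro i hi x hx
    obtain ⟨w, hw1, hw2⟩ := hs i hi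
    have h1 := hQb (A.L i) (A.iso i) (A.t i) h w hw1
    have h2 := hy1 i
    rw [mem_ball] at hx hw2 ⊢
    have h3 : dist x p ≤ dist x (y i) + (dist (y i) (A.t i) + (dist (A.t i) w + dist w p)) := by
      refine (dist_triangle _ (y i) _).trans ?_
      gcongr
      refine (dist_triangle _ (A.t i) _).trans ?_
      gcongr
      exact dist_triangle _ _ _
    rw [dist_eq_norm (y i), dist_comm (A.t i) w, dist_eq_norm w (A.t i)] at h3
    have h4 := hh.2
    rw [hR]
    linarith
  have h1 : (s.card : ℝ≥0∞) * volume (ball (0 : E3) r₀) ≤ volume (ball (0 : E3) R) := by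
    calc (s.card : ℝ≥0∞) * volume (ball (0 : E3) r₀) = ∑ i ∈ s, volume (ball (y i) r₀) := by
          rw [Finset.sum_congr rfl (fun i _ => hvol (y i) r₀), Finset.sum_const, nsmul_eq_mul]
      _ = volume (⋃ i ∈ s, ball (y i) r₀) := by
          rw [measure_biUnion_finset]
          · intro i _ j _ hij
            exact hdisj i j hij
          · intro i _
            exact measurableSet_ball
      _ ≤ volume (ball p R) := measure_mono (iUnion₂_subset hin)
      _ = volume (ball (0 : E3) R) := hvol p R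
  have hfin : ∀ r : ℝ, volume (ball (0 : E3) r) ≠ ⊤ := fun r => measure_ball_lt_top.ne
  have h2 : (s.card : ℝ) * volume.real (ball (0 : E3) r₀) ≤ volume.real (ball (0 : E3) R) := by
    have h3 := ENNReal.toReal_mono (hfin R) h1
    rw [ENNReal.toReal_mul, ENNReal.toReal_natCast] at h3
    exact h3
  have hpos : 0 < volume.real (ball (0 : E3) r₀) :=
    ENNReal.toReal_pos (measure_ball_pos volume _ hr₀).ne' (hfin r₀)
  have h4 : (s.card : ℝ) ≤ volume.real (ball (0 : E3) R) / volume.real (ball (0 : E3) r₀) := by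
    rw [le_div_iff₀ hpos]
    exact h2
  exact_mod_cast h4.trans (Nat.le_ceil _)

theorem GCount_sum {κ : Type} [Fintype κ] (J : Finset κ) (G : κ → ℝ) (h : ∀ i ∉ J, G i = 0) :
    ∑ i, G i = ∑ a : Fin J.card, G (J.equivFin.symm a).1 := by
  rw [← Finset.sum_subset (Finset.subset_univ J) (fun i _ hi => h i hi)]
  rw [← Finset.sum_coe_sort J]
  exact (Equiv.sum_comp J.equivFin.symm (fun x : J => G x.1)).symm

theorem GCount_Qb (P : Pgon N) (L : E3 →L[ℝ] E3) (t p : E3) (h : ℝ) :
    Qb P L (t - p) h = (fun x => x + p) ⁻¹' Qb P L t h := by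
  ext x
  have h1 : x - (t - p) = x + p - t := by abel
  simp only [Qb, mem_ofPred_eq, mem_preimage, h1]

theorem GCount_Tb (P : Pgon N) (L : E3 →L[ℝ] E3) (t p : E3) (ε : ℝ) :
    Tb P L (t - p) ε = (fun x => x + p) ⁻¹' Tb P L t ε := by
  ext x
  have h1 : x - (t - p) = x + p - t := by abel
  simp only [Tb, mem_ofPred_eq, mem_preimage, h1]

theorem GCount_ball (p : E3) (r : ℝ) : ball (0 : E3) r = (fun x => x + p) ⁻¹' ball p r := by
  ext x
  simp only [mem_ball, mem_preimage, dist_eq_norm]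
  rw [sub_zero, add_sub_cancel_right]

theorem GCount_vol (p : E3) (S : Set E3) : volume ((fun x => x + p) ⁻¹' S) = volume S :=
  measure_preimage_add_right volume p S

/-- **Local inequality.**  Let `J` be the set of indices with `Q i ∩ ball p 3 ≠ ∅`; the other
prisms contribute nothing to both sides.  `J.card = m ≤ M` by `card_bound`.  Translate by `- p`
(`Qb P L (t - p) h` is the translate of `Qb P L t h`, the same for tubes, volume is translation
invariant) and enumerate `J` by `Fin m`; `‖t i - p‖ ≤ 3 + R₀ + h₁` for `i ∈ J` (`Qb_bound`).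
Apply `LI_core` for this `m`; `ε₀` = the minimum over `m ≤ M` and `ε₁`. -/
theorem LI {P : Pgon N} (hP : P.Good) {h₀ h₁ : ℝ} (h0 : 0 < h₀) {η : ℝ} (hη : 0 < η) :
    ∃ ε₀ > 0, ∀ ε, 0 ≤ ε → ε ≤ ε₀ → ∀ h ∈ Icc h₀ h₁, ∀ (κ : Type) [Fintype κ]
      [DecidableEq κ] (A : Fam P h ε κ) (p : E3),
      ∑ i, ∑ j, (if i = j then 0 else volume.real (A.Q i ∩ A.Q j ∩ ball p 1)) ≤
        η * volume.real (ball p 3 \ ⋃ i, A.Q i) := by
  classical
  obtain ⟨M, ε₁, hε₁, hM⟩ := card_bound (h₁ := h₁) hP h0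
  obtain ⟨R₀, hR₀, hQb⟩ := Qb_bound hP
  choose e he1 he2 using fun m : ℕ => LI_core (h₁ := h₁) hP h0 m (3 + (R₀ + h₁)) hη
  have hne : (Finset.range (M + 1)).Nonempty := ⟨0, by simp⟩
  refine ⟨min ε₁ ((Finset.range (M + 1)).inf' hne e), ?_, ?_⟩
  · refine lt_min hε₁ ?_
    rw [Finset.lt_inf'_iff]
    exact fun m _ => he1 m
  intro ε hε0 hε h hh κ _ _ A p
  set J : Finset κ := Finset.univ.filter (fun i => (A.Q i ∩ ball p 3).Nonempty) with hJ
  have hJM : J.card ≤ M := by
    refine hM ε hε0 (hε.trans (min_le_left _ _)) h hh κ A p J ?_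
    intro i hi
    exact (Finset.mem_filter.1 hi).2
  have hεJ : ε ≤ e J.card := by
    refine (hε.trans (min_le_right _ _)).trans ?_
    exact Finset.inf'_le _ (Finset.mem_range.2 (by omega))
  have hempty : ∀ i ∉ J, ∀ x ∈ A.Q i, x ∉ ball p 3 := by
    intro i hi x hx hx3
    exact hi (Finset.mem_filter.2 ⟨Finset.mem_univ _, ⟨x, hx, hx3⟩⟩)
  have hb13 : ball p 1 ⊆ ball p 3 := ball_subset_ball (by norm_num)
  set σ : Fin J.card → κ := fun a => (J.equivFin.symm a).1 with hσ
  have hσJ : ∀ a, σ a ∈ J := fun a => (J.equivFin.symm a).2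
  have hσi : Function.Injective σ := fun a b hab =>
    J.equivFin.symm.injective (Subtype.ext hab)
  have hcore := he2 J.card ε hε0 hεJ h hh (fun a => A.L (σ a)) (fun a => A.t (σ a) - p)
    (fun a x => A.iso (σ a) x) (by
      intro a
      obtain ⟨w, hw1, hw2⟩ := (Finset.mem_filter.1 (hσJ a)).2
      have h1 := hQb (A.L (σ a)) (A.iso (σ a)) (A.t (σ a)) h w hw1
      rw [mem_ball] at hw2
      rw [← dist_eq_norm]
      have h2 : dist (A.t (σ a)) p ≤ dist (A.t (σ a)) w + dist w p := dist_triangle _ _ _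
      rw [dist_comm (A.t (σ a)) w, dist_eq_norm w (A.t (σ a))] at h2
      have h3 := hh.2
      linarith) (by
      intro a b hab
      rw [GCount_Qb, GCount_Qb, GCount_Tb, GCount_Tb, GCount_ball p, ← preimage_inter,
        ← preimage_inter, ← preimage_union, ← preimage_sdiff, GCount_vol]
      refine measure_mono_null ?_ (A.null (σ a) (σ b) (fun hc => hab (hσi hc)))
      exact sdiff_subset_sdiff_left inter_subset_left)
  have hLHS : ∑ i, ∑ j, (if i = j then 0 else volume.real (A.Q i ∩ A.Q j ∩ ball p 1)) =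
      ∑ a, ∑ b, (if a = b then 0 else volume.real (Qb P (A.L (σ a)) (A.t (σ a) - p) h ∩
        Qb P (A.L (σ b)) (A.t (σ b) - p) h ∩ ball 0 1)) := by
    rw [GCount_sum J]
    · refine Finset.sum_congr rfl fun a _ => ?_
      rw [GCount_sum J]
      · refine Finset.sum_congr rfl fun b _ => ?_
        by_cases hab : a = b
        · rw [if_pos hab, if_pos (by rw [hab])]
        · rw [if_neg hab, if_neg (fun hc => hab (hσi hc))]
          rw [GCount_Qb, GCount_Qb, GCount_ball p, ← preimage_inter, ← preimage_inter]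
          unfold Measure.real
          rw [GCount_vol]
          rfl
      · intro j hj
        split_ifs
        · rfl
        · have h1 : A.Q (J.equivFin.symm a).1 ∩ A.Q j ∩ ball p 1 = ∅ := by
            rw [Set.eq_empty_iff_forall_notMem]
            rintro x ⟨⟨_, hx2⟩, hx3⟩
            exact hempty j hj x hx2 (hb13 hx3)
          rw [h1]
          simp
    · intro i hi
      refine Finset.sum_eq_zero fun j _ => ?_
      split_ifs
      · rfl
      · have h1 : A.Q i ∩ A.Q j ∩ ball p 1 = ∅ := by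
          rw [Set.eq_empty_iff_forall_notMem]
          rintro x ⟨⟨hx1, _⟩, hx3⟩
          exact hempty i hi x hx1 (hb13 hx3)
        rw [h1]
        simp
  have hRHS : volume.real (ball p 3 \ ⋃ i, A.Q i) =
      volume.real (ball (0 : E3) 3 \ ⋃ a, Qb P (A.L (σ a)) (A.t (σ a) - p) h) := by
    have h1 : ball (0 : E3) 3 \ ⋃ a, Qb P (A.L (σ a)) (A.t (σ a) - p) h =
        (fun x => x + p) ⁻¹' (ball p 3 \ ⋃ i, A.Q i) := by
      rw [preimage_sdiff, ← GCount_ball]
      ext x
      simp only [Set.mem_sdiff, mem_iUnion, mem_preimage, not_exists]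
      refine and_congr_right fun hx => ?_
      constructor
      · intro hx1 i hi
        by_cases hiJ : i ∈ J
        · have h2 := hx1 (J.equivFin ⟨i, hiJ⟩)
          rw [GCount_Qb] at h2
          apply h2
          have h3 : σ (J.equivFin ⟨i, hiJ⟩) = i := by
            simp [hσ]
          rw [h3]
          exact hi
        · refine hempty i hiJ _ hi ?_
          rw [GCount_ball p] at hx
          exact hx
      · intro hx1 a ha
        rw [GCount_Qb] at ha
        exact hx1 (σ a) ha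
    unfold Measure.real
    rw [h1, GCount_vol]
  rw [hLHS, hRHS]
  exact hcore

end Pool.TC
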