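import Pool.Agent.W_0c5e58_h61.LDefs

/-!
# Global part: definitions
-/

open MeasureTheory Metric Set Filter
open scoped Topology ENNReal

namespace Pool.TC

/-- data of a convex polygon in the plane: outer normals and offsets of `N` half planes -/
structure Pgon (N : ℕ) where
  u : Fin N → E2
  c : Fin N → ℝ

variable {N : ℕ}

/-- the polygon as a set -/
def Pgon.body (P : Pgon N) : Set E2 := {x | ∀ k, inner ℝ (P.u k) x ≤ P.c k}

/-- `v` is a point of the polygon on the two different sides `k, l` -/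
def Pgon.Vertex (P : Pgon N) (k l : Fin N) (v : E2) : Prop :=
  k ≠ l ∧ v ∈ P.body ∧ inner ℝ (P.u k) v = P.c k ∧ inner ℝ (P.u l) v = P.c l

/-- `v` is a vertex with obtuse interior angle -/
def Pgon.Obt (P : Pgon N) (v : E2) : Prop :=
  ∃ k l, P.Vertex k l v ∧ 0 < inner ℝ (P.u k) (P.u l)

/-- A bounded polygon with interior points, with different unit normals, at most two sides through
a point, no acute interior angle (the interior angle at the vertex of the sides `k, l` is
`π - ∠ (u k) (u l)`), and no two obtuse interior angles with sum `3π/2`. -/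
structure Pgon.Good (P : Pgon N) : Prop where
  unit : ∀ k, ‖P.u k‖ = 1
  inj : Function.Injective P.u
  cpt : IsCompact P.body
  int : (interior P.body).Nonempty
  simple : ∀ x ∈ P.body, ∀ k l m, inner ℝ (P.u k) x = P.c k → inner ℝ (P.u l) x = P.c l →
    inner ℝ (P.u m) x = P.c m → k = l ∨ k = m ∨ l = m
  nonacute : ∀ k l v, P.Vertex k l v → 0 ≤ inner ℝ (P.u k) (P.u l)
  star : ∀ k l v k' l' v', P.Vertex k l v → P.Vertex k' l' v' →
    0 < inner ℝ (P.u k) (P.u l) → 0 < inner ℝ (P.u k') (P.u l') →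
    (inner ℝ (P.u k) (P.u l)) ^ 2 + (inner ℝ (P.u k') (P.u l')) ^ 2 ≠ 1

/-- `K` is a compact part of the polygon which contains all its points at distance `≥ ε` from the
obtuse vertices -/
structure Trunc (P : Pgon N) (ε : ℝ) (K : Set E2) : Prop where
  cpt : IsCompact K
  sub : K ⊆ P.body
  sup : ∀ x ∈ P.body, (∀ v, P.Obt v → ε ≤ dist x v) → x ∈ K

/-- the first two coordinates -/
noncomputable def pr (x : E3) : E2 := WithLp.toLp 2 (fun i : Fin 2 => WithLp.ofLp x (Fin.castSucc i))

/-- the right cylinder of height `h` over `K` -/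
def cyl (K : Set E2) (h : ℝ) : Set E3 :=
  {x | WithLp.toLp 2 (fun i : Fin 2 => WithLp.ofLp x (Fin.castSucc i)) ∈ K ∧
    0 ≤ WithLp.ofLp x 2 ∧ WithLp.ofLp x 2 ≤ h}

/-- the packing density of a set in Euclidean `n`-space: supremum of the upper densities of
packings by congruent copies -/
noncomputable def packDensity {n : ℕ} (C : Set (EuclideanSpace ℝ (Fin n))) : ℝ≥0∞ :=
  sSup {d : ℝ≥0∞ | ∃ P : Set (Set (EuclideanSpace ℝ (Fin n))),
    (∀ A ∈ P, ∃ g : EuclideanSpace ℝ (Fin n) ≃ᵢ EuclideanSpace ℝ (Fin n), A = g '' C) ∧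
    P.Pairwise (fun A B => Disjoint (interior A) (interior B)) ∧
    d = Filter.limsup (fun r : ℝ =>
      volume (⋃₀ P ∩ Metric.ball (0 : EuclideanSpace ℝ (Fin n)) r) /
        volume (Metric.ball (0 : EuclideanSpace ℝ (Fin n)) r)) Filter.atTop}

/-- `P` tiles Euclidean `n`-space by congruent copies -/
def Tiles {n : ℕ} (P : Set (EuclideanSpace ℝ (Fin n))) : Prop :=
  ∃ T : Set (EuclideanSpace ℝ (Fin n) ≃ᵢ EuclideanSpace ℝ (Fin n)),
    (⋃ g ∈ T, g '' P) = univ ∧
    T.Pairwise (fun g g' => Disjoint (interior (g '' P)) (interior (g' '' P)))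

/-- outer unit normals of the prism over the polygon: lateral faces `inl k`, top `inr true`,
bottom `inr false` -/
noncomputable def nrm (P : Pgon N) : Fin N ⊕ Bool → E3
  | Sum.inl k => WithLp.toLp 2 ![P.u k 0, P.u k 1, 0]
  | Sum.inr true => WithLp.toLp 2 ![0, 0, 1]
  | Sum.inr false => WithLp.toLp 2 ![0, 0, -1]

/-- offsets of the faces of the prism of height `h` -/
noncomputable def off (P : Pgon N) (h : ℝ) : Fin N ⊕ Bool → ℝ
  | Sum.inl k => P.c k
  | Sum.inr true => h
  | Sum.inr false => 0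

/-- the prism moved by `x ↦ L x + t` -/
noncomputable def Qb (P : Pgon N) (L : E3 →L[ℝ] E3) (t : E3) (h : ℝ) : Set E3 :=
  {x | ∀ f, inner ℝ (L (nrm P f)) (x - t) ≤ off P h f}

/-- the tubes around the obtuse lateral edges of the moved prism -/
noncomputable def Tb (P : Pgon N) (L : E3 →L[ℝ] E3) (t : E3) (ε : ℝ) : Set E3 :=
  {x | ∃ k l v, P.Vertex k l v ∧ 0 < inner ℝ (P.u k) (P.u l) ∧
    P.c k - ε ≤ inner ℝ (L (nrm P (Sum.inl k))) (x - t) ∧
    P.c l - ε ≤ inner ℝ (L (nrm P (Sum.inl l))) (x - t)}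

/-- a family of moved prisms whose overlaps are, up to null sets, in the tubes -/
structure Fam (P : Pgon N) (h ε : ℝ) (κ : Type) where
  L : κ → (E3 →L[ℝ] E3)
  t : κ → E3
  iso : ∀ i x, ‖L i x‖ = ‖x‖
  null : ∀ i j, i ≠ j → volume ((Qb P (L i) (t i) h ∩ Qb P (L j) (t j) h) \
    (Tb P (L i) (t i) ε ∪ Tb P (L j) (t j) ε)) = 0

/-- the body of index `i` -/
noncomputable def Fam.Q {P : Pgon N} {h ε : ℝ} {κ : Type} (A : Fam P h ε κ) (i : κ) : Set E3 :=
  Qb P (A.L i) (A.t i) h

/-- Upper bound property: every finite packing of copies of the cylinder over `K` has the property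
that the surrounding prisms have, in every bounded measurable region, total volume at most the
volume of the 4-neighbourhood of the region. -/
def UB (P : Pgon N) (K : Set E2) (h : ℝ) : Prop :=
  ∀ (κ : Type) [Fintype κ] (g : κ → E3 ≃ᵢ E3),
    Pairwise (fun i j => Disjoint (interior (g i '' cyl K h)) (interior (g j '' cyl K h))) →
    ∀ Ω : Set E3, MeasurableSet Ω → Bornology.IsBounded Ω →
      ∑ i, volume (g i '' cyl P.body h ∩ Ω) ≤ volume (Metric.thickening 4 Ω)

end Pool.TC
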