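import Pool.Agent.W_0c5e58_h61.GCount
import Pool.Agent.W_0c5e58_h61.GAver
import Pool.Agent.W_0c5e58_h61.GVol

/-!
# Packings of truncated cylinders and the upper bound property
-/

open MeasureTheory Metric Set Filter
open scoped Topology ENNReal

namespace Pool.TC

variable {N : ℕ}

/-- A moved truncated cylinder contains the moved prism minus the tubes.  Let `x` be in the prism
`Qb P L t h`, `x = L y + t`, `y ∈ cyl P.body h`, but `x` not in the tube.  Then `pr y` has distance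
`≥ ε` from every obtuse vertex `v` (if `dist (pr y) v < ε` then `inner (u k) (pr y) > c k - ε` for
both sides `k, l` of `v`, so `x ∈ Tb`), hence `pr y ∈ K`. -/
theorem trunc_sup {P : Pgon N} (hP : P.Good) {ε : ℝ} {K : Set E2} (hK : Trunc P ε K)
    {L : E3 →L[ℝ] E3} (hL : ∀ x, ‖L x‖ = ‖x‖) (t : E3) (h : ℝ) :
    Qb P L t h \ Tb P L t ε ⊆ (fun x => L x + t) '' cyl K h := by
  rintro x ⟨hx, hxT⟩
  rw [Qb_image P hL] at hx
  obtain ⟨y, hy, rfl⟩ := hx
  refine ⟨y, ⟨?_, hy.2⟩, rfl⟩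
  have hb : pr y ∈ P.body := hy.1
  refine hK.sup (pr y) hb ?_
  rintro v ⟨k, l, hv, hpos⟩
  by_contra hlt
  push Not at hlt
  apply hxT
  have key : ∀ m : Fin N, inner ℝ (P.u m) v = P.c m →
      P.c m - ε ≤ inner ℝ (L (nrm P (Sum.inl m))) (L y + t - t) := by
    intro m hm
    rw [add_sub_cancel_right, inner_iso hL, inner_nrm_pr]
    have h1 : inner ℝ (P.u m) (pr y) = P.c m + inner ℝ (P.u m) (pr y - v) := by
      rw [inner_sub_right, hm]
      ring
    have h2 : |inner ℝ (P.u m) (pr y - v)| ≤ ε := by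
      refine (abs_real_inner_le_norm _ _).trans ?_
      rw [hP.unit, one_mul, ← dist_eq_norm]
      exact hlt.le
    have h3 := (abs_le.1 h2).1
    rw [h1]
    linarith
  exact ⟨k, l, v, hv, hpos, key k hv.2.2.1, key l hv.2.2.2⟩

theorem GPack_convex (P : Pgon N) (L : E3 →L[ℝ] E3) (t : E3) (h : ℝ) : Convex ℝ (Qb P L t h) := by
  intro x hx y hy a b ha hb hab f
  have h1 : a • x + b • y - t = a • (x - t) + b • (y - t) := by
    have h2 : t = (a + b) • t := by rw [hab, one_smul]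
    nth_rewrite 1 [h2]
    rw [add_smul, smul_sub, smul_sub]
    abel
  rw [h1, inner_add_right, real_inner_smul_right, real_inner_smul_right]
  have h3 := mul_le_mul_of_nonneg_left (hx f) ha
  have h4 := mul_le_mul_of_nonneg_left (hy f) hb
  have h5 : a * off P h f + b * off P h f = off P h f := by rw [← add_mul, hab, one_mul]
  linarith

/-- A finite packing of copies of the truncated cylinder gives a `Fam`: `g i x = L i x + t i`
(`isom_affine`), `Qb` = image of the prism (`Qb_image`).  `null`: the set is contained in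
`frontier (Qb i) ∪ frontier (Qb j)` (null, convex sets, `Convex.addHaar_frontier`): a point of
`interior (Qb i) ∩ interior (Qb j)` outside the closed sets `Tb i, Tb j` has a neighbourhood in
both `g i '' cyl K h` and `g j '' cyl K h` by `trunc_sup`, contradicting disjoint interiors. -/
theorem exists_fam {P : Pgon N} (hP : P.Good) {ε : ℝ} {K : Set E2} (hK : Trunc P ε K) {h : ℝ}
    {κ : Type} (g : κ → E3 ≃ᵢ E3)
    (hg : Pairwise (fun i j => Disjoint (interior (g i '' cyl K h))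
      (interior (g j '' cyl K h)))) :
    ∃ A : Fam P h ε κ, ∀ i, A.Q i = g i '' cyl P.body h := by
  choose L t hL hg' using fun i => isom_affine (g i)
  have hgf : ∀ i, (g i : E3 → E3) = fun x => L i x + t i := fun i => funext (hg' i)
  refine ⟨⟨L, t, hL, ?_⟩, ?_⟩
  · intro i j hij
    have hfr : ∀ i, volume (frontier (Qb P (L i) (t i) h)) = 0 := fun i =>
      (GPack_convex P (L i) (t i) h).addHaar_frontier volume
    have hsub : (Qb P (L i) (t i) h ∩ Qb P (L j) (t j) h) \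
        (Tb P (L i) (t i) ε ∪ Tb P (L j) (t j) ε) ⊆
        frontier (Qb P (L i) (t i) h) ∪ frontier (Qb P (L j) (t j) h) := by
      rintro x ⟨⟨hxi, hxj⟩, hxT⟩
      by_contra hcon
      rw [mem_union, not_or] at hcon
      have k1 : x ∈ interior (Qb P (L i) (t i) h) := by
        by_contra hi
        exact hcon.1 ⟨subset_closure hxi, hi⟩
      have k2 : x ∈ interior (Qb P (L j) (t j) h) := by
        by_contra hi
        exact hcon.2 ⟨subset_closure hxj, hi⟩
      rw [mem_union, not_or] at hxT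
      have hO : IsOpen (interior (Qb P (L i) (t i) h) ∩ interior (Qb P (L j) (t j) h) ∩
          (Tb P (L i) (t i) ε)ᶜ ∩ (Tb P (L j) (t j) ε)ᶜ) :=
        ((isOpen_interior.inter isOpen_interior).inter (isClosed_Tb P _ _ _).isOpen_compl).inter
          (isClosed_Tb P _ _ _).isOpen_compl
      have hxO : x ∈ interior (Qb P (L i) (t i) h) ∩ interior (Qb P (L j) (t j) h) ∩
          (Tb P (L i) (t i) ε)ᶜ ∩ (Tb P (L j) (t j) ε)ᶜ := ⟨⟨⟨k1, k2⟩, hxT.1⟩, hxT.2⟩
      have m1 : x ∈ interior (g i '' cyl K h) := by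
        refine mem_interior.2 ⟨_, ?_, hO, hxO⟩
        rintro y ⟨⟨⟨hy1, hy2⟩, hy3⟩, hy4⟩
        rw [hgf i]
        exact trunc_sup hP hK (hL i) (t i) h ⟨interior_subset hy1, hy3⟩
      have m2 : x ∈ interior (g j '' cyl K h) := by
        refine mem_interior.2 ⟨_, ?_, hO, hxO⟩
        rintro y ⟨⟨⟨hy1, hy2⟩, hy3⟩, hy4⟩
        rw [hgf j]
        exact trunc_sup hP hK (hL j) (t j) h ⟨interior_subset hy2, hy4⟩
      have hd : Disjoint (interior (g i '' cyl K h)) (interior (g j '' cyl K h)) := hg hij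
      rw [Set.disjoint_left] at hd
      exact hd m1 m2
    exact measure_mono_null hsub (measure_union_null (hfr i) (hfr j))
  · intro i
    unfold Fam.Q
    rw [hgf i]
    exact Qb_image P (hL i) (t i) h

/-- Upper bound property for `h ∈ [h₀, h₁]`: `exists_fam`, `LI` with `η = 1/27`, `aver_main`. -/
theorem ub_Icc {P : Pgon N} (hP : P.Good) {h₀ h₁ : ℝ} (h0 : 0 < h₀) :
    ∃ ε₀ > 0, ∀ ε, 0 ≤ ε → ε ≤ ε₀ → ∀ K, Trunc P ε K → ∀ h ∈ Icc h₀ h₁, UB P K h := by
  obtain ⟨ε₀, hε₀, H⟩ := LI hP (h₁ := h₁) h0 (show (0 : ℝ) < 1 / 27 by norm_num)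
  refine ⟨ε₀, hε₀, ?_⟩
  intro ε he0 he K hK h hh κ _ g hg Ω hΩ hb
  obtain ⟨A, hA⟩ := exists_fam hP hK g hg
  classical
  have h1 := aver_main (fun i => A.Q i) (fun i => (isClosed_Qb P _ _ _).measurableSet)
    (fun p => H ε he0 he h hh κ A p) hΩ hb
  have h2 : ∀ i, volume (g i '' cyl P.body h ∩ Ω) = volume (A.Q i ∩ Ω) := by
    intro i
    rw [hA i]
  rw [Finset.sum_congr rfl fun i _ => h2 i]
  exact h1

theorem GPack_cover {B : Set E2} {h : ℝ} (hh : 0 < h) {k : ℕ} (hk : 1 ≤ k) (S : ℕ → E3 ≃ᵢ E3)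
    (hS1 : ∀ j x, pr (S j x) = pr x) (hS2 : ∀ j x, S j x 2 = x 2 + j * h) :
    cyl B (k * h) ⊆ ⋃ j : Fin k, S j '' cyl B h := by
  rintro x ⟨hx1, hx2, hx3⟩
  have hx2' : 0 ≤ x 2 := hx2
  have hx3' : x 2 ≤ k * h := hx3
  obtain ⟨j, hjk, hj1, hj2⟩ : ∃ j : ℕ, j < k ∧ (j : ℝ) * h ≤ x 2 ∧ x 2 ≤ (j + 1) * h := by
    by_cases hlt : ⌊x 2 / h⌋₊ < k
    · refine ⟨⌊x 2 / h⌋₊, hlt, ?_, ?_⟩
      · have := Nat.floor_le (div_nonneg hx2' hh.le)
        rwa [le_div_iff₀ hh] at this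
      · have := (Nat.lt_floor_add_one (x 2 / h)).le
        rwa [div_le_iff₀ hh] at this
    · push Not at hlt
      have h1 : (k : ℝ) * h ≤ x 2 := by
        have h2 : (k : ℝ) ≤ ⌊x 2 / h⌋₊ := by exact_mod_cast hlt
        have h3 := h2.trans (Nat.floor_le (div_nonneg hx2' hh.le))
        rwa [le_div_iff₀ hh] at h3
      refine ⟨k - 1, by omega, ?_, ?_⟩
      · rw [Nat.cast_sub hk]
        push_cast
        nlinarith
      · rw [Nat.cast_sub hk]
        push_cast
        nlinarith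
  refine mem_iUnion.2 ⟨⟨j, hjk⟩, (S j).symm x, ?_, (S j).apply_symm_apply x⟩
  have h1 := hS1 j ((S j).symm x)
  have h2 := hS2 j ((S j).symm x)
  rw [IsometryEquiv.apply_symm_apply] at h1 h2
  refine ⟨?_, ?_, ?_⟩
  · show pr ((S j).symm x) ∈ B
    rw [← h1]
    exact hx1
  · show 0 ≤ ((S j).symm x) 2
    linarith
  · show ((S j).symm x) 2 ≤ h
    linarith

theorem GPack_sub {B : Set E2} {h : ℝ} (hh : 0 < h) {k : ℕ} (S : ℕ → E3 ≃ᵢ E3)
    (hS1 : ∀ j x, pr (S j x) = pr x) (hS2 : ∀ j x, S j x 2 = x 2 + j * h) {j : ℕ} (hj : j < k) :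
    S j '' cyl B h ⊆ cyl B (k * h) := by
  rintro _ ⟨x, ⟨hx1, hx2, hx3⟩, rfl⟩
  have hx2' : 0 ≤ x 2 := hx2
  have hx3' : x 2 ≤ h := hx3
  have h2 := hS2 j x
  have hj' : (j : ℝ) + 1 ≤ k := by exact_mod_cast hj
  have hj0 : (0 : ℝ) ≤ j := Nat.cast_nonneg j
  refine ⟨?_, ?_, ?_⟩
  · show pr (S j x) ∈ B
    rw [hS1]
    exact hx1
  · show 0 ≤ (S j x) 2
    rw [h2]
    positivity
  · show (S j x) 2 ≤ k * h
    rw [h2]
    nlinarith

/-- Splitting a cylinder of height `k h` into `k` cylinders of height `h`: index type `κ × Fin k`,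
isometries `g i ∘ (shift by j h)` (`exists_lift` for the identity); interiors stay disjoint
(different `i`: subsets; same `i`, different `j`: different heights, `pr_interior`), and
`∑ j, vol (g i '' shift j '' cyl P.body h ∩ Ω) ≥ vol (g i '' cyl P.body (k h) ∩ Ω)` because the
pieces cover. -/
theorem UB.mul {P : Pgon N} {K : Set E2} {h : ℝ} (hh : 0 < h) {k : ℕ} (hk : 1 ≤ k)
    (H : UB P K h) : UB P K (k * h) := by
  intro κ _ g hg Ω hΩ hb
  obtain ⟨S, hS⟩ : ∃ S : ℕ → E3 ≃ᵢ E3, ∀ j, ∀ x, pr (S j x) = pr x ∧ S j x 2 = x 2 + j * h := by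
    have h1 : ∀ j : ℕ, ∃ G : E3 ≃ᵢ E3, ∀ x, pr (G x) = pr x ∧ G x 2 = x 2 + j * h := by
      intro j
      exact exists_lift (IsometryEquiv.refl E2) (j * h)
    choose S hS using h1
    exact ⟨S, hS⟩
  have hS1 : ∀ j x, pr (S j x) = pr x := fun j x => (hS j x).1
  have hS2 : ∀ j x, S j x 2 = x 2 + j * h := fun j x => (hS j x).2
  have hcomp : ∀ (q : κ × Fin k) (A : Set E3),
      ((S q.2).trans (g q.1)) '' A = g q.1 '' (S q.2 '' A) := by
    intro q A
    rw [image_image]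
    rfl
  have H1 := H (κ × Fin k) (fun q => (S q.2).trans (g q.1)) ?_ Ω hΩ hb
  · refine le_trans ?_ H1
    rw [Fintype.sum_prod_type]
    refine Finset.sum_le_sum fun i _ => ?_
    have h1 : g i '' cyl P.body (k * h) ∩ Ω ⊆
        ⋃ j : Fin k, ((S j).trans (g i)) '' cyl P.body h ∩ Ω := by
      rintro _ ⟨⟨x, hx, rfl⟩, hxΩ⟩
      obtain ⟨j, hj⟩ := mem_iUnion.1 (GPack_cover hh hk S hS1 hS2 hx)
      refine mem_iUnion.2 ⟨j, ?_, hxΩ⟩
      have h2 := hcomp (i, j) (cyl P.body h)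
      simp only at h2
      rw [h2]
      exact ⟨x, hj, rfl⟩
    refine (measure_mono h1).trans ?_
    refine (measure_iUnion_le _).trans ?_
    rw [tsum_fintype]
  · rintro ⟨i, j⟩ ⟨i', j'⟩ hne
    show Disjoint (interior (((S j).trans (g i)) '' cyl K h))
      (interior (((S j').trans (g i')) '' cyl K h))
    have e1 : ((S j).trans (g i)) '' cyl K h = g i '' (S j '' cyl K h) :=
      hcomp (i, j) (cyl K h)
    have e2 : ((S j').trans (g i')) '' cyl K h = g i' '' (S j' '' cyl K h) :=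
      hcomp (i', j') (cyl K h)
    by_cases hii : i = i'
    · subst hii
      rw [Set.disjoint_left]
      intro z hz hz'
      have i1 : ((S j).trans (g i)) '' interior (cyl K h)
          = interior (((S j).trans (g i)) '' cyl K h) :=
        ((S j).trans (g i)).toHomeomorph.image_interior _
      have i2 : ((S j').trans (g i)) '' interior (cyl K h)
          = interior (((S j').trans (g i)) '' cyl K h) :=
        ((S j').trans (g i)).toHomeomorph.image_interior _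
      rw [← i1] at hz
      rw [← i2] at hz'
      obtain ⟨x, hx, hxz⟩ := hz
      obtain ⟨x', hx', hxz'⟩ := hz'
      obtain ⟨_, p2, p3⟩ := pr_interior hx
      obtain ⟨_, q2, q3⟩ := pr_interior hx'
      have h3 : S j x = S j' x' := by
        apply (g i).injective
        exact hxz.trans hxz'.symm
      have a2 := hS2 j x
      have b2 := hS2 j' x'
      rw [h3] at a2
      have hjj : (j : ℕ) = j' := by
        have e1 : x 2 + (j : ℕ) * h = x' 2 + (j' : ℕ) * h := by rw [← a2, ← b2]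
        have e2 : (((j : ℕ) : ℝ) - (j' : ℕ)) * h < 1 * h := by linarith
        have e3 : (((j' : ℕ) : ℝ) - (j : ℕ)) * h < 1 * h := by linarith
        have e4 := lt_of_mul_lt_mul_right e2 hh.le
        have e5 := lt_of_mul_lt_mul_right e3 hh.le
        have e6 : (j : ℕ) < (j' : ℕ) + 1 := by
          have : ((j : ℕ) : ℝ) < (j' : ℕ) + 1 := by linarith
          exact_mod_cast this
        have e7 : (j' : ℕ) < (j : ℕ) + 1 := by
          have : ((j' : ℕ) : ℝ) < (j : ℕ) + 1 := by linarith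
          exact_mod_cast this
        omega
      apply hne
      rw [Fin.ext hjj]
    · have hd : Disjoint (interior (g i '' cyl K (k * h))) (interior (g i' '' cyl K (k * h))) :=
        hg hii
      rw [e1, e2]
      refine hd.mono (interior_mono ?_) (interior_mono ?_)
      · exact image_mono (GPack_sub hh S hS1 hS2 j.2)
      · exact image_mono (GPack_sub hh S hS1 hS2 j'.2)

/-- Upper bound property for all `h ≥ h₀`: `ub_Icc` for `[h₀, 2 h₀]`; for `h ≥ h₀` take
`k = ⌊h / h₀⌋₊ ≥ 1`, `h / k ∈ [h₀, 2 h₀]`, `UB.mul`. -/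
theorem ub_all {P : Pgon N} (hP : P.Good) {h₀ : ℝ} (h0 : 0 < h₀) :
    ∃ ε₀ > 0, ∀ ε, 0 ≤ ε → ε ≤ ε₀ → ∀ K, Trunc P ε K → ∀ h, h₀ ≤ h → UB P K h := by
  obtain ⟨ε₀, hε₀, H⟩ := ub_Icc hP (h₁ := 2 * h₀) h0
  refine ⟨ε₀, hε₀, ?_⟩
  intro ε he0 he K hK h hh
  have hh0 : 0 < h := lt_of_lt_of_le h0 hh
  have h1 : 1 ≤ h / h₀ := by rwa [le_div_iff₀ h0, one_mul]
  have hk : 1 ≤ ⌊h / h₀⌋₊ := by
    rw [Nat.one_le_floor_iff]
    exact h1
  have hkr : (1 : ℝ) ≤ (⌊h / h₀⌋₊ : ℝ) := by exact_mod_cast hk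
  have hkp : (0 : ℝ) < (⌊h / h₀⌋₊ : ℝ) := by linarith
  have h2 : (⌊h / h₀⌋₊ : ℝ) * h₀ ≤ h := by
    have := Nat.floor_le (div_nonneg hh0.le h0.le)
    rwa [le_div_iff₀ h0] at this
  have h3 : h < ((⌊h / h₀⌋₊ : ℝ) + 1) * h₀ := by
    have := Nat.lt_floor_add_one (h / h₀)
    rwa [div_lt_iff₀ h0] at this
  have h4 : h / (⌊h / h₀⌋₊ : ℝ) ∈ Icc h₀ (2 * h₀) := by
    constructor
    · rw [le_div_iff₀ hkp]
      linarith
    · rw [div_le_iff₀ hkp]
      nlinarith
  have h5 := UB.mul (div_pos hh0 hkp) hk (H ε he0 he K hK _ h4)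
  have h6 : (⌊h / h₀⌋₊ : ℝ) * (h / (⌊h / h₀⌋₊ : ℝ)) = h := by
    field_simp
  rw [h6] at h5
  exact h5

end Pool.TC
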