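import Pool.Agent.W_0c5e58_h61.LCaseG

/-!
# Case F: conclusion
-/

open MeasureTheory Metric Set Filter
open scoped Topology

namespace Pool.TC

variable {I Φ : Type}

theorem LCaseH_inj4 {α : Type} {a b c d : α} (h1 : a ≠ b) (h2 : a ≠ c) (h3 : a ≠ d)
    (h4 : b ≠ c) (h5 : b ≠ d) (h6 : c ≠ d) : Function.Injective ![a, b, c, d] := by
  intro i j hij
  fin_cases i <;> fin_cases j <;> simp_all

theorem LCaseH_inj5 {α : Type} {a b c d e : α} (h1 : a ≠ b) (h2 : a ≠ c) (h3 : a ≠ d)
    (h3' : a ≠ e) (h4 : b ≠ c) (h5 : b ≠ d) (h5' : b ≠ e) (h6 : c ≠ d) (h6' : c ≠ e)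
    (h7 : d ≠ e) : Function.Injective ![a, b, c, d, e] := by
  intro i j hij
  fin_cases i <;> fin_cases j <;> simp_all

/-- Overlap near the ray `r`, on the negative side of `m`. -/
theorem LCaseH_ov {D : Loc I Φ} {x z : I} {ex gz : Φ} {m r : E3} (hm : ‖m‖ = 1)
    (mr : inner ℝ m r = 0)
    (hx : ∀ f ∈ D.A x, f ≠ ex → inner ℝ (D.ν x f) r < 0 ∨ D.ν x f = m)
    (hz : ∀ g ∈ D.A z, g ≠ gz → inner ℝ (D.ν z g) r < 0 ∨ D.ν z g = m) : Ov D x ex z gz := by
  have key : ∀ (y : I) (ey : Φ),
      (∀ f ∈ D.A y, f ≠ ey → inner ℝ (D.ν y f) r < 0 ∨ D.ν y f = m) →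
      ∀ᶠ s : ℝ in 𝓝[>] 0, ∀ f ∈ D.A y, f ≠ ey → inner ℝ (D.ν y f) (r - s • m) < 0 := by
    intro y ey hy
    rw [Filter.eventually_all_finset]
    intro f hf
    by_cases hfe : f = ey
    · exact Filter.Eventually.of_forall fun s h => absurd hfe h
    · rcases hy f hf hfe with h1 | h1
      · have hc : ContinuousAt (fun s : ℝ => inner ℝ (D.ν y f) (r - s • m)) 0 := by
          fun_prop
        have h2 : ∀ᶠ s : ℝ in 𝓝 0, inner ℝ (D.ν y f) (r - s • m) < 0 := by
          apply hc.eventually_lt_const
          simpa using h1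
        exact (h2.filter_mono nhdsWithin_le_nhds).mono fun s hs _ => hs
      · filter_upwards [self_mem_nhdsWithin] with s hs _
        rw [Set.mem_Ioi] at hs
        rw [h1, inner_sub_right, inner_smul_right, mr, real_inner_self_eq_norm_sq, hm]
        linarith
  obtain ⟨s, h1, h2⟩ := ((key x ex hx).and (key z gz hz)).exists
  exact ⟨r - s • m, h1, h2⟩

/-- Upper bodies contain `d`. -/
theorem LCaseH_mem {D : Loc I Φ} {d : E3} (hd : ‖d‖ = 1) {z : I} {gz : Φ}
    (hz : Upper D d z gz) : d ∈ D.T z := by
  intro f hf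
  by_cases h : f = gz
  · rw [h, hz.2.1, inner_neg_left, real_inner_self_eq_norm_sq, hd]
    norm_num
  · exact (hz.2.2 f hf h).le

/-- The face in the plane of an upper body is unique. -/
theorem LCaseH_uniq {D : Loc I Φ} {d : E3} {z : I} {g g' : Φ}
    (hz : Upper D d z g) (hz' : Upper D d z g') : g = g' := by
  by_contra h
  exact (D.nu_ne hz.1 hz'.1 h).1 (hz.2.1.trans hz'.2.1.symm)

/-- **Case F.**  The lower body `w 0` and any other body `y` are flush or crossing.

Proof.  If `y = w i`: `Star3.flush`.  Otherwise `y` is `Upper` with a face `gy` (`CaseF.upper`).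
Write `x = w 0`, `mb = ν x (fb 0)`, `ma = ν x (fa 0)`; `g = inner ma mb > 0`.
Side b: `c = w 1`, face `fa 1` of normal `- mb`, ray `rb` from `S.ray 0` (`ma rb < 0`,
`ν (w 1) (fb 1) rb < 0`).  Side a: `c = w 2`, face `fb 2` with normal `- ma`, ray `ra` from
`S.ray 2` (`ν (w 2) (fb 2) ra = 0`, `ν (w 2) (fa 2) ra < 0`, `ν (w 0) (fb 0) ra < 0`).
1. If `Ov x y`: contact, `Ov.mac`, `Flush`.  Suppose not.
2. `side_cases` on both sides (every body is `w i`, with `fe i` of normal `d`, or `Upper`).
If side b is free with `z`: then `z` overlaps `x` (at `rb - s mb`) and `w 1` (at `rb + s mb`).  If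
moreover `y` overlaps `w 1`: chain `x, z, w 1, y`, i.e. `Flush` with the planes `fe 0 / gz / fe 1 /
gy`.  (If `z = y` then `y` overlaps `x`, excluded; the end faces used twice are the same.)
Same for side a, `w 2`.
If side b is blocked with `z, u`: `z` overlaps `x` (at `rb - s mb`), so `z ≠ y`; if `u = y` then
`x, w 1, z, y` are in `CrossAt` position along `rb` (`gu = gy` as both are the only face with
normal `- d`): `Cross`.  Same for side a.
3. Both free: `ov_some` gives `i` with `Ov (w i) y`, `i ≠ 0`, so a chain by 2.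
4. b blocked, a free, `u ≠ y`: if `y` overlaps `w 2`: chain.  Otherwise `y` overlaps only `w 1`:
`one_sided` with `j = 1`, `f₁ = fa 1`, `f₂ = fb 1`, `m = mb`, `r = rb`, `z := u`.
5. a blocked, b free: `one_sided` with `j = 2`, `f₁ = fb 2`, `f₂ = fa 2`, `m = ma`, `r = ra`.
6. Both blocked, with `z_b, u_b, z_a, u_a`, none equal to `y`.  All upper bodies contain `d`.
`z_b ≠ u_b`, `z_a ≠ u_a` (opposite normals in one body, `nu_ne`, or `ν = -ν`).
`u_a ≠ u_b`: `u_b` contains `rb`, the normal `- ma` of `u_a` is positive there.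
`z_b ≠ u_a`, `z_a ≠ u_b`: normals `mb, - ma` in one body have inner product `- g < 0`
(`gram_nn`; if it is one face, `mb = - ma`, `g = -1`).
If `z_a = z_b`: this body has faces with normals `ma, mb`, `g > 0`, both through `d`: `count4` for
`z_b, u_b, u_a, y`.  If `z_a ≠ z_b`: `five` for `z_b, u_b, z_a, u_a, y`. -/
theorem CaseF.pair [Finite I] {D : Loc I Φ} {d : E3} {w : Fin 3 → I} {fa fb fe : Fin 3 → Φ}
    (H : CaseF D d w fa fb fe) {y : I} (hy : w 0 ≠ y) :
    D.Flush (w 0) y ∨ D.Cross (w 0) y := by
  have S := H.S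
  have hd : ‖d‖ = 1 := by rw [← norm_neg]; exact S.unit
  by_cases hyw : ∃ i, y = w i
  · obtain ⟨i, rfl⟩ := hyw
    left
    exact S.flush fun h => hy (by rw [h])
  push Not at hyw
  obtain ⟨gy, hgy⟩ := H.upper hyw
  -- the lower faces are orthogonal to `d`
  have ortha : ∀ i, inner ℝ (D.ν (w i) (fa i)) d = 0 := by
    intro i
    have := S.oa i
    rw [inner_neg_right, neg_eq_zero] at this
    exact this
  have orthb : ∀ i, inner ℝ (D.ν (w i) (fb i)) d = 0 := by
    intro i
    have := S.ob i
    rw [inner_neg_right, neg_eq_zero] at this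
    exact this
  have hwo : ∀ i, ∀ f ∈ D.A (w i), f ≠ fe i → inner ℝ (D.ν (w i) f) d = 0 := by
    intro i f hf hne
    rcases H.faces i hf with h | h | h
    · rw [h]; exact ortha i
    · rw [h]; exact orthb i
    · exact absurd h hne
  have mac : ∀ i {z : I} {gz : Φ}, Upper D d z gz → Ov D (w i) (fe i) z gz →
      D.Mac (w i) (fe i) z gz := fun i {z gz} hz ho =>
    Ov.mac hd (H.he i) (H.hd i) (hwo i) hz ho
  by_cases hOv : Ov D (w 0) (fe 0) y gy
  · left
    exact ⟨fe 0, gy, Or.inl (mac 0 hgy hOv)⟩
  -- chains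
  have chain : ∀ j {z : I} {gz : Φ}, Upper D d z gz → Ov D (w 0) (fe 0) z gz →
      Ov D (w j) (fe j) z gz → Ov D (w j) (fe j) y gy → D.Flush (w 0) y := by
    intro j z gz hz h1 h2 h3
    exact ⟨fe 0, gy, Or.inr ⟨z, gz, w j, fe j, mac 0 hz h1, mac j hz h2, mac j hgy h3⟩⟩
  have hL : ∀ y, (∃ g ∈ D.A y, D.ν y g = d) ∨ ∃ g, Upper D d y g := by
    intro x
    by_cases hx : ∃ i, x = w i
    · obtain ⟨i, rfl⟩ := hx
      exact Or.inl ⟨fe i, H.he i, H.hd i⟩
    · push Not at hx
      exact Or.inr (H.upper hx)
  -- the data of the two sides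
  set ma := D.ν (w 0) (fa 0) with hma
  set mb := D.ν (w 0) (fb 0) with hmb
  have uma : ‖ma‖ = 1 := D.unit _ _
  have umb : ‖mb‖ = 1 := D.unit _ _
  have hg : 0 < inner ℝ ma mb := S.pos 0
  have hg1 : inner ℝ ma mb < 1 := D.gram_lt (S.hfa 0) (S.hfb 0) (S.ne 0)
  have c1 : D.ν (w 1) (fa 1) = - mb := S.adj 0
  have c2 : D.ν (w 2) (fb 2) = - ma := by
    have h : D.ν (w 0) (fa 0) = - D.ν (w 2) (fb 2) := S.adj 2
    rw [hma, h, neg_neg]
  obtain ⟨rb, urb, drb, mrb, arb, prb, -⟩ := S.ray 0
  obtain ⟨ra, ura, dra, mra, pra, bra, -⟩ := S.ray 2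
  rw [inner_neg_left, neg_eq_zero] at drb dra
  have mrb' : inner ℝ mb rb = 0 := mrb
  have mra' : inner ℝ ma ra = 0 := by
    rw [c2, inner_neg_left, neg_eq_zero] at mra
    exact mra
  have arb' : inner ℝ ma rb < 0 := arb
  have bra' : inner ℝ mb ra < 0 := bra
  have prb' : inner ℝ (D.ν (w 1) (fb 1)) rb < 0 := prb
  have mad : inner ℝ ma d = 0 := ortha 0
  have mbd : inner ℝ mb d = 0 := orthb 0
  have rbd : inner ℝ rb d = 0 := by rw [real_inner_comm]; exact drb
  have rad : inner ℝ ra d = 0 := by rw [real_inner_comm]; exact dra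
  -- faces of the lower bodies at the rays
  have x_b : ∀ f ∈ D.A (w 0), f ≠ fe 0 → inner ℝ (D.ν (w 0) f) rb < 0 ∨ D.ν (w 0) f = mb := by
    intro f hf hne
    rcases H.faces 0 hf with h | h | h
    · left; rw [h]; exact arb'
    · right; rw [h]
    · exact absurd h hne
  have x_a : ∀ f ∈ D.A (w 0), f ≠ fe 0 → inner ℝ (D.ν (w 0) f) ra < 0 ∨ D.ν (w 0) f = ma := by
    intro f hf hne
    rcases H.faces 0 hf with h | h | h
    · right; rw [h]
    · left; rw [h]; exact bra'
    · exact absurd h hne
  have w1_b : ∀ f ∈ D.A (w 1), f ≠ fe 1 →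
      inner ℝ (D.ν (w 1) f) rb < 0 ∨ D.ν (w 1) f = - mb := by
    intro f hf hne
    rcases H.faces 1 hf with h | h | h
    · right; rw [h]; exact c1
    · left; rw [h]; exact prb'
    · exact absurd h hne
  have w2_a : ∀ f ∈ D.A (w 2), f ≠ fe 2 →
      inner ℝ (D.ν (w 2) f) ra < 0 ∨ D.ν (w 2) f = - ma := by
    intro f hf hne
    rcases H.faces 2 hf with h | h | h
    · left; rw [h]; exact pra
    · right; rw [h]; exact c2
    · exact absurd h hne
  have nmb : ‖- mb‖ = 1 := by rw [norm_neg]; exact umb
  have nma : ‖- ma‖ = 1 := by rw [norm_neg]; exact uma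
  have nmrb : inner ℝ (- mb) rb = 0 := by rw [inner_neg_left, mrb', neg_zero]
  have nmra : inner ℝ (- ma) ra = 0 := by rw [inner_neg_left, mra', neg_zero]
  have hSb := side_cases hd umb urb mbd rbd mrb' hL
  have hSa := side_cases hd uma ura mad rad mra' hL
  -- free side: chain through `z`
  have freeb : (∃ z gz, Upper D d z gz ∧ ∀ g ∈ D.A z, g ≠ gz → inner ℝ (D.ν z g) rb < 0) →
      Ov D (w 1) (fe 1) y gy → D.Flush (w 0) y := by
    rintro ⟨z, gz, hz, hzr⟩ h3
    exact chain 1 hz (LCaseH_ov umb mrb' x_b fun g hg' hne => Or.inl (hzr g hg' hne))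
      (LCaseH_ov nmb nmrb w1_b fun g hg' hne => Or.inl (hzr g hg' hne)) h3
  have freea : (∃ z gz, Upper D d z gz ∧ ∀ g ∈ D.A z, g ≠ gz → inner ℝ (D.ν z g) ra < 0) →
      Ov D (w 2) (fe 2) y gy → D.Flush (w 0) y := by
    rintro ⟨z, gz, hz, hzr⟩ h3
    exact chain 2 hz (LCaseH_ov uma mra' x_a fun g hg' hne => Or.inl (hzr g hg' hne))
      (LCaseH_ov nma nmra w2_a fun g hg' hne => Or.inl (hzr g hg' hne)) h3
  obtain ⟨i, hi⟩ := H.ov_some hgy
  rcases hSb with hfb | ⟨zb, gzb, zb1, ub, gub, ub1, hzb, hub, zb1A, zb1n, zb1m, zbr, ub1A, ub1n,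
    ub1m, ubr⟩
  · rcases hSa with hfa | ⟨za, gza, za1, ua, gua, ua1, hza, hua, za1A, za1n, za1m, zar, ua1A, ua1n,
      ua1m, uar⟩
    · -- both free
      left
      have : i = 0 ∨ i = 1 ∨ i = 2 := by omega
      rcases this with rfl | rfl | rfl
      · exact absurd hi hOv
      · exact freeb hfb hi
      · exact freea hfa hi
    · -- a blocked, b free
      by_cases huy : ua = y
      · subst huy
        right
        refine ⟨w 2, za, fa 0, fe 0, fb 2, fe 2, za1, gza, ua1, gua, ra, ?_⟩
        exact {
          hr := by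
            intro h0
            rw [h0, norm_zero] at ura
            exact zero_ne_one ura
          afn := S.hfa 0
          afd := H.he 0
          ccn := S.hfb 2
          ccd := H.he 2
          uun := za1A
          uud := hza.1
          bbn := ua1A
          bbd := hua.1
          ecn := c2
          ecd := (H.hd 2).trans (H.hd 0).symm
          eun := za1m
          eud := by rw [H.hd 0]; exact hza.2.1
          ebn := ua1m
          ebd := by rw [H.hd 0]; exact hua.2.1
          nd := by rw [H.hd 0]; exact mad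
          rn := mra'
          rd := by rw [H.hd 0]; exact dra
          oa := fun f hf h1 h2 => (x_a f hf h2).resolve_right fun h =>
            (D.nu_ne hf (S.hfa 0) h1).1 h
          oc := fun f hf h1 h2 => (w2_a f hf h2).resolve_right fun h =>
            (D.nu_ne hf (S.hfb 2) h1).1 (h.trans c2.symm)
          ou := fun f hf h1 h2 => zar f hf h2 h1
          ob := fun f hf h1 h2 => uar f hf h2 h1 }
      · by_cases h1 : Ov D (w 1) (fe 1) y gy
        · exact Or.inl (freeb hfb h1)
        · exfalso
          refine H.one_sided hgy 2 ?_ (f₁ := fb 2) (f₂ := fa 2) (Or.inr ⟨rfl, rfl⟩) uma ura c2 rad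
            mra' pra hua ua1A ua1n ua1m ?_ huy
          · intro k hk
            have : k = 0 ∨ k = 1 := by omega
            rcases this with rfl | rfl
            · exact hOv
            · exact h1
          · intro f hf
            by_cases hf1 : f = gua
            · rw [hf1, hua.2.1, inner_neg_left, dra, neg_zero]
            · by_cases hf2 : f = ua1
              · rw [hf2, ua1m, nmra]
              · exact (uar f hf hf1 hf2).le
  · have zbx : Ov D (w 0) (fe 0) zb gzb := by
      refine LCaseH_ov umb mrb' x_b fun g hg' hne => ?_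
      by_cases h : g = zb1
      · right; rw [h]; exact zb1m
      · left; exact zbr g hg' hne h
    have zby : zb ≠ y := by
      rintro rfl
      have := LCaseH_uniq hzb hgy
      rw [this] at zbx
      exact hOv zbx
    by_cases huy : ub = y
    · subst huy
      right
      refine ⟨w 1, zb, fb 0, fe 0, fa 1, fe 1, zb1, gzb, ub1, gub, rb, ?_⟩
      exact {
        hr := by
          intro h0
          rw [h0, norm_zero] at urb
          exact zero_ne_one urb
        afn := S.hfb 0
        afd := H.he 0
        ccn := S.hfa 1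
        ccd := H.he 1
        uun := zb1A
        uud := hzb.1
        bbn := ub1A
        bbd := hub.1
        ecn := c1
        ecd := (H.hd 1).trans (H.hd 0).symm
        eun := zb1m
        eud := by rw [H.hd 0]; exact hzb.2.1
        ebn := ub1m
        ebd := by rw [H.hd 0]; exact hub.2.1
        nd := by rw [H.hd 0]; exact mbd
        rn := mrb'
        rd := by rw [H.hd 0]; exact drb
        oa := fun f hf h1 h2 => (x_b f hf h2).resolve_right fun h =>
          (D.nu_ne hf (S.hfb 0) h1).1 h
        oc := fun f hf h1 h2 => (w1_b f hf h2).resolve_right fun h =>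
          (D.nu_ne hf (S.hfa 1) h1).1 (h.trans c1.symm)
        ou := fun f hf h1 h2 => zbr f hf h2 h1
        ob := fun f hf h1 h2 => ubr f hf h2 h1 }
    have ubT : rb ∈ D.T ub := by
      intro f hf
      by_cases hf1 : f = gub
      · rw [hf1, hub.2.1, inner_neg_left, drb, neg_zero]
      · by_cases hf2 : f = ub1
        · rw [hf2, ub1m, nmrb]
        · exact (ubr f hf hf1 hf2).le
    rcases hSa with hfa | ⟨za, gza, za1, ua, gua, ua1, hza, hua, za1A, za1n, za1m, zar, ua1A, ua1n,
      ua1m, uar⟩
    · -- b blocked, a free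
      by_cases h2 : Ov D (w 2) (fe 2) y gy
      · exact Or.inl (freea hfa h2)
      · exfalso
        refine H.one_sided hgy 1 ?_ (f₁ := fa 1) (f₂ := fb 1) (Or.inl ⟨rfl, rfl⟩) umb urb c1 rbd
          mrb' prb' hub ub1A ub1n ub1m ubT huy
        intro k hk
        have : k = 0 ∨ k = 2 := by omega
        rcases this with rfl | rfl
        · exact hOv
        · exact h2
    · -- both blocked
      have zax : Ov D (w 0) (fe 0) za gza := by
        refine LCaseH_ov uma mra' x_a fun g hg' hne => ?_
        by_cases h : g = za1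
        · right; rw [h]; exact za1m
        · left; exact zar g hg' hne h
      have zay : za ≠ y := by
        rintro rfl
        have := LCaseH_uniq hza hgy
        rw [this] at zax
        exact hOv zax
      by_cases huy' : ua = y
      · subst huy'
        right
        refine ⟨w 2, za, fa 0, fe 0, fb 2, fe 2, za1, gza, ua1, gua, ra, ?_⟩
        exact {
          hr := by
            intro h0
            rw [h0, norm_zero] at ura
            exact zero_ne_one ura
          afn := S.hfa 0
          afd := H.he 0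
          ccn := S.hfb 2
          ccd := H.he 2
          uun := za1A
          uud := hza.1
          bbn := ua1A
          bbd := hua.1
          ecn := c2
          ecd := (H.hd 2).trans (H.hd 0).symm
          eun := za1m
          eud := by rw [H.hd 0]; exact hza.2.1
          ebn := ua1m
          ebd := by rw [H.hd 0]; exact hua.2.1
          nd := by rw [H.hd 0]; exact mad
          rn := mra'
          rd := by rw [H.hd 0]; exact dra
          oa := fun f hf h1 h2 => (x_a f hf h2).resolve_right fun h =>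
            (D.nu_ne hf (S.hfa 0) h1).1 h
          oc := fun f hf h1 h2 => (w2_a f hf h2).resolve_right fun h =>
            (D.nu_ne hf (S.hfb 2) h1).1 (h.trans c2.symm)
          ou := fun f hf h1 h2 => zar f hf h2 h1
          ob := fun f hf h1 h2 => uar f hf h2 h1 }
      exfalso
      have hne0 : ∀ {v : E3}, ‖v‖ = 1 → v ≠ - v := by
        intro v hv h
        have h3 : (2 : ℝ) • v = 0 := by
          rw [two_smul]
          nth_rewrite 2 [h]
          exact add_neg_cancel v
        have h4 : v = 0 := (smul_eq_zero.mp h3).resolve_left two_ne_zero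
        rw [h4, norm_zero] at hv
        exact zero_ne_one hv
      have opp : ∀ {z : I} {f f' : Φ} {m : E3}, ‖m‖ = 1 → f ∈ D.A z → f' ∈ D.A z →
          D.ν z f = m → D.ν z f' = - m → False := by
        intro z f f' m hm hf hf' h1 h2
        by_cases hff : f = f'
        · subst hff
          exact hne0 hm (h1.symm.trans h2)
        · exact (D.nu_ne hf hf' hff).2 (by rw [h1, h2, neg_neg])
      have hzu : zb ≠ ub := by
        rintro rfl
        exact opp umb zb1A ub1A zb1m ub1m
      have hzua : za ≠ ua := by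
        rintro rfl
        exact opp uma za1A ua1A za1m ua1m
      have huu : ub ≠ ua := by
        rintro rfl
        have := ubT ua1 ua1A
        rw [ua1m, inner_neg_left] at this
        linarith
      have mix : ∀ {z : I} {f f' : Φ} {m m' : E3}, f ∈ D.A z → f' ∈ D.A z →
          D.ν z f = m → D.ν z f' = - m' → 0 < inner ℝ m m' → False := by
        intro z f f' m m' hf hf' h1 h2 hpos
        by_cases hff : f = f'
        · subst hff
          have h3 : m = - m' := h1.symm.trans h2
          rw [h3, inner_neg_left, real_inner_self_eq_norm_sq] at hpos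
          nlinarith [sq_nonneg ‖m'‖]
        · have := D.gram_nn hf hf' hff
          rw [h1, h2, inner_neg_right] at this
          linarith
      have hzbua : zb ≠ ua := by
        rintro rfl
        exact mix zb1A ua1A zb1m ua1m (by rw [real_inner_comm]; exact hg)
      have hzaub : za ≠ ub := by
        rintro rfl
        exact mix za1A ub1A za1m ub1m hg
      have hdz := LCaseH_mem hd hzb
      have hdu := LCaseH_mem hd hub
      have hdza := LCaseH_mem hd hza
      have hdua := LCaseH_mem hd hua
      have hdy := LCaseH_mem hd hgy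
      have hd0 : d ≠ 0 := by
        intro h0
        rw [h0, norm_zero] at hd
        exact zero_ne_one hd
      by_cases hzz : za = zb
      · subst hzz
        refine D.count4 hd0 ![za, ub, ua, y]
          (LCaseH_inj4 hzu hzua zay huu huy huy') ?_ (k := zb1) (l := za1) zb1A za1A ?_ ?_ ?_ ?_
        · intro a
          fin_cases a
          · exact hdz
          · exact hdu
          · exact hdua
          · exact hdy
        · rintro rfl
          have h3 : mb = ma := zb1m.symm.trans za1m
          rw [h3, real_inner_self_eq_norm_sq, uma] at hg1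
          norm_num at hg1
        · show inner ℝ (D.ν za zb1) d = 0
          rw [zb1m]; exact mbd
        · show inner ℝ (D.ν za za1) d = 0
          rw [za1m]; exact mad
        · show 0 < inner ℝ (D.ν za zb1) (D.ν za za1)
          rw [zb1m, za1m, real_inner_comm]; exact hg
      · refine D.five hd0 ![zb, ub, za, ua, y]
          (LCaseH_inj5 hzu (Ne.symm hzz) hzbua zby hzaub.symm huu huy hzua zay huy') ?_
        · intro a
          fin_cases a
          · exact hdz
          · exact hdu
          · exact hdza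
          · exact hdua
          · exact hdy

end Pool.TC
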