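import Pool.Agent.W_0c5e58_h61.LDefs

/-!
# Volumes of boxes and slabs
-/

open MeasureTheory Metric Set Filter
open scoped Topology

namespace Pool.TC

lemma PBox_mp (e : OrthonormalBasis (Fin 3) ℝ E3) :
    MeasurePreserving (fun x : E3 => fun i => inner ℝ (e i) x) volume volume := by
  have h := (PiLp.volume_preserving_ofLp (Fin 3)).comp e.measurePreserving_repr
  have h2 : (fun x : E3 => fun i => inner ℝ (e i) x) =
      (fun v : EuclideanSpace ℝ (Fin 3) => WithLp.ofLp v) ∘ e.repr := by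
    funext x i
    simp [OrthonormalBasis.repr_apply_apply]
  rw [h2]
  exact h

lemma PBox_vol (e : OrthonormalBasis (Fin 3) ℝ E3) {B : Set (Fin 3 → ℝ)} (hB : MeasurableSet B) :
    volume ((fun x : E3 => fun i => inner ℝ (e i) x) ⁻¹' B) = volume B :=
  (PBox_mp e).measure_preimage hB.nullMeasurableSet

/-- A set contained in a box of half widths `w i` (in an orthonormal basis) has volume at most
`8 w₀ w₁ w₂` (and finite).  (`OrthonormalBasis.measurePreserving_repr`,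
`EuclideanSpace.volume_preserving_symm_measurableEquiv_toLp` or similar, `Real.volume_pi_Icc`.) -/
theorem box_le (e : OrthonormalBasis (Fin 3) ℝ E3) (c w : Fin 3 → ℝ) (hw : ∀ i, 0 ≤ w i)
    {S : Set E3} (hS : ∀ x ∈ S, ∀ i, |inner ℝ (e i) x - c i| ≤ w i) :
    volume S ≠ ⊤ ∧ volume.real S ≤ 8 * w 0 * w 1 * w 2 := by
  have hsub : S ⊆ (fun x : E3 => fun i => inner ℝ (e i) x) ⁻¹'
      (Set.Icc (fun i => c i - w i) (fun i => c i + w i)) := by
    intro x hx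
    have h := hS x hx
    refine ⟨fun i => ?_, fun i => ?_⟩
    · have := (abs_le.mp (h i)).1
      show c i - w i ≤ inner ℝ (e i) x
      linarith
    · have := (abs_le.mp (h i)).2
      show inner ℝ (e i) x ≤ c i + w i
      linarith
  have hv : volume ((fun x : E3 => fun i => inner ℝ (e i) x) ⁻¹'
      (Set.Icc (fun i => c i - w i) (fun i => c i + w i))) =
      ENNReal.ofReal (8 * w 0 * w 1 * w 2) := by
    rw [PBox_vol e measurableSet_Icc, Real.volume_Icc_pi, Fin.prod_univ_three,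
      ← ENNReal.ofReal_mul (by have := hw 0; linarith),
      ← ENNReal.ofReal_mul (by
        have h0 := hw 0
        have h1 := hw 1
        apply mul_nonneg <;> linarith)]
    congr 1
    ring
  have hle : volume S ≤ ENNReal.ofReal (8 * w 0 * w 1 * w 2) := hv ▸ measure_mono hsub
  have hnn : 0 ≤ 8 * w 0 * w 1 * w 2 :=
    mul_nonneg (mul_nonneg (mul_nonneg (by norm_num) (hw 0)) (hw 1)) (hw 2)
  refine ⟨ne_top_of_le_ne_top ENNReal.ofReal_ne_top hle, ?_⟩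
  rw [Measure.real]
  exact ENNReal.toReal_le_of_le_ofReal hnn hle

/-- A set of finite volume containing an open box has at least its volume. -/
theorem box_ge (e : OrthonormalBasis (Fin 3) ℝ E3) (a b : Fin 3 → ℝ) (hab : ∀ i, a i ≤ b i)
    {S : Set E3} (hS : ∀ x, (∀ i, a i < inner ℝ (e i) x ∧ inner ℝ (e i) x < b i) → x ∈ S)
    (hfin : volume S ≠ ⊤) : (b 0 - a 0) * (b 1 - a 1) * (b 2 - a 2) ≤ volume.real S := by
  have hsub : (fun x : E3 => fun i => inner ℝ (e i) x) ⁻¹'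
      (Set.pi Set.univ fun i => Set.Ioo (a i) (b i)) ⊆ S := by
    intro x hx
    exact hS x fun i => hx i (Set.mem_univ i)
  have hv : volume ((fun x : E3 => fun i => inner ℝ (e i) x) ⁻¹'
      (Set.pi Set.univ fun i => Set.Ioo (a i) (b i))) =
      ENNReal.ofReal ((b 0 - a 0) * (b 1 - a 1) * (b 2 - a 2)) := by
    rw [PBox_vol e (MeasurableSet.univ_pi fun i => measurableSet_Ioo), Real.volume_pi_Ioo,
      Fin.prod_univ_three,
      ← ENNReal.ofReal_mul (by have := hab 0; linarith),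
      ← ENNReal.ofReal_mul (by
        have h0 := hab 0
        have h1 := hab 1
        apply mul_nonneg <;> linarith)]
  have hle : ENNReal.ofReal ((b 0 - a 0) * (b 1 - a 1) * (b 2 - a 2)) ≤ volume S :=
    hv ▸ measure_mono hsub
  rw [Measure.real]
  exact (ENNReal.ofReal_le_iff_le_toReal hfin).mp hle

/-- Two orthonormal vectors of `E3` belong to an orthonormal basis. -/
theorem exists_basis2 {u v : E3} (hu : ‖u‖ = 1) (hv : ‖v‖ = 1) (h : inner ℝ u v = 0) :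
    ∃ e : OrthonormalBasis (Fin 3) ℝ E3, e 0 = u ∧ e 1 = v := by
  have hor : Orthonormal ℝ (({0, 1} : Set (Fin 3)).domRestrict ![u, v, 0]) := by
    refine ⟨?_, ?_⟩
    · rintro ⟨i, hi⟩
      rcases hi with rfl | hi
      · exact hu
      · rw [Set.mem_singleton_iff] at hi
        subst hi
        exact hv
    · rintro ⟨i, hi⟩ ⟨j, hj⟩ hij
      have hij' : i ≠ j := fun h' => hij (Subtype.ext h')
      rcases hi with rfl | hi
      · rcases hj with rfl | hj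
        · exact absurd rfl hij'
        · rw [Set.mem_singleton_iff] at hj
          subst hj
          exact h
      · rw [Set.mem_singleton_iff] at hi
        subst hi
        rcases hj with rfl | hj
        · show inner ℝ v u = 0
          rw [real_inner_comm]; exact h
        · rw [Set.mem_singleton_iff] at hj
          exact absurd hj.symm hij'
  obtain ⟨b, hb⟩ := hor.exists_orthonormalBasis_extension_of_card_eq (by simp)
  exact ⟨b, hb 0 (by simp), hb 1 (by simp)⟩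

/-- A unit vector of `E3` belongs to an orthonormal basis. -/
theorem exists_basis1 {u : E3} (hu : ‖u‖ = 1) :
    ∃ e : OrthonormalBasis (Fin 3) ℝ E3, e 0 = u := by
  have hor : Orthonormal ℝ (({0} : Set (Fin 3)).domRestrict ![u, 0, 0]) := by
    refine ⟨?_, ?_⟩
    · rintro ⟨i, hi⟩
      rw [Set.mem_singleton_iff] at hi
      subst hi
      exact hu
    · rintro ⟨i, hi⟩ ⟨j, hj⟩ hij
      rw [Set.mem_singleton_iff] at hi hj
      exact absurd (Subtype.ext (hi.trans hj.symm)) hij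
  obtain ⟨b, hb⟩ := hor.exists_orthonormalBasis_extension_of_card_eq (by simp)
  exact ⟨b, hb 0 (by simp)⟩

/-- Two transversal slabs in a ball: unit vectors `ν₁, ν₂` with inner product `g`, `g² < 1`.
Orthonormalise: `e₀ = ν₁`, `e₁ = (ν₂ - g ν₁) / √(1 - g²)`; then `|e₁ x - c| ≤ (w₂ + w₁) / √(1-g²)`
for a suitable `c`, and `|e₂ x| ≤ ρ`. -/
theorem upper2 {ν₁ ν₂ : E3} (h1 : ‖ν₁‖ = 1) (h2 : ‖ν₂‖ = 1) {g : ℝ} (hg : inner ℝ ν₁ ν₂ = g)
    (hg1 : g ^ 2 < 1) {c₁ c₂ w₁ w₂ ρ : ℝ} (hw1 : 0 ≤ w₁) (hw2 : 0 ≤ w₂) (hρ : 0 ≤ ρ) {S : Set E3}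
    (hS : ∀ x ∈ S, ‖x‖ ≤ ρ ∧ |inner ℝ ν₁ x - c₁| ≤ w₁ ∧ |inner ℝ ν₂ x - c₂| ≤ w₂) :
    volume.real S ≤ 8 * w₁ * ((w₂ + w₁) / √(1 - g ^ 2)) * ρ := by
  set s : ℝ := √(1 - g ^ 2) with hs
  have hspos : 0 < s := Real.sqrt_pos.mpr (by linarith)
  have hs2 : s ^ 2 = 1 - g ^ 2 := Real.sq_sqrt (by linarith)
  have hgabs : |g| ≤ 1 := by
    rw [← sq_le_one_iff_abs_le_one]; exact hg1.le
  have h11 : inner ℝ ν₁ ν₁ = (1 : ℝ) := by rw [real_inner_self_eq_norm_sq, h1]; norm_num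
  have h22 : inner ℝ ν₂ ν₂ = (1 : ℝ) := by rw [real_inner_self_eq_norm_sq, h2]; norm_num
  have h21 : inner ℝ ν₂ ν₁ = g := by rw [real_inner_comm]; exact hg
  have hv1 : ‖s⁻¹ • (ν₂ - g • ν₁)‖ = 1 := by
    have : ‖ν₂ - g • ν₁‖ ^ 2 = s ^ 2 := by
      rw [← real_inner_self_eq_norm_sq, inner_sub_left, inner_sub_right, inner_sub_right,
        inner_smul_left, inner_smul_left, inner_smul_right, inner_smul_right, h11, h22, h21, hg,
        hs2]
      simp only [conj_trivial]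
      ring
    have h3 : ‖ν₂ - g • ν₁‖ = s := by
      have := (pow_left_inj₀ (norm_nonneg _) hspos.le two_ne_zero).mp this
      exact this
    rw [norm_smul, h3, norm_inv, Real.norm_of_nonneg hspos.le, inv_mul_cancel₀ hspos.ne']
  have hv2 : inner ℝ ν₁ (s⁻¹ • (ν₂ - g • ν₁)) = 0 := by
    rw [inner_smul_right, inner_sub_right, inner_smul_right, hg, h11]
    ring
  obtain ⟨e, he0, he1⟩ := exists_basis2 h1 hv1 hv2
  have key := box_le e ![c₁, s⁻¹ * (c₂ - g * c₁), 0] ![w₁, (w₂ + w₁) / s, ρ]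
    (by
      intro i
      fin_cases i
      · exact hw1
      · exact div_nonneg (by linarith) hspos.le
      · exact hρ) (S := S)
    (by
      intro x hx i
      obtain ⟨hx0, hx1, hx2⟩ := hS x hx
      fin_cases i
      · show |inner ℝ (e 0) x - c₁| ≤ w₁
        rw [he0]; exact hx1
      · show |inner ℝ (e 1) x - s⁻¹ * (c₂ - g * c₁)| ≤ (w₂ + w₁) / s
        rw [he1, inner_smul_left, inner_sub_left, inner_smul_left]
        simp only [conj_trivial]
        have h5 : s⁻¹ * (inner ℝ ν₂ x - g * inner ℝ ν₁ x) - s⁻¹ * (c₂ - g * c₁) =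
            s⁻¹ * ((inner ℝ ν₂ x - c₂) - g * (inner ℝ ν₁ x - c₁)) := by ring
        rw [h5, abs_mul, abs_of_pos (inv_pos.mpr hspos), div_eq_inv_mul]
        apply mul_le_mul_of_nonneg_left _ (inv_pos.mpr hspos).le
        have h6 : |g * (inner ℝ ν₁ x - c₁)| ≤ w₁ := by
          rw [abs_mul]
          calc |g| * |inner ℝ ν₁ x - c₁| ≤ 1 * w₁ :=
                mul_le_mul hgabs hx1 (abs_nonneg _) zero_le_one
            _ = w₁ := one_mul _
        exact (abs_sub _ _).trans (add_le_add hx2 h6)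
      · show |inner ℝ (e 2) x - 0| ≤ ρ
        rw [sub_zero]
        have h7 := abs_real_inner_le_norm (e 2) x
        rw [e.norm_eq_one, one_mul] at h7
        exact h7.trans hx0)
  exact key.2

/-- Three transversal slabs: `ν₁ ⊥ ν₂` unit, `ν₃` unit with inner products `g₁, g₂`,
`κ² = 1 - g₁² - g₂² > 0`.  With `e₀ = ν₁, e₁ = ν₂, e₂` orthonormal: `ν₃ = g₁ e₀ + g₂ e₁ ± κ e₂`, so
`|e₂ x - c| ≤ (w₃ + w₁ + w₂) / κ`. -/
theorem upper3 {ν₁ ν₂ ν₃ : E3} (h1 : ‖ν₁‖ = 1) (h2 : ‖ν₂‖ = 1) (h3 : ‖ν₃‖ = 1)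
    (h12 : inner ℝ ν₁ ν₂ = 0) {g₁ g₂ : ℝ} (hg1 : inner ℝ ν₁ ν₃ = g₁) (hg2 : inner ℝ ν₂ ν₃ = g₂)
    (hk : 0 < 1 - g₁ ^ 2 - g₂ ^ 2) {c₁ c₂ c₃ w₁ w₂ w₃ : ℝ} (hw1 : 0 ≤ w₁) (hw2 : 0 ≤ w₂)
    (hw3 : 0 ≤ w₃) {S : Set E3}
    (hS : ∀ x ∈ S, |inner ℝ ν₁ x - c₁| ≤ w₁ ∧ |inner ℝ ν₂ x - c₂| ≤ w₂ ∧
      |inner ℝ ν₃ x - c₃| ≤ w₃) :
    volume.real S ≤ 8 * w₁ * w₂ * ((w₃ + w₁ + w₂) / √(1 - g₁ ^ 2 - g₂ ^ 2)) := by
  obtain ⟨e, he0, he1⟩ := exists_basis2 h1 h2 h12
  set t : ℝ := inner ℝ (e 2) ν₃ with ht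
  have hdec : ν₃ = g₁ • e 0 + g₂ • e 1 + t • e 2 := by
    have := e.sum_repr' ν₃
    rw [Fin.sum_univ_three] at this
    rw [he0, he1] at this ⊢
    rw [hg1, hg2] at this
    exact this.symm
  have hin : ∀ x, inner ℝ ν₃ x = g₁ * inner ℝ ν₁ x + g₂ * inner ℝ ν₂ x + t * inner ℝ (e 2) x := by
    intro x
    conv_lhs => rw [hdec]
    rw [inner_add_left, inner_add_left, inner_smul_left, inner_smul_left, inner_smul_left, he0,
      he1]
    simp only [conj_trivial]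
  have ht2 : t ^ 2 = 1 - g₁ ^ 2 - g₂ ^ 2 := by
    have h33 : inner ℝ ν₃ ν₃ = (1 : ℝ) := by rw [real_inner_self_eq_norm_sq, h3]; norm_num
    rw [hin ν₃, hg1, hg2, ← ht] at h33
    linarith
  set k : ℝ := √(1 - g₁ ^ 2 - g₂ ^ 2) with hk'
  have hkpos : 0 < k := Real.sqrt_pos.mpr hk
  have htk : |t| = k := by
    rw [hk', ← ht2, Real.sqrt_sq_eq_abs]
  have ht0 : t ≠ 0 := by
    intro h0
    rw [h0, abs_zero] at htk
    exact hkpos.ne htk
  have hg1' : |g₁| ≤ 1 := by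
    rw [← sq_le_one_iff_abs_le_one]; nlinarith [sq_nonneg g₂]
  have hg2' : |g₂| ≤ 1 := by
    rw [← sq_le_one_iff_abs_le_one]; nlinarith [sq_nonneg g₁]
  have key := box_le e ![c₁, c₂, t⁻¹ * (c₃ - g₁ * c₁ - g₂ * c₂)]
    ![w₁, w₂, (w₃ + w₁ + w₂) / k]
    (by
      intro i
      fin_cases i
      · exact hw1
      · exact hw2
      · exact div_nonneg (by linarith) hkpos.le) (S := S)
    (by
      intro x hx i
      obtain ⟨hx0, hx1, hx2⟩ := hS x hx
      fin_cases i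
      · show |inner ℝ (e 0) x - c₁| ≤ w₁
        rw [he0]; exact hx0
      · show |inner ℝ (e 1) x - c₂| ≤ w₂
        rw [he1]; exact hx1
      · show |inner ℝ (e 2) x - t⁻¹ * (c₃ - g₁ * c₁ - g₂ * c₂)| ≤ (w₃ + w₁ + w₂) / k
        have h5 : inner ℝ (e 2) x - t⁻¹ * (c₃ - g₁ * c₁ - g₂ * c₂) =
            t⁻¹ * ((inner ℝ ν₃ x - c₃) - g₁ * (inner ℝ ν₁ x - c₁) -
              g₂ * (inner ℝ ν₂ x - c₂)) := by
          rw [hin x]
          field_simp
          ring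
        rw [h5, abs_mul, abs_inv, htk, div_eq_inv_mul]
        apply mul_le_mul_of_nonneg_left _ (inv_pos.mpr hkpos).le
        have h6 : |g₁ * (inner ℝ ν₁ x - c₁)| ≤ w₁ := by
          rw [abs_mul]
          calc |g₁| * |inner ℝ ν₁ x - c₁| ≤ 1 * w₁ :=
                mul_le_mul hg1' hx0 (abs_nonneg _) zero_le_one
            _ = w₁ := one_mul _
        have h7 : |g₂ * (inner ℝ ν₂ x - c₂)| ≤ w₂ := by
          rw [abs_mul]
          calc |g₂| * |inner ℝ ν₂ x - c₂| ≤ 1 * w₂ :=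
                mul_le_mul hg2' hx1 (abs_nonneg _) zero_le_one
            _ = w₂ := one_mul _
        refine (abs_sub _ _).trans (add_le_add ((abs_sub _ _).trans (add_le_add hx2 h6)) h7))
  exact key.2

/-- A thin slab in a ball (`box_ge` with the box `(0,τ) × (-r/2, r/2)²`,
`τ² + r²/2 ≤ 3r²/4 < r²`). -/
theorem slab_ge {ν : E3} (hν : ‖ν‖ = 1) (c : E3) {r τ : ℝ} (hr : 0 < r) (hτ : 0 ≤ τ)
    (hτr : τ ≤ r / 2) :
    τ * r ^ 2 ≤ volume.real {x ∈ ball c r | 0 < inner ℝ ν (x - c) ∧ inner ℝ ν (x - c) < τ} := by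
  obtain ⟨e, he0⟩ := exists_basis1 hν
  have key := box_ge e ![inner ℝ (e 0) c, inner ℝ (e 1) c - r / 2, inner ℝ (e 2) c - r / 2]
    ![inner ℝ (e 0) c + τ, inner ℝ (e 1) c + r / 2, inner ℝ (e 2) c + r / 2]
    (by
      intro i
      fin_cases i
      · show inner ℝ (e 0) c ≤ inner ℝ (e 0) c + τ
        linarith
      · show inner ℝ (e 1) c - r / 2 ≤ inner ℝ (e 1) c + r / 2
        linarith
      · show inner ℝ (e 2) c - r / 2 ≤ inner ℝ (e 2) c + r / 2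
        linarith)
    (S := {x ∈ ball c r | 0 < inner ℝ ν (x - c) ∧ inner ℝ ν (x - c) < τ})
    (by
      intro x hx
      have h0 : inner ℝ (e 0) c < inner ℝ (e 0) x ∧ inner ℝ (e 0) x < inner ℝ (e 0) c + τ := hx 0
      have h1 : inner ℝ (e 1) c - r / 2 < inner ℝ (e 1) x ∧
        inner ℝ (e 1) x < inner ℝ (e 1) c + r / 2 := hx 1
      have h2 : inner ℝ (e 2) c - r / 2 < inner ℝ (e 2) x ∧
        inner ℝ (e 2) x < inner ℝ (e 2) c + r / 2 := hx 2
      have hi : ∀ i, inner ℝ (e i) (x - c) = inner ℝ (e i) x - inner ℝ (e i) c :=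
        fun i => inner_sub_right _ _ _
      refine ⟨?_, ?_, ?_⟩
      · rw [mem_ball, dist_eq_norm]
        apply lt_of_pow_lt_pow_left₀ 2 hr.le
        rw [← e.sum_sq_inner_right (x - c), Fin.sum_univ_three, hi, hi, hi]
        have a0 : (inner ℝ (e 0) x - inner ℝ (e 0) c) ^ 2 ≤ (r / 2) ^ 2 := by
          apply pow_le_pow_left₀ <;> linarith
        have a1 : (inner ℝ (e 1) x - inner ℝ (e 1) c) ^ 2 ≤ (r / 2) ^ 2 := by
          apply sq_le_sq' <;> linarith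
        have a2 : (inner ℝ (e 2) x - inner ℝ (e 2) c) ^ 2 ≤ (r / 2) ^ 2 := by
          apply sq_le_sq' <;> linarith
        nlinarith
      · rw [← he0, hi]; linarith
      · rw [← he0, hi]; linarith)
    (ne_top_of_le_ne_top measure_ball_lt_top.ne (measure_mono (Set.sep_subset _ _)))
  refine le_trans (le_of_eq ?_) key
  show τ * r ^ 2 = (inner ℝ (e 0) c + τ - inner ℝ (e 0) c) *
    ((inner ℝ (e 1) c + r / 2) - (inner ℝ (e 1) c - r / 2)) *
    ((inner ℝ (e 2) c + r / 2) - (inner ℝ (e 2) c - r / 2))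
  ring

/-- A thin wedge-shaped box in a ball. -/
theorem wedge_ge {ν₁ ν₂ : E3} (h1 : ‖ν₁‖ = 1) (h2 : ‖ν₂‖ = 1) (h12 : inner ℝ ν₁ ν₂ = 0) (c : E3)
    {r a₁ b₁ a₂ b₂ : ℝ} (hr : 0 < r) (hab1 : a₁ ≤ b₁) (hab2 : a₂ ≤ b₂) (ha1 : -(r / 2) ≤ a₁)
    (hb1 : b₁ ≤ r / 2) (ha2 : -(r / 2) ≤ a₂) (hb2 : b₂ ≤ r / 2) :
    (b₁ - a₁) * (b₂ - a₂) * r ≤ volume.real {x ∈ ball c r |
      (a₁ < inner ℝ ν₁ (x - c) ∧ inner ℝ ν₁ (x - c) < b₁) ∧
      (a₂ < inner ℝ ν₂ (x - c) ∧ inner ℝ ν₂ (x - c) < b₂)} := by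
  obtain ⟨e, he0, he1⟩ := exists_basis2 h1 h2 h12
  have key := box_ge e
    ![inner ℝ (e 0) c + a₁, inner ℝ (e 1) c + a₂, inner ℝ (e 2) c - r / 2]
    ![inner ℝ (e 0) c + b₁, inner ℝ (e 1) c + b₂, inner ℝ (e 2) c + r / 2]
    (by
      intro i
      fin_cases i
      · show inner ℝ (e 0) c + a₁ ≤ inner ℝ (e 0) c + b₁
        linarith
      · show inner ℝ (e 1) c + a₂ ≤ inner ℝ (e 1) c + b₂
        linarith
      · show inner ℝ (e 2) c - r / 2 ≤ inner ℝ (e 2) c + r / 2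
        linarith)
    (S := {x ∈ ball c r |
      (a₁ < inner ℝ ν₁ (x - c) ∧ inner ℝ ν₁ (x - c) < b₁) ∧
      (a₂ < inner ℝ ν₂ (x - c) ∧ inner ℝ ν₂ (x - c) < b₂)})
    (by
      intro x hx
      have g0 : inner ℝ (e 0) c + a₁ < inner ℝ (e 0) x ∧
        inner ℝ (e 0) x < inner ℝ (e 0) c + b₁ := hx 0
      have g1 : inner ℝ (e 1) c + a₂ < inner ℝ (e 1) x ∧
        inner ℝ (e 1) x < inner ℝ (e 1) c + b₂ := hx 1
      have g2 : inner ℝ (e 2) c - r / 2 < inner ℝ (e 2) x ∧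
        inner ℝ (e 2) x < inner ℝ (e 2) c + r / 2 := hx 2
      have hi : ∀ i, inner ℝ (e i) (x - c) = inner ℝ (e i) x - inner ℝ (e i) c :=
        fun i => inner_sub_right _ _ _
      refine ⟨?_, ⟨?_, ?_⟩, ⟨?_, ?_⟩⟩
      · rw [mem_ball, dist_eq_norm]
        apply lt_of_pow_lt_pow_left₀ 2 hr.le
        rw [← e.sum_sq_inner_right (x - c), Fin.sum_univ_three, hi, hi, hi]
        have k0 : (inner ℝ (e 0) x - inner ℝ (e 0) c) ^ 2 ≤ (r / 2) ^ 2 := by
          apply sq_le_sq' <;> linarith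
        have k1 : (inner ℝ (e 1) x - inner ℝ (e 1) c) ^ 2 ≤ (r / 2) ^ 2 := by
          apply sq_le_sq' <;> linarith
        have k2 : (inner ℝ (e 2) x - inner ℝ (e 2) c) ^ 2 ≤ (r / 2) ^ 2 := by
          apply sq_le_sq' <;> linarith
        nlinarith
      · rw [← he0, hi]; linarith
      · rw [← he0, hi]; linarith
      · rw [← he1, hi]; linarith
      · rw [← he1, hi]; linarith)
    (ne_top_of_le_ne_top measure_ball_lt_top.ne (measure_mono (Set.sep_subset _ _)))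
  refine le_trans (le_of_eq ?_) key
  show (b₁ - a₁) * (b₂ - a₂) * r = (inner ℝ (e 0) c + b₁ - (inner ℝ (e 0) c + a₁)) *
    ((inner ℝ (e 1) c + b₂) - (inner ℝ (e 1) c + a₂)) *
    ((inner ℝ (e 2) c + r / 2) - (inner ℝ (e 2) c - r / 2))
  ring

end Pool.TC
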