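import Pool.Agent.W_0c5e58_h61.LCaseP
import Pool.Agent.W_0c5e58_h61.LCaseH
import Pool.Agent.W_0c5e58_h61.PBox

/-!
# Classification of pairs
-/

open MeasureTheory Metric Set Filter
open scoped Topology

namespace Pool.TC

variable {I Φ : Type}

/-- A unit vector orthogonal to two unit vectors. -/
theorem LClassify_orth {u v : E3} (hu : ‖u‖ = 1) (hv : ‖v‖ = 1) (h0 : 0 < inner ℝ u v)
    (h1 : inner ℝ u v < 1) : ∃ d : E3, ‖d‖ = 1 ∧ inner ℝ u d = 0 ∧ inner ℝ v d = 0 := by
  obtain ⟨g, hg⟩ : ∃ g : ℝ, g = inner ℝ u v := ⟨_, rfl⟩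
  rw [← hg] at h0 h1
  have hg2 : 0 < 1 - g ^ 2 := by nlinarith
  obtain ⟨s, hs⟩ : ∃ s : ℝ, s = √(1 - g ^ 2) := ⟨_, rfl⟩
  have hspos : 0 < s := by rw [hs]; exact Real.sqrt_pos.mpr hg2
  have hs2 : s ^ 2 = 1 - g ^ 2 := by rw [hs]; exact Real.sq_sqrt hg2.le
  have h11 : inner ℝ u u = (1 : ℝ) := by rw [real_inner_self_eq_norm_sq, hu]; norm_num
  have h22 : inner ℝ v v = (1 : ℝ) := by rw [real_inner_self_eq_norm_sq, hv]; norm_num
  have h21 : inner ℝ v u = g := by rw [real_inner_comm]; exact hg.symm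
  have hv1 : ‖s⁻¹ • (v - g • u)‖ = 1 := by
    have : ‖v - g • u‖ ^ 2 = s ^ 2 := by
      rw [← real_inner_self_eq_norm_sq, inner_sub_left, inner_sub_right, inner_sub_right,
        inner_smul_left, inner_smul_left, inner_smul_right, inner_smul_right, h11, h22, h21, ← hg,
        hs2]
      simp only [conj_trivial]
      ring
    have h3 : ‖v - g • u‖ = s :=
      (pow_left_inj₀ (norm_nonneg _) hspos.le two_ne_zero).mp this
    rw [norm_smul, h3, norm_inv, Real.norm_of_nonneg hspos.le, inv_mul_cancel₀ hspos.ne']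
  have hv2 : inner ℝ u (s⁻¹ • (v - g • u)) = 0 := by
    rw [inner_smul_right, inner_sub_right, inner_smul_right, ← hg, h11]
    ring
  obtain ⟨e, he0, he1⟩ := exists_basis2 hu hv1 hv2
  have o0 : inner ℝ (e 0) (e 2) = 0 := e.orthonormal.2 (by decide)
  have o1 : inner ℝ (e 1) (e 2) = 0 := e.orthonormal.2 (by decide)
  rw [he0] at o0
  rw [he1, inner_smul_left, inner_sub_left, inner_smul_left, o0] at o1
  simp only [conj_trivial, mul_zero, sub_zero] at o1
  refine ⟨e 2, e.norm_eq_one 2, o0, ?_⟩
  exact (mul_eq_zero.mp o1).resolve_left (inv_ne_zero hspos.ne')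

/-- **Classification.**  A body with an obtuse lateral edge and any other body are flush or
crossing.

Proof.  Let `k, l` be the obtuse pair of `a`.  Choose a unit vector `d` orthogonal to both normals
with `- d ∈ T a`: if `a` has a third active face, it is the end face, orthogonal to both, and
`d :=` its normal; otherwise any of the two unit vectors.  `star_lemma` at `e = - d` gives a
`Star3` with `w 0 = a`.  If some `w i` contains `d`: `star_lemma` for `w i`, its pair
`(fa i, fb i)`, at `e = d` gives a second star `w'` with `w' 0 = w i`; rotate the first star by `i`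
(`Star3.rot`) and apply `caseP` (index of `a` in the rotated star: `0 - i`).  If no `w i` contains
`d`, then each has an end face, of normal `- (- d) = d` (`Star3.rest`), and `CaseF.pair` applies. -/
theorem Loc.classify [Finite I] (D : Loc I Φ) {a b : I} (hab : a ≠ b) (ha : D.Obt a) :
    D.Flush a b ∨ D.Cross a b := by
  obtain ⟨k, hk, l, hl, hkl, lk, ll, hp⟩ := ha
  obtain ⟨d, hd, kd, ld, hmem⟩ : ∃ d : E3, ‖d‖ = 1 ∧ inner ℝ (D.ν a k) d = 0 ∧
      inner ℝ (D.ν a l) d = 0 ∧ - d ∈ D.T a := by
    by_cases h3 : ∃ f ∈ D.A a, f ≠ k ∧ f ≠ l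
    · obtain ⟨f, hf, hfk, hfl⟩ := h3
      have hnl : ∀ g ∈ D.A a, g ≠ k → g ≠ l → ¬ D.lat g := by
        intro g hg hgk hgl hlat
        rcases D.latU a k hk l hl g hg lk ll hlat with h | h | h
        · exact hkl h
        · exact hgk h.symm
        · exact hgl h.symm
      have hfn := hnl f hf hfk hfl
      refine ⟨D.ν a f, D.unit a f, D.latEnd a k hk f hf lk hfn, D.latEnd a l hl f hf ll hfn, ?_⟩
      intro g hg
      rw [inner_neg_right, neg_nonpos]
      by_cases hgk : g = k
      · rw [hgk, D.latEnd a k hk f hf lk hfn]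
      · by_cases hgl : g = l
        · rw [hgl, D.latEnd a l hl f hf ll hfn]
        · have : g = f := D.endU a g hg f hf (hnl g hg hgk hgl) hfn
          rw [this]
          exact real_inner_self_nonneg
    · push Not at h3
      obtain ⟨d, hd, kd, ld⟩ := LClassify_orth (D.unit a k) (D.unit a l) hp
        (D.gram_lt hk hl hkl)
      refine ⟨d, hd, kd, ld, ?_⟩
      intro g hg
      rw [inner_neg_right, neg_nonpos]
      by_cases hgk : g = k
      · rw [hgk, kd]
      · rw [h3 g hg hgk, ld]
  obtain ⟨w, fa, fb, S, hw0, hfa0, hfb0⟩ := D.star_lemma hk hl hkl hp (e := - d)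
    (by rw [norm_neg]; exact hd) (by rw [inner_neg_right, kd, neg_zero])
    (by rw [inner_neg_right, ld, neg_zero]) hmem
  have oa : ∀ i, inner ℝ (D.ν (w i) (fa i)) d = 0 := by
    intro i
    have := S.oa i
    rw [inner_neg_right, neg_eq_zero] at this
    exact this
  have ob : ∀ i, inner ℝ (D.ν (w i) (fb i)) d = 0 := by
    intro i
    have := S.ob i
    rw [inner_neg_right, neg_eq_zero] at this
    exact this
  by_cases hT : ∃ i, d ∈ D.T (w i)
  · obtain ⟨i, hi⟩ := hT
    obtain ⟨w', fa', fb', S', hw', hfa', hfb'⟩ := D.star_lemma (S.hfa i) (S.hfb i) (S.ne i)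
      (S.pos i) hd (oa i) (ob i) hi
    have h0 : - i + i = 0 := neg_add_cancel i
    have key := caseP D (S.rot i) S' (by simp only [zero_add]; exact hw'.symm)
      (by simp only [zero_add]; exact hfa'.symm) (by simp only [zero_add]; exact hfb'.symm)
      (- i) b (by
        simp only [h0]
        rw [hw0]; exact hab)
    simp only [h0, hw0] at key
    exact key
  · push Not at hT
    have hE : ∀ i, ∃ f ∈ D.A (w i), D.ν (w i) f = d := by
      intro i
      have h1 := hT i
      have h2 : ∃ f ∈ D.A (w i), 0 < inner ℝ (D.ν (w i) f) d := by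
        by_contra hcon
        push Not at hcon
        exact h1 hcon
      obtain ⟨f, hf, hpos⟩ := h2
      refine ⟨f, hf, ?_⟩
      have h3 := (S.rest i hf (by rintro rfl; rw [oa i] at hpos; exact lt_irrefl _ hpos)
        (by rintro rfl; rw [ob i] at hpos; exact lt_irrefl _ hpos)).1
      rw [neg_neg] at h3
      exact h3
    choose fe hfe hfed using hE
    have H : CaseF D d w fa fb fe := ⟨S, hfe, hfed⟩
    have := H.pair (y := b) (by rw [hw0]; exact hab)
    rw [hw0] at this
    exact this

/-- Crossing is symmetric: `(a, c, u, b)` becomes `(b, u, c, a)` with `- n, - d`. -/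
theorem Loc.Cross.symm {D : Loc I Φ} {a b : I} (h : D.Cross a b) : D.Cross b a := by
  obtain ⟨c, u, fn, fd, cn, cd, un, ud, bn, bd, r, h⟩ := h
  refine ⟨u, c, bn, bd, un, ud, cn, cd, fn, fd, r, ?_⟩
  exact {
    hr := h.hr
    afn := h.bbn
    afd := h.bbd
    ccn := h.uun
    ccd := h.uud
    uun := h.ccn
    uud := h.ccd
    bbn := h.afn
    bbd := h.afd
    ecn := by rw [h.eun, h.ebn, neg_neg]
    ecd := by rw [h.eud, h.ebd]
    eun := by rw [h.ecn, h.ebn]
    eud := by rw [h.ecd, h.ebd, neg_neg]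
    ebn := by rw [h.ebn, neg_neg]
    ebd := by rw [h.ebd, neg_neg]
    nd := by rw [h.ebn, h.ebd, inner_neg_neg]; exact h.nd
    rn := by rw [h.ebn, inner_neg_left, h.rn, neg_zero]
    rd := by rw [h.ebd, inner_neg_left, h.rd, neg_zero]
    oa := h.ob
    oc := h.ou
    ou := h.oc
    ob := h.oa }

end Pool.TC
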