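import Pool.Agent.W_0c5e58_h61.PCross
import Pool.Agent.W_0c5e58_h61.LClassify

/-!
# The Local Lemma
-/

open MeasureTheory Metric Set Filter
open scoped Topology

namespace Pool.TC

variable {I Φ ι : Type} {D : Loc I Φ} {F : Filter ι}

theorem PLocal_kappa {p q m r : E3} (hp : ‖p‖ = 1) (hq : ‖q‖ = 1) (hm : ‖m‖ = 1)
    (hpq : inner ℝ p q = (0 : ℝ)) (pr : inner ℝ p r = (0 : ℝ)) (qr : inner ℝ q r = (0 : ℝ))
    (mr : inner ℝ m r < (0 : ℝ)) :
    0 < 1 - (inner ℝ p m : ℝ) ^ 2 - (inner ℝ q m : ℝ) ^ 2 := by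
  have hpp : inner ℝ p p = (1 : ℝ) := by rw [real_inner_self_eq_norm_sq, hp]; norm_num
  have hqq : inner ℝ q q = (1 : ℝ) := by rw [real_inner_self_eq_norm_sq, hq]; norm_num
  have hmm : inner ℝ m m = (1 : ℝ) := by rw [real_inner_self_eq_norm_sq, hm]; norm_num
  have hqp : inner ℝ q p = (0 : ℝ) := by rw [real_inner_comm]; exact hpq
  set g : ℝ := inner ℝ p m with hg
  set k : ℝ := inner ℝ q m with hk
  have hmp : inner ℝ m p = g := by rw [real_inner_comm]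
  have hmq : inner ℝ m q = k := by rw [real_inner_comm]
  have hvr : inner ℝ (m - g • p - k • q) r = (inner ℝ m r : ℝ) := by
    rw [inner_sub_left, inner_sub_left, real_inner_smul_left, real_inner_smul_left, pr, qr]
    ring
  have hv0 : m - g • p - k • q ≠ 0 := by
    intro h
    rw [h, inner_zero_left] at hvr
    linarith
  have hn : inner ℝ (m - g • p - k • q) (m - g • p - k • q) = 1 - g ^ 2 - k ^ 2 := by
    simp only [inner_sub_left, inner_sub_right, real_inner_smul_left, real_inner_smul_right,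
      hpp, hqq, hmm, hpq, hqp, hmp, hmq, ← hg, ← hk]
    ring
  rw [← hn]
  exact real_inner_self_pos.mpr hv0

theorem PLocal_tube (R : Pert D F) {a : I} {f₁ f₂ : Φ} {r : E3}
    (nd : inner ℝ (D.ν a f₁) (D.ν a f₂) = (0 : ℝ))
    (r1 : inner ℝ (D.ν a f₁) r = (0 : ℝ)) (r2 : inner ℝ (D.ν a f₂) r = (0 : ℝ))
    (oa : ∀ f ∈ D.A a, f ≠ f₁ → f ≠ f₂ → inner ℝ (D.ν a f) r < (0 : ℝ))
    {C : ℝ} {w₁ w₂ : ι → ℝ} (w1n : ∀ n, 0 ≤ w₁ n) (w2n : ∀ n, 0 ≤ w₂ n)
    (t1 : Tendsto w₁ F (𝓝 0)) (t2 : Tendsto w₂ F (𝓝 0))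
    (hw : ∀ᶠ n in F, w₁ n * w₂ n ≤ C * R.void n) {O : ι → Set E3}
    (hO : ∀ᶠ n in F, ∀ x ∈ O n, x ∈ ball (0 : E3) R.ρ ∧ x ∈ R.body n a ∧
      |R.ell n a f₁ x| ≤ w₁ n ∧ |R.ell n a f₂ x| ≤ w₂ n) {δ : ℝ} (hδ : 0 < δ) :
    ∀ᶠ n in F, volume.real (O n ∩ R.tube n a) ≤ δ * R.void n := by
  classical
  set s := (D.A a).filter (fun m => m ≠ f₁ ∧ m ≠ f₂) with hs
  set κ : Φ → ℝ := fun m => 1 - (inner ℝ (D.ν a f₁) (D.ν a m) : ℝ) ^ 2 -
    (inner ℝ (D.ν a f₂) (D.ν a m) : ℝ) ^ 2 with hκ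
  have hκp : ∀ m ∈ s, 0 < κ m := by
    intro m hm
    rw [hs, Finset.mem_filter] at hm
    exact PLocal_kappa (D.unit a f₁) (D.unit a f₂) (D.unit a m) nd r1 r2
      (oa m hm.1 hm.2.1 hm.2.2)
  set B : ℝ := ∑ m ∈ s, 8 * C / √(κ m) with hB
  have tsum : Tendsto (fun n => B * (R.ε n + w₁ n + w₂ n)) F (𝓝 0) := by
    have := ((R.tε.add t1).add t2).const_mul B
    simpa using this
  have hsmall : ∀ᶠ n in F, B * (R.ε n + w₁ n + w₂ n) < δ := tsum.eventually_lt_const hδ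
  filter_upwards [hw, hO, hsmall] with n hwn hOn hsn
  have hvoid : 0 ≤ R.void n := measureReal_nonneg
  set W : Φ → Set E3 := fun m => {x | x ∈ O n ∧ |R.ell n a m x| ≤ R.ε n} with hW
  have hcov : O n ∩ R.tube n a ⊆ ⋃ m ∈ s, W m := by
    rintro x ⟨hxO, k, hk, l, hl, hkl, lk, ll, hpos, hk', hl'⟩
    obtain ⟨hxb, hxB, h1x, h2x⟩ := hOn x hxO
    have key : ∀ m ∈ D.A a, m ≠ f₁ → m ≠ f₂ → R.γ n a m - R.ε n ≤ inner ℝ (R.ν n a m) x →
        x ∈ ⋃ m ∈ s, W m := by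
      intro m hm m1 m2 hge
      simp only [mem_iUnion]
      refine ⟨m, by rw [hs, Finset.mem_filter]; exact ⟨hm, m1, m2⟩, hxO, ?_⟩
      have hle : inner ℝ (R.ν n a m) x ≤ R.γ n a m := hxB m hm
      rw [Pert.ell, abs_le]
      constructor <;> linarith [R.εnn n]
    by_cases hk1 : k = f₁
    · by_cases hl1 : l = f₁
      · exact absurd (hk1.trans hl1.symm) hkl
      · by_cases hl2 : l = f₂
        · rw [hk1, hl2] at hpos
          linarith
        · exact key l hl hl1 hl2 hl'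
    · by_cases hk2 : k = f₂
      · by_cases hl1 : l = f₁
        · rw [hk2, hl1, real_inner_comm] at hpos
          linarith
        · by_cases hl2 : l = f₂
          · exact absurd (hk2.trans hl2.symm) hkl
          · exact key l hl hl1 hl2 hl'
      · exact key k hk hk1 hk2 hk'
  have hfin : volume (⋃ m ∈ s, W m) ≠ ⊤ := by
    have hsub : (⋃ m ∈ s, W m) ⊆ ball (0 : E3) R.ρ := by
      intro x hx
      simp only [mem_iUnion] at hx
      obtain ⟨m, _, hx, _⟩ := hx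
      exact (hOn x hx).1
    exact ((measure_mono hsub).trans_lt measure_ball_lt_top).ne
  have hun : ∀ f, ‖R.ν n a f‖ = 1 := by
    intro f
    have h := R.gram n a f f
    rw [real_inner_self_eq_norm_sq, real_inner_self_eq_norm_sq, D.unit a f] at h
    have h0 : 0 ≤ ‖R.ν n a f‖ := norm_nonneg _
    nlinarith
  calc volume.real (O n ∩ R.tube n a) ≤ volume.real (⋃ m ∈ s, W m) := measureReal_mono hcov hfin
    _ ≤ ∑ m ∈ s, volume.real (W m) := measureReal_biUnion_finset_le _ _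
    _ ≤ ∑ m ∈ s, (8 * C / √(κ m)) * ((R.ε n + w₁ n + w₂ n) * R.void n) := by
        apply Finset.sum_le_sum
        intro m hm
        have hk := hκp m hm
        have hu := upper3 (S := W m) (hun f₁) (hun f₂) (hun m) ((R.gram n a f₁ f₂).trans nd)
          (R.gram n a f₁ m) (R.gram n a f₂ m) hk (c₁ := R.γ n a f₁) (c₂ := R.γ n a f₂)
          (c₃ := R.γ n a m) (w1n n) (w2n n) (R.εnn n) (by
            rintro x ⟨hxO, hx⟩
            obtain ⟨hxb, hxB, h1x, h2x⟩ := hOn x hxO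
            exact ⟨h1x, h2x, hx⟩)
        refine hu.trans ?_
        have hsq : 0 < √(κ m) := Real.sqrt_pos.mpr hk
        have hsum : 0 ≤ R.ε n + w₁ n + w₂ n := by
          have := R.εnn n
          have := w1n n
          have := w2n n
          linarith
        have e1 : 8 * w₁ n * w₂ n * ((R.ε n + w₁ n + w₂ n) /
            √(1 - (inner ℝ (D.ν a f₁) (D.ν a m) : ℝ) ^ 2 -
              (inner ℝ (D.ν a f₂) (D.ν a m) : ℝ) ^ 2)) =
            (w₁ n * w₂ n) * (8 * (R.ε n + w₁ n + w₂ n) / √(κ m)) := by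
          rw [hκ]
          ring
        have e2 : (8 * C / √(κ m)) * ((R.ε n + w₁ n + w₂ n) * R.void n) =
            (C * R.void n) * (8 * (R.ε n + w₁ n + w₂ n) / √(κ m)) := by ring
        rw [e1, e2]
        apply mul_le_mul_of_nonneg_right hwn
        positivity
    _ = B * (R.ε n + w₁ n + w₂ n) * R.void n := by
        rw [← Finset.sum_mul, ← hB]
        ring
    _ ≤ δ * R.void n := mul_le_mul_of_nonneg_right hsn.le hvoid

theorem PLocal_aff (R : Pert D F) (n : ι) (a b : I) (f g : Φ) {x : E3}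
    (hx : x ∈ ball (0 : E3) R.ρ) :
    |R.ell n a f x + R.ell n b g x| ≤ (1 + R.ρ) *
      (|R.ell n a f 0 + R.ell n b g 0| + ‖R.ν n a f + R.ν n b g‖) := by
  have hxn : ‖x‖ < R.ρ := by
    rw [mem_ball_zero_iff] at hx
    exact hx
  have hρ := R.ρpos
  have e : R.ell n a f x + R.ell n b g x = (R.ell n a f 0 + R.ell n b g 0) +
      inner ℝ (R.ν n a f + R.ν n b g) x := by
    simp only [Pert.ell, inner_zero_right, inner_add_left]
    ring
  rw [e]
  have h1 : |(inner ℝ (R.ν n a f + R.ν n b g) x : ℝ)| ≤ ‖R.ν n a f + R.ν n b g‖ * R.ρ :=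
    (abs_real_inner_le_norm _ _).trans
      (mul_le_mul_of_nonneg_left hxn.le (norm_nonneg _))
  have h2 := abs_add_le (R.ell n a f 0 + R.ell n b g 0)
    (inner ℝ (R.ν n a f + R.ν n b g) x : ℝ)
  have h3 : 0 ≤ |R.ell n a f 0 + R.ell n b g 0| := abs_nonneg _
  have h4 : 0 ≤ ‖R.ν n a f + R.ν n b g‖ := norm_nonneg _
  nlinarith [mul_nonneg hρ.le h3]

theorem PLocal_tend (R : Pert D F) {a b : I} {f g : Φ} (hf : f ∈ D.A a) (hg : g ∈ D.A b)
    (h : D.ν b g = - D.ν a f) :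
    Tendsto (fun n => (1 + R.ρ) *
      (|R.ell n a f 0 + R.ell n b g 0| + ‖R.ν n a f + R.ν n b g‖)) F (𝓝 0) := by
  have h1 : Tendsto (fun n => R.ell n a f 0 + R.ell n b g 0) F (𝓝 0) := by
    have := ((R.tγ a f hf).neg).add ((R.tγ b g hg).neg)
    simp only [neg_zero, add_zero] at this
    refine this.congr ?_
    intro n
    simp [Pert.ell]
  have h2 : Tendsto (fun n => R.ν n a f + R.ν n b g) F (𝓝 0) := by
    have := (R.tν a f).add (R.tν b g)
    rw [h, add_neg_cancel] at this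
    exact this
  have h3 := (h1.abs.add h2.norm).const_mul (1 + R.ρ)
  simpa using h3

theorem PLocal_two {y z w : ℝ} (hy : y ≤ 0) (hz : z ≤ 0) (h : |y + z| ≤ w) :
    |y| ≤ w ∧ |z| ≤ w := by
  rw [abs_le] at h ⊢
  rw [abs_le]
  refine ⟨⟨?_, ?_⟩, ?_, ?_⟩ <;> linarith [h.1, h.2]

/-- **Crossing Bound.**  In the overlap of `a, b` within the ball:
`y = ell a fn ≤ 0`, `ell b bn = - y - G ≤ 0`, so `|ell a fn| ≤ |G|`, `|ell b bn| ≤ |G|`, and
`|ell a fd|, |ell b bd| ≤ |Dd|`; `|G| ≤ w₁ := (1+ρ) (|G 0| + ‖g‖)`, `|Dd| ≤ w₂ := (1 + ρ) (|Dd 0| +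
‖δ‖)` in the ball (notation of `cross_core`), `w₁ w₂ ≤ C v` and `w₁, w₂ → 0`.  Up to a null set
the overlap is in the tube of `a` or of `b`.  Tube of `a`: faces `k ≠ l`, limit inner product
`> 0`, both `|ell| ≤ ε`; they are not `{fn, fd}` (inner product `0`), so one of them is
`m ≠ fn, fd`.  Covered by the finitely many sets `|ell a fn| ≤ w₁`, `|ell a fd| ≤ w₂`,
`|ell a m| ≤ ε`; `upper3` with `g₁ = inner n (ν m)`, `g₂ = inner d (ν m)`:
`1 - g₁² - g₂² > 0` because `inner (ν m) r < 0`, `r ⊥ n, d` (constant in `n` by `R.gram`).  The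
volume is `≤ 8 w₁ w₂ (ε + w₁ + w₂)/κ ≤ (8 C/κ) (ε + w₁ + w₂) v`.  Same for the tube of `b` with
`bn, bd`. -/
theorem Pert.cross_bound [Finite I] (R : Pert D F) {a b : I} (hab : a ≠ b) (h : D.Cross a b)
    {δ : ℝ} (hδ : 0 < δ) : ∀ᶠ n in F,
      volume.real (R.body n a ∩ R.body n b ∩ ball 0 R.ρ) ≤ δ * R.void n := by
  obtain ⟨c, u, fn, fd, cn, cd, un, ud, bn, bd, r, hX⟩ := h
  obtain ⟨C, hC, hCe⟩ := R.cross_core hX
  set w₁ : ι → ℝ := fun n => (1 + R.ρ) *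
    (|R.ell n a fn 0 + R.ell n b bn 0| + ‖R.ν n a fn + R.ν n b bn‖) with hw1
  set w₂ : ι → ℝ := fun n => (1 + R.ρ) *
    (|R.ell n a fd 0 + R.ell n b bd 0| + ‖R.ν n a fd + R.ν n b bd‖) with hw2
  have hρ := R.ρpos
  have w1n : ∀ n, 0 ≤ w₁ n := fun n => by
    simp only [hw1]
    positivity
  have w2n : ∀ n, 0 ≤ w₂ n := fun n => by
    simp only [hw2]
    positivity
  have t1 : Tendsto w₁ F (𝓝 0) := PLocal_tend R hX.afn hX.bbn hX.ebn
  have t2 : Tendsto w₂ F (𝓝 0) := PLocal_tend R hX.afd hX.bbd hX.ebd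
  have hw : ∀ᶠ n in F, w₁ n * w₂ n ≤ ((1 + R.ρ) ^ 2 * C) * R.void n := by
    filter_upwards [hCe] with n hn
    have e : w₁ n * w₂ n = (1 + R.ρ) ^ 2 *
        ((|R.ell n a fn 0 + R.ell n b bn 0| + ‖R.ν n a fn + R.ν n b bn‖) *
        (|R.ell n a fd 0 + R.ell n b bd 0| + ‖R.ν n a fd + R.ν n b bd‖)) := by
      simp only [hw1, hw2]
      ring
    rw [e, mul_assoc]
    exact mul_le_mul_of_nonneg_left hn (by positivity)
  have hov : ∀ n, ∀ x ∈ R.body n a ∩ R.body n b ∩ ball (0 : E3) R.ρ,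
      (|R.ell n a fn x| ≤ w₁ n ∧ |R.ell n b bn x| ≤ w₁ n) ∧
      (|R.ell n a fd x| ≤ w₂ n ∧ |R.ell n b bd x| ≤ w₂ n) := by
    rintro n x ⟨⟨hxa, hxb⟩, hx⟩
    have q1 : R.ell n a fn x ≤ 0 := sub_nonpos.mpr (hxa fn hX.afn)
    have q2 : R.ell n b bn x ≤ 0 := sub_nonpos.mpr (hxb bn hX.bbn)
    have q3 : R.ell n a fd x ≤ 0 := sub_nonpos.mpr (hxa fd hX.afd)
    have q4 : R.ell n b bd x ≤ 0 := sub_nonpos.mpr (hxb bd hX.bbd)
    exact ⟨PLocal_two q1 q2 (PLocal_aff R n a b fn bn hx),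
      PLocal_two q3 q4 (PLocal_aff R n a b fd bd hx)⟩
  have ndb : inner ℝ (D.ν b bn) (D.ν b bd) = (0 : ℝ) := by
    rw [hX.ebn, hX.ebd, inner_neg_neg]
    exact hX.nd
  have rnb : inner ℝ (D.ν b bn) r = (0 : ℝ) := by
    rw [hX.ebn, inner_neg_left, hX.rn, neg_zero]
  have rdb : inner ℝ (D.ν b bd) r = (0 : ℝ) := by
    rw [hX.ebd, inner_neg_left, hX.rd, neg_zero]
  have hδ2 : 0 < δ / 2 := by linarith
  have Ta := PLocal_tube R hX.nd hX.rn hX.rd hX.oa w1n w2n t1 t2 hw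
    (O := fun n => R.body n a ∩ R.body n b ∩ ball (0 : E3) R.ρ)
    (Eventually.of_forall (fun n x hx => ⟨hx.2, hx.1.1, (hov n x hx).1.1, (hov n x hx).2.1⟩))
    hδ2
  have Tb := PLocal_tube R ndb rnb rdb hX.ob w1n w2n t1 t2 hw
    (O := fun n => R.body n a ∩ R.body n b ∩ ball (0 : E3) R.ρ)
    (Eventually.of_forall (fun n x hx => ⟨hx.2, hx.1.2, (hov n x hx).1.2, (hov n x hx).2.2⟩))
    hδ2
  filter_upwards [Ta, Tb, R.null] with n ha hb hnull
  have hn0 := hnull a b hab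
  set O := R.body n a ∩ R.body n b ∩ ball (0 : E3) R.ρ with hO
  have hOball : O ⊆ ball (0 : E3) R.ρ := inter_subset_right
  have hfin : ∀ S : Set E3, S ⊆ O → volume S ≠ ⊤ := fun S hS =>
    ((measure_mono (hS.trans hOball)).trans_lt measure_ball_lt_top).ne
  have hsub : O ⊆ (O ∩ R.tube n a) ∪ (O ∩ R.tube n b) ∪ (O \ (R.tube n a ∪ R.tube n b)) := by
    intro x hx
    by_cases h1 : x ∈ R.tube n a
    · exact Or.inl (Or.inl ⟨hx, h1⟩)
    · by_cases h2 : x ∈ R.tube n b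
      · exact Or.inl (Or.inr ⟨hx, h2⟩)
      · exact Or.inr ⟨hx, fun h => h.elim h1 h2⟩
  have hz : volume.real (O \ (R.tube n a ∪ R.tube n b)) = 0 := by
    have : volume (O \ (R.tube n a ∪ R.tube n b)) = 0 := hn0
    rw [Measure.real, this, ENNReal.toReal_zero]
  have hfinU : volume ((O ∩ R.tube n a) ∪ (O ∩ R.tube n b) ∪
      (O \ (R.tube n a ∪ R.tube n b))) ≠ ⊤ := by
    apply hfin
    intro x hx
    rcases hx with (hx | hx) | hx
    · exact hx.1
    · exact hx.1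
    · exact hx.1
  have h1 := measureReal_mono hsub hfinU
  have h2 := measureReal_union_le (μ := volume) ((O ∩ R.tube n a) ∪ (O ∩ R.tube n b))
    (O \ (R.tube n a ∪ R.tube n b))
  have h3 := measureReal_union_le (μ := volume) (O ∩ R.tube n a) (O ∩ R.tube n b)
  have ha' : volume.real (O ∩ R.tube n a) ≤ δ / 2 * R.void n := ha
  have hb' : volume.real (O ∩ R.tube n b) ≤ δ / 2 * R.void n := hb
  linarith

/-- **Local Lemma.**  If `i` is `Obt`: `classify`, `flush_bound`, `cross_bound`.  If `j` is `Obt`: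
the same for `(j, i)`.  If neither is, both tubes are empty and the overlap is null by
`R.null`. -/
theorem Pert.local_lemma [Finite I] (R : Pert D F) {i j : I} (hij : i ≠ j)
    {δ : ℝ} (hδ : 0 < δ) : ∀ᶠ n in F,
      volume.real (R.body n i ∩ R.body n j ∩ ball 0 R.ρ) ≤ δ * R.void n := by
  by_cases hi : D.Obt i
  · rcases D.classify hij hi with h | h
    · exact R.flush_bound hij h hδ
    · exact R.cross_bound hij h hδ
  by_cases hj : D.Obt j
  · have h' : ∀ᶠ n in F,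
        volume.real (R.body n j ∩ R.body n i ∩ ball 0 R.ρ) ≤ δ * R.void n := by
      rcases D.classify hij.symm hj with h | h
      · exact R.flush_bound hij.symm h hδ
      · exact R.cross_bound hij.symm h hδ
    filter_upwards [h'] with n hn
    rw [inter_comm (R.body n i) (R.body n j)]
    exact hn
  filter_upwards [R.null] with n hn
  have h0 := hn i j hij
  have e1 : tubeS (D.A i) D.lat (D.ν i) (R.ν n i) (R.γ n i) (R.ε n) = ∅ := by
    ext x
    simp only [mem_empty_iff_false, iff_false]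
    rintro ⟨k, hk, l, hl, hkl, lk, ll, hpos, _, _⟩
    exact hi ⟨k, hk, l, hl, hkl, lk, ll, hpos⟩
  have e2 : tubeS (D.A j) D.lat (D.ν j) (R.ν n j) (R.γ n j) (R.ε n) = ∅ := by
    ext x
    simp only [mem_empty_iff_false, iff_false]
    rintro ⟨k, hk, l, hl, hkl, lk, ll, hpos, _, _⟩
    exact hj ⟨k, hk, l, hl, hkl, lk, ll, hpos⟩
  rw [e1, e2, union_empty, sdiff_empty] at h0
  have h1 : volume (R.body n i ∩ R.body n j ∩ ball 0 R.ρ) = 0 := h0
  have h2 : volume.real (R.body n i ∩ R.body n j ∩ ball 0 R.ρ) = 0 := by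
    rw [Measure.real, h1, ENNReal.toReal_zero]
  rw [h2]
  have hvoid : 0 ≤ R.void n := measureReal_nonneg
  positivity

end Pool.TC
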