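import Pool.Agent.W_0c5e58_h61.GChart
import Pool.Agent.W_0c5e58_h61.PLocal

/-!
# Convergent sequences of almost tilings of `ball 0 3`
-/

open MeasureTheory Metric Set Filter
open scoped Topology ENNReal

namespace Pool.TC

variable {N : ℕ}

/-- A sequence of families of `m` prisms which overlap in `ball 0 3` only in the tubes, with
convergent data (along the filter `F`), tube width and void tending to `0`. -/
structure SeqData (P : Pgon N) (m : ℕ) (F : Filter ℕ) where
  h : ℕ → ℝ
  L : ℕ → Fin m → (E3 →L[ℝ] E3)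
  t : ℕ → Fin m → E3
  ε : ℕ → ℝ
  h' : ℝ
  L' : Fin m → (E3 →L[ℝ] E3)
  t' : Fin m → E3
  h'pos : 0 < h'
  iso : ∀ n i x, ‖L n i x‖ = ‖x‖
  th : Tendsto h F (𝓝 h')
  tL : ∀ i, Tendsto (fun n => L n i) F (𝓝 (L' i))
  tt : ∀ i, Tendsto (fun n => t n i) F (𝓝 (t' i))
  tε : Tendsto ε F (𝓝 0)
  εnn : ∀ n, 0 ≤ ε n
  null : ∀ n, ∀ i j, i ≠ j →
    volume (((Qb P (L n i) (t n i) (h n) ∩ Qb P (L n j) (t n j) (h n)) ∩ ball 0 3) \
      (Tb P (L n i) (t n i) (ε n) ∪ Tb P (L n j) (t n j) (ε n))) = 0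
  tvoid : Tendsto (fun n => volume.real (ball (0 : E3) 3 \
    ⋃ i, Qb P (L n i) (t n i) (h n))) F (𝓝 0)

variable {P : Pgon N} {m : ℕ} {F : Filter ℕ}

noncomputable def SeqData.Q (A : SeqData P m F) (n : ℕ) (i : Fin m) : Set E3 :=
  Qb P (A.L n i) (A.t n i) (A.h n)

noncomputable def SeqData.void (A : SeqData P m F) (n : ℕ) : ℝ :=
  volume.real (ball (0 : E3) 3 \ ⋃ i, A.Q n i)

theorem GSeq_tapp (A : SeqData P m F) (i : Fin m) (x : E3) :
    Tendsto (fun n => A.L n i x) F (𝓝 (A.L' i x)) :=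
  ((ContinuousLinearMap.apply ℝ E3 x).continuous.tendsto _).comp (A.tL i)

theorem SeqData.iso' [F.NeBot] (A : SeqData P m F) (i : Fin m) (x : E3) : ‖A.L' i x‖ = ‖x‖ := by
  have h1 := (GSeq_tapp A i x).norm
  have h2 : Tendsto (fun n => ‖A.L n i x‖) F (𝓝 ‖x‖) := by
    simp only [A.iso]
    exact tendsto_const_nhds
  exact tendsto_nhds_unique h1 h2

theorem GSeq_rho {α : Type*} [Finite α] (c : α → ℝ) (hc : ∀ a, 0 < c a) {c0 : ℝ} (h0 : 0 < c0) :
    ∃ ρ > 0, ρ ≤ c0 ∧ ∀ a, ρ ≤ c a := by
  obtain ⟨o, ho⟩ := Finite.exists_min (fun o : Option α => o.elim c0 c)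
  refine ⟨o.elim c0 c, ?_, ho none, fun a => ho (some a)⟩
  cases o with
  | none => exact h0
  | some a => exact hc a

theorem GSeq_toff (P : Pgon N) {F : Filter ℕ} {h : ℕ → ℝ} {h' : ℝ} (th : Tendsto h F (𝓝 h'))
    (f : Fin N ⊕ Bool) : Tendsto (fun n => off P (h n) f) F (𝓝 (off P h' f)) := by
  rcases f with k | b
  · exact tendsto_const_nhds
  · cases b
    · exact tendsto_const_nhds
    · exact th

/-- the value of the face `f` of the prism `i` at `q` -/
noncomputable def GSeq_d (P : Pgon N) (L : E3 →L[ℝ] E3) (t : E3) (h : ℝ) (f : Fin N ⊕ Bool)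
    (q : E3) : ℝ := inner ℝ (L (nrm P f)) (q - t) - off P h f

theorem GSeq_td (A : SeqData P m F) (i : Fin m) (f : Fin N ⊕ Bool) (q : E3) :
    Tendsto (fun n => GSeq_d P (A.L n i) (A.t n i) (A.h n) f q) F
      (𝓝 (GSeq_d P (A.L' i) (A.t' i) A.h' f q)) := by
  unfold GSeq_d
  exact ((GSeq_tapp A i _).inner (tendsto_const_nhds.sub (A.tt i))).sub (GSeq_toff P A.th f)

theorem GSeq_close (hP : P.Good) (A : SeqData P m F) (n : ℕ) (i : Fin m) (f : Fin N ⊕ Bool)
    {q x : E3} {ρ : ℝ} (hx : x ∈ ball q ρ) :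
    |inner ℝ (A.L n i (nrm P f)) (x - A.t n i) - off P (A.h n) f -
      GSeq_d P (A.L n i) (A.t n i) (A.h n) f q| ≤ ρ := by
  have e : inner ℝ (A.L n i (nrm P f)) (x - A.t n i) - off P (A.h n) f -
      GSeq_d P (A.L n i) (A.t n i) (A.h n) f q = inner ℝ (A.L n i (nrm P f)) (x - q) := by
    unfold GSeq_d
    rw [inner_sub_right, inner_sub_right, inner_sub_right]
    ring
  rw [e]
  refine (abs_real_inner_le_norm _ _).trans ?_
  rw [A.iso, nrm_unit hP, one_mul, ← dist_eq_norm]
  exact (mem_ball.1 hx).le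

/-- Near a point `q`: there is `ρ > 0`, `ball q ρ ⊆ ball 0 3`, such that for late `n`, on
`ball q ρ`: prisms whose limit does not contain `q` are absent; for the others, faces which are
strictly inactive at `q` in the limit have slack more than `ε n`.
(`inner (L n i (nrm f)) (x - t n i) - off (h n) f` converges, uniformly in `x ∈ ball q ρ` up to
`ρ`, to its value at `q` in the limit; finitely many `i, f`.) -/
theorem SeqData.near [F.NeBot] (hP : P.Good) (A : SeqData P m F) {q : E3}
    (hq : q ∈ ball (0 : E3) 3) :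
    ∃ ρ > 0, ball q ρ ⊆ ball 0 3 ∧ ∀ᶠ n in F, ∀ x ∈ ball q ρ, ∀ i,
      (q ∉ Qb P (A.L' i) (A.t' i) A.h' → x ∉ A.Q n i) ∧
      (∀ f, inner ℝ (A.L' i (nrm P f)) (q - A.t' i) < off P A.h' f →
        inner ℝ (A.L n i (nrm P f)) (x - A.t n i) < off P (A.h n) f - A.ε n) := by
  classical
  set d : Fin m × (Fin N ⊕ Bool) → ℝ := fun z => GSeq_d P (A.L' z.1) (A.t' z.1) A.h' z.2 q with hd
  have hq3 : 0 < 3 - ‖q‖ := by
    rw [mem_ball_zero_iff] at hq
    linarith
  obtain ⟨ρ, hρ, hρ3, hρd⟩ := GSeq_rho (fun z => if d z = 0 then 1 else |d z| / 4) (fun z => by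
    change 0 < if d z = 0 then (1 : ℝ) else |d z| / 4
    split_ifs with h
    · exact one_pos
    · have := abs_pos.2 h
      linarith) hq3
  have hρd' : ∀ z, d z ≠ 0 → ρ ≤ |d z| / 4 := by
    intro z hz
    have := hρd z
    rwa [if_neg hz] at this
  refine ⟨ρ, hρ, ?_, ?_⟩
  · intro x hx
    rw [mem_ball_zero_iff]
    have h1 : ‖x‖ ≤ ‖x - q‖ + ‖q‖ := by
      have := norm_add_le (x - q) q
      rwa [sub_add_cancel] at this
    have h2 : ‖x - q‖ < ρ := by
      rw [← dist_eq_norm]
      exact mem_ball.1 hx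
    linarith
  · have hev : ∀ᶠ n in F, ∀ z : Fin m × (Fin N ⊕ Bool),
        (0 < d z → d z / 2 < GSeq_d P (A.L n z.1) (A.t n z.1) (A.h n) z.2 q) ∧
        (d z < 0 → GSeq_d P (A.L n z.1) (A.t n z.1) (A.h n) z.2 q < d z / 2 ∧
          A.ε n < - d z / 4) := by
      rw [eventually_all]
      intro z
      have ht := GSeq_td A z.1 z.2 q
      rcases lt_trichotomy (d z) 0 with h | h | h
      · have h1 := ht.eventually_lt_const (u := d z / 2) (by
          change d z < d z / 2
          linarith)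
        have h2 := A.tε.eventually_lt_const (u := - d z / 4) (by linarith)
        filter_upwards [h1, h2] with n h1 h2
        exact ⟨fun h' => absurd h' (by linarith), fun _ => ⟨h1, h2⟩⟩
      · exact Eventually.of_forall fun n => ⟨fun h' => absurd h h'.ne', fun h' => absurd h h'.ne⟩
      · have h1 := ht.eventually_const_lt (u := d z / 2) (by
          change d z / 2 < d z
          linarith)
        filter_upwards [h1] with n h1
        exact ⟨fun _ => h1, fun h' => absurd h' (by linarith)⟩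
    filter_upwards [hev] with n hn x hx i
    refine ⟨fun hqi hxi => ?_, fun f hf => ?_⟩
    · unfold Qb at hqi
      rw [mem_setOf_eq] at hqi
      push Not at hqi
      obtain ⟨f, hf⟩ := hqi
      have hd0 : 0 < d (i, f) := sub_pos.2 hf
      have h1 := (hn (i, f)).1 hd0
      have h2 := hρd' (i, f) hd0.ne'
      rw [abs_of_pos hd0] at h2
      have h3 := (abs_le.1 (GSeq_close hP A n i f hx)).1
      have h4 : inner ℝ (A.L n i (nrm P f)) (x - A.t n i) ≤ off P (A.h n) f := hxi f
      simp only at h1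
      linarith
    · have hd0 : d (i, f) < 0 := sub_neg.2 hf
      obtain ⟨h1, h5⟩ := (hn (i, f)).2 hd0
      have h2 := hρd' (i, f) hd0.ne
      rw [abs_of_neg hd0] at h2
      have h3 := (abs_le.1 (GSeq_close hP A n i f hx)).2
      simp only at h1
      linarith

/-- The limit prisms cover the open ball: otherwise a small ball around the point would be in the
void for late `n` (`near`). -/
theorem SeqData.cover [F.NeBot] (hP : P.Good) (A : SeqData P m F) {x : E3}
    (hx : x ∈ ball (0 : E3) 3) : ∃ i, x ∈ Qb P (A.L' i) (A.t' i) A.h' := by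
  by_contra hcon
  push Not at hcon
  obtain ⟨ρ, hρ, hsub, hev⟩ := A.near hP hx
  have hvol : 0 < volume.real (ball x ρ) := by
    rw [Measure.real, ENNReal.toReal_pos_iff]
    exact ⟨measure_ball_pos volume x hρ, measure_ball_lt_top⟩
  have h1 : ∀ᶠ n in F, volume.real (ball x ρ) ≤ volume.real (ball (0 : E3) 3 \
      ⋃ i, Qb P (A.L n i) (A.t n i) (A.h n)) := by
    filter_upwards [hev] with n hn
    apply measureReal_mono
    · intro y hy
      refine ⟨hsub hy, ?_⟩
      rw [mem_iUnion]
      rintro ⟨i, hi⟩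
      exact (hn y hy i).1 (hcon i) hi
    · exact ((measure_mono sdiff_subset).trans_lt measure_ball_lt_top).ne
  have h2 := ge_of_tendsto A.tvoid h1
  linarith

/-- No point is strictly inside two limit prisms: a small ball around it would, for late `n`, be in
both prisms and outside both tubes (`near`: all faces have slack more than `ε n`), contradicting
`null`. -/
theorem SeqData.disj [F.NeBot] (hP : P.Good) (A : SeqData P m F) {x : E3}
    (hx : x ∈ ball (0 : E3) 3) {i j : Fin m} (hij : i ≠ j)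
    (h1 : ∀ f, inner ℝ (A.L' i (nrm P f)) (x - A.t' i) < off P A.h' f)
    (h2 : ∀ f, inner ℝ (A.L' j (nrm P f)) (x - A.t' j) < off P A.h' f) : False := by
  obtain ⟨ρ, hρ, hsub, hev⟩ := A.near hP hx
  obtain ⟨n, hn⟩ := hev.exists
  have hnull := A.null n i j hij
  have hb : ball x ρ ⊆ ((Qb P (A.L n i) (A.t n i) (A.h n) ∩ Qb P (A.L n j) (A.t n j) (A.h n)) ∩
      ball 0 3) \ (Tb P (A.L n i) (A.t n i) (A.ε n) ∪ Tb P (A.L n j) (A.t n j) (A.ε n)) := by
    intro y hy
    have k1 := fun f => (hn y hy i).2 f (h1 f)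
    have k2 := fun f => (hn y hy j).2 f (h2 f)
    have hε := A.εnn n
    refine ⟨⟨⟨fun f => ?_, fun f => ?_⟩, hsub hy⟩, ?_⟩
    · linarith [k1 f]
    · linarith [k2 f]
    · rintro (⟨k, l, v, _, _, hk, _⟩ | ⟨k, l, v, _, _, hk, _⟩)
      · have := k1 (Sum.inl k)
        change inner ℝ (A.L n i (nrm P (Sum.inl k))) (y - A.t n i) < P.c k - A.ε n at this
        linarith
      · have := k2 (Sum.inl k)
        change inner ℝ (A.L n j (nrm P (Sum.inl k))) (y - A.t n j) < P.c k - A.ε n at this
        linarith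
  have := measure_mono_null hb hnull
  exact (measure_ball_pos volume x hρ).ne' this

/-- **Chart Lemma.**  Around every `q ∈ ball 0 3` there is a ball in which, for every `δ > 0`, the
overlaps are `≤ δ void` for late `n`.

Proof.  `cover`, `disj`, `iso'` and `exists_chart` give a `Loc` `D` at `q` (limit data), `near`
gives `ρ`.  Define a `Pert D F`: `ρ`, `ν n i f = L n i (nrm f)`,
`γ n i f = off (h n) f - inner (L n i (nrm f)) (q - t n i)`, `ε`.  `gram`: `inner_iso` twice.
`tν, tγ, tε`: convergence of the data (for `f ∈ A i` the limit of `γ` is `0` by definition of `A`).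
`null`: for late `n`, a point `x` of `bodyS ∩ bodyS ∩ ball 0 ρ` outside the `tubeS` gives
`x + q ∈ Q n i ∩ Q n j ∩ ball 0 3` (inactive faces by `near`) outside the tubes `Tb`: if `x + q` is
in `Tb` with the vertex pair `(k, l)` then both faces are active at `q` by `near`, so it is in
`tubeS` (`inner_nrm_ll`, `inner_iso` for the positive inner product).  So the set is a translate of
a subset of a null set.  `tvoid`: the void in the chart is, translated by `q`, contained in the
void of `ball 0 3` (prisms not containing `q` are absent by `near`; the others: `bodyS` translated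
contains `Q n i`).  The same inclusion gives `R.void n ≤ A.void n`.  Apply `Pert.local_lemma` to
each of the finitely many pairs; on `ball q ρ` the overlap `Q n i ∩ Q n j` is contained in the
translate of the `bodyS` overlap, and is empty if a limit prism does not contain `q`. -/
theorem SeqData.chart [F.NeBot] (hP : P.Good) (A : SeqData P m F) {q : E3}
    (hq : q ∈ ball (0 : E3) 3) :
    ∃ ρ > 0, ∀ δ > 0, ∀ᶠ n in F, ∀ i j, i ≠ j →
      volume.real (A.Q n i ∩ A.Q n j ∩ ball q ρ) ≤ δ * A.void n := by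
  classical
  obtain ⟨D, hA, hlat, hν⟩ := exists_chart hP A.h'pos A.iso' (fun x hx => A.cover hP hx)
    (fun x hx i j hij h1 h2 => A.disj hP hx hij h1 h2) hq
  obtain ⟨ρ, hρ, hsub, hev⟩ := A.near hP hq
  let νn : ℕ → {i : Fin m // q ∈ Qb P (A.L' i) (A.t' i) A.h'} → (Fin N ⊕ Bool) → E3 :=
    fun n i f => A.L n i.1 (nrm P f)
  let γn : ℕ → {i : Fin m // q ∈ Qb P (A.L' i) (A.t' i) A.h'} → (Fin N ⊕ Bool) → ℝ :=
    fun n i f => off P (A.h n) f - inner ℝ (A.L n i.1 (nrm P f)) (q - A.t n i.1)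
  -- translation into the ball at q
  have hball : ∀ x ∈ ball (0 : E3) ρ, x + q ∈ ball q ρ := by
    intro x hx
    rw [mem_ball, dist_eq_norm, add_sub_cancel_right]
    exact mem_ball_zero_iff.1 hx
  have hin : ∀ n (i : {i : Fin m // q ∈ Qb P (A.L' i) (A.t' i) A.h'}) f x,
      inner ℝ (A.L n i.1 (nrm P f)) (x + q - A.t n i.1) - off P (A.h n) f =
        inner ℝ (νn n i f) x - γn n i f := by
    intro n i f x
    change _ = inner ℝ (A.L n i.1 (nrm P f)) x -
      (off P (A.h n) f - inner ℝ (A.L n i.1 (nrm P f)) (q - A.t n i.1))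
    rw [add_sub_assoc, inner_add_right]
    ring
  have hinact : ∀ (i : {i : Fin m // q ∈ Qb P (A.L' i) (A.t' i) A.h'}) f, f ∉ D.A i →
      inner ℝ (A.L' i.1 (nrm P f)) (q - A.t' i.1) < off P A.h' f := by
    intro i f hf
    rw [hA] at hf
    exact lt_of_le_of_ne (i.2 f) hf
  have hbody : ∀ᶠ n in F, ∀ x ∈ ball (0 : E3) ρ, ∀ i,
      (x ∈ bodyS (D.A i) (νn n i) (γn n i) ↔ x + q ∈ A.Q n i.1) := by
    filter_upwards [hev] with n hn x hx i
    constructor
    · intro h f
      by_cases hf : f ∈ D.A i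
      · have h1 := h f hf
        have h2 := hin n i f x
        linarith
      · have h1 := (hn _ (hball x hx) i.1).2 f (hinact i f hf)
        have h2 := A.εnn n
        linarith
    · intro h f _
      have h1 : inner ℝ (A.L n i.1 (nrm P f)) (x + q - A.t n i.1) ≤ off P (A.h n) f := h f
      have h2 := hin n i f x
      linarith
  have htube : ∀ᶠ n in F, ∀ x ∈ ball (0 : E3) ρ, ∀ i,
      x + q ∈ Tb P (A.L n i.1) (A.t n i.1) (A.ε n) →
        x ∈ tubeS (D.A i) D.lat (D.ν i) (νn n i) (γn n i) (A.ε n) := by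
    filter_upwards [hev] with n hn x hx i
    rintro ⟨k, l, v, hv, hpos, hk, hl⟩
    have hact : ∀ k, P.c k - A.ε n ≤ inner ℝ (A.L n i.1 (nrm P (Sum.inl k)))
        (x + q - A.t n i.1) → Sum.inl k ∈ D.A i := by
      intro k hk
      by_contra hf
      have h1 := (hn _ (hball x hx) i.1).2 _ (hinact i _ hf)
      change _ < P.c k - A.ε n at h1
      linarith
    refine ⟨Sum.inl k, hact k hk, Sum.inl l, hact l hl, fun h => hv.1 (Sum.inl.inj h),
      (hlat _).2 rfl, (hlat _).2 rfl, ?_, ?_, ?_⟩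
    · rw [hν, hν, inner_iso (A.iso' i.1), inner_nrm_ll]
      exact hpos
    · have h2 := hin n i (Sum.inl k) x
      change _ - P.c k = _ at h2
      linarith
    · have h2 := hin n i (Sum.inl l) x
      change _ - P.c l = _ at h2
      linarith
  have hvsub : ∀ᶠ n in F, ∀ x ∈ ball (0 : E3) ρ \ ⋃ i, bodyS (D.A i) (νn n i) (γn n i),
      x + q ∈ ball (0 : E3) 3 \ ⋃ i, Qb P (A.L n i) (A.t n i) (A.h n) := by
    filter_upwards [hev, hbody] with n hn hb x hx
    refine ⟨hsub (hball x hx.1), ?_⟩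
    intro hmem
    obtain ⟨i, hi⟩ := mem_iUnion.1 hmem
    by_cases hqi : q ∈ Qb P (A.L' i) (A.t' i) A.h'
    · exact hx.2 (mem_iUnion.2 ⟨⟨i, hqi⟩, (hb x hx.1 ⟨i, hqi⟩).2 hi⟩)
    · exact (hn _ (hball x hx.1) i).1 hqi hi
  have hvle : ∀ᶠ n in F, volume.real (ball (0 : E3) ρ \ ⋃ i, bodyS (D.A i) (νn n i) (γn n i)) ≤
      volume.real (ball (0 : E3) 3 \ ⋃ i, Qb P (A.L n i) (A.t n i) (A.h n)) := by
    filter_upwards [hvsub] with n hn
    have h1 : volume (ball (0 : E3) ρ \ ⋃ i, bodyS (D.A i) (νn n i) (γn n i)) ≤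
        volume (ball (0 : E3) 3 \ ⋃ i, Qb P (A.L n i) (A.t n i) (A.h n)) := by
      rw [← measure_preimage_add_right volume q
        (ball (0 : E3) 3 \ ⋃ i, Qb P (A.L n i) (A.t n i) (A.h n))]
      exact measure_mono hn
    exact ENNReal.toReal_mono
      ((measure_mono sdiff_subset).trans_lt measure_ball_lt_top).ne h1
  let R : Pert D F :=
    { ρ := ρ
      ρpos := hρ
      ν := νn
      γ := γn
      ε := A.ε
      gram := by
        intro n i f g
        rw [hν, hν, inner_iso (A.iso' i.1)]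
        exact inner_iso (A.iso n i.1) _ _
      tν := by
        intro i f
        rw [hν]
        exact GSeq_tapp A i.1 _
      tγ := by
        intro i f hf
        have h1 := GSeq_td A i.1 f q
        have h2 : GSeq_d P (A.L' i.1) (A.t' i.1) A.h' f q = 0 := by
          unfold GSeq_d
          rw [(hA i f).1 hf, sub_self]
        rw [h2] at h1
        have h3 := h1.neg
        rw [neg_zero] at h3
        refine h3.congr fun n => ?_
        unfold GSeq_d
        change _ = off P (A.h n) f - inner ℝ (A.L n i.1 (nrm P f)) (q - A.t n i.1)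
        ring
      tε := A.tε
      εnn := A.εnn
      null := by
        filter_upwards [hbody, htube] with n hb ht i j hij
        have hij' : i.1 ≠ j.1 := fun h => hij (Subtype.ext h)
        have h0 := A.null n i.1 j.1 hij'
        rw [← measure_preimage_add_right volume q] at h0
        refine measure_mono_null ?_ h0
        rintro x ⟨⟨⟨hx1, hx2⟩, hx3⟩, hx4⟩
        refine ⟨⟨⟨(hb x hx3 i).1 hx1, (hb x hx3 j).1 hx2⟩, hsub (hball x hx3)⟩, ?_⟩
        rintro (h | h)
        · exact hx4 (Or.inl (ht x hx3 i h))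
        · exact hx4 (Or.inr (ht x hx3 j h))
      tvoid := by
        refine squeeze_zero' (Eventually.of_forall fun n => measureReal_nonneg) hvle A.tvoid }
  refine ⟨ρ, hρ, fun δ hδ => ?_⟩
  have hloc : ∀ᶠ n in F, ∀ i j : {i : Fin m // q ∈ Qb P (A.L' i) (A.t' i) A.h'}, i ≠ j →
      volume.real (R.body n i ∩ R.body n j ∩ ball 0 R.ρ) ≤ δ * R.void n := by
    rw [eventually_all]
    intro i
    rw [eventually_all]
    intro j
    by_cases hij : i = j
    · exact Eventually.of_forall fun n h => absurd hij h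
    · filter_upwards [R.local_lemma hij hδ] with n hn _
      exact hn
  filter_upwards [hloc, hvle, hbody, hev] with n hl hv hb hn i j hij
  have hvoid : 0 ≤ A.void n := measureReal_nonneg
  have hempty : ∀ i, q ∉ Qb P (A.L' i) (A.t' i) A.h' → A.Q n i ∩ ball q ρ = ∅ := by
    intro i hi
    rw [eq_empty_iff_forall_notMem]
    rintro x ⟨hx1, hx2⟩
    exact (hn x hx2 i).1 hi hx1
  by_cases hqi : q ∈ Qb P (A.L' i) (A.t' i) A.h'
  · by_cases hqj : q ∈ Qb P (A.L' j) (A.t' j) A.h'
    · have h1 := hl ⟨i, hqi⟩ ⟨j, hqj⟩ (fun h => hij (congrArg Subtype.val h))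
      have h2 : volume.real (A.Q n i ∩ A.Q n j ∩ ball q ρ) ≤
          volume.real (R.body n ⟨i, hqi⟩ ∩ R.body n ⟨j, hqj⟩ ∩ ball 0 R.ρ) := by
        have h3 : volume (A.Q n i ∩ A.Q n j ∩ ball q ρ) ≤
            volume (R.body n ⟨i, hqi⟩ ∩ R.body n ⟨j, hqj⟩ ∩ ball 0 R.ρ) := by
          rw [← measure_preimage_add_right volume q (A.Q n i ∩ A.Q n j ∩ ball q ρ)]
          apply measure_mono
          rintro x ⟨⟨hx1, hx2⟩, hx3⟩
          have hx4 : x ∈ ball (0 : E3) ρ := by
            rw [mem_ball, dist_eq_norm, add_sub_cancel_right] at hx3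
            exact mem_ball_zero_iff.2 hx3
          exact ⟨⟨(hb x hx4 ⟨i, hqi⟩).2 hx1, (hb x hx4 ⟨j, hqj⟩).2 hx2⟩, hx4⟩
        exact ENNReal.toReal_mono
          ((measure_mono inter_subset_right).trans_lt measure_ball_lt_top).ne h3
      have h4 : R.void n ≤ A.void n := hv
      calc _ ≤ _ := h2
        _ ≤ δ * R.void n := h1
        _ ≤ δ * A.void n := mul_le_mul_of_nonneg_left h4 (le_of_lt hδ)
    · have h1 : A.Q n i ∩ A.Q n j ∩ ball q ρ = ∅ := by
        rw [inter_assoc, hempty j hqj, inter_empty]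
      rw [h1, measureReal_empty]
      positivity
  · have h1 : A.Q n i ∩ A.Q n j ∩ ball q ρ = ∅ := by
      rw [inter_comm (A.Q n i), inter_assoc, hempty i hqi, inter_empty]
    rw [h1, measureReal_empty]
    positivity

/-- Finitely many charts cover `closedBall 0 1`: for every `δ > 0`, for late `n` the total overlap
in `ball 0 1` is at most `δ void`. -/
theorem SeqData.total [F.NeBot] (hP : P.Good) (A : SeqData P m F) {δ : ℝ} (hδ : 0 < δ) :
    ∀ᶠ n in F, ∑ i, ∑ j, (if i = j then 0 else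
      volume.real (A.Q n i ∩ A.Q n j ∩ ball 0 1)) ≤ δ * A.void n := by
  classical
  have hq3 : ∀ q ∈ closedBall (0 : E3) 1, q ∈ ball (0 : E3) 3 := by
    intro q hq
    rw [mem_closedBall_zero_iff] at hq
    rw [mem_ball_zero_iff]
    linarith
  choose! r hr hch using fun q (hq : q ∈ closedBall (0 : E3) 1) => A.chart hP (hq3 q hq)
  obtain ⟨t, ht, hcov⟩ := (isCompact_closedBall (0 : E3) 1).elim_nhds_subcover
    (fun q => ball q (r q)) (fun q hq => ball_mem_nhds q (hr q hq))
  set c : ℝ := (m : ℝ) * m * t.card + 1 with hc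
  have hcpos : 0 < c := by positivity
  have hev : ∀ᶠ n in F, ∀ q ∈ t, ∀ i j, i ≠ j →
      volume.real (A.Q n i ∩ A.Q n j ∩ ball q (r q)) ≤ δ / c * A.void n := by
    rw [Finset.eventually_all]
    intro q hq
    exact hch q (ht q hq) (δ / c) (div_pos hδ hcpos)
  filter_upwards [hev] with n hn
  have hvoid : 0 ≤ A.void n := measureReal_nonneg
  have hδc : 0 ≤ δ / c := (div_pos hδ hcpos).le
  have hpair : ∀ i j : Fin m, (if i = j then 0 else
      volume.real (A.Q n i ∩ A.Q n j ∩ ball 0 1)) ≤ t.card * (δ / c * A.void n) := by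
    intro i j
    split_ifs with hij
    · positivity
    · have h1 : A.Q n i ∩ A.Q n j ∩ ball 0 1 ⊆
          ⋃ q ∈ t, (A.Q n i ∩ A.Q n j ∩ ball q (r q)) := by
        rintro x ⟨hx1, hx2⟩
        have h2 := hcov (ball_subset_closedBall hx2)
        simp only [mem_iUnion] at h2 ⊢
        obtain ⟨q, hq, hxq⟩ := h2
        exact ⟨q, hq, hx1, hxq⟩
      have hfin : volume (⋃ q ∈ t, (A.Q n i ∩ A.Q n j ∩ ball q (r q))) ≠ ⊤ := by
        refine ((measure_biUnion_finset_le t _).trans_lt ?_).ne
        refine ENNReal.sum_lt_top.2 fun q _ => ?_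
        exact (measure_mono inter_subset_right).trans_lt measure_ball_lt_top
      calc volume.real (A.Q n i ∩ A.Q n j ∩ ball 0 1) ≤ _ := measureReal_mono h1 hfin
        _ ≤ ∑ q ∈ t, volume.real (A.Q n i ∩ A.Q n j ∩ ball q (r q)) :=
          measureReal_biUnion_finset_le _ _
        _ ≤ ∑ q ∈ t, (δ / c * A.void n) := Finset.sum_le_sum fun q hq => hn q hq i j hij
        _ = _ := by rw [Finset.sum_const, nsmul_eq_mul]
  calc _ ≤ ∑ i : Fin m, ∑ j : Fin m, (t.card * (δ / c * A.void n) : ℝ) :=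
        Finset.sum_le_sum fun i _ => Finset.sum_le_sum fun j _ => hpair i j
    _ = (m : ℝ) * m * t.card * (δ / c * A.void n) := by
        simp only [Finset.sum_const, Finset.card_univ, Fintype.card_fin, nsmul_eq_mul]
        ring
    _ ≤ c * (δ / c * A.void n) := by
        apply mul_le_mul_of_nonneg_right _ (by positivity)
        rw [hc]
        linarith
    _ = δ * A.void n := by
        field_simp

end Pool.TC
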