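import Pool.Agent.W_0c5e58_h61.LDefs

/-!
# Basic facts about `Loc`
-/

open MeasureTheory Metric Set Filter
open scoped Topology

namespace Pool.TC

variable {I Φ : Type}

theorem LBasic_self (D : Loc I Φ) (i : I) (f : Φ) :
    inner ℝ (D.ν i f) (D.ν i f) = (1 : ℝ) := by
  rw [real_inner_self_eq_norm_sq, D.unit i f]
  norm_num

theorem LBasic_ev {O : Set E3} (hO : IsOpen O) {x : E3} (hx : x ∈ O) (v : E3) :
    ∀ᶠ s in 𝓝 (0 : ℝ), x + s • v ∈ O := by
  have hc : Continuous fun s : ℝ => x + s • v := by fun_prop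
  have h0 : O ∈ 𝓝 ((fun s : ℝ => x + s • v) 0) := by
    simp only [zero_smul, add_zero]
    exact hO.mem_nhds hx
  exact hc.continuousAt.eventually h0

theorem LBasic_open (D : Loc I Φ) (i : I) :
    IsOpen {y | ∀ f ∈ D.A i, inner ℝ (D.ν i f) y < 0} := by
  have h : {y | ∀ f ∈ D.A i, inner ℝ (D.ν i f) y < 0}
      = ⋂ f ∈ D.A i, {y | inner ℝ (D.ν i f) y < 0} := by
    ext x
    simp
  rw [h]
  refine isOpen_biInter_finset fun f _ => ?_
  exact isOpen_lt (by fun_prop) continuous_const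

theorem LBasic_evneg (D : Loc I Φ) {i : I} {p : E3} (hi : p ∈ D.T i) (v : E3)
    (hv : ∀ f ∈ D.A i, inner ℝ (D.ν i f) p = 0 → inner ℝ (D.ν i f) v < 0) :
    ∀ᶠ s in 𝓝[>] (0 : ℝ), ∀ f ∈ D.A i, inner ℝ (D.ν i f) (p + s • v) < 0 := by
  refine (Filter.eventually_all_finset (D.A i)).mpr fun f hf => ?_
  by_cases h : inner ℝ (D.ν i f) p = 0
  · have h2 : ∀ᶠ s in 𝓝[>] (0 : ℝ), s ∈ Ioi (0 : ℝ) := self_mem_nhdsWithin
    refine h2.mono fun s hs => ?_
    rw [inner_add_right, inner_smul_right, h, zero_add]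
    exact mul_neg_of_pos_of_neg hs (hv f hf h)
  · have h1 : inner ℝ (D.ν i f) p < 0 := lt_of_le_of_ne (hi f hf) h
    have hO : IsOpen {y : E3 | inner ℝ (D.ν i f) y < 0} :=
      isOpen_lt (by fun_prop) continuous_const
    exact (LBasic_ev hO h1 v).filter_mono nhdsWithin_le_nhds

theorem LBasic_span {m m' k p : E3} (hm : ‖m‖ = 1) (hm' : ‖m'‖ = 1) (hk : ‖k‖ = 1)
    (h0 : 0 ≤ inner ℝ m m') (h1 : inner ℝ m m' < 1) (hmk : inner ℝ m k = 0)
    (hmk' : inner ℝ m' k = 0) (pm : inner ℝ m p = 0) (pm' : inner ℝ m' p = 0)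
    (pk : inner ℝ k p = 0) : p = 0 := by
  have sm : inner ℝ m m = (1 : ℝ) := by rw [real_inner_self_eq_norm_sq, hm]; norm_num
  have sm' : inner ℝ m' m' = (1 : ℝ) := by rw [real_inner_self_eq_norm_sq, hm']; norm_num
  have sk : inner ℝ k k = (1 : ℝ) := by rw [real_inner_self_eq_norm_sq, hk]; norm_num
  have hli : LinearIndependent ℝ ![m, m', k] := by
    rw [Fintype.linearIndependent_iff]
    intro c hc
    have hc' : c 0 • m + c 1 • m' + c 2 • k = 0 := by
      rw [Fin.sum_univ_three] at hc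
      exact hc
    have e1 : inner ℝ m (c 0 • m + c 1 • m' + c 2 • k) = (0 : ℝ) := by
      rw [hc', inner_zero_right]
    have e2 : inner ℝ m' (c 0 • m + c 1 • m' + c 2 • k) = (0 : ℝ) := by
      rw [hc', inner_zero_right]
    have e3 : inner ℝ k (c 0 • m + c 1 • m' + c 2 • k) = (0 : ℝ) := by
      rw [hc', inner_zero_right]
    rw [inner_add_right, inner_add_right, inner_smul_right, inner_smul_right,
      inner_smul_right] at e1 e2 e3
    rw [sm, hmk] at e1
    rw [sm', hmk', real_inner_comm] at e2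
    rw [sk, real_inner_comm, hmk, real_inner_comm, hmk'] at e3
    have c2 : c 2 = 0 := by linarith
    have c0 : c 0 = 0 := by
      have h3 : c 0 * (1 - (inner ℝ m m') ^ 2) = 0 := by
        linear_combination e1 - (inner ℝ m m') * e2
      rcases mul_eq_zero.mp h3 with h | h
      · exact h
      · exfalso
        nlinarith
    have c1 : c 1 = 0 := by
      rw [c0] at e2
      linarith
    intro i
    fin_cases i
    · exact c0
    · exact c1
    · exact c2
  have hsp : Submodule.span ℝ (Set.range ![m, m', k]) = ⊤ := by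
    refine hli.span_eq_top_of_card_eq_finrank ?_
    simp
  have hall : ∀ x ∈ Submodule.span ℝ (Set.range ![m, m', k]), inner ℝ x p = (0 : ℝ) := by
    intro x hx
    induction hx using Submodule.span_induction with
    | mem x hx =>
      obtain ⟨i, rfl⟩ := hx
      fin_cases i
      · exact pm
      · exact pm'
      · exact pk
    | zero => exact inner_zero_left _
    | add x y _ _ hx hy => rw [inner_add_left, hx, hy, add_zero]
    | smul c x _ hx => rw [inner_smul_left, hx, mul_zero]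
  have hpp := hall p (by rw [hsp]; exact Submodule.mem_top)
  exact inner_self_eq_zero.mp hpp

/-- Two different active normals of one body have inner product `≥ 0`: both lateral: `D.nn`;
one lateral and one end: `D.latEnd` (use `real_inner_comm`); both end: `D.endU` contradicts `h`. -/
theorem Loc.gram_nn (D : Loc I Φ) {i : I} {f g : Φ} (hf : f ∈ D.A i) (hg : g ∈ D.A i)
    (h : f ≠ g) : 0 ≤ inner ℝ (D.ν i f) (D.ν i g) := by
  by_cases h1 : D.lat f
  · by_cases h2 : D.lat g
    · exact D.nn i f hf g hg h h1 h2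
    · exact (D.latEnd i f hf g hg h1 h2).ge
  · by_cases h2 : D.lat g
    · rw [real_inner_comm]
      exact (D.latEnd i g hg f hf h2 h1).ge
    · exact absurd (D.endU i f hf g hg h1 h2) h

/-- Same proof, `< 1`. -/
theorem Loc.gram_lt (D : Loc I Φ) {i : I} {f g : Φ} (hf : f ∈ D.A i) (hg : g ∈ D.A i)
    (h : f ≠ g) : inner ℝ (D.ν i f) (D.ν i g) < 1 := by
  by_cases h1 : D.lat f
  · by_cases h2 : D.lat g
    · exact D.lt1 i f hf g hg h h1 h2
    · rw [D.latEnd i f hf g hg h1 h2]
      exact one_pos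
  · by_cases h2 : D.lat g
    · rw [real_inner_comm, D.latEnd i g hg f hf h2 h1]
      exact one_pos
    · exact absurd (D.endU i f hf g hg h1 h2) h

/-- If the inner product is `> 0` then both faces are lateral. -/
theorem Loc.lat_of_pos (D : Loc I Φ) {i : I} {f g : Φ} (hf : f ∈ D.A i) (hg : g ∈ D.A i)
    (h : f ≠ g) (hp : 0 < inner ℝ (D.ν i f) (D.ν i g)) : D.lat f ∧ D.lat g := by
  by_cases h1 : D.lat f
  · by_cases h2 : D.lat g
    · exact ⟨h1, h2⟩
    · rw [D.latEnd i f hf g hg h1 h2] at hp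
      exact absurd hp (lt_irrefl _)
  · by_cases h2 : D.lat g
    · rw [real_inner_comm, D.latEnd i g hg f hf h2 h1] at hp
      exact absurd hp (lt_irrefl _)
    · exact absurd (D.endU i f hf g hg h1 h2) h

/-- Two different faces of one body have different and not opposite normals
(`gram_lt`, `gram_nn`, `unit`). -/
theorem Loc.nu_ne (D : Loc I Φ) {i : I} {f g : Φ} (hf : f ∈ D.A i) (hg : g ∈ D.A i)
    (h : f ≠ g) : D.ν i f ≠ D.ν i g ∧ D.ν i f ≠ - D.ν i g := by
  have h1 := D.gram_lt hf hg h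
  have h2 := D.gram_nn hf hg h
  have h3 : inner ℝ (D.ν i g) (D.ν i g) = (1 : ℝ) := LBasic_self D i g
  constructor
  · intro h4
    rw [h4, h3] at h1
    exact lt_irrefl _ h1
  · intro h4
    rw [h4, inner_neg_left, h3] at h2
    linarith

/-- A strictly interior direction of the cone: `v = - ∑ f ∈ A i, ν i f`; for `f ∈ A i` the inner
product with `ν i f` is `-1 - ∑ (others, ≥ 0 by gram_nn) < 0`. -/
theorem Loc.exists_strict (D : Loc I Φ) (i : I) :
    ∃ v, ∀ f ∈ D.A i, inner ℝ (D.ν i f) v < 0 := by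
  classical
  refine ⟨- ∑ g ∈ D.A i, D.ν i g, fun f hf => ?_⟩
  rw [inner_neg_right, inner_sum]
  have h1 : inner ℝ (D.ν i f) (D.ν i f) ≤ ∑ g ∈ D.A i, inner ℝ (D.ν i f) (D.ν i g) := by
    refine Finset.single_le_sum (f := fun g => inner ℝ (D.ν i f) (D.ν i g)) (fun g hg => ?_) hf
    by_cases h : f = g
    · subst h
      exact real_inner_self_nonneg
    · exact D.gram_nn hf hg h
  rw [LBasic_self D i f] at h1
  linarith

/-- Every point of `T i` is a limit of strict points: add a small multiple of the vector of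
`exists_strict`. -/
theorem Loc.near_strict (D : Loc I Φ) {i : I} {x : E3} (hx : x ∈ D.T i) {O : Set E3}
    (hO : IsOpen O) (hxO : x ∈ O) : ∃ y ∈ O, ∀ f ∈ D.A i, inner ℝ (D.ν i f) y < 0 := by
  obtain ⟨v, hv⟩ := D.exists_strict i
  have h1 : ∀ᶠ s in 𝓝[>] (0 : ℝ), x + s • v ∈ O :=
    (LBasic_ev hO hxO v).filter_mono nhdsWithin_le_nhds
  have h2 : ∀ᶠ s in 𝓝[>] (0 : ℝ), s ∈ Ioi (0 : ℝ) := self_mem_nhdsWithin
  obtain ⟨s, hs1, hs2⟩ := (h1.and h2).exists
  refine ⟨x + s • v, hs1, fun f hf => ?_⟩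
  rw [inner_add_right, inner_smul_right]
  have h3 := hx f hf
  have h4 := hv f hf
  have h5 : (0 : ℝ) < s := hs2
  have h6 : s * inner ℝ (D.ν i f) v < 0 := mul_neg_of_pos_of_neg h5 h4
  linarith

theorem Loc.isClosed_T (D : Loc I Φ) (i : I) : IsClosed (D.T i) := by
  have h : D.T i = ⋂ f ∈ D.A i, {x | inner ℝ (D.ν i f) x ≤ 0} := by
    ext x
    simp [Loc.T]
  rw [h]
  refine isClosed_biInter fun f _ => ?_
  exact isClosed_le (by fun_prop) continuous_const

/-- `T i` is a convex cone: closed under nonnegative combinations. -/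
theorem Loc.T_comb (D : Loc I Φ) {i : I} {x y : E3} (hx : x ∈ D.T i) (hy : y ∈ D.T i) {s t : ℝ}
    (hs : 0 ≤ s) (ht : 0 ≤ t) : s • x + t • y ∈ D.T i := by
  intro f hf
  rw [inner_add_right, inner_smul_right, inner_smul_right]
  have h1 := mul_nonpos_of_nonneg_of_nonpos hs (hx f hf)
  have h2 := mul_nonpos_of_nonneg_of_nonpos ht (hy f hf)
  linarith

/-- A strict point of `T i` does not belong to another cone: otherwise (`near_strict` for `T j`
with the open set of strict points of `T i`) a point is strict for both. -/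
theorem Loc.strict_mem_false (D : Loc I Φ) {i j : I} (h : i ≠ j) {v : E3}
    (hv : ∀ f ∈ D.A i, inner ℝ (D.ν i f) v < 0) (hj : v ∈ D.T j) : False := by
  obtain ⟨y, hy1, hy2⟩ := D.near_strict hj (LBasic_open D i) hv
  exact D.disj i j h y hy1 hy2

theorem LBasic_small [Finite I] (D : Loc I Φ) (p v : E3) :
    ∃ s₀ > (0 : ℝ), ∀ s, 0 ≤ s → s ≤ s₀ → ∀ i, p + s • v ∈ D.T i → p ∈ D.T i := by
  have h1 : ∀ i, ∀ᶠ s in 𝓝 (0 : ℝ), p + s • v ∈ D.T i → p ∈ D.T i := by
    intro i
    by_cases h : p ∈ D.T i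
    · exact Filter.Eventually.of_forall fun s _ => h
    · have h2 : p ∈ (D.T i)ᶜ := h
      refine (LBasic_ev (D.isClosed_T i).isOpen_compl h2 v).mono fun s hs hs' => ?_
      exact absurd hs' hs
  have h2 : ∀ᶠ s in 𝓝 (0 : ℝ), ∀ i, p + s • v ∈ D.T i → p ∈ D.T i :=
    Filter.eventually_all.mpr h1
  obtain ⟨ε, hε, h3⟩ := Metric.eventually_nhds_iff.mp h2
  refine ⟨ε / 2, by positivity, fun s hs0 hs1 i hi => ?_⟩
  refine h3 ?_ i hi
  rw [Real.dist_eq, sub_zero, abs_of_nonneg hs0]
  linarith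

theorem LBasic_cover' [Finite I] (D : Loc I Φ) (p v : E3) :
    ∃ i, p ∈ D.T i ∧ (∀ f ∈ D.A i, inner ℝ (D.ν i f) p = 0 → inner ℝ (D.ν i f) v ≤ 0) ∧
      ∃ s₀ > (0 : ℝ), ∀ s, 0 ≤ s → s ≤ s₀ → p + s • v ∈ D.T i := by
  obtain ⟨s₁, hs₁, h1⟩ := LBasic_small D p v
  obtain ⟨i, hi⟩ := D.cover (p + s₁ • v)
  have hi' : p + s₁ • v ∈ D.T i := hi
  have hp : p ∈ D.T i := h1 s₁ hs₁.le le_rfl i hi'
  refine ⟨i, hp, fun f hf hf0 => ?_, s₁, hs₁, fun s hs0 hs1 => ?_⟩
  · have h2 := hi f hf
    rw [inner_add_right, inner_smul_right, hf0, zero_add] at h2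
    by_contra h3
    push Not at h3
    have h4 : 0 < s₁ * inner ℝ (D.ν i f) v := mul_pos hs₁ h3
    linarith
  · have h2 : p + s • v = (1 - s / s₁) • p + (s / s₁) • (p + s₁ • v) := by
      rw [smul_add, smul_smul, div_mul_cancel₀ s hs₁.ne', sub_smul, one_smul]
      abel
    rw [h2]
    have h3 : s / s₁ ≤ 1 := (div_le_one hs₁).mpr hs1
    exact D.T_comb hp hi' (by linarith) (div_nonneg hs0 hs₁.le)

/-- Covering, localised at `p`: for every direction `v` some body contains `p` and all its faces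
active at `p` are `≤ 0` at `v`.  Proof: for `s > 0` small, `p + s • v` is in no `T i` with
`p ∉ T i` (finitely many closed sets); take the body `i` covering `p + s • v`; then `p ∈ T i` and
`inner (ν i f) (p + s • v) ≤ 0` gives the claim for the faces with `inner (ν i f) p = 0`. -/
theorem Loc.loc_cover [Finite I] (D : Loc I Φ) (p v : E3) :
    ∃ i, p ∈ D.T i ∧ ∀ f ∈ D.A i, inner ℝ (D.ν i f) p = 0 → inner ℝ (D.ν i f) v ≤ 0 := by
  obtain ⟨i, h1, h2, _⟩ := LBasic_cover' D p v
  exact ⟨i, h1, h2⟩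

/-- A variant: moreover `p + s • v ∈ T i` for all small `s ≥ 0` (`0 ≤ s ≤ s₀`).
Same proof; non-active faces at `p` are `< 0` there and stay so. -/
theorem Loc.loc_cover' [Finite I] (D : Loc I Φ) (p v : E3) :
    ∃ i, p ∈ D.T i ∧ (∀ f ∈ D.A i, inner ℝ (D.ν i f) p = 0 → inner ℝ (D.ν i f) v ≤ 0) ∧
      ∃ s₀ > (0 : ℝ), ∀ s, 0 ≤ s → s ≤ s₀ → p + s • v ∈ D.T i := by
  exact LBasic_cover' D p v

/-- Disjointness, localised at `p`: if `p ∈ T i`, `p ∈ T j`, then no `v` is strictly negative on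
all faces of `i` and of `j` active at `p` (`p + s • v` would be strict for both, `s > 0` small). -/
theorem Loc.loc_disj (D : Loc I Φ) {i j : I} (h : i ≠ j) {p : E3} (hi : p ∈ D.T i)
    (hj : p ∈ D.T j) (v : E3)
    (hvi : ∀ f ∈ D.A i, inner ℝ (D.ν i f) p = 0 → inner ℝ (D.ν i f) v < 0)
    (hvj : ∀ f ∈ D.A j, inner ℝ (D.ν j f) p = 0 → inner ℝ (D.ν j f) v < 0) : False := by
  have h1 := LBasic_evneg D hi v hvi
  have h2 := LBasic_evneg D hj v hvj
  obtain ⟨s, hs1, hs2⟩ := (h1.and h2).exists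
  exact D.disj i j h _ hs1 hs2

/-- Bodies which contain `p + s • v` for arbitrarily small `s` contain `p`: there is `s₀ > 0` with
`∀ s ∈ (0, s₀], ∀ i, p + s • v ∈ T i → p ∈ T i` (finitely many closed sets). -/
theorem Loc.small_mem [Finite I] (D : Loc I Φ) (p v : E3) :
    ∃ s₀ > (0 : ℝ), ∀ s, 0 ≤ s → s ≤ s₀ → ∀ i, p + s • v ∈ D.T i → p ∈ D.T i := by
  exact LBasic_small D p v

/-- Three different active faces cannot all contain a point `p ≠ 0`.  Proof: by `latU`, `endU`
two of the three are lateral, say with normals `m, m'` (inner product `g ∈ [0,1)`), the third is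
the end face with normal `k` orthogonal to both.  So the three normals are linearly independent
(e.g. compute the norm of a combination: `‖α m + β m' + γ k‖² = α² + 2gαβ + β² + γ²`), hence span
the 3-dimensional space and a vector orthogonal to all of them is `0`. -/
theorem Loc.span3 (D : Loc I Φ) {i : I} {f g k : Φ} (hf : f ∈ D.A i) (hg : g ∈ D.A i)
    (hk : k ∈ D.A i) (h1 : f ≠ g) (h2 : f ≠ k) (h3 : g ≠ k) {p : E3}
    (pf : inner ℝ (D.ν i f) p = 0) (pg : inner ℝ (D.ν i g) p = 0)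
    (pk : inner ℝ (D.ν i k) p = 0) : p = 0 := by
  have e1 : ∀ u ∈ D.A i, ∀ v ∈ D.A i, ∀ w ∈ D.A i, u ≠ v → D.lat u → D.lat v → ¬ D.lat w →
      inner ℝ (D.ν i u) p = 0 → inner ℝ (D.ν i v) p = 0 → inner ℝ (D.ν i w) p = 0 → p = 0 := by
    intro u hu v hv w hw huv lu lv lw pu pv pw
    exact LBasic_span (D.unit i u) (D.unit i v) (D.unit i w) (D.nn i u hu v hv huv lu lv)
      (D.lt1 i u hu v hv huv lu lv) (D.latEnd i u hu w hw lu lw) (D.latEnd i v hv w hw lv lw)
      pu pv pw
  by_cases lf : D.lat f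
  · by_cases lg : D.lat g
    · by_cases lk : D.lat k
      · rcases D.latU i f hf g hg k hk lf lg lk with h | h | h
        · exact absurd h h1
        · exact absurd h h2
        · exact absurd h h3
      · exact e1 f hf g hg k hk h1 lf lg lk pf pg pk
    · by_cases lk : D.lat k
      · exact e1 f hf k hk g hg h2 lf lk lg pf pk pg
      · exact absurd (D.endU i g hg k hk lg lk) h3
  · by_cases lg : D.lat g
    · by_cases lk : D.lat k
      · exact e1 g hg k hk f hf h3 lg lk lf pg pk pf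
      · exact absurd (D.endU i f hf k hk lf lk) h2
    · exact absurd (D.endU i f hf g hg lf lg) h1

/-- No third body contains the contact point of a `MacAt`.  Proof: let `z ∋ p`.  For `v` strictly
negative on all faces of `z` active at `p`, `loc_disj` (bodies `z`, `a`; the only face of `a`
active at `p` is `f`) gives `¬ inner (ν a f) v < 0`, and bodies `z`, `b` give
`¬ inner (ν b g) v < 0`, so `inner (ν a f) v = 0`.  Apply this to `v` (from `exists_strict`) and
to `v - s • ν a f` for small `s > 0`: contradiction. -/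
theorem Loc.MacAt.excl (D : Loc I Φ) {a b : I} {f g : Φ} {p : E3} (h : D.MacAt a f b g p)
    {z : I} (hz : p ∈ D.T z) : z = a ∨ z = b := by
  obtain ⟨hab, hfa, hgb, hn, hp, hoa, hob⟩ := h
  by_contra hcon
  have hza : z ≠ a := fun h => hcon (Or.inl h)
  have hzb : z ≠ b := fun h => hcon (Or.inr h)
  have hpg : inner ℝ (D.ν b g) p = 0 := by
    rw [hn, inner_neg_left, hp, neg_zero]
  have hpa : p ∈ D.T a := by
    intro f' hf'
    by_cases h : f' = f
    · rw [h, hp]
    · exact (hoa f' hf' h).le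
  have hpb : p ∈ D.T b := by
    intro g' hg'
    by_cases h : g' = g
    · rw [h, hpg]
    · exact (hob g' hg' h).le
  have key : ∀ v, (∀ k ∈ D.A z, inner ℝ (D.ν z k) v < 0) → inner ℝ (D.ν a f) v = 0 := by
    intro v hv
    have h1 : ¬ inner ℝ (D.ν a f) v < 0 := by
      intro h2
      refine D.loc_disj hza hz hpa v (fun k hk _ => hv k hk) (fun k hk hk0 => ?_)
      by_cases h : k = f
      · rw [h]
        exact h2
      · exact absurd hk0 (hoa k hk h).ne
    have h3 : ¬ 0 < inner ℝ (D.ν a f) v := by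
      intro h2
      refine D.loc_disj hzb hz hpb v (fun k hk _ => hv k hk) (fun k hk hk0 => ?_)
      by_cases h : k = g
      · rw [h, hn, inner_neg_left]
        linarith
      · exact absurd hk0 (hob k hk h).ne
    exact le_antisymm (not_lt.mp h3) (not_lt.mp h1)
  obtain ⟨v, hv⟩ := D.exists_strict z
  have h1 : ∀ᶠ s in 𝓝[>] (0 : ℝ), v + s • (D.ν a f) ∈
      {y | ∀ k ∈ D.A z, inner ℝ (D.ν z k) y < 0} :=
    (LBasic_ev (LBasic_open D z) hv (D.ν a f)).filter_mono nhdsWithin_le_nhds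
  have h2 : ∀ᶠ s in 𝓝[>] (0 : ℝ), s ∈ Ioi (0 : ℝ) := self_mem_nhdsWithin
  obtain ⟨s, hs1, hs2⟩ := (h1.and h2).exists
  have h3 := key _ hs1
  have h4 := key v hv
  rw [inner_add_right, inner_smul_right, h4, LBasic_self D a f] at h3
  have h5 : (0 : ℝ) < s := hs2
  linarith

theorem Loc.Mac.symm {D : Loc I Φ} {a b : I} {f g : Φ} (h : D.Mac a f b g) :
    D.Mac b g a f := by
  obtain ⟨p, hab, hf, hg, hn, hp, hoa, hob⟩ := h
  refine ⟨p, hab.symm, hg, hf, ?_, ?_, hob, hoa⟩
  · rw [hn, neg_neg]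
  · rw [hn, inner_neg_left, hp, neg_zero]

/-- A contact point may be scaled by a positive number. -/
theorem Loc.MacAt.smul {D : Loc I Φ} {a b : I} {f g : Φ} {p : E3} (h : D.MacAt a f b g p)
    {s : ℝ} (hs : 0 < s) : D.MacAt a f b g (s • p) := by
  obtain ⟨hab, hf, hg, hn, hp, hoa, hob⟩ := h
  refine ⟨hab, hf, hg, hn, ?_, ?_, ?_⟩
  · rw [inner_smul_right, hp, mul_zero]
  · intro f' hf' hne
    rw [inner_smul_right]
    exact mul_neg_of_pos_of_neg hs (hoa f' hf' hne)
  · intro g' hg' hne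
    rw [inner_smul_right]
    exact mul_neg_of_pos_of_neg hs (hob g' hg' hne)

theorem Loc.Flush.symm {D : Loc I Φ} {a b : I} (h : D.Flush a b) : D.Flush b a := by
  obtain ⟨f, g, h1 | ⟨u, f₁, c, f₂, h1, h2, h3⟩⟩ := h
  · exact ⟨g, f, Or.inl h1.symm⟩
  · exact ⟨g, f, Or.inr ⟨c, f₂, u, f₁, h3.symm, h2.symm, h1.symm⟩⟩

/-- Across a face.  Let `p` be a point of the face `f` of `x`, all other faces of `x` being `< 0`
at `p`, and suppose that every active face through `p` of every body containing `p` has the normal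
`ν x f` or `- ν x f`.  Then there is a body `y` in contact.  Proof: `loc_cover` at `p` with
`v = ν x f` gives `y ∋ p` whose faces through `p` are `≤ 0` at `v`; `y ≠ x` (face `f`).  The faces
of `y` through `p` have normal `± ν x f`, the sign `+` contradicts `inner v v = 1`.  If no face of
`y` passes through `p`, or in general, `loc_disj` with the direction `- ν x f` shows that some face
`g` has normal `- ν x f` (all faces `h` of `y` through `p` have normal `-ν x f`; if there is none,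
`loc_disj` for `v = - ν x f` is a contradiction).  Two different such faces contradict `nu_ne`. -/
theorem Loc.across [Finite I] (D : Loc I Φ) {x : I} {f : Φ} (hf : f ∈ D.A x) {p : E3}
    (hp : inner ℝ (D.ν x f) p = 0) (ho : ∀ f' ∈ D.A x, f' ≠ f → inner ℝ (D.ν x f') p < 0)
    (hgen : ∀ y, p ∈ D.T y → ∀ g ∈ D.A y, inner ℝ (D.ν y g) p = 0 →
      D.ν y g = D.ν x f ∨ D.ν y g = - D.ν x f) :
    ∃ y g, D.MacAt x f y g p := by
  obtain ⟨y, hy, hyv⟩ := D.loc_cover p (D.ν x f)
  have hself := LBasic_self D x f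
  have hxy : x ≠ y := by
    intro h
    subst h
    have := hyv f hf hp
    rw [hself] at this
    linarith
  have hneg : ∀ g ∈ D.A y, inner ℝ (D.ν y g) p = 0 → D.ν y g = - D.ν x f := by
    intro g hg hg0
    rcases hgen y hy g hg hg0 with h | h
    · exfalso
      have := hyv g hg hg0
      rw [h, hself] at this
      linarith
    · exact h
  have hpx : p ∈ D.T x := by
    intro f' hf'
    by_cases h : f' = f
    · rw [h, hp]
    · exact (ho f' hf' h).le
  have hex : ∃ g ∈ D.A y, inner ℝ (D.ν y g) p = 0 := by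
    by_contra hcon
    refine D.loc_disj hxy hpx hy (- D.ν x f) (fun k hk hk0 => ?_) (fun k hk hk0 => ?_)
    · by_cases h : k = f
      · rw [h, inner_neg_right, hself]
        linarith
      · exact absurd hk0 (ho k hk h).ne
    · exact absurd ⟨k, hk, hk0⟩ hcon
  obtain ⟨g, hg, hg0⟩ := hex
  refine ⟨y, g, hxy, hf, hg, hneg g hg hg0, hp, ho, fun g' hg' hne => ?_⟩
  refine lt_of_le_of_ne (hy g' hg') fun h0 => ?_
  refine (D.nu_ne hg' hg hne).1 ?_
  rw [hneg g' hg' h0, hneg g hg hg0]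

end Pool.TC
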