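import Pool.Agent.W_0c5e58_h61.LVol

/-!
# Facts about a `Star3` (independent of the Star Lemma itself)
-/

open MeasureTheory Metric Set Filter
open scoped Topology

namespace Pool.TC

variable {I Φ : Type}

/-- Expansion in an orthonormal frame. -/
theorem LStarB_expand {e m r : E3} (he : ‖e‖ = 1) (hm : ‖m‖ = 1) (hr : ‖r‖ = 1)
    (me : inner ℝ m e = 0) (re : inner ℝ r e = 0) (rm : inner ℝ r m = 0) (q : E3) :
    q = (inner ℝ q e : ℝ) • e + (inner ℝ q m : ℝ) • m + (inner ℝ q r : ℝ) • r := by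
  have em : inner ℝ e m = 0 := by rw [real_inner_comm]; exact me
  have er : inner ℝ e r = 0 := by rw [real_inner_comm]; exact re
  have mr : inner ℝ m r = 0 := by rw [real_inner_comm]; exact rm
  have hon : Orthonormal ℝ ![e, m, r] := by
    constructor
    · intro i
      fin_cases i <;> simp [he, hm, hr]
    · intro i j hij
      fin_cases i <;> fin_cases j <;> first | (exact absurd rfl hij) | simpa using ‹_›
  have hcard : Fintype.card (Fin 3) = Module.finrank ℝ E3 := by simp
  let b0 := basisOfOrthonormalOfCardEqFinrank hon hcard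
  have hb0 : (b0 : Fin 3 → E3) = ![e, m, r] := coe_basisOfOrthonormalOfCardEqFinrank hon hcard
  let b := b0.toOrthonormalBasis (by rw [hb0]; exact hon)
  have hb : (b : Fin 3 → E3) = ![e, m, r] := by
    rw [Module.Basis.coe_toOrthonormalBasis, hb0]
  have := b.sum_repr' q
  rw [Fin.sum_univ_three, hb] at this
  simp only [Matrix.cons_val_zero, Matrix.cons_val_one, Matrix.cons_val] at this
  rw [real_inner_comm e q, real_inner_comm m q, real_inner_comm r q]
  rw [real_inner_comm q e, real_inner_comm q m, real_inner_comm q r] at *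
  exact this.symm

/-- the ray -/
theorem LStarB_ray {e m n : E3} (he : ‖e‖ = 1) (hm : ‖m‖ = 1) (hn : ‖n‖ = 1)
    (h1 : inner ℝ n m < 1) (h2 : -1 < inner ℝ n m) (me : inner ℝ m e = 0)
    (ne : inner ℝ n e = 0) :
    ∃ (r : E3) (c : ℝ), 0 < c ∧ ‖r‖ = 1 ∧ inner ℝ r e = 0 ∧ inner ℝ r m = 0 ∧
      inner ℝ n r < 0 ∧ r = (-c) • (n - (inner ℝ n m : ℝ) • m) := by
  set g := (inner ℝ n m : ℝ) with hg
  set u := n - g • m with hu
  have hmm : inner ℝ m m = (1:ℝ) := by rw [real_inner_self_eq_norm_sq, hm]; norm_num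
  have hnn : inner ℝ n n = (1:ℝ) := by rw [real_inner_self_eq_norm_sq, hn]; norm_num
  have hnu : inner ℝ n u = 1 - g ^ 2 := by
    rw [hu, inner_sub_right, real_inner_smul_right, ← hg, hnn]; ring
  have hpos : 0 < 1 - g ^ 2 := by nlinarith
  have hum : inner ℝ u m = (0:ℝ) := by
    rw [hu, inner_sub_left, real_inner_smul_left, ← hg, hmm]; ring
  have hue : inner ℝ u e = (0:ℝ) := by
    rw [hu, inner_sub_left, real_inner_smul_left, me, ne]; ring
  have hu0 : u ≠ 0 := by
    intro h
    rw [h, inner_zero_right] at hnu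
    linarith
  have hun : 0 < ‖u‖ := norm_pos_iff.mpr hu0
  refine ⟨(-(‖u‖⁻¹)) • u, ‖u‖⁻¹, by positivity, ?_, ?_, ?_, ?_, rfl⟩
  · rw [norm_smul, norm_neg, norm_inv, norm_norm]
    exact inv_mul_cancel₀ hun.ne'
  · rw [real_inner_smul_left, hue, mul_zero]
  · rw [real_inner_smul_left, hum, mul_zero]
  · rw [real_inner_smul_right, hnu]
    have : 0 < ‖u‖⁻¹ := by positivity
    nlinarith

theorem LStarB_fin (i j : Fin 3) : j = i ∨ j = i + 1 ∨ j = i + 2 := by
  revert i j; decide

theorem LStarB_three (i : Fin 3) : i + 2 + 1 = i := by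
  revert i; decide

theorem LStarB_succ (i : Fin 3) : i ≠ i + 1 := by
  revert i; decide

/-- Rotating the indices. -/
theorem Loc.Star3.rot {D : Loc I Φ} {e : E3} {w : Fin 3 → I} {fa fb : Fin 3 → Φ}
    (S : D.Star3 e w fa fb) (j : Fin 3) :
    D.Star3 e (fun i => w (i + j)) (fun i => fa (i + j)) (fun i => fb (i + j)) where
  unit := S.unit
  inj := by
    intro a b h
    exact add_right_cancel (S.inj h)
  mem i := S.mem _
  all x hx := by
    obtain ⟨i, hi⟩ := S.all x hx
    exact ⟨i - j, by simpa using hi⟩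
  hfa i := S.hfa _
  hfb i := S.hfb _
  la i := S.la _
  lb i := S.lb _
  ne i := S.ne _
  pos i := S.pos _
  adj i := by
    have := S.adj (i + j)
    rw [add_right_comm] at this
    exact this
  oa i := S.oa _
  ob i := S.ob _

/-- The only faces of `w i` besides `fa i`, `fb i`: an end face with normal `- e`.
(`latU` excludes a third lateral face; the end normal is orthogonal to `ν (w i) (fa i)` and
`ν (w i) (fb i)`, which are independent and orthogonal to `e`, so it is `± e`, and `e ∈ T (w i)`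
excludes `+ e`.) -/
theorem Loc.Star3.rest {D : Loc I Φ} {e : E3} {w : Fin 3 → I} {fa fb : Fin 3 → Φ}
    (S : D.Star3 e w fa fb) (i : Fin 3) {f : Φ} (hf : f ∈ D.A (w i)) (h1 : f ≠ fa i)
    (h2 : f ≠ fb i) : D.ν (w i) f = - e ∧ ¬ D.lat f := by
  have hlat : ¬ D.lat f := by
    intro hl
    rcases D.latU (w i) f hf (fa i) (S.hfa i) (fb i) (S.hfb i) hl (S.la i) (S.lb i) with h | h | h
    · exact h1 h
    · exact h2 h
    · exact S.ne i h
  refine ⟨?_, hlat⟩
  have ea := D.latEnd (w i) (fa i) (S.hfa i) f hf (S.la i) hlat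
  have eb := D.latEnd (w i) (fb i) (S.hfb i) f hf (S.lb i) hlat
  have hlt := D.gram_lt (S.hfa i) (S.hfb i) (S.ne i)
  have hp := S.pos i
  obtain ⟨r, c, hc, hr, re, rm, nr, hrc⟩ := LStarB_ray S.unit (D.unit (w i) (fb i))
    (D.unit (w i) (fa i)) hlt (by linarith) (S.ob i) (S.oa i)
  have hex := LStarB_expand S.unit (D.unit (w i) (fb i)) hr (S.ob i) re rm (D.ν (w i) f)
  have e1 : inner ℝ (D.ν (w i) f) (D.ν (w i) (fb i)) = 0 := by
    rw [real_inner_comm]; exact eb
  have e2 : inner ℝ (D.ν (w i) f) r = 0 := by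
    rw [hrc, real_inner_smul_right, inner_sub_right, real_inner_smul_right, e1,
      real_inner_comm, ea]; ring
  rw [e1, e2, zero_smul, zero_smul, add_zero, add_zero] at hex
  have hle := S.mem i f hf
  have hn := D.unit (w i) f
  set t := (inner ℝ (D.ν (w i) f) e : ℝ) with ht
  rw [hex, norm_smul, S.unit, mul_one, Real.norm_eq_abs, abs_of_nonpos hle] at hn
  rw [hex, show t = -1 by linarith, neg_one_smul]

/-- The three wedges cover the space (`loc_cover` at `e`, `S.all`). -/
theorem Loc.Star3.cover [Finite I] {D : Loc I Φ} {e : E3} {w : Fin 3 → I} {fa fb : Fin 3 → Φ}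
    (S : D.Star3 e w fa fb) (v : E3) :
    ∃ i, inner ℝ (D.ν (w i) (fa i)) v ≤ 0 ∧ inner ℝ (D.ν (w i) (fb i)) v ≤ 0 := by
  obtain ⟨x, hx, hv⟩ := D.loc_cover e v
  obtain ⟨i, rfl⟩ := S.all x hx
  exact ⟨i, hv _ (S.hfa i) (S.oa i), hv _ (S.hfb i) (S.ob i)⟩

/-- The three wedges have disjoint interiors (`loc_disj` at `e`; only `fa i`, `fb i` pass through
`e` by `rest`). -/
theorem Loc.Star3.disj {D : Loc I Φ} {e : E3} {w : Fin 3 → I} {fa fb : Fin 3 → Φ}
    (S : D.Star3 e w fa fb) {i j : Fin 3} (h : i ≠ j) (v : E3)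
    (h1 : inner ℝ (D.ν (w i) (fa i)) v < 0) (h2 : inner ℝ (D.ν (w i) (fb i)) v < 0)
    (h3 : inner ℝ (D.ν (w j) (fa j)) v < 0) (h4 : inner ℝ (D.ν (w j) (fb j)) v < 0) : False := by
  have hee : inner ℝ e e = (1:ℝ) := by rw [real_inner_self_eq_norm_sq, S.unit]; norm_num
  refine D.loc_disj (fun hw => h (S.inj hw)) (S.mem i) (S.mem j) v ?_ ?_
  · intro f hf hfe
    by_cases ha : f = fa i
    · subst ha; exact h1
    by_cases hb : f = fb i
    · subst hb; exact h2
    have := (S.rest i hf ha hb).1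
    rw [this, inner_neg_left, hee] at hfe
    norm_num at hfe
  · intro f hf hfe
    by_cases ha : f = fa j
    · subst ha; exact h3
    by_cases hb : f = fb j
    · subst hb; exact h4
    have := (S.rest j hf ha hb).1
    rw [this, inner_neg_left, hee] at hfe
    norm_num at hfe

/-- The common ray `r` of the wedges of `w i` and `w (i+1)`.  Write `m = ν (w i) (fb i)`,
`n = ν (w i) (fa i)`, `q = ν (w (i+1)) (fb (i+1))`; `ν (w (i+1)) (fa (i+1)) = - m`.
Take `r` unit, orthogonal to `e` and `m`, with `n r < 0`.  Claim `q r < 0`: `q r = 0` would give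
`q = ± m` (everything is in the plane orthogonal to `e`), excluded by `pos` and Cauchy-Schwarz
(`inner (-m) q ∈ (0,1)`, `gram_lt`).  If `q r > 0`: the points `r + s m`, `s > 0` small, are not in
the wedge of `w i` (`m > 0`), not in the wedge of `w (i+1)` (`q > 0`), and not in the wedge of
`w (i+2)`, which has the normal `ν (w (i+2)) (fb (i+2)) = - ν (w i) (fa i) = - n` (`adj (i+2)`,
`i + 2 + 1 = i`), positive at `r + s m` for small `s`.  Contradiction to `cover`. -/
theorem Loc.Star3.ray [Finite I] {D : Loc I Φ} {e : E3} {w : Fin 3 → I} {fa fb : Fin 3 → Φ}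
    (S : D.Star3 e w fa fb) (i : Fin 3) :
    ∃ r : E3, ‖r‖ = 1 ∧ inner ℝ e r = 0 ∧ inner ℝ (D.ν (w i) (fb i)) r = 0 ∧
      inner ℝ (D.ν (w i) (fa i)) r < 0 ∧
      inner ℝ (D.ν (w (i + 1)) (fb (i + 1))) r < 0 ∧
      (∀ q : E3, inner ℝ q e = 0 → inner ℝ q r = 0 → ∃ c : ℝ, q = c • D.ν (w i) (fb i)) := by
  have hlt := D.gram_lt (S.hfa i) (S.hfb i) (S.ne i)
  have hp := S.pos i
  obtain ⟨r, c, hc, hr, re, rm, nr, hrc⟩ := LStarB_ray S.unit (D.unit (w i) (fb i))
    (D.unit (w i) (fa i)) hlt (by linarith) (S.ob i) (S.oa i)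
  have hlast : ∀ q : E3, inner ℝ q e = 0 → inner ℝ q r = 0 →
      q = (inner ℝ q (D.ν (w i) (fb i)) : ℝ) • D.ν (w i) (fb i) := by
    intro q h1 h2
    have hex := LStarB_expand S.unit (D.unit (w i) (fb i)) hr (S.ob i) re rm q
    rw [h1, h2, zero_smul, zero_smul, add_zero, zero_add] at hex
    exact hex
  have mr : inner ℝ (D.ν (w i) (fb i)) r = 0 := by rw [real_inner_comm]; exact rm
  refine ⟨r, hr, by rw [real_inner_comm]; exact re, mr, nr, ?_, fun q h1 h2 => ⟨_, hlast q h1 h2⟩⟩
  set m := D.ν (w i) (fb i) with hm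
  set n := D.ν (w i) (fa i) with hn
  set q := D.ν (w (i + 1)) (fb (i + 1)) with hq
  have hmm : inner ℝ m m = (1:ℝ) := by
    rw [real_inner_self_eq_norm_sq, D.unit]; norm_num
  have hadj : D.ν (w (i + 1)) (fa (i + 1)) = - m := S.adj i
  have hposq := S.pos (i + 1)
  have hltq := D.gram_lt (S.hfa (i + 1)) (S.hfb (i + 1)) (S.ne (i + 1))
  rw [hadj, ← hq, inner_neg_left] at hposq hltq
  have hqm : inner ℝ q m = (inner ℝ m q : ℝ) := real_inner_comm _ _
  by_contra hcon
  rw [not_lt] at hcon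
  rcases hcon.eq_or_lt with h0 | h0
  · have hqe := hlast q (S.ob (i + 1)) h0.symm
    have hnq : ‖q‖ = 1 := D.unit _ _
    set t := (inner ℝ q m : ℝ) with ht
    rw [hqe, norm_smul, D.unit, mul_one, Real.norm_eq_abs] at hnq
    rw [← hqm] at hposq hltq
    rw [abs_of_neg (by linarith)] at hnq
    linarith
  · set s := min (inner ℝ q r : ℝ) (-(inner ℝ n r : ℝ)) / 2 with hs
    have hs0 : 0 < s := by
      rw [hs]
      have : 0 < min (inner ℝ q r : ℝ) (-(inner ℝ n r : ℝ)) := lt_min h0 (by linarith)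
      linarith
    have hs1 : 2 * s ≤ inner ℝ q r := by
      rw [hs]
      have := min_le_left (inner ℝ q r : ℝ) (-(inner ℝ n r : ℝ))
      linarith
    have hs2 : 2 * s ≤ -(inner ℝ n r : ℝ) := by
      rw [hs]
      have := min_le_right (inner ℝ q r : ℝ) (-(inner ℝ n r : ℝ))
      linarith
    have hadj2 : n = - D.ν (w (i + 2)) (fb (i + 2)) := by
      have := S.adj (i + 2)
      have h3 : i + 2 + 1 = i := LStarB_three i
      rw [h3] at this
      exact this
    obtain ⟨k, hk1, hk2⟩ := S.cover (r + s • m)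
    rcases LStarB_fin i k with rfl | rfl | rfl
    · rw [← hm, inner_add_right, real_inner_smul_right, mr, hmm] at hk2
      linarith
    · rw [← hq, inner_add_right, real_inner_smul_right, hqm] at hk2
      nlinarith
    · have : D.ν (w (i + 2)) (fb (i + 2)) = - n := by rw [hadj2, neg_neg]
      rw [this, inner_neg_left, inner_add_right, real_inner_smul_right] at hk2
      nlinarith

/-- Neighbours in a star are in contact: contact point `e + δ r`, `δ > 0` small, `r` from `ray`.
(Other faces: `fa i` and `fb (i+1)` are orthogonal to `e` and `< 0` at `r`; end faces have normal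
`- e`, value `-1 + δ·0 < 0`.) -/
theorem Loc.Star3.mac [Finite I] {D : Loc I Φ} {e : E3} {w : Fin 3 → I} {fa fb : Fin 3 → Φ}
    (S : D.Star3 e w fa fb) (i : Fin 3) :
    D.Mac (w i) (fb i) (w (i + 1)) (fa (i + 1)) := by
  obtain ⟨r, hr, er, mr, nr, qr, -⟩ := S.ray i
  have hee : inner ℝ e e = (1:ℝ) := by rw [real_inner_self_eq_norm_sq, S.unit]; norm_num
  refine ⟨e + r, ?_, S.hfb i, S.hfa (i + 1), S.adj i, ?_, ?_, ?_⟩
  · intro h
    exact LStarB_succ i (S.inj h)
  · rw [inner_add_right, S.ob i, mr, add_zero]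
  · intro f hf hne
    by_cases ha : f = fa i
    · subst ha
      rw [inner_add_right, S.oa i, zero_add]; exact nr
    · rw [(S.rest i hf ha hne).1, inner_neg_left, inner_add_right, hee, er]; norm_num
  · intro f hf hne
    by_cases hb : f = fb (i + 1)
    · subst hb
      rw [inner_add_right, S.ob (i + 1), zero_add]; exact qr
    · rw [(S.rest (i + 1) hf hne hb).1, inner_neg_left, inner_add_right, hee, er]; norm_num

/-- Any two different bodies of a star are flush (`mac`, `Mac.symm`, `i+1` or `j+1`). -/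
theorem Loc.Star3.flush [Finite I] {D : Loc I Φ} {e : E3} {w : Fin 3 → I} {fa fb : Fin 3 → Φ}
    (S : D.Star3 e w fa fb) {i j : Fin 3} (h : i ≠ j) : D.Flush (w i) (w j) := by
  rcases LStarB_fin i j with h1 | h1 | h1
  · exact absurd h1.symm h
  · subst h1
    exact ⟨_, _, Or.inl (S.mac i)⟩
  · have h2 : i = j + 1 := by rw [h1, LStarB_three]
    subst h2
    exact ⟨_, _, Or.inl (S.mac j).symm⟩

end Pool.TC
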