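import Pool.Agent.W_0c5e58_h61.LStar
import Pool.Agent.W_0c5e58_h61.LStarB

/-!
# Case F: all three bodies of the star at `-d` have an end face, with normal `d`
-/

open MeasureTheory Metric Set Filter
open scoped Topology

namespace Pool.TC

variable {I Φ : Type}

/-- The situation of Case F. -/
structure CaseF (D : Loc I Φ) (d : E3) (w : Fin 3 → I) (fa fb fe : Fin 3 → Φ) : Prop where
  S : D.Star3 (-d) w fa fb
  he : ∀ i, fe i ∈ D.A (w i)
  hd : ∀ i, D.ν (w i) (fe i) = d

/-- `y` is an upper body with the face `g` on the plane orthogonal to `d`, and all other faces of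
`y` are orthogonal to that plane. -/
def Upper (D : Loc I Φ) (d : E3) (y : I) (g : Φ) : Prop :=
  g ∈ D.A y ∧ D.ν y g = - d ∧ ∀ g' ∈ D.A y, g' ≠ g → inner ℝ (D.ν y g') d = 0

/-- `{f ∈ A (w i)} = {fa i, fb i, fe i}`. -/
theorem CaseF.faces {D : Loc I Φ} {d : E3} {w : Fin 3 → I} {fa fb fe : Fin 3 → Φ}
    (H : CaseF D d w fa fb fe) (i : Fin 3) {f : Φ} (hf : f ∈ D.A (w i)) :
    f = fa i ∨ f = fb i ∨ f = fe i := by
  by_contra hcon
  push Not at hcon
  obtain ⟨h1, h2, h3⟩ := hcon
  have hr := H.S.rest i hf h1 h2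
  have hn := H.hd i
  have hdd : inner ℝ d (-d) = (-1 : ℝ) := by
    rw [inner_neg_right, real_inner_self_eq_norm_sq, ← norm_neg, H.S.unit]
    norm_num
  have h4 : fe i ≠ fa i := by
    intro h5
    have h6 := H.S.oa i
    rw [← h5, hn, hdd] at h6
    norm_num at h6
  have h5 : fe i ≠ fb i := by
    intro h5
    have h6 := H.S.ob i
    rw [← h5, hn, hdd] at h6
    norm_num at h6
  have hr' := H.S.rest i (H.he i) h4 h5
  exact h3 (D.endU (w i) f hf (fe i) (H.he i) hr.2 hr'.2)

/-- The lower half space is covered by the three bodies. -/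
theorem CaseF.lower [Finite I] {D : Loc I Φ} {d : E3} {w : Fin 3 → I} {fa fb fe : Fin 3 → Φ}
    (H : CaseF D d w fa fb fe) {v : E3} (hv : inner ℝ d v ≤ 0) : ∃ i, v ∈ D.T (w i) := by
  obtain ⟨i, h1, h2⟩ := H.S.cover v
  refine ⟨i, fun f hf => ?_⟩
  rcases H.faces i hf with h | h | h
  · rw [h]; exact h1
  · rw [h]; exact h2
  · rw [h, H.hd i]; exact hv

/-- The other bodies are in the upper half space (`near_strict`, `lower`,
`strict_mem_false`). -/
theorem CaseF.above [Finite I] {D : Loc I Φ} {d : E3} {w : Fin 3 → I} {fa fb fe : Fin 3 → Φ}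
    (H : CaseF D d w fa fb fe) {y : I} (hy : ∀ i, y ≠ w i) {v : E3} (hv : v ∈ D.T y) :
    0 ≤ inner ℝ d v := by
  by_contra hcon
  push Not at hcon
  have hO : IsOpen {x : E3 | inner ℝ d x < 0} :=
    isOpen_lt (continuous_const.inner continuous_id) continuous_const
  obtain ⟨y', hy', hs⟩ := D.near_strict hv hO hcon
  obtain ⟨i, hi⟩ := H.lower (v := y') (le_of_lt hy')
  exact D.strict_mem_false (hy i) hs hi

theorem LCaseF_orth2 (a b : E3) : ∃ e : E3, ‖e‖ = 1 ∧ inner ℝ a e = 0 ∧ inner ℝ b e = 0 := by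
  classical
  have h1 : Module.finrank ℝ (Submodule.span ℝ (({a, b} : Finset E3) : Set E3)) ≤ 2 :=
    (finrank_span_finset_le_card _).trans Finset.card_le_two
  have h2 := Submodule.finrank_add_finrank_orthogonal
    (Submodule.span ℝ (({a, b} : Finset E3) : Set E3))
  have h3 : Module.finrank ℝ E3 = 3 := by simp [E3]
  have h4 : 0 < Module.finrank ℝ (Submodule.span ℝ (({a, b} : Finset E3) : Set E3))ᗮ := by omega
  obtain ⟨x, hx⟩ := (Module.finrank_pos_iff_exists_ne_zero).1 h4
  have hx0 : (x : E3) ≠ 0 := fun h => hx (Subtype.ext h)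
  have hxn : ‖(x : E3)‖ ≠ 0 := norm_ne_zero_iff.2 hx0
  have hmem : ∀ c ∈ ({a, b} : Finset E3), inner ℝ c (x : E3) = 0 := fun c hc =>
    (Submodule.mem_orthogonal _ _).1 x.2 c (Submodule.subset_span hc)
  refine ⟨‖(x : E3)‖⁻¹ • (x : E3), ?_, ?_, ?_⟩
  · rw [norm_smul, norm_inv, norm_norm, inv_mul_cancel₀ hxn]
  · rw [inner_smul_right, hmem a (by simp), mul_zero]
  · rw [inner_smul_right, hmem b (by simp), mul_zero]

theorem LCaseF_basis {d : E3} (hd : ‖d‖ = 1) : ∃ b₁ b₂ : E3, inner ℝ d b₁ = 0 ∧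
    inner ℝ d b₂ = 0 ∧ ∀ m : E3, inner ℝ m b₁ = 0 → inner ℝ m b₂ = 0 →
      m = (inner ℝ m d : ℝ) • d := by
  obtain ⟨b₁, h1, h2, -⟩ := LCaseF_orth2 d d
  obtain ⟨b₂, h3, h4, h5⟩ := LCaseF_orth2 d b₁
  refine ⟨b₁, b₂, h2, h4, fun m hm1 hm2 => ?_⟩
  have hon : Orthonormal ℝ ![d, b₁, b₂] := by
    constructor
    · intro i
      fin_cases i <;> simp [hd, h1, h3]
    · intro i j hij
      fin_cases i <;> fin_cases j <;>
        first
        | exact absurd rfl hij
        | (simp only [Fin.zero_eta, Fin.mk_one, Fin.reduceFinMk, Matrix.cons_val_zero,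
            Matrix.cons_val_one, Matrix.cons_val]
           first
           | assumption
           | (rw [real_inner_comm]; assumption))
  have hspan := hon.linearIndependent.span_eq_top_of_card_eq_finrank (by simp [E3])
  have h0 : m - (inner ℝ m d : ℝ) • d = 0 := by
    have h6 : ∀ y : E3, inner ℝ (m - (inner ℝ m d : ℝ) • d) y = 0 := by
      intro y
      have hy : y ∈ Submodule.span ℝ (Set.range ![d, b₁, b₂]) := by rw [hspan]; trivial
      induction hy using Submodule.span_induction with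
      | mem x hx =>
        obtain ⟨i, rfl⟩ := hx
        rw [inner_sub_left, inner_smul_left]
        fin_cases i
        · simp [hd]
        · simp [hm1, h2]
        · simp [hm2, h4]
      | zero => exact inner_zero_right _
      | add x y _ _ hx hy => rw [inner_add_right, hx, hy, add_zero]
      | smul a x _ hx => rw [inner_smul_right, hx, mul_zero]
    exact inner_self_eq_zero.1 (h6 _)
  exact sub_eq_zero.1 h0

theorem LCaseF_poly (a b c : ℝ) (h : b ≠ 0 ∨ c ≠ 0) :
    ∀ᶠ s in 𝓝[≠] (0 : ℝ), a + s * b + s ^ 2 * c ≠ 0 := by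
  by_cases ha : a = 0
  · have h1 : ∀ᶠ s in 𝓝[≠] (0 : ℝ), b + s * c ≠ 0 := by
      by_cases hb : b = 0
      · have hc : c ≠ 0 := h.resolve_left (fun h2 => h2 hb)
        filter_upwards [self_mem_nhdsWithin] with s hs
        rw [hb, zero_add]
        exact mul_ne_zero hs hc
      · have h2 : ContinuousAt (fun s : ℝ => b + s * c) 0 := by fun_prop
        have h3 : ∀ᶠ s in 𝓝 (0 : ℝ), b + s * c ≠ 0 :=
          h2.eventually_ne (by simpa using hb)
        exact h3.filter_mono nhdsWithin_le_nhds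
    filter_upwards [h1, self_mem_nhdsWithin] with s hs hs0
    have h4 : a + s * b + s ^ 2 * c = s * (b + s * c) := by rw [ha]; ring
    rw [h4]
    exact mul_ne_zero hs0 hs
  · have h2 : ContinuousAt (fun s : ℝ => a + s * b + s ^ 2 * c) 0 := by fun_prop
    have h3 : ∀ᶠ s in 𝓝 (0 : ℝ), a + s * b + s ^ 2 * c ≠ 0 :=
      h2.eventually_ne (by simpa using ha)
    exact h3.filter_mono nhdsWithin_le_nhds

/-- part (i) of the Upper Lemma -/
theorem LCaseF_one [Finite I] {D : Loc I Φ} {d : E3} {w : Fin 3 → I} {fa fb fe : Fin 3 → Φ}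
    (H : CaseF D d w fa fb fe) {v : E3} (hv : inner ℝ d v = 0)
    (hgen : ∀ z, ∀ g ∈ D.A z, D.ν z g ≠ d → D.ν z g ≠ -d → inner ℝ (D.ν z g) v ≠ 0)
    {x : I} (hx : ∀ i, x ≠ w i) (hvx : v ∈ D.T x) : ∃ f ∈ D.A x, D.ν x f = -d := by
  by_contra hcon
  push Not at hcon
  by_cases h1 : ∃ f ∈ D.A x, D.ν x f = d
  · obtain ⟨f, hf, hfd⟩ := h1
    obtain ⟨s, hs⟩ := D.exists_strict x
    have h2 := H.above hx (v := s) (fun f hf => (hs f hf).le)
    have h3 := hs f hf
    rw [hfd] at h3
    linarith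
  · push Not at h1
    have hs : ∀ f ∈ D.A x, inner ℝ (D.ν x f) v < 0 := fun f hf =>
      lt_of_le_of_ne (hvx f hf) (hgen x f hf (h1 f hf) (hcon f hf))
    obtain ⟨i, hi⟩ := H.lower hv.le
    exact D.strict_mem_false (hx i) hs hi

/-- part (ii) of the Upper Lemma -/
theorem LCaseF_two [Finite I] {D : Loc I Φ} {d : E3} {w : Fin 3 → I} {fa fb fe : Fin 3 → Φ}
    (H : CaseF D d w fa fb fe) {x : I} (_hx : ∀ i, x ≠ w i) {f : Φ} (hf : f ∈ D.A x)
    (hfd : D.ν x f = -d) : Upper D d x f := by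
  refine ⟨hf, hfd, fun g hg hgf => ?_⟩
  by_contra hne
  have hd1 : ‖d‖ = 1 := by rw [← norm_neg]; exact H.S.unit
  have hdd : inner ℝ d (-d) = (-1 : ℝ) := by
    rw [inner_neg_right, real_inner_self_eq_norm_sq, hd1]
    norm_num
  have h1 : 0 < inner ℝ (D.ν x f) (D.ν x g) := by
    refine lt_of_le_of_ne (D.gram_nn hf hg hgf.symm) ?_
    rw [hfd, inner_neg_left, real_inner_comm]
    intro h2
    exact hne (by linarith)
  obtain ⟨lf, lg⟩ := D.lat_of_pos hf hg hgf.symm h1
  have hex : ∃ e' : E3, ‖e'‖ = 1 ∧ inner ℝ (D.ν x f) e' = 0 ∧ inner ℝ (D.ν x g) e' = 0 ∧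
      e' ∈ D.T x := by
    obtain ⟨e', he1, he2, he3⟩ := LCaseF_orth2 (D.ν x f) (D.ν x g)
    by_cases h2 : e' ∈ D.T x
    · exact ⟨e', he1, he2, he3, h2⟩
    · have h3 : ∃ k ∈ D.A x, 0 < inner ℝ (D.ν x k) e' := by
        by_contra h4
        push Not at h4
        exact h2 h4
      obtain ⟨k, hk, hk0⟩ := h3
      have hkf : k ≠ f := by rintro rfl; linarith
      have hkg : k ≠ g := by rintro rfl; linarith
      have hkl : ¬ D.lat k := fun hl => by
        rcases D.latU x f hf g hg k hk lf lg hl with h5 | h5 | h5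
        · exact hgf h5.symm
        · exact hkf h5.symm
        · exact hkg h5.symm
      refine ⟨-e', by rw [norm_neg, he1], by rw [inner_neg_right, he2, neg_zero],
        by rw [inner_neg_right, he3, neg_zero], fun h hh => ?_⟩
      rw [inner_neg_right]
      by_cases hhf : h = f
      · rw [hhf, he2, neg_zero]
      by_cases hhg : h = g
      · rw [hhg, he3, neg_zero]
      have hhl : ¬ D.lat h := fun hl => by
        rcases D.latU x f hf g hg h hh lf lg hl with h5 | h5 | h5
        · exact hgf h5.symm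
        · exact hhf h5.symm
        · exact hhg h5.symm
      rw [D.endU x h hh k hk hhl hkl]
      linarith
  obtain ⟨e', he1, he2, he3, he4⟩ := hex
  obtain ⟨w', fa', fb', S', hw, hfa, hfb⟩ := D.star_lemma hf hg hgf.symm h1 he1 he2 he3 he4
  have hadj := S'.adj 2
  have h20 : (2 : Fin 3) + 1 = 0 := rfl
  rw [h20, hw, hfa, hfd] at hadj
  have hz : D.ν (w' 2) (fb' 2) = d := (neg_injective hadj).symm
  have hzw : ∃ i, w' 2 = w i := by
    by_contra hcon
    push Not at hcon
    obtain ⟨s, hs⟩ := D.exists_strict (w' 2)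
    have h2 := H.above hcon (v := s) (fun f hf => (hs f hf).le)
    have h3 := hs (fb' 2) (S'.hfb 2)
    rw [hz] at h3
    linarith
  obtain ⟨i, hi⟩ := hzw
  have hmem := S'.hfb 2
  have hlat := S'.lb 2
  rw [hi] at hmem hz
  have hr : fb' 2 ≠ fa i := by
    intro h5
    have h6 := H.S.oa i
    rw [← h5, hz, hdd] at h6
    norm_num at h6
  have hr' : fb' 2 ≠ fb i := by
    intro h5
    have h6 := H.S.ob i
    rw [← h5, hz, hdd] at h6
    norm_num at h6
  exact (H.S.rest i hmem hr hr').2 hlat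

/-- part (iii) for generic `v` -/
theorem LCaseF_three [Finite I] {D : Loc I Φ} {d : E3} {w : Fin 3 → I} {fa fb fe : Fin 3 → Φ}
    (H : CaseF D d w fa fb fe) {v : E3} (hv : inner ℝ d v = 0)
    (hgen : ∀ z, ∀ g ∈ D.A z, D.ν z g ≠ d → D.ν z g ≠ -d → inner ℝ (D.ν z g) v ≠ 0)
    {t : ℝ} (ht : 0 < t) :
    ∃ x, (∀ i, x ≠ w i) ∧ (∃ f, Upper D d x f) ∧ v + t • d ∈ D.T x := by
  have hd1 : ‖d‖ = 1 := by rw [← norm_neg]; exact H.S.unit
  have hdd : inner ℝ d d = (1 : ℝ) := by rw [real_inner_self_eq_norm_sq, hd1]; norm_num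
  obtain ⟨x, hvx, hxd⟩ := D.loc_cover v d
  have hx : ∀ i, x ≠ w i := by
    rintro i rfl
    have h1 := hxd (fe i) (H.he i) (by rw [H.hd i]; exact hv)
    rw [H.hd i, hdd] at h1
    linarith
  obtain ⟨f, hf, hfd⟩ := LCaseF_one H hv hgen hx hvx
  have hU := LCaseF_two H hx hf hfd
  refine ⟨x, hx, ⟨f, hU⟩, fun g hg => ?_⟩
  rw [inner_add_right, inner_smul_right]
  by_cases hgf : g = f
  · rw [hgf, hfd, inner_neg_left, inner_neg_left, hv, hdd]
    linarith
  · rw [hU.2.2 g hg hgf, mul_zero, add_zero]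
    exact hvx g hg

/-- part (iii) -/
theorem LCaseF_four [Finite I] {D : Loc I Φ} {d : E3} {w : Fin 3 → I} {fa fb fe : Fin 3 → Φ}
    (H : CaseF D d w fa fb fe) {u : E3} (hu : 0 < inner ℝ d u) :
    ∃ x, (∃ f, Upper D d x f) ∧ u ∈ D.T x := by
  have hd1 : ‖d‖ = 1 := by rw [← norm_neg]; exact H.S.unit
  have hdd : inner ℝ d d = (1 : ℝ) := by rw [real_inner_self_eq_norm_sq, hd1]; norm_num
  obtain ⟨b₁, b₂, hb1, hb2, hb⟩ := LCaseF_basis hd1
  set t : ℝ := inner ℝ d u with ht
  set v : E3 := u - t • d with hv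
  have hvd : inner ℝ d v = 0 := by
    rw [hv, inner_sub_right, inner_smul_right, hdd, mul_one, ht, sub_self]
  have hgen : ∀ᶠ s in 𝓝[≠] (0 : ℝ), ∀ z, ∀ g ∈ D.A z, D.ν z g ≠ d → D.ν z g ≠ -d →
      inner ℝ (D.ν z g) (v + s • b₁ + s ^ 2 • b₂) ≠ 0 := by
    rw [eventually_all]
    intro z
    rw [Filter.eventually_all_finset]
    intro g hg
    by_cases h1 : D.ν z g ≠ d
    · by_cases h2 : D.ν z g ≠ -d
      · have h3 : inner ℝ (D.ν z g) b₁ ≠ 0 ∨ inner ℝ (D.ν z g) b₂ ≠ 0 := by
          by_contra h4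
          push Not at h4
          have h5 := hb _ h4.1 h4.2
          have h6 := D.unit z g
          rw [h5, norm_smul, hd1, mul_one, Real.norm_eq_abs] at h6
          rcases eq_or_eq_neg_of_abs_eq h6 with h7 | h7
          · rw [h7, one_smul] at h5
            exact h1 h5
          · rw [h7, neg_one_smul] at h5
            exact h2 h5
        filter_upwards [LCaseF_poly (inner ℝ (D.ν z g) v) _ _ h3] with s hs _ _
        rw [inner_add_right, inner_add_right, inner_smul_right, inner_smul_right]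
        exact hs
      · exact Filter.Eventually.of_forall fun s _ h => absurd h h2
    · exact Filter.Eventually.of_forall fun s h => absurd h h1
  set S : Set E3 := ⋃ x : {x : I // ∃ f, Upper D d x f}, D.T x with hS
  have hcl : IsClosed S := isClosed_iUnion_of_finite fun x => D.isClosed_T x
  have hmem : ∀ᶠ s in 𝓝[≠] (0 : ℝ), u + s • b₁ + s ^ 2 • b₂ ∈ S := by
    filter_upwards [hgen] with s hs
    obtain ⟨x, -, hU, hxm⟩ := LCaseF_three H (v := v + s • b₁ + s ^ 2 • b₂)
      (by rw [inner_add_right, inner_add_right, inner_smul_right, inner_smul_right, hvd, hb1, hb2]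
          ring) hs hu
    rw [hS, mem_iUnion]
    refine ⟨⟨x, hU⟩, ?_⟩
    have h1 : u + s • b₁ + s ^ 2 • b₂ = v + s • b₁ + s ^ 2 • b₂ + t • d := by
      rw [hv]; abel
    rw [h1]
    exact hxm
  have hlim : Tendsto (fun s : ℝ => u + s • b₁ + s ^ 2 • b₂) (𝓝[≠] 0) (𝓝 u) := by
    have h1 : ContinuousAt (fun s : ℝ => u + s • b₁ + s ^ 2 • b₂) 0 := by fun_prop
    have h2 : Tendsto (fun s : ℝ => u + s • b₁ + s ^ 2 • b₂) (𝓝 0) (𝓝 u) := by
      have := h1.tendsto
      simpa using this
    exact h2.mono_left nhdsWithin_le_nhds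
  have huS : u ∈ S := hcl.mem_of_tendsto hlim hmem
  rw [hS, mem_iUnion] at huS
  obtain ⟨x, hx⟩ := huS
  exact ⟨x, x.2, hx⟩

/-- **Upper Lemma.**  Every body `y` different from `w 0, w 1, w 2` is `Upper`.

Proof.
(i) Call `v ⊥ d` generic if `inner (ν z g) v ≠ 0` for all `z`, all `g ∈ A z` with
`ν z g ≠ d, - d`.  If `v` is generic and lies in `T x`, `x` not among the `w i`, then some face of
`x` has normal `- d`: otherwise all faces of `x` through `v` have normal `d`; if there is one then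
`T x` lies in the lower half space, but a strict point of `T x` has `0 ≤ inner d` by `above`,
contradiction; if there is none, `v` is strict for `x` and `v ∈ T (w i)` for some `i` by `lower`:
`strict_mem_false`.
(ii) If `x` is not among the `w i` and `f ∈ A x` has normal `- d` then all other faces `g` of `x`
are orthogonal to `d`, i.e. `Upper D d x f`.  Otherwise `inner (ν x f) (ν x g) > 0` by `gram_nn`,
both lateral by `lat_of_pos`.  Take a unit vector `e'` orthogonal to `d` and `ν x g`, with the sign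
such that `e' ∈ T x` (a third face of `x` is an end face, orthogonal to both, so its normal is
`± e'`).  `star_lemma` for `x`, the pair `(f, g)` and `e'` gives a `Star3` with `w'' 0 = x`,
`fa'' 0 = f`; the body `w'' 2` has the *lateral* face `fb'' 2` with normal
`- ν x f = d` (`adj 2`: `ν (w'' 0) (fa'' 0) = - ν (w'' 2) (fb'' 2)`).  By `above` (a strict point of
`w'' 2` has `inner d < 0`) `w'' 2 = w i` for some `i`.  But the faces of `w i` are `fa i, fb i`
(orthogonal to `d`) and `fe i`, which is not lateral (`Star3.rest`: `fe i ≠ fa i, fb i` because its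
normal is `d`), contradiction.
(iii) For every `u` with `0 < inner d u` there are `x` (not among the `w i`) and `f` with
`Upper D d x f` and `u ∈ T x`.  Write `u = v + t d`, `v ⊥ d`, `t > 0`.  If `v` is generic:
`loc_cover` at `v` in direction `d` gives `x ∋ v` whose faces through `v` are `≤ 0` at `d`; `x` is
not `w i` (face `fe i`); by (i), (ii) `x` is `Upper` and so `u ∈ T x`.  In general choose generic
`v_k → v` (for a basis `b₁, b₂` of the plane take `v + s b₁ + s² b₂`, `s → 0`: for each normal `m`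
not parallel to `d` the polynomial `m v + s m b₁ + s² m b₂` is not zero, so has finitely many
zeros) and use that finitely many `T x` are closed.
(iv) For `y` as in the statement take a strict point `u` of `T y`; `0 < inner d u` (`≥ 0` by
`above`, and `u - s d ∈ T y` for small `s > 0`).  By (iii) `u ∈ T x`, and `x = y` by
`strict_mem_false`. -/
theorem CaseF.upper [Finite I] {D : Loc I Φ} {d : E3} {w : Fin 3 → I} {fa fb fe : Fin 3 → Φ}
    (H : CaseF D d w fa fb fe) {y : I} (hy : ∀ i, y ≠ w i) : ∃ g, Upper D d y g := by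
  have hd1 : ‖d‖ = 1 := by rw [← norm_neg]; exact H.S.unit
  have hdd : inner ℝ d d = (1 : ℝ) := by rw [real_inner_self_eq_norm_sq, hd1]; norm_num
  obtain ⟨u, hu⟩ := D.exists_strict y
  have hpos : 0 < inner ℝ d u := by
    have h0 := H.above hy (v := u) (fun f hf => (hu f hf).le)
    rcases h0.lt_or_eq with h1 | h1
    · exact h1
    · exfalso
      have hev : ∀ᶠ s in 𝓝[>] (0 : ℝ), ∀ f ∈ D.A y, inner ℝ (D.ν y f) (u - s • d) < 0 := by
        rw [Filter.eventually_all_finset]
        intro f hf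
        have h2 : ContinuousAt (fun s : ℝ => inner ℝ (D.ν y f) (u - s • d)) 0 := by fun_prop
        have h3 : ∀ᶠ s in 𝓝 (0 : ℝ), inner ℝ (D.ν y f) (u - s • d) < 0 :=
          h2.eventually_lt continuousAt_const (by simpa using hu f hf)
        exact h3.filter_mono nhdsWithin_le_nhds
      obtain ⟨s, hs, hs0⟩ := (hev.and self_mem_nhdsWithin).exists
      have h4 := H.above hy (v := u - s • d) (fun f hf => (hs f hf).le)
      rw [inner_sub_right, inner_smul_right, hdd, ← h1] at h4
      have h5 : (0 : ℝ) < s := hs0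
      linarith
  obtain ⟨x, hU, hxm⟩ := LCaseF_four H hpos
  by_cases hxy : x = y
  · rw [← hxy]; exact hU
  · exact (D.strict_mem_false (Ne.symm hxy) hu hxm).elim

end Pool.TC
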