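import Pool.Agent.W_0c5e58_h61.LCaseF

/-!
# Case F, pairs of a lower and an upper body: the parts
-/

open MeasureTheory Metric Set Filter
open scoped Topology

namespace Pool.TC

variable {I Φ : Type}

/-- The base of the lower body `x` (end face `ex`) and the base of the upper body `y` (face `gy` in
the plane) overlap: some `v` is strictly negative on all other faces of both. -/
def Ov (D : Loc I Φ) (x : I) (ex : Φ) (y : I) (gy : Φ) : Prop :=
  ∃ v, (∀ f ∈ D.A x, f ≠ ex → inner ℝ (D.ν x f) v < 0) ∧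
    (∀ g ∈ D.A y, g ≠ gy → inner ℝ (D.ν y g) v < 0)

/-- Small perturbations keep finitely many strict inequalities. -/
theorem LCaseG_small (A : Finset Φ) (ν : Φ → E3) (P : Φ → Prop) (v u : E3)
    (h : ∀ g ∈ A, P g → inner ℝ (ν g) v < 0) :
    ∀ᶠ s : ℝ in 𝓝[>] 0, ∀ g ∈ A, P g → inner ℝ (ν g) (v + s • u) < 0 := by
  rw [Filter.eventually_all_finset]
  intro g hg
  by_cases hP : P g
  · have h1 : Tendsto (fun s : ℝ => inner ℝ (ν g) (v + s • u)) (𝓝[>] 0)
        (𝓝 (inner ℝ (ν g) (v + (0 : ℝ) • u))) := by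
      have h2 : Continuous (fun s : ℝ => inner ℝ (ν g) (v + s • u)) := by fun_prop
      exact (h2.tendsto 0).mono_left nhdsWithin_le_nhds
    rw [zero_smul, add_zero] at h1
    filter_upwards [h1.eventually_lt_const (h g hg hP)] with s hs _
    exact hs
  · exact Eventually.of_forall fun s h1 => absurd h1 hP

theorem LCaseG_small1 (n v u : E3) (h : inner ℝ n v < 0) :
    ∀ᶠ s : ℝ in 𝓝[>] 0, inner ℝ n (v + s • u) < 0 := by
  have h1 := LCaseG_small ({()} : Finset Unit) (fun _ => n) (fun _ => True) v u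
    (fun _ _ _ => h)
  filter_upwards [h1] with s hs
  exact hs () (Finset.mem_singleton_self _) trivial

/-- Expansion with respect to three orthonormal vectors. -/
theorem LCaseG_on {d m r : E3} (hd : ‖d‖ = 1) (hm : ‖m‖ = 1) (hr : ‖r‖ = 1)
    (md : inner ℝ m d = 0) (rd : inner ℝ r d = 0) (mr : inner ℝ m r = 0) (q : E3) :
    q = (inner ℝ d q : ℝ) • d + (inner ℝ m q : ℝ) • m + (inner ℝ r q : ℝ) • r := by
  have dm : inner ℝ d m = 0 := by rw [real_inner_comm]; exact md
  have dr : inner ℝ d r = 0 := by rw [real_inner_comm]; exact rd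
  have rm : inner ℝ r m = 0 := by rw [real_inner_comm]; exact mr
  have ho : Orthonormal ℝ ![d, m, r] := by
    constructor
    · intro i
      fin_cases i
      · exact hd
      · exact hm
      · exact hr
    · intro i j hij
      fin_cases i <;> fin_cases j
      · exact absurd rfl hij
      · exact dm
      · exact dr
      · exact md
      · exact absurd rfl hij
      · exact mr
      · exact rd
      · exact rm
      · exact absurd rfl hij
  have hc : Fintype.card (Fin 3) = Module.finrank ℝ E3 := by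
    rw [finrank_euclideanSpace]
  let b := basisOfOrthonormalOfCardEqFinrank ho hc
  have hb : ⇑b = ![d, m, r] := coe_basisOfOrthonormalOfCardEqFinrank ho hc
  have hbo : Orthonormal ℝ b := by rw [hb]; exact ho
  have h1 := (b.toOrthonormalBasis hbo).sum_repr' q
  rw [Fin.sum_univ_three] at h1
  have e : ⇑(b.toOrthonormalBasis hbo) = ![d, m, r] := by
    rw [Module.Basis.coe_toOrthonormalBasis, hb]
  rw [e] at h1
  exact h1.symm

/-- A unit vector orthogonal to `d` and `r` is `m` or `- m`. -/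
theorem LCaseG_pm {d m r : E3} (hd : ‖d‖ = 1) (hm : ‖m‖ = 1) (hr : ‖r‖ = 1)
    (md : inner ℝ m d = 0) (rd : inner ℝ r d = 0) (mr : inner ℝ m r = 0) {q : E3}
    (hq : ‖q‖ = 1) (qd : inner ℝ q d = 0) (qr : inner ℝ q r = 0) :
    (q = m ∧ inner ℝ q m = 1) ∨ (q = -m ∧ inner ℝ q m = -1) := by
  have h1 := LCaseG_on hd hm hr md rd mr q
  rw [real_inner_comm, qd, zero_smul, zero_add] at h1
  rw [real_inner_comm q r, qr, zero_smul, add_zero] at h1
  have h2 : ‖q‖ = |inner ℝ m q| * ‖m‖ := by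
    conv_lhs => rw [h1]
    rw [norm_smul, Real.norm_eq_abs]
  rw [hq, hm, mul_one] at h2
  rcases abs_eq (zero_le_one' ℝ) |>.1 h2.symm with h3 | h3
  · left
    rw [h3, one_smul] at h1
    refine ⟨h1, ?_⟩
    rw [real_inner_comm]
    exact h3
  · right
    rw [h3, neg_one_smul] at h1
    refine ⟨h1, ?_⟩
    rw [real_inner_comm]
    exact h3

/-- If the bases overlap, the bodies are in contact along the plane: contact point
`v - (inner d v) d`. -/
theorem Ov.mac {D : Loc I Φ} {d : E3} (hd : ‖d‖ = 1) {x : I} {ex : Φ} (hex : ex ∈ D.A x)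
    (hxd : D.ν x ex = d) (hxo : ∀ f ∈ D.A x, f ≠ ex → inner ℝ (D.ν x f) d = 0)
    {y : I} {gy : Φ} (hy : Upper D d y gy) (h : Ov D x ex y gy) : D.Mac x ex y gy := by
  obtain ⟨v, hv1, hv2⟩ := h
  obtain ⟨hy1, hy2, hy3⟩ := hy
  have hdd : inner ℝ d d = (1 : ℝ) := by
    rw [real_inner_self_eq_norm_sq, hd]
    norm_num
  have hd0 : d ≠ 0 := by
    intro h0
    rw [h0, norm_zero] at hd
    exact zero_ne_one hd
  refine ⟨v - (inner ℝ d v : ℝ) • d, ?_, hex, hy1, ?_, ?_, ?_, ?_⟩
  · rintro rfl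
    have hne : ex ≠ gy := by
      rintro rfl
      rw [hxd] at hy2
      have h1 : (2 : ℝ) • d = 0 := by
        rw [two_smul]
        nth_rewrite 1 [hy2]
        exact neg_add_cancel d
      rcases smul_eq_zero.1 h1 with h2 | h2
      · norm_num at h2
      · exact hd0 h2
    apply (D.nu_ne hex hy1 hne).2
    rw [hxd, hy2, neg_neg]
  · rw [hy2, hxd]
  · rw [hxd, inner_sub_right, inner_smul_right, hdd, mul_one, sub_self]
  · intro f' hf' hne
    rw [inner_sub_right, inner_smul_right, hxo f' hf' hne, mul_zero, sub_zero]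
    exact hv1 f' hf' hne
  · intro g' hg' hne
    rw [inner_sub_right, inner_smul_right, hy3 g' hg' hne, mul_zero, sub_zero]
    exact hv2 g' hg' hne

theorem LCaseG_ov_at [Finite I] {D : Loc I Φ} {d : E3} {w : Fin 3 → I} {fa fb fe : Fin 3 → Φ}
    (H : CaseF D d w fa fb fe) {y : I} {gy : Φ} {v : E3}
    (hv : ∀ g ∈ D.A y, g ≠ gy → inner ℝ (D.ν y g) v < 0) :
    ∃ i, inner ℝ (D.ν (w i) (fa i)) v ≤ 0 ∧ inner ℝ (D.ν (w i) (fb i)) v ≤ 0 ∧
      Ov D (w i) (fe i) y gy := by
  obtain ⟨i, h1, h2⟩ := H.S.cover v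
  refine ⟨i, h1, h2, ?_⟩
  obtain ⟨u, hu⟩ := D.exists_strict (w i)
  have h3 := LCaseG_small (D.A y) (D.ν y) (fun g => g ≠ gy) v u hv
  obtain ⟨s, hs, hs0⟩ := (h3.and self_mem_nhdsWithin).exists
  have hs0' : (0 : ℝ) < s := hs0
  refine ⟨v + s • u, ?_, hs⟩
  intro f hf hne
  rw [inner_add_right, inner_smul_right]
  rcases H.faces i hf with h | h | h
  · have := mul_neg_of_pos_of_neg hs0' (hu f hf)
    rw [h] at this ⊢
    linarith
  · have := mul_neg_of_pos_of_neg hs0' (hu f hf)
    rw [h] at this ⊢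
    linarith
  · exact absurd h hne

/-- Every upper body overlaps one of the three lower ones: take a strict point of `T y`, use
`S.cover` for it, then move slightly to a strict point of that wedge (the wedge of `w i` has a
strict direction, e.g. from `exists_strict`). -/
theorem CaseF.ov_some [Finite I] {D : Loc I Φ} {d : E3} {w : Fin 3 → I} {fa fb fe : Fin 3 → Φ}
    (H : CaseF D d w fa fb fe) {y : I} {gy : Φ} (hy : Upper D d y gy) :
    ∃ i, Ov D (w i) (fe i) y gy := by
  obtain ⟨v, hv⟩ := D.exists_strict y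
  obtain ⟨i, _, _, h⟩ := LCaseG_ov_at H (y := y) (gy := gy) (v := v) fun g hg _ => hv g hg
  exact ⟨i, h⟩

/-- More precisely: if `v` is strictly negative on all faces `≠ gy` of the upper body `y`, then for
every open set around `v` there are `i` and a common strict point in that open set, and the closed
wedge of `w i` contains `v`. -/
theorem CaseF.ov_at [Finite I] {D : Loc I Φ} {d : E3} {w : Fin 3 → I} {fa fb fe : Fin 3 → Φ}
    (H : CaseF D d w fa fb fe) {y : I} {gy : Φ} {v : E3}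
    (hv : ∀ g ∈ D.A y, g ≠ gy → inner ℝ (D.ν y g) v < 0) :
    ∃ i, inner ℝ (D.ν (w i) (fa i)) v ≤ 0 ∧ inner ℝ (D.ν (w i) (fb i)) v ≤ 0 ∧
      Ov D (w i) (fe i) y gy := by
  exact LCaseG_ov_at H hv

/-- One half of the Side Lemma: direction `d - m`. -/
theorem LCaseG_side [Finite I] {D : Loc I Φ} {d m r : E3} (hd : ‖d‖ = 1) (hm : ‖m‖ = 1)
    (hr : ‖r‖ = 1) (md : inner ℝ m d = 0) (rd : inner ℝ r d = 0) (mr : inner ℝ m r = 0)
    (hL : ∀ y, (∃ g ∈ D.A y, D.ν y g = d) ∨ ∃ g, Upper D d y g) :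
    ∃ z gz, Upper D d z gz ∧ ((∀ g ∈ D.A z, g ≠ gz → inner ℝ (D.ν z g) r < 0) ∨
      ∃ z₁, z₁ ∈ D.A z ∧ z₁ ≠ gz ∧ D.ν z z₁ = m ∧
        ∀ g ∈ D.A z, g ≠ gz → g ≠ z₁ → inner ℝ (D.ν z g) r < 0) := by
  have hdd : inner ℝ d d = (1 : ℝ) := by
    rw [real_inner_self_eq_norm_sq, hd]
    norm_num
  have dm : inner ℝ d m = 0 := by rw [real_inner_comm]; exact md
  have dr : inner ℝ d r = 0 := by rw [real_inner_comm]; exact rd
  obtain ⟨z, hz1, hz2⟩ := D.loc_cover r (d - m)
  rcases hL z with ⟨g, hg, hgd⟩ | ⟨gz, hU⟩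
  · exfalso
    have h1 := hz2 g hg (by rw [hgd]; exact dr)
    rw [hgd, inner_sub_right, hdd, dm] at h1
    linarith
  · refine ⟨z, gz, hU, ?_⟩
    have key : ∀ g ∈ D.A z, g ≠ gz → inner ℝ (D.ν z g) r < 0 ∨ D.ν z g = m := by
      intro g hg hne
      rcases lt_or_eq_of_le (hz1 g hg) with h1 | h1
      · exact Or.inl h1
      · right
        have h2 := hU.2.2 g hg hne
        rcases LCaseG_pm hd hm hr md rd mr (D.unit z g) h2 h1 with ⟨h3, _⟩ | ⟨_, h3⟩
        · exact h3
        · exfalso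
          have h4 := hz2 g hg h1
          rw [inner_sub_right, h2, h3] at h4
          linarith
    by_cases hex : ∃ z₁, z₁ ∈ D.A z ∧ z₁ ≠ gz ∧ D.ν z z₁ = m
    · obtain ⟨z₁, h1, h2, h3⟩ := hex
      right
      refine ⟨z₁, h1, h2, h3, fun g hg hne hne1 => ?_⟩
      rcases key g hg hne with h4 | h4
      · exact h4
      · exact absurd (h4.trans h3.symm) (D.nu_ne hg h1 hne1).1
    · left
      intro g hg hne
      rcases key g hg hne with h4 | h4
      · exact h4
      · exact absurd ⟨g, hg, hne, h4⟩ hex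

/-- **Side Lemma.**  Let `x, c` be two bodies with end faces `ex, ec` of normal `d`, lateral faces
`fx, fc` with opposite normals `m, - m`, and `r` a unit vector in their common edge ray in the
plane: `r ⊥ d, m`, the other faces `< 0` at `r`.  Every body has a face with normal `d` or is
`Upper`.  Then one of the following holds.

Free: an upper body `z` has all its faces but the one in the plane strictly negative at `r`.

Blocked: there are upper bodies `z` (on the side of `x`) and `u` (on the side of `c`) with faces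
`z₁` of normal `m`, `u₁` of normal `- m`, all their other faces but `gz, gu` strictly negative
at `r`.

Proof. `loc_cover` at `r` in direction `d - m` gives a body `z ∋ r` with all faces through `r`
`≤ 0` at `d - m`.  A face of normal `d` would be `> 0`, so `z` is `Upper`; its other faces through
`r` are orthogonal to `d` and `r`, so of normal `± m` (the vectors orthogonal to `d` and `r` are the
multiples of `m`), and `- m` is positive at `d - m`: so of normal `m`, and there is at most one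
(`nu_ne`).  In the same way direction `d + m` gives `u` with faces through `r` of normal `- m`.  If
`z` or `u` has no such face: Free.  Otherwise Blocked. -/
theorem side_cases [Finite I] {D : Loc I Φ} {d m r : E3} (hd : ‖d‖ = 1) (hm : ‖m‖ = 1)
    (hr : ‖r‖ = 1) (md : inner ℝ m d = 0) (rd : inner ℝ r d = 0) (mr : inner ℝ m r = 0)
    (hL : ∀ y, (∃ g ∈ D.A y, D.ν y g = d) ∨ ∃ g, Upper D d y g) :
    (∃ z gz, Upper D d z gz ∧ ∀ g ∈ D.A z, g ≠ gz → inner ℝ (D.ν z g) r < 0) ∨
    (∃ z gz z₁ u gu u₁, Upper D d z gz ∧ Upper D d u gu ∧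
      z₁ ∈ D.A z ∧ z₁ ≠ gz ∧ D.ν z z₁ = m ∧
      (∀ g ∈ D.A z, g ≠ gz → g ≠ z₁ → inner ℝ (D.ν z g) r < 0) ∧
      u₁ ∈ D.A u ∧ u₁ ≠ gu ∧ D.ν u u₁ = - m ∧
      (∀ g ∈ D.A u, g ≠ gu → g ≠ u₁ → inner ℝ (D.ν u g) r < 0)) := by
  obtain ⟨z, gz, hz, h1⟩ := LCaseG_side hd hm hr md rd mr hL
  obtain ⟨u, gu, hu, h2⟩ := LCaseG_side (m := -m) hd (by rw [norm_neg]; exact hm) hr
    (by rw [inner_neg_left, md, neg_zero]) rd (by rw [inner_neg_left, mr, neg_zero]) hL
  rcases h1 with h1 | ⟨z₁, h3, h4, h5, h6⟩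
  · exact Or.inl ⟨z, gz, hz, h1⟩
  · rcases h2 with h2 | ⟨u₁, h7, h8, h9, h10⟩
    · exact Or.inl ⟨u, gu, hu, h2⟩
    · exact Or.inr ⟨z, gz, z₁, u, gu, u₁, hz, hu, h3, h4, h5, h6, h7, h8, h9, h10⟩

/-- **One-sided Lemma.**  The upper body `y` overlaps only the lower body `w j`.  Let `f₁, f₂` be
the two lateral faces of `w j`, `m = - ν (w j) f₁`, `r` the unit vector of the plane orthogonal to
`d` with `m r = 0` and `ν (w j) f₂` negative at `r`.  Then no upper body `z ≠ y` has a face `z₁`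
with normal `- m` and contains `r`.

Proof.  (α) `0 ≤ inner m v` for `v ∈ S d y`: otherwise there is `v` strictly negative on the faces
`≠ gy` of `y` with `inner m v < 0`; then `v` is not in the wedge of `w j`, so `ov_at` gives `i ≠ j`
with `Ov`, contradiction. (β) `- r ∉ S d y`: otherwise a strict `v` near `- r` has `ν (w j) f₂`
positive, again not in the wedge of `w j`.  (γ) `0 ≤ inner m v` for `v ∈ S d z` by the face `z₁`
(which passes through `d`).  Both contain `d` (`Upper`).  `two_half` with `e = d` and the point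
`- r`: by (β) `- r ∈ S d z`.  With `r ∈ T z` all faces `≠ gz` of `z` are `0` at `r`, orthogonal to
`d`, so of normal `± m`, so equal to `z₁` (`nu_ne`).  A strict point `v` of `T y` has `0 ≤ m v` by
(α); `v + s m` is still strict for `y` and `m > 0` there, contradiction to `loc_disj` at `d`
(the faces of `z` through `d` are `z₁` only; `gz` does not pass through `d`). -/
theorem CaseF.one_sided [Finite I] {D : Loc I Φ} {d : E3} {w : Fin 3 → I}
    {fa fb fe : Fin 3 → Φ} (H : CaseF D d w fa fb fe) {y : I} {gy : Φ} (hy : Upper D d y gy)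
    (j : Fin 3) (hno : ∀ i, i ≠ j → ¬ Ov D (w i) (fe i) y gy) {f₁ f₂ : Φ}
    (hf : (f₁ = fa j ∧ f₂ = fb j) ∨ (f₁ = fb j ∧ f₂ = fa j)) {m r : E3} (hm : ‖m‖ = 1)
    (hr : ‖r‖ = 1) (h1 : D.ν (w j) f₁ = - m) (rd : inner ℝ r d = 0) (mr : inner ℝ m r = 0)
    (h2 : inner ℝ (D.ν (w j) f₂) r < 0) {z : I} {gz z₁ : Φ} (hz : Upper D d z gz)
    (hz1 : z₁ ∈ D.A z) (hz2 : z₁ ≠ gz) (hz3 : D.ν z z₁ = - m) (hzr : r ∈ D.T z)
    (hzy : z ≠ y) : False := by
  have hd : ‖d‖ = 1 := by
    have := H.S.unit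
    rwa [norm_neg] at this
  have hd0 : d ≠ 0 := by
    intro h0
    rw [h0, norm_zero] at hd
    exact zero_ne_one hd
  have hm0 : m ≠ 0 := by
    intro h0
    rw [h0, norm_zero] at hm
    exact zero_ne_one hm
  have hdd : inner ℝ d d = (1 : ℝ) := by
    rw [real_inner_self_eq_norm_sq, hd]
    norm_num
  have hmm : inner ℝ m m = (1 : ℝ) := by
    rw [real_inner_self_eq_norm_sq, hm]
    norm_num
  have md : inner ℝ m d = 0 := by
    have := hz.2.2 z₁ hz1 hz2
    rw [hz3, inner_neg_left, neg_eq_zero] at this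
    exact this
  have hg : ∀ {x : I} {g : Φ}, Upper D d x g → inner ℝ (D.ν x g) d = -1 := by
    intro x g hx
    rw [hx.2.1, inner_neg_left, hdd]
  have hdT : ∀ {x : I} {g : Φ}, Upper D d x g → d ∈ D.T x := by
    intro x g hx f hf
    by_cases h : f = g
    · rw [h, hg hx]
      norm_num
    · exact (hx.2.2 f hf h).le
  -- points strict for `y` lie in the wedge of `w j`
  have hwj : ∀ v : E3, (∀ g ∈ D.A y, g ≠ gy → inner ℝ (D.ν y g) v < 0) →
      inner ℝ (D.ν (w j) f₁) v ≤ 0 ∧ inner ℝ (D.ν (w j) f₂) v ≤ 0 := by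
    intro v hv
    obtain ⟨i, h3, h4, h5⟩ := LCaseG_ov_at H hv
    have hij : i = j := by
      by_contra hne
      exact hno i hne h5
    subst hij
    rcases hf with ⟨h6, h7⟩ | ⟨h6, h7⟩
    · rw [h6, h7]
      exact ⟨h3, h4⟩
    · rw [h6, h7]
      exact ⟨h4, h3⟩
  obtain ⟨u, hu⟩ := D.exists_strict y
  -- perturbation of a point of the localised cone
  have hpert : ∀ v ∈ D.S d y, ∀ s : ℝ, 0 < s →
      ∀ g ∈ D.A y, g ≠ gy → inner ℝ (D.ν y g) (v + s • u) < 0 := by
    intro v hv s hs g hgA hne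
    rw [inner_add_right, inner_smul_right]
    have h3 := hv g hgA (hy.2.2 g hgA hne)
    have h4 := mul_neg_of_pos_of_neg hs (hu g hgA)
    linarith
  have hα : ∀ v ∈ D.S d y, 0 ≤ inner ℝ m v := by
    intro v hv
    by_contra hc
    push Not at hc
    obtain ⟨s, hs, hs0⟩ := ((LCaseG_small1 m v u hc).and self_mem_nhdsWithin).exists
    have h3 := (hwj _ (hpert v hv s hs0)).1
    rw [h1, inner_neg_left] at h3
    linarith
  have hβ : -r ∉ D.S d y := by
    intro hv
    have hc : inner ℝ (-D.ν (w j) f₂) (-r) < 0 := by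
      rw [inner_neg_neg]
      exact h2
    obtain ⟨s, hs, hs0⟩ := ((LCaseG_small1 _ (-r) u hc).and self_mem_nhdsWithin).exists
    have h3 := (hwj _ (hpert (-r) hv s hs0)).2
    rw [inner_neg_left] at hs
    linarith
  have hγ : ∀ v ∈ D.S d z, 0 ≤ inner ℝ m v := by
    intro v hv
    have h3 := hv z₁ hz1 (hz.2.2 z₁ hz1 hz2)
    rw [hz3, inner_neg_left] at h3
    linarith
  have h3 := D.two_half hd0 (fun h => hzy h.symm) (hdT hy) (hdT hz) hm0 hα hγ (v := -r)
    (by rw [inner_neg_right, mr, neg_zero])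
  have h4 : -r ∈ D.S d z := h3.resolve_left hβ
  have h5 : ∀ g ∈ D.A z, g ≠ gz → g = z₁ := by
    intro g hgA hne
    have h6 := hz.2.2 g hgA hne
    have h7 := h4 g hgA h6
    rw [inner_neg_right] at h7
    have h8 := hzr g hgA
    have h9 : inner ℝ (D.ν z g) r = 0 := le_antisymm h8 (by linarith)
    by_contra hne1
    have h10 := D.nu_ne hgA hz1 hne1
    rw [hz3, neg_neg] at h10
    rcases LCaseG_pm hd hm hr md rd mr (D.unit z g) h6 h9 with ⟨h11, _⟩ | ⟨h11, _⟩
    · exact h10.2 h11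
    · exact h10.1 h11
  have h6 : u ∈ D.S d y := fun f hfA _ => (hu f hfA).le
  have h7 := hα u h6
  obtain ⟨s, hs, hs0⟩ := ((LCaseG_small (D.A y) (D.ν y) (fun _ => True) u m
    (fun g hgA _ => hu g hgA)).and self_mem_nhdsWithin).exists
  have hs0' : (0 : ℝ) < s := hs0
  refine D.loc_disj (fun h => hzy h.symm) (hdT hy) (hdT hz) (u + s • m)
    (fun f hfA _ => hs f hfA trivial) (fun f hfA hf0 => ?_)
  have hfz : f ≠ gz := by
    rintro rfl
    rw [hg hz] at hf0
    norm_num at hf0
  rw [h5 f hfA hfz, hz3, inner_neg_left, inner_add_right, inner_smul_right, hmm]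
  linarith

end Pool.TC
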