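import Pool.Agent.W_0c5e58_h61.LStarB

/-!
# Case P: two stars, at `-d` and at `d`, with a common body
-/

open MeasureTheory Metric Set Filter
open scoped Topology

namespace Pool.TC

variable {I Φ : Type}

/-! ### Auxiliary facts -/

theorem LCaseP_faces {D : Loc I Φ} {e : E3} {w : Fin 3 → I} {fa fb : Fin 3 → Φ}
    (S : D.Star3 e w fa fb) (i : Fin 3) {k : Φ} (hk : k ∈ D.A (w i)) (h1 : k ≠ fa i)
    (h2 : k ≠ fb i) {f : Φ} (hf : f ∈ D.A (w i)) : f = fa i ∨ f = fb i ∨ f = k := by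
  by_cases h3 : f = fa i
  · exact Or.inl h3
  by_cases h4 : f = fb i
  · exact Or.inr (Or.inl h4)
  exact Or.inr (Or.inr (D.endU (w i) f hf k hk (S.rest i hf h3 h4).2 (S.rest i hk h1 h2).2))

theorem LCaseP_col {e m r r' : E3} (hr : ‖r‖ = 1) (hm : ‖m‖ = 1)
    (last : ∀ q : E3, inner ℝ q e = 0 → inner ℝ q r = 0 → ∃ c : ℝ, q = c • m)
    (h1 : inner ℝ e r = 0) (h2 : inner ℝ e r' = 0) (h3 : inner ℝ m r = 0)
    (h4 : inner ℝ m r' = 0) : r' = (inner ℝ r r' : ℝ) • r := by
  have hrr : inner ℝ r r = 1 := by rw [real_inner_self_eq_norm_sq, hr]; norm_num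
  have hmm : inner ℝ m m = 1 := by rw [real_inner_self_eq_norm_sq, hm]; norm_num
  have h1' : inner ℝ r e = 0 := by rw [real_inner_comm]; exact h1
  have h2' : inner ℝ r' e = 0 := by rw [real_inner_comm]; exact h2
  obtain ⟨c, hc⟩ := last (r' - (inner ℝ r r' : ℝ) • r)
    (by rw [inner_sub_left, inner_smul_left, h1', h2']; simp)
    (by rw [inner_sub_left, inner_smul_left, hrr, real_inner_comm r r']; simp)
  have h5 : inner ℝ m (r' - (inner ℝ r r' : ℝ) • r) = c := by
    rw [hc, inner_smul_right, hmm, mul_one]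
  rw [inner_sub_right, inner_smul_right, h3, h4] at h5
  have h6 : c = 0 := by linarith
  rw [h6, zero_smul] at hc
  exact sub_eq_zero.1 hc

theorem LCaseP_neg {q d : E3} (h : inner ℝ q (-d) = 0) : inner ℝ q d = 0 := by
  rw [inner_neg_right] at h
  linarith

theorem LCaseP_neg' {q d : E3} (h : inner ℝ (-d) q = 0) : inner ℝ d q = 0 := by
  rw [inner_neg_left] at h
  linarith

/-- Exchange of the two diagonal bodies. -/
theorem LCaseP_cross_symm {D : Loc I Φ} {a b : I} (h : D.Cross a b) : D.Cross b a := by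
  obtain ⟨c, u, fn, fd, cn, cd, un, ud, bn, bd, r, h⟩ := h
  refine ⟨u, c, bn, bd, un, ud, cn, cd, fn, fd, r, ?_⟩
  exact {
    hr := h.hr
    afn := h.bbn
    afd := h.bbd
    ccn := h.uun
    ccd := h.uud
    uun := h.ccn
    uud := h.ccd
    bbn := h.afn
    bbd := h.afd
    ecn := by rw [h.eun, h.ebn, neg_neg]
    ecd := by rw [h.eud, h.ebd]
    eun := by rw [h.ecn, h.ebn]
    eud := by rw [h.ecd, h.ebd, neg_neg]
    ebn := by rw [h.ebn, neg_neg]
    ebd := by rw [h.ebd, neg_neg]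
    nd := by rw [h.ebn, h.ebd, inner_neg_neg, h.nd]
    rn := by rw [h.ebn, inner_neg_left, h.rn, neg_zero]
    rd := by rw [h.ebd, inner_neg_left, h.rd, neg_zero]
    oa := h.ob
    oc := h.ou
    ou := h.oc
    ob := h.oa }

/-- All bodies belong to one of the two stars.  Let `y` be any body and `v` a strict point of
`T y` (`exists_strict`).  If `inner d v ≤ 0`, `S.cover v` gives a wedge of `w i` containing `v`;
the other faces of `w i` have normal `- (-d) = d` (`rest`), so `v ∈ T (w i)` and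
`strict_mem_false` gives `y = w i`.  If `0 ≤ inner d v` use `S'`. -/
theorem caseP_all [Finite I] (D : Loc I Φ) {d : E3} {w w' : Fin 3 → I} {fa fb fa' fb' : Fin 3 → Φ}
    (S : D.Star3 (-d) w fa fb) (S' : D.Star3 d w' fa' fb') (y : I) :
    (∃ i, y = w i) ∨ ∃ i, y = w' i := by
  obtain ⟨v, hv⟩ := D.exists_strict y
  rcases le_total (inner ℝ d v) 0 with hd | hd
  · left
    obtain ⟨i, h1, h2⟩ := S.cover v
    refine ⟨i, ?_⟩
    by_contra hne
    refine D.strict_mem_false hne hv ?_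
    intro f hf
    by_cases h3 : f = fa i
    · rw [h3]; exact h1
    by_cases h4 : f = fb i
    · rw [h4]; exact h2
    rw [(S.rest i hf h3 h4).1, neg_neg]
    exact hd
  · right
    obtain ⟨i, h1, h2⟩ := S'.cover v
    refine ⟨i, ?_⟩
    by_contra hne
    refine D.strict_mem_false hne hv ?_
    intro f hf
    by_cases h3 : f = fa' i
    · rw [h3]; exact h1
    by_cases h4 : f = fb' i
    · rw [h4]; exact h2
    rw [(S'.rest i hf h3 h4).1, inner_neg_left]
    linarith

/-- A body of the lower star which is not in the upper star has an end face with normal `d`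
(otherwise `d ∈ T (w i)`: the lateral normals are orthogonal to `d`). -/
theorem lower_end [Finite I] (D : Loc I Φ) {d : E3} {w w' : Fin 3 → I} {fa fb fa' fb' : Fin 3 → Φ}
    (S : D.Star3 (-d) w fa fb) (S' : D.Star3 d w' fa' fb') {i : Fin 3} (h : ∀ j, w i ≠ w' j) :
    ∃ f ∈ D.A (w i), D.ν (w i) f = d ∧ f ≠ fa i ∧ f ≠ fb i := by
  by_contra hcon
  push Not at hcon
  have hmem : d ∈ D.T (w i) := by
    intro f hf
    by_cases h3 : f = fa i
    · rw [h3, LCaseP_neg (S.oa i)]
    by_cases h4 : f = fb i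
    · rw [h4, LCaseP_neg (S.ob i)]
    have h5 := (S.rest i hf h3 h4).1
    rw [neg_neg] at h5
    exact absurd (hcon f hf h5 h3) h4
  obtain ⟨j, hj⟩ := S'.all _ hmem
  exact h j hj

/-- The same for the upper star. -/
theorem LCaseP_upper_end [Finite I] (D : Loc I Φ) {d : E3} {w w' : Fin 3 → I}
    {fa fb fa' fb' : Fin 3 → Φ}
    (S : D.Star3 (-d) w fa fb) (S' : D.Star3 d w' fa' fb') {i : Fin 3} (h : ∀ j, w' i ≠ w j) :
    ∃ f ∈ D.A (w' i), D.ν (w' i) f = -d ∧ f ≠ fa' i ∧ f ≠ fb' i := by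
  have S2 : D.Star3 (-(-d)) w' fa' fb' := by rw [neg_neg]; exact S'
  exact lower_end D S2 S h

theorem LCaseP_11 [Finite I] (D : Loc I Φ) {d : E3} {w w' : Fin 3 → I} {fa fb fa' fb' : Fin 3 → Φ}
    (S : D.Star3 (-d) w fa fb) (S' : D.Star3 d w' fa' fb') (h0 : w 0 = w' 0)
    (ha : fa 0 = fa' 0) (hb : fb 0 = fb' 0) (hne : w 1 ≠ w' 1) {k k' : Φ}
    (hk : k ∈ D.A (w 1)) (hkd : D.ν (w 1) k = d) (hka : k ≠ fa 1) (hkb : k ≠ fb 1)
    (hk' : k' ∈ D.A (w' 1)) (hkd' : D.ν (w' 1) k' = -d) (hka' : k' ≠ fa' 1)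
    (hkb' : k' ≠ fb' 1) : D.Mac (w 1) k (w' 1) k' := by
  obtain ⟨r, r1, r2, r3, r4, r5, r6⟩ := S.ray 0
  obtain ⟨q, q1, q2, q3, q4, q5, q6⟩ := S'.ray 0
  change inner ℝ (D.ν (w 1) (fb 1)) r < 0 at r5
  change inner ℝ (D.ν (w' 1) (fb' 1)) q < 0 at q5
  rw [← h0, ← hb] at q3
  rw [← h0, ← ha] at q4
  have hm : ‖D.ν (w 0) (fb 0)‖ = 1 := D.unit _ _
  have hcol := LCaseP_col r1 hm r6 r2 (e := -d) (r' := q) (by rw [inner_neg_left, q2, neg_zero])
    r3 q3
  have hpos : 0 < inner ℝ r q := by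
    rw [hcol, inner_smul_right] at q4
    by_contra hc
    push Not at hc
    nlinarith
  have q5' : inner ℝ (D.ν (w' 1) (fb' 1)) r < 0 := by
    rw [hcol, inner_smul_right] at q5
    by_contra hc
    push Not at hc
    have := mul_nonneg hpos.le hc
    linarith
  set m := D.ν (w 0) (fb 0) with hmdef
  have a1 : D.ν (w 1) (fa 1) = -m := S.adj 0
  have a2 : D.ν (w' 1) (fa' 1) = -m := by
    have := S'.adj 0
    rw [← h0, ← hb] at this
    exact this
  have p1 := S.pos 1
  have p2 := S'.pos 1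
  rw [a1, inner_neg_left, real_inner_comm] at p1
  rw [a2, inner_neg_left, real_inner_comm] at p2
  have hmm : inner ℝ m m = 1 := by rw [real_inner_self_eq_norm_sq, hm]; norm_num
  have hmd : inner ℝ d m = 0 := by
    rw [real_inner_comm]; exact LCaseP_neg (S.ob 0)
  have hrd : inner ℝ d r = 0 := LCaseP_neg' r2
  refine ⟨r + m, hne, hk, hk', by rw [hkd', hkd], ?_, ?_, ?_⟩
  · rw [hkd, inner_add_right, hrd, hmd, add_zero]
  · intro f hf hfk
    rcases LCaseP_faces S 1 hk hka hkb hf with h | h | h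
    · rw [h, a1, inner_neg_left, inner_add_right, r3, hmm]; norm_num
    · rw [h, inner_add_right]; linarith
    · exact absurd h hfk
  · intro f hf hfk
    rcases LCaseP_faces S' 1 hk' hka' hkb' hf with h | h | h
    · rw [h, a2, inner_neg_left, inner_add_right, r3, hmm]; norm_num
    · rw [h, inner_add_right]; linarith
    · exact absurd h hfk

theorem LCaseP_22 [Finite I] (D : Loc I Φ) {d : E3} {w w' : Fin 3 → I} {fa fb fa' fb' : Fin 3 → Φ}
    (S : D.Star3 (-d) w fa fb) (S' : D.Star3 d w' fa' fb') (h0 : w 0 = w' 0)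
    (ha : fa 0 = fa' 0) (hb : fb 0 = fb' 0) (hne : w 2 ≠ w' 2) {k k' : Φ}
    (hk : k ∈ D.A (w 2)) (hkd : D.ν (w 2) k = d) (hka : k ≠ fa 2) (hkb : k ≠ fb 2)
    (hk' : k' ∈ D.A (w' 2)) (hkd' : D.ν (w' 2) k' = -d) (hka' : k' ≠ fa' 2)
    (hkb' : k' ≠ fb' 2) : D.Mac (w 2) k (w' 2) k' := by
  obtain ⟨r, r1, r2, r3, r4, r5, r6⟩ := S.ray 2
  obtain ⟨q, q1, q2, q3, q4, q5, q6⟩ := S'.ray 2
  change inner ℝ (D.ν (w 0) (fb 0)) r < 0 at r5
  change inner ℝ (D.ν (w' 0) (fb' 0)) q < 0 at q5
  rw [← h0, ← hb] at q5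
  have b1 : D.ν (w 0) (fa 0) = - D.ν (w 2) (fb 2) := S.adj 2
  have b2 : D.ν (w' 0) (fa' 0) = - D.ν (w' 2) (fb' 2) := S'.adj 2
  have b3 : D.ν (w' 2) (fb' 2) = D.ν (w 2) (fb 2) := by
    rw [← h0, ← ha, b1] at b2
    exact (neg_injective b2).symm
  rw [b3] at q3
  have hm : ‖D.ν (w 2) (fb 2)‖ = 1 := D.unit _ _
  have hcol := LCaseP_col r1 hm r6 r2 (e := -d) (r' := q) (by rw [inner_neg_left, q2, neg_zero])
    r3 q3
  have hpos : 0 < inner ℝ r q := by
    rw [hcol, inner_smul_right] at q5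
    by_contra hc
    push Not at hc
    nlinarith
  have q4' : inner ℝ (D.ν (w' 2) (fa' 2)) r < 0 := by
    rw [hcol, inner_smul_right] at q4
    by_contra hc
    push Not at hc
    have := mul_nonneg hpos.le hc
    linarith
  set m := D.ν (w 2) (fb 2) with hmdef
  have p1 := S.pos 2
  have p2 := S'.pos 2
  rw [← hmdef] at p1
  rw [b3] at p2
  have hmm : inner ℝ m m = 1 := by rw [real_inner_self_eq_norm_sq, hm]; norm_num
  have hmd : inner ℝ d m = 0 := by
    rw [real_inner_comm]; exact LCaseP_neg (S.ob 2)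
  have hrd : inner ℝ d r = 0 := LCaseP_neg' r2
  refine ⟨r - m, hne, hk, hk', by rw [hkd', hkd], ?_, ?_, ?_⟩
  · rw [hkd, inner_sub_right, hrd, hmd, sub_zero]
  · intro f hf hfk
    rcases LCaseP_faces S 2 hk hka hkb hf with h | h | h
    · rw [h, inner_sub_right]; linarith
    · rw [h, ← hmdef, inner_sub_right, r3, hmm]; norm_num
    · exact absurd h hfk
  · intro f hf hfk
    rcases LCaseP_faces S' 2 hk' hka' hkb' hf with h | h | h
    · rw [h, inner_sub_right]; linarith
    · rw [h, b3, inner_sub_right, r3, hmm]; norm_num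
    · exact absurd h hfk

theorem LCaseP_small {a b A B : ℝ} (ha : a < 0) (hb : b < 0) :
    ∃ s : ℝ, 0 < s ∧ a + s * A < 0 ∧ b + s * B < 0 := by
  have h1 : Filter.Tendsto (fun s : ℝ => a + s * A) (𝓝[>] 0) (𝓝 a) := by
    have h3 : Filter.Tendsto (fun s : ℝ => a + s * A) (𝓝 0) (𝓝 (a + 0 * A)) :=
      (Continuous.tendsto (by fun_prop) 0)
    rw [zero_mul, add_zero] at h3
    exact h3.mono_left nhdsWithin_le_nhds
  have h2 : Filter.Tendsto (fun s : ℝ => b + s * B) (𝓝[>] 0) (𝓝 b) := by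
    have h3 : Filter.Tendsto (fun s : ℝ => b + s * B) (𝓝 0) (𝓝 (b + 0 * B)) :=
      (Continuous.tendsto (by fun_prop) 0)
    rw [zero_mul, add_zero] at h3
    exact h3.mono_left nhdsWithin_le_nhds
  obtain ⟨s, ⟨hs1, hs2⟩, hs3⟩ := (((h1.eventually (gt_mem_nhds ha)).and
    (h2.eventually (gt_mem_nhds hb))).and self_mem_nhdsWithin).exists
  exact ⟨s, hs3, hs1, hs2⟩

theorem LCaseP_12 [Finite I] (D : Loc I Φ) {d : E3} {w w' : Fin 3 → I} {fa fb fa' fb' : Fin 3 → Φ}
    (S : D.Star3 (-d) w fa fb) (S' : D.Star3 d w' fa' fb') (h0 : w 0 = w' 0)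
    (ha : fa 0 = fa' 0) (hb : fb 0 = fb' 0) (h1 : ∀ j, w 1 ≠ w' j) (h2 : ∀ j, w' 2 ≠ w j) :
    D.Flush (w 1) (w' 2) ∨ D.Cross (w 1) (w' 2) := by
  obtain ⟨k1, hk1, hkd1, hka1, hkb1⟩ := lower_end D S S' h1
  obtain ⟨k2, hk2, hkd2, hka2, hkb2⟩ := LCaseP_upper_end D S S' h2
  obtain ⟨r, r1, r2, r3, r4, r5, r6⟩ := S.ray 1
  change inner ℝ (D.ν (w 2) (fb 2)) r < 0 at r5
  have hrd : inner ℝ d r = 0 := LCaseP_neg' r2
  set m := D.ν (w 0) (fb 0) with hmdef
  set p := D.ν (w 1) (fb 1) with hpdef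
  set p' := D.ν (w' 1) (fb' 1) with hpdef'
  have a1 : D.ν (w 1) (fa 1) = -m := S.adj 0
  have a1' : D.ν (w' 1) (fa' 1) = -m := by
    have := S'.adj 0
    rw [← h0, ← hb] at this
    exact this
  have a2 : D.ν (w 2) (fa 2) = -p := S.adj 1
  have a2' : D.ν (w' 2) (fa' 2) = -p' := S'.adj 1
  have b3 : D.ν (w' 2) (fb' 2) = D.ν (w 2) (fb 2) := by
    have b1 : D.ν (w 0) (fa 0) = - D.ν (w 2) (fb 2) := S.adj 2
    have b2 : D.ν (w' 0) (fa' 0) = - D.ν (w' 2) (fb' 2) := S'.adj 2
    rw [← h0, ← ha, b1] at b2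
    exact (neg_injective b2).symm
  have hpp : inner ℝ p p = 1 := by rw [real_inner_self_eq_norm_sq, D.unit]; norm_num
  have hmm : inner ℝ m m = 1 := by rw [real_inner_self_eq_norm_sq, D.unit]; norm_num
  have hpd : inner ℝ d p = 0 := by rw [real_inner_comm]; exact LCaseP_neg (S.ob 1)
  have pos1 := S.pos 1
  have pos1' := S'.pos 1
  rw [a1, ← hpdef] at pos1
  rw [a1', ← hpdef'] at pos1'
  rw [a1] at r4
  by_cases hc : 0 < inner ℝ p' r
  · -- contact at `r - s p`
    left
    have c1 : inner ℝ (-p') r < 0 := by rw [inner_neg_left]; linarith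
    obtain ⟨s, hs, s1, s2⟩ := LCaseP_small (A := - inner ℝ (-p') p)
      (B := - inner ℝ (D.ν (w 2) (fb 2)) p) c1 r5
    refine ⟨k1, k2, Or.inl ⟨r - s • p, h1 2, hk1, hk2, by rw [hkd1, hkd2], ?_, ?_, ?_⟩⟩
    · rw [hkd1, inner_sub_right, inner_smul_right, hrd, hpd]; simp
    · intro f hf hfk
      rcases LCaseP_faces S 1 hk1 hka1 hkb1 hf with h | h | h
      · rw [h, a1, inner_sub_right, inner_smul_right]
        have := mul_pos hs pos1
        linarith
      · rw [h, ← hpdef, inner_sub_right, inner_smul_right, r3, hpp]; linarith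
      · exact absurd h hfk
    · intro f hf hfk
      rcases LCaseP_faces S' 2 hk2 hka2 hkb2 hf with h | h | h
      · rw [h, a2', inner_sub_right, inner_smul_right]; linarith
      · rw [h, b3, inner_sub_right, inner_smul_right]; linarith
      · exact absurd h hfk
  -- the other two bodies
  have e12 : w' 1 ≠ w 2 := by
    intro he
    have f1 : fa' 1 ∈ D.A (w 2) := he ▸ S'.hfa 1
    have f2 : D.ν (w 2) (fa' 1) = -m := by rw [← he]; exact a1'
    rcases D.latU (w 2) (fa 2) (S.hfa 2) (fb 2) (S.hfb 2) (fa' 1) f1 (S.la 2) (S.lb 2) (S'.la 1)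
      with h | h | h
    · exact S.ne 2 h
    · rw [← h, a2] at f2
      have h3 : p = m := neg_injective f2
      rw [h3, inner_neg_left, hmm] at pos1
      linarith
    · rw [← h] at f2
      have b1 : D.ν (w 0) (fa 0) = - D.ν (w 2) (fb 2) := S.adj 2
      rw [f2, neg_neg] at b1
      exact (D.nu_ne (S.hfa 0) (S.hfb 0) (S.ne 0)).1 b1
  have h3 : ∀ j, w' 1 ≠ w j := by
    intro j
    fin_cases j
    · show w' 1 ≠ w 0
      rw [h0]
      intro h
      exact absurd (S'.inj h) (by decide)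
    · exact fun h => h1 1 h.symm
    · exact e12
  have h4 : ∀ j, w 2 ≠ w' j := by
    intro j
    fin_cases j
    · show w 2 ≠ w' 0
      rw [← h0]
      intro h
      exact absurd (S.inj h) (by decide)
    · exact fun h => e12 h.symm
    · exact fun h => h2 2 h.symm
  obtain ⟨k3, hk3, hkd3, hka3, hkb3⟩ := LCaseP_upper_end D S S' h3
  obtain ⟨k4, hk4, hkd4, hka4, hkb4⟩ := lower_end D S S' h4
  have pos2 := S.pos 2
  rw [a2] at pos2
  by_cases hc2 : inner ℝ p' r < 0
  · -- chain of three contacts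
    left
    refine ⟨k1, k2, Or.inr ⟨w' 1, k3, w 2, k4, ?_, ?_, ?_⟩⟩
    · exact LCaseP_11 D S S' h0 ha hb (h1 1) hk1 hkd1 hka1 hkb1 hk3 hkd3 hka3 hkb3
    · obtain ⟨s, hs, s1, s2⟩ := LCaseP_small (A := inner ℝ (-m) p) (B := inner ℝ p' p) r4 hc2
      refine ⟨r + s • p, h4 1, hk4, hk3, by rw [hkd3, hkd4], ?_, ?_, ?_⟩
      · rw [hkd4, inner_add_right, inner_smul_right, hrd, hpd]; simp
      · intro f hf hfk
        rcases LCaseP_faces S 2 hk4 hka4 hkb4 hf with h | h | h
        · rw [h, a2, inner_add_right, inner_smul_right, inner_neg_left, inner_neg_left, r3, hpp]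
          linarith
        · rw [h, inner_add_right, inner_smul_right]
          rw [inner_neg_left, real_inner_comm] at pos2
          have := mul_pos hs pos2
          linarith
        · exact absurd h hfk
      · intro f hf hfk
        rcases LCaseP_faces S' 1 hk3 hka3 hkb3 hf with h | h | h
        · rw [h, a1', inner_add_right, inner_smul_right]; exact s1
        · rw [h, ← hpdef', inner_add_right, inner_smul_right]; exact s2
        · exact absurd h hfk
    · exact LCaseP_22 D S S' h0 ha hb (h4 2) hk4 hkd4 hka4 hkb4 hk2 hkd2 hka2 hkb2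
  · right
    have hz : inner ℝ p' r = 0 := le_antisymm (not_lt.1 hc) (not_lt.1 hc2)
    obtain ⟨c, hcp⟩ := r6 p' (by rw [inner_neg_right, S'.ob 1, neg_zero]) hz
    have hp' : p' = p := by
      have n1 : inner ℝ p' p' = 1 := by rw [real_inner_self_eq_norm_sq, D.unit]; norm_num
      rw [hcp, inner_smul_left, inner_smul_right, hpp] at n1
      simp only [conj_trivial, mul_one] at n1
      rw [hcp, inner_smul_right] at pos1'
      have hc0 : 0 < c := by
        by_contra hcn
        push Not at hcn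
        have := mul_nonneg (neg_nonneg.2 hcn) pos1.le
        linarith
      have : c = 1 := by nlinarith
      rw [hcp, this, one_smul]
    refine ⟨w 2, w' 1, fb 1, k1, fa 2, k4, fb' 1, k3, fa' 2, k2, r, ?_⟩
    exact {
      hr := by
        intro h
        rw [h, norm_zero] at r1
        exact zero_ne_one r1
      afn := S.hfb 1
      afd := hk1
      ccn := S.hfa 2
      ccd := hk4
      uun := S'.hfb 1
      uud := hk3
      bbn := S'.hfa 2
      bbd := hk2
      ecn := a2
      ecd := by rw [hkd4, hkd1]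
      eun := hp'
      eud := by rw [hkd3, hkd1]
      ebn := by rw [a2', hp']
      ebd := by rw [hkd2, hkd1]
      nd := by rw [hkd1]; exact LCaseP_neg (S.ob 1)
      rn := r3
      rd := by rw [hkd1]; exact hrd
      oa := by
        intro f hf g1 g2
        rcases LCaseP_faces S 1 hk1 hka1 hkb1 hf with h | h | h
        · rw [h, a1]; exact r4
        · exact absurd h g1
        · exact absurd h g2
      oc := by
        intro f hf g1 g2
        rcases LCaseP_faces S 2 hk4 hka4 hkb4 hf with h | h | h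
        · exact absurd h g1
        · rw [h]; exact r5
        · exact absurd h g2
      ou := by
        intro f hf g1 g2
        rcases LCaseP_faces S' 1 hk3 hka3 hkb3 hf with h | h | h
        · rw [h, a1']; exact r4
        · exact absurd h g1
        · exact absurd h g2
      ob := by
        intro f hf g1 g2
        rcases LCaseP_faces S' 2 hk2 hka2 hkb2 hf with h | h | h
        · exact absurd h g1
        · rw [h, b3]; exact r5
        · exact absurd h g2 }

/-- **Case P.**  `w 0 = w' 0` belongs to both stars, with the same faces.  Every pair of a body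
`w i` of the lower star and another body `y` is flush or crossing.

Proof.  Write `m₁ = ν (w 0) (fb 0)`, `m₂ = ν (w 0) (fa 0)`.  Lower star: `w 1` has
`ν (fa 1) = - m₁` and `p := ν (w 1) (fb 1)`; `w 2` has `ν (fa 2) = - p`, `ν (fb 2) = - m₂`.
Upper star: `w' 1` has `- m₁, p'`, `w' 2` has `- p', - m₂`.
If `y` is in the lower star, or `w i` and `y` are both in the upper star: `Star3.flush`.
Otherwise `w i` is only in the lower star (so `i ≠ 0`) and `y = w' j` only in the upper one
(`j ≠ 0`), by `caseP_all`.  Both have end faces, with normals `d` and `-d` (`lower_end`, and the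
same for the upper star with `-d` in the role of `d`).
* `i = j = 1`: let `r` be the ray of `S.ray 0` (`m₁ r = 0`, `m₂ r < 0`, `p r < 0`); also
`p' r < 0` (the ray of `S'.ray 0` is the same vector: it is unit, orthogonal to `d` and `m₁` and
negative on `m₂`; or argue again).  Contact of the end faces at `r + s m₁`, `s > 0` small.
* `i = j = 2`: same with the ray between `w 2` and `w 0` (`S.ray 2`).
* `i = 1, j = 2` (`i = 2, j = 1` is symmetric, by `Flush.symm` and the symmetry of the situation).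
Let `r₃` be the ray of `S.ray 1`: `p r₃ = 0`, `- m₁ r₃ < 0`, `- m₂ r₃ < 0`, `r₃ ⊥ d`.
  - `p' r₃ > 0`: then `r₃` is strictly in the wedge of `w' 2` and `r₃ - s p` is strictly in both the
    wedges of `w 1` and `w' 2`: contact of the end faces.
  - `p' r₃ < 0`: then `r₃ + s p` is strictly in the wedges of `w 2` and `w' 1`.  `w' 1 ≠ w 2`
    (if equal, `{fa' 1, fb' 1} = {fa 2, fb 2}` by `latU`, so `- m₁ ∈ {- p, - m₂}`; `m₁ = m₂` is
    impossible by `nu_ne`, and `- m₁ = - p` contradicts `S.pos 1`, `inner (-m₁) p = -1`), hence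
    `w' 1` is only in the upper star (`w' 1 = w 1` contradicts that `w 1` is only in the lower one,
    `w' 1 = w 0 = w' 0` contradicts `S'.inj`) and `w 2` is only in the lower star (the same way).
    So all four have end faces and we have the chain `w 1 - w' 1` (case `1,1`), `w 2 - w' 1`
    (contact at `r₃ + s p`), `w 2 - w' 2` (case `2,2`), with the same end face of `w' 1` and of
    `w 2` (unique by `endU`): `Flush`.
  - `p' r₃ = 0`: then `p' = ± p` (both in the plane orthogonal to `d`, last clause of `ray`;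
    unit vectors), `p' = - p` contradicts `S.pos 1`, `S'.pos 1`.  So `p' = p` and `w 1, w 2, w' 1,
    w' 2` are in `CrossAt` position along `r₃`: `a = w 1` (`fn = fb 1`, `fd` = end), `c = w 2`
    (`cn = fa 2`, end), `u = w' 1` (`un = fb' 1`, end), `b = w' 2` (`bn = fa' 2`, end).  (As before
    `w' 1 ≠ w 2`, all four have end faces.) -/
theorem caseP [Finite I] (D : Loc I Φ) {d : E3} {w w' : Fin 3 → I} {fa fb fa' fb' : Fin 3 → Φ}
    (S : D.Star3 (-d) w fa fb) (S' : D.Star3 d w' fa' fb') (h0 : w 0 = w' 0)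
    (ha : fa 0 = fa' 0) (hb : fb 0 = fb' 0) (i : Fin 3) (y : I) (hy : w i ≠ y) :
    D.Flush (w i) y ∨ D.Cross (w i) y := by
  by_cases g1 : ∃ j, y = w j
  · obtain ⟨j, rfl⟩ := g1
    exact Or.inl (S.flush (fun h => hy (by rw [h])))
  by_cases g2 : ∃ j, w i = w' j
  · obtain ⟨j, hj⟩ := g2
    rcases caseP_all D S S' y with h | ⟨k, hk⟩
    · exact absurd h g1
    · left
      rw [hj, hk]
      refine S'.flush (fun h => hy ?_)
      rw [hj, hk, h]
  push Not at g1 g2
  rcases caseP_all D S S' y with ⟨j, hj⟩ | ⟨j, hj⟩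
  · exact absurd hj (g1 j)
  subst hj
  have hi0 : i ≠ 0 := by
    rintro rfl
    exact g2 0 h0
  have hj0 : j ≠ 0 := by
    rintro rfl
    exact g1 0 h0.symm
  have hi : i = 1 ∨ i = 2 := by
    fin_cases i
    · exact absurd rfl hi0
    · exact Or.inl rfl
    · exact Or.inr rfl
  have hj' : j = 1 ∨ j = 2 := by
    fin_cases j
    · exact absurd rfl hj0
    · exact Or.inl rfl
    · exact Or.inr rfl
  rcases hi with rfl | rfl <;> rcases hj' with rfl | rfl
  · obtain ⟨k1, hk1, hkd1, hka1, hkb1⟩ := lower_end D S S' g2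
    obtain ⟨k2, hk2, hkd2, hka2, hkb2⟩ := LCaseP_upper_end D S S' g1
    exact Or.inl ⟨k1, k2, Or.inl (LCaseP_11 D S S' h0 ha hb (g2 1) hk1 hkd1 hka1 hkb1 hk2 hkd2
      hka2 hkb2)⟩
  · exact LCaseP_12 D S S' h0 ha hb g2 g1
  · have S2 : D.Star3 (-(-d)) w' fa' fb' := by rw [neg_neg]; exact S'
    rcases LCaseP_12 D S2 S h0.symm ha.symm hb.symm g1 g2 with h | h
    · exact Or.inl h.symm
    · exact Or.inr (LCaseP_cross_symm h)
  · obtain ⟨k1, hk1, hkd1, hka1, hkb1⟩ := lower_end D S S' g2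
    obtain ⟨k2, hk2, hkd2, hka2, hkb2⟩ := LCaseP_upper_end D S S' g1
    exact Or.inl ⟨k1, k2, Or.inl (LCaseP_22 D S S' h0 ha hb (g2 2) hk1 hkd1 hka1 hkb1 hk2 hkd2
      hka2 hkb2)⟩

end Pool.TC
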