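import Mathlib

/-!
# MP_0c5e58_co, Theorem A: local part, definitions

A `Loc` is a finite family of polyhedral cones with apex `0` in Euclidean 3-space, as it occurs at
a point of a tiling by right prisms: body `i` has the finite set `A i` of active faces, face `f` of
body `i` has the unit outer normal `ν i f`.  Lateral faces (`lat f`): at most two are active; the
end face: at most one is active, and it is orthogonal to the lateral ones.  Two active lateral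
normals have inner product in `[0,1)` (the interior angle between the faces is `≥ π/2`).
`star` : there are no two obtuse lateral angles with sum `3π/2`.
The cones cover the space and no point is strictly inside two of them.
-/

open MeasureTheory Metric Set Filter
open scoped Topology

namespace Pool.TC

abbrev E2 := EuclideanSpace ℝ (Fin 2)
abbrev E3 := EuclideanSpace ℝ (Fin 3)

structure Loc (I Φ : Type) where
  A : I → Finset Φ
  lat : Φ → Prop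
  ν : I → Φ → E3
  unit : ∀ i f, ‖ν i f‖ = 1
  latEnd : ∀ i, ∀ f ∈ A i, ∀ g ∈ A i, lat f → ¬ lat g → inner ℝ (ν i f) (ν i g) = 0
  endU : ∀ i, ∀ f ∈ A i, ∀ g ∈ A i, ¬ lat f → ¬ lat g → f = g
  latU : ∀ i, ∀ f ∈ A i, ∀ g ∈ A i, ∀ k ∈ A i, lat f → lat g → lat k → f = g ∨ f = k ∨ g = k
  nn : ∀ i, ∀ f ∈ A i, ∀ g ∈ A i, f ≠ g → lat f → lat g → 0 ≤ inner ℝ (ν i f) (ν i g)
  lt1 : ∀ i, ∀ f ∈ A i, ∀ g ∈ A i, f ≠ g → lat f → lat g → inner ℝ (ν i f) (ν i g) < 1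
  star : ∀ i, ∀ f ∈ A i, ∀ g ∈ A i, ∀ i', ∀ f' ∈ A i', ∀ g' ∈ A i', f ≠ g → f' ≠ g' →
    lat f → lat g → lat f' → lat g' →
    0 < inner ℝ (ν i f) (ν i g) → 0 < inner ℝ (ν i' f') (ν i' g') →
    (inner ℝ (ν i f) (ν i g)) ^ 2 + (inner ℝ (ν i' f') (ν i' g')) ^ 2 ≠ 1
  cover : ∀ x, ∃ i, ∀ f ∈ A i, inner ℝ (ν i f) x ≤ 0
  disj : ∀ i j, i ≠ j → ∀ x, (∀ f ∈ A i, inner ℝ (ν i f) x < 0) →
    (∀ f ∈ A j, inner ℝ (ν j f) x < 0) → False

variable {I Φ : Type}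

/-- the cone of body `i` -/
def Loc.T (D : Loc I Φ) (i : I) : Set E3 := {x | ∀ f ∈ D.A i, inner ℝ (D.ν i f) x ≤ 0}

/-- the cone of body `i` localised at the point `e`: only the faces through `e` count -/
def Loc.S (D : Loc I Φ) (e : E3) (i : I) : Set E3 :=
  {v | ∀ f ∈ D.A i, inner ℝ (D.ν i f) e = 0 → inner ℝ (D.ν i f) v ≤ 0}

/-- body `i` has an obtuse lateral edge -/
def Loc.Obt (D : Loc I Φ) (i : I) : Prop :=
  ∃ k ∈ D.A i, ∃ l ∈ D.A i, k ≠ l ∧ D.lat k ∧ D.lat l ∧ 0 < inner ℝ (D.ν i k) (D.ν i l)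

/-- macroscopic contact of the face `f` of `a` and the face `g` of `b` at the point `p` -/
def Loc.MacAt (D : Loc I Φ) (a : I) (f : Φ) (b : I) (g : Φ) (p : E3) : Prop :=
  a ≠ b ∧ f ∈ D.A a ∧ g ∈ D.A b ∧ D.ν b g = - D.ν a f ∧ inner ℝ (D.ν a f) p = 0 ∧
  (∀ f' ∈ D.A a, f' ≠ f → inner ℝ (D.ν a f') p < 0) ∧
  (∀ g' ∈ D.A b, g' ≠ g → inner ℝ (D.ν b g') p < 0)

def Loc.Mac (D : Loc I Φ) (a : I) (f : Φ) (b : I) (g : Φ) : Prop := ∃ p, D.MacAt a f b g p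

/-- a face of `a` and a face of `b` lie in a common plane which is kept by a contact or by a
chain of three contacts -/
def Loc.Flush (D : Loc I Φ) (a b : I) : Prop :=
  ∃ f g, D.Mac a f b g ∨
    ∃ u f₁ c f₂, D.Mac a f u f₁ ∧ D.Mac c f₂ u f₁ ∧ D.Mac c f₂ b g

/-- four bodies `a, c, u, b` around the ray spanned by `r`: with `n = ν a fn`, `d = ν a fd`
orthonormal, `a` has the normals `n, d`, `c` has `-n, d`, `u` has `n, -d` and `b` has `-n, -d`;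
all other active normals are negative at `r`. -/
structure Loc.CrossAt (D : Loc I Φ) (a c u b : I) (fn fd cn cd un ud bn bd : Φ) (r : E3) :
    Prop where
  hr : r ≠ 0
  afn : fn ∈ D.A a
  afd : fd ∈ D.A a
  ccn : cn ∈ D.A c
  ccd : cd ∈ D.A c
  uun : un ∈ D.A u
  uud : ud ∈ D.A u
  bbn : bn ∈ D.A b
  bbd : bd ∈ D.A b
  ecn : D.ν c cn = - D.ν a fn
  ecd : D.ν c cd = D.ν a fd
  eun : D.ν u un = D.ν a fn
  eud : D.ν u ud = - D.ν a fd
  ebn : D.ν b bn = - D.ν a fn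
  ebd : D.ν b bd = - D.ν a fd
  nd : inner ℝ (D.ν a fn) (D.ν a fd) = 0
  rn : inner ℝ (D.ν a fn) r = 0
  rd : inner ℝ (D.ν a fd) r = 0
  oa : ∀ f ∈ D.A a, f ≠ fn → f ≠ fd → inner ℝ (D.ν a f) r < 0
  oc : ∀ f ∈ D.A c, f ≠ cn → f ≠ cd → inner ℝ (D.ν c f) r < 0
  ou : ∀ f ∈ D.A u, f ≠ un → f ≠ ud → inner ℝ (D.ν u f) r < 0
  ob : ∀ f ∈ D.A b, f ≠ bn → f ≠ bd → inner ℝ (D.ν b f) r < 0

def Loc.Cross (D : Loc I Φ) (a b : I) : Prop :=
  ∃ c u fn fd cn cd un ud bn bd r, D.CrossAt a c u b fn fd cn cd un ud bn bd r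

/-- the three bodies around the unit vector `e`, in cyclic order: body `w i` has the lateral faces
`fa i` (towards `w (i-1)`) and `fb i` (towards `w (i+1)`). -/
structure Loc.Star3 (D : Loc I Φ) (e : E3) (w : Fin 3 → I) (fa fb : Fin 3 → Φ) : Prop where
  unit : ‖e‖ = 1
  inj : Function.Injective w
  mem : ∀ i, e ∈ D.T (w i)
  all : ∀ x, e ∈ D.T x → ∃ i, x = w i
  hfa : ∀ i, fa i ∈ D.A (w i)
  hfb : ∀ i, fb i ∈ D.A (w i)
  la : ∀ i, D.lat (fa i)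
  lb : ∀ i, D.lat (fb i)
  ne : ∀ i, fa i ≠ fb i
  pos : ∀ i, 0 < inner ℝ (D.ν (w i) (fa i)) (D.ν (w i) (fb i))
  adj : ∀ i, D.ν (w (i + 1)) (fa (i + 1)) = - D.ν (w i) (fb i)
  oa : ∀ i, inner ℝ (D.ν (w i) (fa i)) e = 0
  ob : ∀ i, inner ℝ (D.ν (w i) (fb i)) e = 0

end Pool.TC
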