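import Pool.Agent.W_0c5e58_h61.LVol

/-!
# The star of an obtuse lateral edge
-/

open MeasureTheory Metric Set Filter
open scoped Topology

namespace Pool.TC

variable {I Φ : Type}

/-- If `e, n, r` are orthonormal in `E3` then every `q` orthogonal to `e` is the combination
`(inner q n) n + (inner q r) r`. -/
theorem LStar_expand {e n r : E3} (he : ‖e‖ = 1) (hn : ‖n‖ = 1) (hr : ‖r‖ = 1)
    (ne : inner ℝ n e = 0) (re : inner ℝ r e = 0) (nr : inner ℝ n r = 0)
    {q : E3} (hq : inner ℝ q e = 0) :
    q = (inner ℝ q n : ℝ) • n + (inner ℝ q r : ℝ) • r := by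
  have hon : Orthonormal ℝ ![e, n, r] := by
    have en : inner ℝ e n = 0 := by rw [real_inner_comm]; exact ne
    have er : inner ℝ e r = 0 := by rw [real_inner_comm]; exact re
    have rn : inner ℝ r n = 0 := by rw [real_inner_comm]; exact nr
    constructor
    · intro i
      fin_cases i
      · exact he
      · exact hn
      · exact hr
    · intro i j hij
      fin_cases i <;> fin_cases j
      · exact absurd rfl hij
      · exact en
      · exact er
      · exact ne
      · exact absurd rfl hij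
      · exact nr
      · exact re
      · exact rn
      · exact absurd rfl hij
  have hspan : ⊤ ≤ Submodule.span ℝ (Set.range ![e, n, r]) := by
    have hb := (basisOfOrthonormalOfCardEqFinrank hon (by simp)).span_eq
    rw [coe_basisOfOrthonormalOfCardEqFinrank] at hb
    exact hb.ge
  let b := OrthonormalBasis.mk hon hspan
  have hsum := b.sum_repr' q
  rw [Fin.sum_univ_three] at hsum
  have hb : ∀ i, b i = ![e, n, r] i := fun i => by
    simp [b]
  rw [hb 0, hb 1, hb 2] at hsum
  have hsum' : (inner ℝ e q : ℝ) • e + (inner ℝ n q : ℝ) • n + (inner ℝ r q : ℝ) • r = q := hsum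
  rw [real_inner_comm q e, hq, zero_smul, zero_add, real_inner_comm q n,
    real_inner_comm q r] at hsum'
  exact hsum'.symm

/-- If `n, m` are linearly independent unit vectors orthogonal to the unit vector `e` then every
vector orthogonal to `e` and to `n` is a multiple of one direction `r` with
`inner n r = 0`, `inner m r < 0`, `‖r‖ = 1`, `inner e r = 0`
(take `± (m - (inner n m) n)` normalised).  Here independence is given as
`inner n m < 1`, `-1 < inner n m`. -/
theorem exists_ray {e n m : E3} (he : ‖e‖ = 1) (hn : ‖n‖ = 1) (hm : ‖m‖ = 1)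
    (h1 : inner ℝ n m < 1) (h2 : -1 < inner ℝ n m) (ne : inner ℝ n e = 0)
    (me : inner ℝ m e = 0) :
    ∃ r : E3, ‖r‖ = 1 ∧ inner ℝ n r = 0 ∧ inner ℝ m r < 0 ∧ inner ℝ r e = 0 ∧
      ∀ q : E3, inner ℝ q e = 0 → q = (inner ℝ q n : ℝ) • n + (inner ℝ q r : ℝ) • r := by
  set g : ℝ := inner ℝ n m with hg
  have nn : inner ℝ n n = (1 : ℝ) := by
    rw [real_inner_self_eq_norm_sq, hn]; norm_num
  have mm : inner ℝ m m = (1 : ℝ) := by
    rw [real_inner_self_eq_norm_sq, hm]; norm_num
  set r0 : E3 := m - g • n with hr0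
  have nr0 : inner ℝ n r0 = 0 := by
    rw [hr0, inner_sub_right, inner_smul_right, nn, ← hg]; ring
  have mr0 : inner ℝ m r0 = 1 - g ^ 2 := by
    rw [hr0, inner_sub_right, inner_smul_right, mm, real_inner_comm n m, ← hg]; ring
  have er0 : inner ℝ r0 e = 0 := by
    rw [hr0, inner_sub_left, inner_smul_left, ne, me]; simp
  have r0sq : ‖r0‖ ^ 2 = 1 - g ^ 2 := by
    rw [← real_inner_self_eq_norm_sq]
    have : inner ℝ r0 r0 = inner ℝ m r0 - g * inner ℝ n r0 := by
      conv_lhs => rw [hr0, inner_sub_left, inner_smul_left]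
      simp [hr0]
    rw [this, nr0, mr0]; ring
  have gpos : 0 < 1 - g ^ 2 := by nlinarith
  have r0pos : 0 < ‖r0‖ := by
    rcases (norm_nonneg r0).lt_or_eq with h | h
    · exact h
    · rw [← h] at r0sq; nlinarith
  have hr1 : ‖(-(‖r0‖)⁻¹ : ℝ) • r0‖ = 1 := by
    rw [norm_smul, norm_neg, norm_inv, norm_norm, inv_mul_cancel₀ r0pos.ne']
  have hr2 : inner ℝ n ((-(‖r0‖)⁻¹ : ℝ) • r0) = 0 := by
    rw [inner_smul_right, nr0, mul_zero]
  have hr4 : inner ℝ ((-(‖r0‖)⁻¹ : ℝ) • r0) e = 0 := by
    rw [inner_smul_left, er0, mul_zero]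
  refine ⟨(-(‖r0‖)⁻¹ : ℝ) • r0, hr1, hr2, ?_, hr4, ?_⟩
  · rw [inner_smul_right, mr0]
    have : 0 < (‖r0‖)⁻¹ := inv_pos.2 r0pos
    nlinarith
  · intro q hq
    exact LStar_expand he hn hr1 ne hr4 hr2 hq

/-- Crossing the face `f` of `x` near a point `e` of it in a direction `r` of the face. -/
theorem LStar_step [Finite I] (D : Loc I Φ) {x : I} {f : Φ} (hf : f ∈ D.A x) {e r : E3}
    (hm : e ∈ D.T x) (fe : inner ℝ (D.ν x f) e = 0) (fr : inner ℝ (D.ν x f) r = 0)
    (hex : ∀ q : E3, inner ℝ q e = 0 →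
      q = (inner ℝ q (D.ν x f) : ℝ) • (D.ν x f) + (inner ℝ q r : ℝ) • r)
    (ho : ∀ f' ∈ D.A x, f' ≠ f → inner ℝ (D.ν x f') e = 0 → inner ℝ (D.ν x f') r < 0) :
    ∃ y g, x ≠ y ∧ g ∈ D.A y ∧ D.ν y g = - D.ν x f ∧ e ∈ D.T y ∧
      ∀ g' ∈ D.A y, inner ℝ (D.ν y g') e = 0 → inner ℝ (D.ν y g') r ≤ 0 := by
  have hev0 : ∀ᶠ s in 𝓝[>] (0 : ℝ), ∀ i, e + s • r ∈ D.T i → e ∈ D.T i := by
    rw [Filter.eventually_all]
    intro i
    by_cases h : e ∈ D.T i
    · exact Filter.Eventually.of_forall (fun _ _ => h)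
    · have hc : Continuous (fun s : ℝ => e + s • r) := by fun_prop
      have ho' : IsOpen (D.T i)ᶜ := (D.isClosed_T i).isOpen_compl
      have hc0 := hc.tendsto 0
      simp only [zero_smul, add_zero] at hc0
      have hc1 : Tendsto (fun s : ℝ => e + s • r) (𝓝[>] 0) (𝓝 e) :=
        hc0.mono_left nhdsWithin_le_nhds
      have h1 := hc1.eventually (ho'.mem_nhds h)
      filter_upwards [h1] with s hs hs'
      exact absurd hs' hs
  have hcont : ∀ n : E3, Tendsto (fun s : ℝ => (inner ℝ n (e + s • r) : ℝ)) (𝓝[>] 0)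
      (𝓝 (inner ℝ n e)) := by
    intro n
    have hc : Continuous (fun s : ℝ => (inner ℝ n (e + s • r) : ℝ)) := by fun_prop
    have := hc.tendsto 0
    simp only [zero_smul, add_zero] at this
    exact this.mono_left nhdsWithin_le_nhds
  have hev : ∀ᶠ s in 𝓝[>] (0 : ℝ), ∀ i, ∀ g ∈ D.A i, inner ℝ (D.ν i g) e < 0 →
      inner ℝ (D.ν i g) (e + s • r) < 0 := by
    rw [Filter.eventually_all]
    intro i
    rw [Filter.eventually_all_finset]
    intro g _
    by_cases hneg : inner ℝ (D.ν i g) e < 0
    · filter_upwards [(hcont (D.ν i g)).eventually_lt_const hneg] with s hs _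
      exact hs
    · exact Filter.Eventually.of_forall (fun s h => absurd h hneg)
  have hev2 : ∀ᶠ s in 𝓝[>] (0 : ℝ), 0 < s := by
    filter_upwards [self_mem_nhdsWithin] with s hs
    exact hs
  obtain ⟨s, hs1, hs2, hsm⟩ := (hev.and (hev2.and hev0)).exists
  have hval : ∀ n : E3, inner ℝ n (e + s • r) = inner ℝ n e + s * inner ℝ n r := by
    intro n
    rw [inner_add_right, inner_smul_right]
  have hnn : inner ℝ (D.ν x f) (D.ν x f) = (1 : ℝ) := by
    rw [real_inner_self_eq_norm_sq, D.unit]; norm_num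
  obtain ⟨y, g, hxy, _, hgy, hng, hp0, _, hyo⟩ := D.across hf (p := e + s • r)
    (by rw [hval, fe, fr]; ring)
    (by
      intro f' hf' hne
      rcases (hm f' hf').lt_or_eq with h | h
      · exact hs1 x f' hf' h
      · have := ho f' hf' hne h
        rw [hval, h]
        nlinarith)
    (by
      intro y hy g hg hg0
      have hey : e ∈ D.T y := hsm y hy
      have hge : inner ℝ (D.ν y g) e = 0 := by
        rcases (hey g hg).lt_or_eq with h | h
        · exact absurd hg0 (hs1 y g hg h).ne
        · exact h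
      have hgr : inner ℝ (D.ν y g) r = 0 := by
        rw [hval, hge, zero_add] at hg0
        rcases mul_eq_zero.1 hg0 with h | h
        · exact absurd h hs2.ne'
        · exact h
      have hq := hex (D.ν y g) hge
      rw [hgr, zero_smul, add_zero] at hq
      set c : ℝ := inner ℝ (D.ν y g) (D.ν x f) with hc
      have hnorm : |c| = 1 := by
        have h1 := D.unit y g
        rw [hq, norm_smul, D.unit x f, mul_one, Real.norm_eq_abs] at h1
        exact h1
      rcases (abs_eq (by norm_num : (0 : ℝ) ≤ 1)).1 hnorm with h | h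
      · left; rw [hq, h, one_smul]
      · right; rw [hq, h, neg_smul, one_smul])
  have hpT : e + s • r ∈ D.T y := by
    intro g' hg'
    by_cases h : g' = g
    · subst h
      rw [hng, inner_neg_left, hp0, neg_zero]
    · exact (hyo g' hg' h).le
  have hey : e ∈ D.T y := hsm y hpT
  refine ⟨y, g, hxy, hgy, hng, hey, ?_⟩
  intro g' hg' hg'e
  have h1 := hpT g' hg'
  rw [hval, hg'e, zero_add] at h1
  by_contra h2
  push Not at h2
  nlinarith

/-- **Star Lemma.**  Let `a` have the two lateral faces `k, l` with obtuse angle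
(`0 < inner`), both through the unit vector `e ∈ T a`.  Then exactly three bodies contain `e`, and
they form a `Star3`.

Proof.  Write `n₁ = ν a k`, `n₂ = ν a l`, `g = inner n₁ n₂ ∈ (0,1)`.  An end face of `a` through `e`
is excluded by `span3`.
1. Let `r₁` be the unit vector with `n₁ r₁ = 0`, `n₂ r₁ < 0`, `r₁ ⊥ e` (`exists_ray`).  For small
`δ > 0` put `p = e + δ r₁`: faces of `a` other than `k` are `< 0` at `p`.  By `small_mem` bodies
containing `p` contain `e`.  For small `δ`, an active face of any body which contains `p` and passes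
through `p` passes through `e` and is orthogonal to `r₁` (finitely many faces: for
`inner (ν y g) e < 0` the value at `p` stays negative), so its normal is `± n₁` (by the last clause
of `exists_ray`).  `across` gives a body `i ≠ a` with a face `ki`, `ν i ki = - n₁`, all its other
faces `< 0` at `p`; `e ∈ T i`.
2. In the same way across `l`: body `j ≠ a`, face `lj`, `ν j lj = - n₂`, `e ∈ T j`.
3. `i ≠ j`: otherwise the face `lj` of `i` would have `inner (-n₂) p = - δ n₂ r₁ > 0` at
`p = e + δ r₁ ∈ T i`.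
4. No fourth body contains `e`: `count4`.
5. `i` has another face `pi ≠ ki` through `e` : `half3` for `(a, i, j)`.  Put `p := ν i pi`.
6. Let `r₃` be the unit vector with `p r₃ = 0`, `(-n₁) r₃ < 0`, `r₃ ⊥ e`.  Across the face `pi` of
`i` at `e + δ r₃` there is a body `y ≠ i` with a face of normal `- p`, `e ∈ T y`, so `y = a` or
`y = j`.  If `y = a`: the face of `a` passes through `e`, so it is `k` or `l` (`span3`):
`- p = n₁` contradicts `nu_ne` for `ki, pi` in `i`; `- p = n₂` means `i` has the normals `-n₁, -n₂`,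
contradiction as in 3.  So `y = j` has a face `qj` with `ν j qj = - p`; `qj ≠ lj`, since otherwise
`p = n₂` and `inner (ν i ki) (ν i pi) = - g < 0` contradicts `gram_nn`.
7. Both inner products `gᵢ = inner (-n₁) p`, `gⱼ = inner (-n₂) (-p)` are `≥ 0` by `gram_nn`.
All of `n₁, n₂, p` are orthogonal to `e`.  If `gᵢ = 0` then `p ⊥ n₁` so `n₂ = g n₁ + s p` with
`g² + s² = 1`, `gⱼ = s ≥ 0`, `s > 0` as `g < 1`; the pair `(lj, qj)` of `j` is lateral
(`lat_of_pos`) and `D.star` for `(k,l)` of `a` and `(lj,qj)` of `j` is contradicted.  Same for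
`gⱼ = 0`.  So both are `> 0` and the pairs are lateral by `lat_of_pos`.
8. `w = ![a, j, i]`, `fa = ![k, lj, pi]`, `fb = ![l, qj, ki]`. Check `adj`: `fa 1 = lj` :
`-n₂ = - ν a (fb 0)`; `fa 2 = pi`: `p = - ν j qj`; `fa 0 = k`: `n₁ = - ν i ki`. -/
theorem Loc.star_lemma [Finite I] (D : Loc I Φ) {a : I} {k l : Φ} (hk : k ∈ D.A a)
    (hl : l ∈ D.A a) (hkl : k ≠ l) (hp : 0 < inner ℝ (D.ν a k) (D.ν a l)) {e : E3}
    (he : ‖e‖ = 1) (ke : inner ℝ (D.ν a k) e = 0) (le : inner ℝ (D.ν a l) e = 0)
    (hm : e ∈ D.T a) :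
    ∃ w fa fb, D.Star3 e w fa fb ∧ w 0 = a ∧ fa 0 = k ∧ fb 0 = l := by
  have he0 : e ≠ 0 := by
    intro h
    rw [h, norm_zero] at he
    norm_num at he
  obtain ⟨lk, ll⟩ := D.lat_of_pos hk hl hkl hp
  have hg1 : inner ℝ (D.ν a k) (D.ν a l) < 1 := D.gram_lt hk hl hkl
  have hp' : 0 < inner ℝ (D.ν a l) (D.ν a k) := by rw [real_inner_comm]; exact hp
  have hg1' : inner ℝ (D.ν a l) (D.ν a k) < 1 := by rw [real_inner_comm]; exact hg1
  have only : ∀ f ∈ D.A a, inner ℝ (D.ν a f) e = 0 → f = k ∨ f = l := by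
    intro f hf hfe
    by_contra hcon
    push Not at hcon
    exact he0 (D.span3 hk hl hf hkl (Ne.symm hcon.1) (Ne.symm hcon.2) ke le hfe)
  -- across the face `k`
  obtain ⟨r₁, _, kr₁, lr₁, r₁e, hex₁⟩ := exists_ray he (D.unit a k) (D.unit a l) hg1
    (by linarith) ke le
  obtain ⟨i, ki, hai, hki, nki, hei, hir⟩ := LStar_step D hk hm ke kr₁ hex₁ (by
    intro f' hf' hne hf'e
    rcases only f' hf' hf'e with h | h
    · exact absurd h hne
    · rw [h]; exact lr₁)
  -- across the face `l`
  obtain ⟨r₂, _, lr₂, kr₂, r₂e, hex₂⟩ := exists_ray he (D.unit a l) (D.unit a k) hg1'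
    (by linarith) le ke
  obtain ⟨j, lj, haj, hlj, nlj, hej, hjr⟩ := LStar_step D hl hm le lr₂ hex₂ (by
    intro f' hf' hne hf'e
    rcases only f' hf' hf'e with h | h
    · rw [h]; exact kr₂
    · exact absurd h hne)
  have kie : inner ℝ (D.ν i ki) e = 0 := by rw [nki, inner_neg_left, ke, neg_zero]
  have lje : inner ℝ (D.ν j lj) e = 0 := by rw [nlj, inner_neg_left, le, neg_zero]
  -- no face of `i` through `e` has the normal `- ν a l`
  have noi : ∀ f ∈ D.A i, D.ν i f ≠ - D.ν a l := by
    intro f hf h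
    have h1 := hir f hf (by rw [h, inner_neg_left, le, neg_zero])
    rw [h, inner_neg_left] at h1
    linarith
  have hij : i ≠ j := by
    intro h
    subst h
    exact noi lj hlj nlj
  -- all bodies through `e`
  have hall : ∀ x, e ∈ D.T x → x = a ∨ x = j ∨ x = i := by
    intro x hx
    by_contra hcon
    push Not at hcon
    obtain ⟨c1, c2, c3⟩ := hcon
    refine D.count4 he0 ![a, j, i, x] ?_ ?_ (k := k) (l := l) hk hl hkl ke le hp
    · intro u v huv
      fin_cases u <;> fin_cases v
      · rfl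
      · exact absurd huv haj
      · exact absurd huv hai
      · exact absurd huv (Ne.symm c1)
      · exact absurd huv (Ne.symm haj)
      · rfl
      · exact absurd huv (Ne.symm hij)
      · exact absurd huv (Ne.symm c2)
      · exact absurd huv (Ne.symm hai)
      · exact absurd huv hij
      · rfl
      · exact absurd huv (Ne.symm c3)
      · exact absurd huv c1
      · exact absurd huv c2
      · exact absurd huv c3
      · rfl
    · intro u
      fin_cases u
      · exact hm
      · exact hej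
      · exact hei
      · exact hx
  -- the second face of `i` through `e`
  obtain ⟨pi, hpi, hpk, pie⟩ := D.half3 he0 ![a, i, j] (by
      intro u v huv
      fin_cases u <;> fin_cases v
      · rfl
      · exact absurd huv hai
      · exact absurd huv haj
      · exact absurd huv (Ne.symm hai)
      · rfl
      · exact absurd huv hij
      · exact absurd huv (Ne.symm haj)
      · exact absurd huv (Ne.symm hij)
      · rfl) (by
      intro u
      fin_cases u
      · exact hm
      · exact hei
      · exact hej) (k := k) (l := l) hk hl hkl ke le hp ki hki kie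
  change pi ∈ D.A i at hpi
  change inner ℝ (D.ν i pi) e = 0 at pie
  have onlyi : ∀ f ∈ D.A i, inner ℝ (D.ν i f) e = 0 → f = ki ∨ f = pi := by
    intro f hf hfe
    by_contra hcon
    push Not at hcon
    exact he0 (D.span3 hki hpi hf (Ne.symm hpk) (Ne.symm hcon.1) (Ne.symm hcon.2) kie pie hfe)
  have gnn : 0 ≤ inner ℝ (D.ν i ki) (D.ν i pi) := D.gram_nn hki hpi (Ne.symm hpk)
  have gnn' : 0 ≤ inner ℝ (D.ν i pi) (D.ν i ki) := D.gram_nn hpi hki hpk
  have glt' : inner ℝ (D.ν i pi) (D.ν i ki) < 1 := D.gram_lt hpi hki hpk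
  -- across the face `pi`
  obtain ⟨r₃, _, pr₃, kr₃, r₃e, hex₃⟩ := exists_ray he (D.unit i pi) (D.unit i ki) glt'
    (by linarith) pie kie
  obtain ⟨y, qj, hiy, hqj, nqj, hey, _⟩ := LStar_step D hpi hei pie pr₃ hex₃ (by
    intro f' hf' hne hf'e
    rcases onlyi f' hf' hf'e with h | h
    · rw [h]; exact kr₃
    · exact absurd h hne)
  have qe : inner ℝ (D.ν y qj) e = 0 := by rw [nqj, inner_neg_left, pie, neg_zero]
  have hyj : y = j := by
    rcases hall y hey with h | h | h
    · exfalso
      subst h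
      rcases only qj hqj qe with h | h
      · rw [h] at nqj
        refine (D.nu_ne hki hpi (Ne.symm hpk)).1 ?_
        rw [nki, nqj, neg_neg]
      · rw [h] at nqj
        refine noi pi hpi ?_
        rw [nqj, neg_neg]
    · exact h
    · exact absurd h (Ne.symm hiy)
  subst hyj
  have hql : lj ≠ qj := by
    intro h
    rw [← h, nlj] at nqj
    have h1 : D.ν i pi = D.ν a l := (neg_injective nqj).symm
    rw [nki, h1, inner_neg_left] at gnn
    linarith
  have gjn : 0 ≤ inner ℝ (D.ν y lj) (D.ν y qj) := D.gram_nn hlj hqj hql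
  have gjv : inner ℝ (D.ν y lj) (D.ν y qj) = (inner ℝ (D.ν a l) (D.ν i pi) : ℝ) := by
    rw [nlj, nqj, inner_neg_neg]
  have giv : inner ℝ (D.ν i ki) (D.ν i pi) = - (inner ℝ (D.ν a k) (D.ν i pi) : ℝ) := by
    rw [nki, inner_neg_left]
  have hsq : ∀ {u v z : E3}, ‖u‖ = 1 → ‖v‖ = 1 → ‖z‖ = 1 → inner ℝ u e = 0 → inner ℝ v e = 0 →
      inner ℝ z e = 0 → inner ℝ u v = 0 →
      (inner ℝ z u) ^ 2 + (inner ℝ z v) ^ 2 = (1 : ℝ) := by
    intro u v z hu hv hz ue ve ze uv
    have h1 := LStar_expand he hu hv ue ve uv ze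
    have h2 : inner ℝ z z = (1 : ℝ) := by
      rw [real_inner_self_eq_norm_sq, hz]; norm_num
    have h3 : inner ℝ z z = (inner ℝ z u) * (inner ℝ z u) + (inner ℝ z v) * (inner ℝ z v) := by
      have h4 : inner ℝ z z =
          inner ℝ ((inner ℝ z u : ℝ) • u + (inner ℝ z v : ℝ) • v) z := by rw [← h1]
      rw [h4, inner_add_left, inner_smul_left, inner_smul_left, real_inner_comm z u,
        real_inner_comm z v]
      simp
    rw [h3] at h2
    nlinarith
  have gi : 0 < inner ℝ (D.ν i ki) (D.ν i pi) := by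
    rcases gnn.lt_or_eq with h | h
    · exact h
    · exfalso
      rw [giv] at h
      have h0 : inner ℝ (D.ν a k) (D.ν i pi) = (0 : ℝ) := by linarith
      have h1 := hsq (D.unit a k) (D.unit i pi) (D.unit a l) ke pie le h0
      have h2 : 0 < inner ℝ (D.ν y lj) (D.ν y qj) := by
        rcases gjn.lt_or_eq with h' | h'
        · exact h'
        · exfalso
          rw [gjv] at h'
          rw [← h'] at h1
          nlinarith
      obtain ⟨la1, la2⟩ := D.lat_of_pos hlj hqj hql h2
      refine D.star a k hk l hl y lj hlj qj hqj hkl hql lk ll la1 la2 hp h2 ?_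
      rw [gjv, real_inner_comm (D.ν a l) (D.ν a k)]
      exact h1
  have gj : 0 < inner ℝ (D.ν y lj) (D.ν y qj) := by
    rcases gjn.lt_or_eq with h | h
    · exact h
    · exfalso
      rw [gjv] at h
      have h1 := hsq (D.unit a l) (D.unit i pi) (D.unit a k) le pie ke h.symm
      obtain ⟨la1, la2⟩ := D.lat_of_pos hki hpi (Ne.symm hpk) gi
      refine D.star a k hk l hl i ki hki pi hpi hkl (Ne.symm hpk) lk ll la1 la2 hp gi ?_
      rw [giv, neg_sq]
      exact h1
  obtain ⟨li1, li2⟩ := D.lat_of_pos hki hpi (Ne.symm hpk) gi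
  obtain ⟨lj1, lj2⟩ := D.lat_of_pos hlj hqj hql gj
  refine ⟨![a, y, i], ![k, lj, pi], ![l, qj, ki], ?_, rfl, rfl, rfl⟩
  constructor
  · exact he
  · intro u v huv
    fin_cases u <;> fin_cases v
    · rfl
    · exact absurd huv haj
    · exact absurd huv hai
    · exact absurd huv (Ne.symm haj)
    · rfl
    · exact absurd huv (Ne.symm hij)
    · exact absurd huv (Ne.symm hai)
    · exact absurd huv hij
    · rfl
  · intro u
    fin_cases u
    · exact hm
    · exact hey
    · exact hei
  · intro x hx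
    rcases hall x hx with h | h | h
    · exact ⟨0, h⟩
    · exact ⟨1, h⟩
    · exact ⟨2, h⟩
  · intro u
    fin_cases u
    · exact hk
    · exact hlj
    · exact hpi
  · intro u
    fin_cases u
    · exact hl
    · exact hqj
    · exact hki
  · intro u
    fin_cases u
    · exact lk
    · exact lj1
    · exact li2
  · intro u
    fin_cases u
    · exact ll
    · exact lj2
    · exact li1
  · intro u
    fin_cases u
    · exact hkl
    · exact hql
    · exact hpk
  · intro u
    fin_cases u
    · exact hp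
    · exact gj
    · change 0 < inner ℝ (D.ν i pi) (D.ν i ki)
      rw [real_inner_comm]; exact gi
  · intro u
    fin_cases u
    · exact nlj
    · change D.ν i pi = - D.ν y qj
      rw [nqj, neg_neg]
    · change D.ν a k = - D.ν i ki
      rw [nki, neg_neg]
  · intro u
    fin_cases u
    · exact ke
    · exact lje
    · exact pie
  · intro u
    fin_cases u
    · exact le
    · exact qe
    · exact kie

end Pool.TC
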