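import Pool.Agent.W_0c5e58_h61.LBasic

/-!
# Counting the bodies around a point `e ≠ 0` by volumes

`D.S e i` is the cone of body `i` localised at `e`.  At most two faces of a body pass through
`e ≠ 0` (`span3`), so `D.S e i` is a space, a half space or a wedge; by `gram_nn` the wedge has
angle `≥ π/2`, and `> π/2` if the inner product of the two normals is `> 0`.
-/

open MeasureTheory Metric Set Filter
open scoped Topology

namespace Pool.TC

variable {I Φ : Type}

/-! ### Auxiliary facts -/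

theorem LVol_pos : 0 < volume.real (ball (0 : E3) 1) := by
  rw [Measure.real]
  exact ENNReal.toReal_pos (measure_ball_pos _ _ one_pos).ne' measure_ball_lt_top.ne

theorem LVol_fin {s : Set E3} (h : s ⊆ ball (0 : E3) 1) : volume s ≠ ⊤ :=
  ne_top_of_le_ne_top measure_ball_lt_top.ne (measure_mono h)

theorem LVol_mono {s t : Set E3} (h : s ⊆ t) (ht : t ⊆ ball (0 : E3) 1) :
    volume.real s ≤ volume.real t :=
  measureReal_mono h (LVol_fin ht)

theorem LVol_inv (e : E3 ≃ₗᵢ[ℝ] E3) {s t : Set E3} (ht : MeasurableSet t)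
    (htb : t ⊆ ball (0 : E3) 1) (h : ∀ v ∈ s, e v ∈ t) : volume.real s ≤ volume.real t := by
  have h1 : volume (e ⁻¹' t) = volume t :=
    e.measurePreserving.measure_preimage ht.nullMeasurableSet
  rw [Measure.real, Measure.real, ← h1]
  refine ENNReal.toReal_mono ?_ (measure_mono h)
  rw [h1]
  exact LVol_fin htb

theorem LVol_null {m : E3} (hm : m ≠ 0) : volume {v : E3 | inner ℝ m v = 0} = 0 := by
  have h1 : {v : E3 | inner ℝ m v = 0} = ((Submodule.span ℝ {m})ᗮ : Submodule ℝ E3) := by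
    ext v
    simp only [Set.mem_ofPred_eq, SetLike.mem_coe, Submodule.mem_orthogonal_singleton_iff_inner_right]
  rw [h1]
  refine Measure.addHaar_submodule _ _ ?_
  intro h
  have h2 : m ∈ ((Submodule.span ℝ {m})ᗮ : Submodule ℝ E3) := by rw [h]; trivial
  rw [Submodule.mem_orthogonal_singleton_iff_inner_right] at h2
  exact hm (inner_self_eq_zero.1 h2)

theorem LVol_mle (m : E3) : MeasurableSet {v : E3 | inner ℝ m v ≤ 0} :=
  (isClosed_le (by fun_prop) continuous_const).measurableSet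

theorem LVol_m2 (m₁ m₂ : E3) :
    MeasurableSet {v ∈ ball (0 : E3) 1 | inner ℝ m₁ v ≤ 0 ∧ inner ℝ m₂ v ≤ 0} :=
  measurableSet_ball.inter ((LVol_mle m₁).inter (LVol_mle m₂))

theorem LVol_half {m : E3} :
    volume.real (ball (0 : E3) 1) / 2 ≤
      volume.real {v ∈ ball (0 : E3) 1 | inner ℝ m v ≤ 0} := by
  have h1 : volume.real {v ∈ ball (0 : E3) 1 | 0 ≤ inner ℝ m v} ≤
      volume.real {v ∈ ball (0 : E3) 1 | inner ℝ m v ≤ 0} := by
    refine LVol_inv (LinearIsometryEquiv.neg ℝ) (measurableSet_ball.inter (LVol_mle m))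
      (fun v hv => hv.1) ?_
    rintro v ⟨h1, h2⟩
    refine ⟨?_, ?_⟩
    · rw [mem_ball_zero_iff, LinearIsometryEquiv.norm_map]
      exact mem_ball_zero_iff.1 h1
    · rw [LinearIsometryEquiv.coe_neg, inner_neg_right]
      linarith
  have h2 : volume.real (ball (0 : E3) 1) ≤
      volume.real {v ∈ ball (0 : E3) 1 | 0 ≤ inner ℝ m v} +
        volume.real {v ∈ ball (0 : E3) 1 | inner ℝ m v ≤ 0} := by
    refine le_trans (measureReal_mono (?_ : _ ⊆ {v ∈ ball (0 : E3) 1 | 0 ≤ inner ℝ m v} ∪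
      {v ∈ ball (0 : E3) 1 | inner ℝ m v ≤ 0}) ?_) (measureReal_union_le _ _)
    · intro v hv
      rcases le_total 0 (inner ℝ m v) with h | h
      · exact Or.inl ⟨hv, h⟩
      · exact Or.inr ⟨hv, h⟩
    · exact LVol_fin (union_subset (fun v hv => hv.1) (fun v hv => hv.1))
  linarith

theorem LVol_half_eq {m : E3} (hm : m ≠ 0) :
    volume.real {v ∈ ball (0 : E3) 1 | 0 ≤ inner ℝ m v} ≤
      volume.real (ball (0 : E3) 1) / 2 := by
  have m1 : MeasurableSet {v ∈ ball (0 : E3) 1 | inner ℝ m v < 0} :=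
    measurableSet_ball.inter (isOpen_lt (f := fun v : E3 => inner ℝ m v) (g := fun _ => (0 : ℝ))
      (by fun_prop) continuous_const).measurableSet
  have h1 : volume.real {v ∈ ball (0 : E3) 1 | 0 < inner ℝ m v} ≤
      volume.real {v ∈ ball (0 : E3) 1 | inner ℝ m v < 0} := by
    refine LVol_inv (LinearIsometryEquiv.neg ℝ) m1 (fun v hv => hv.1) ?_
    rintro v ⟨h1, h2⟩
    refine ⟨?_, ?_⟩
    · rw [mem_ball_zero_iff, LinearIsometryEquiv.norm_map]
      exact mem_ball_zero_iff.1 h1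
    · rw [LinearIsometryEquiv.coe_neg, inner_neg_right]
      linarith
  have h2 : volume.real {v ∈ ball (0 : E3) 1 | 0 ≤ inner ℝ m v} ≤
      volume.real {v ∈ ball (0 : E3) 1 | 0 < inner ℝ m v} := by
    have h3 : volume.real {v ∈ ball (0 : E3) 1 | 0 ≤ inner ℝ m v} ≤
        volume.real {v ∈ ball (0 : E3) 1 | 0 < inner ℝ m v} +
          volume.real {v ∈ ball (0 : E3) 1 | inner ℝ m v = 0} := by
      refine le_trans (measureReal_mono (?_ : _ ⊆ {v ∈ ball (0 : E3) 1 | 0 < inner ℝ m v} ∪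
        {v ∈ ball (0 : E3) 1 | inner ℝ m v = 0}) ?_) (measureReal_union_le _ _)
      · rintro v ⟨hv, h⟩
        rcases h.lt_or_eq with h | h
        · exact Or.inl ⟨hv, h⟩
        · exact Or.inr ⟨hv, h.symm⟩
      · exact LVol_fin (union_subset (fun v hv => hv.1) (fun v hv => hv.1))
    have h4 : volume.real {v ∈ ball (0 : E3) 1 | inner ℝ m v = 0} = 0 := by
      rw [Measure.real, measure_mono_null (fun v hv => hv.2) (LVol_null hm)]
      rfl
    linarith
  have h5 : volume.real {v ∈ ball (0 : E3) 1 | 0 < inner ℝ m v} +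
      volume.real {v ∈ ball (0 : E3) 1 | inner ℝ m v < 0} ≤ volume.real (ball (0 : E3) 1) := by
    rw [← measureReal_union (Set.disjoint_left.2 fun v h1 h2 => absurd h1.2 (not_lt.2 h2.2.le)) m1
      (LVol_fin fun v hv => hv.1) (LVol_fin fun v hv => hv.1)]
    exact LVol_mono (union_subset (fun v hv => hv.1) (fun v hv => hv.1)) subset_rfl
  linarith

/-- The reflection. -/
noncomputable def LVolRefl (m : E3) (hm : ‖m‖ = 1) : E3 ≃ₗᵢ[ℝ] E3 where
  toFun v := v - (2 * inner ℝ m v) • m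
  invFun v := v - (2 * inner ℝ m v) • m
  map_add' u v := by
    rw [inner_add_right, mul_add, add_smul]
    abel
  map_smul' c v := by
    simp only [inner_smul_right, RingHom.id_apply, smul_sub, smul_smul]
    congr 2
    ring
  left_inv v := by
    have h : inner ℝ m m = 1 := by rw [real_inner_self_eq_norm_sq, hm]; norm_num
    show v - (2 * inner ℝ m v) • m - (2 * inner ℝ m (v - (2 * inner ℝ m v) • m)) • m = v
    rw [inner_sub_right, inner_smul_right, h]
    have h2 : 2 * (inner ℝ m v - 2 * inner ℝ m v * 1) = -(2 * inner ℝ m v) := by ring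
    rw [h2, neg_smul]
    abel
  right_inv v := by
    have h : inner ℝ m m = 1 := by rw [real_inner_self_eq_norm_sq, hm]; norm_num
    show v - (2 * inner ℝ m v) • m - (2 * inner ℝ m (v - (2 * inner ℝ m v) • m)) • m = v
    rw [inner_sub_right, inner_smul_right, h]
    have h2 : 2 * (inner ℝ m v - 2 * inner ℝ m v * 1) = -(2 * inner ℝ m v) := by ring
    rw [h2, neg_smul]
    abel
  norm_map' v := by
    have h : inner ℝ m m = 1 := by rw [real_inner_self_eq_norm_sq, hm]; norm_num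
    show ‖v - (2 * inner ℝ m v) • m‖ = ‖v‖
    rw [← sq_eq_sq₀ (norm_nonneg _) (norm_nonneg _), norm_sub_sq_real, inner_smul_right,
      norm_smul, hm, real_inner_comm, Real.norm_eq_abs, mul_one, sq_abs]
    ring

theorem LVolRefl_apply (m : E3) (hm : ‖m‖ = 1) (v : E3) :
    LVolRefl m hm v = v - (2 * inner ℝ m v) • m := rfl

theorem LVolRefl_inner (m : E3) (hm : ‖m‖ = 1) (v : E3) :
    inner ℝ m (LVolRefl m hm v) = - inner ℝ m v := by
  have h : inner ℝ m m = 1 := by rw [real_inner_self_eq_norm_sq, hm]; norm_num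
  rw [LVolRefl_apply, inner_sub_right, inner_smul_right, h]
  ring

theorem LVolRefl_inner2 (m n : E3) (hm : ‖m‖ = 1) (v : E3) :
    inner ℝ n (LVolRefl m hm v) = inner ℝ n v - 2 * inner ℝ m n * inner ℝ m v := by
  rw [LVolRefl_apply, inner_sub_right, inner_smul_right, real_inner_comm m n]
  ring

theorem LVol_split {m₁ m₂ : E3} :
    volume.real (ball (0 : E3) 1) / 2 ≤
      volume.real {v ∈ ball (0 : E3) 1 | inner ℝ m₁ v ≤ 0 ∧ inner ℝ m₂ v ≤ 0} +
        volume.real {v ∈ ball (0 : E3) 1 | 0 ≤ inner ℝ m₁ v ∧ inner ℝ m₂ v ≤ 0} := by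
  refine (LVol_half (m := m₂)).trans (le_trans (measureReal_mono (?_ : _ ⊆
    {v ∈ ball (0 : E3) 1 | inner ℝ m₁ v ≤ 0 ∧ inner ℝ m₂ v ≤ 0} ∪
      {v ∈ ball (0 : E3) 1 | 0 ≤ inner ℝ m₁ v ∧ inner ℝ m₂ v ≤ 0}) ?_) (measureReal_union_le _ _))
  · rintro v ⟨hv, h⟩
    rcases le_total (inner ℝ m₁ v) 0 with h' | h'
    · exact Or.inl ⟨hv, h', h⟩
    · exact Or.inr ⟨hv, h', h⟩
  · exact LVol_fin (union_subset (fun v hv => hv.1) (fun v hv => hv.1))

theorem LVol_S_closed (D : Loc I Φ) (e : E3) (i : I) : IsClosed (D.S e i) := by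
  have h : D.S e i = ⋂ f ∈ D.A i, ⋂ (_ : inner ℝ (D.ν i f) e = 0), {v | inner ℝ (D.ν i f) v ≤ 0} := by
    ext v
    simp only [Loc.S, Set.mem_ofPred_eq, mem_iInter]
  rw [h]
  exact isClosed_biInter fun f _ => isClosed_iInter fun _ =>
    isClosed_le (by fun_prop) continuous_const

theorem LVol_S_smul (D : Loc I Φ) {e : E3} {i : I} {v : E3} {s : ℝ} (hs : 0 < s) :
    s • v ∈ D.S e i ↔ v ∈ D.S e i := by
  have h : ∀ f, inner ℝ (D.ν i f) (s • v) ≤ 0 ↔ inner ℝ (D.ν i f) v ≤ 0 := by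
    intro f
    rw [inner_smul_right]
    exact ⟨fun h => by by_contra hc; push Not at hc; exact absurd h (not_le.2 (mul_pos hs hc)),
      fun h => mul_nonpos_of_nonneg_of_nonpos hs.le h⟩
  simp only [Loc.S, Set.mem_ofPred_eq, h]

theorem LVol_sub2 (D : Loc I Φ) {e : E3} (he : e ≠ 0) {x : I} {k l : Φ} (hk : k ∈ D.A x)
    (hl : l ∈ D.A x) (hkl : k ≠ l) (ke : inner ℝ (D.ν x k) e = 0)
    (le : inner ℝ (D.ν x l) e = 0) :
    {v ∈ ball (0 : E3) 1 | inner ℝ (D.ν x k) v ≤ 0 ∧ inner ℝ (D.ν x l) v ≤ 0} ⊆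
      ball (0 : E3) 1 ∩ D.S e x := by
  rintro v ⟨hv, h1, h2⟩
  refine ⟨hv, fun f hf hfe => ?_⟩
  by_cases hfk : f = k
  · rw [hfk]; exact h1
  by_cases hfl : f = l
  · rw [hfl]; exact h2
  exact absurd (D.span3 hf hk hl hfk hfl hkl hfe ke le) he

theorem LVol_mS (D : Loc I Φ) (e : E3) (i : I) : MeasurableSet (ball (0 : E3) 1 ∩ D.S e i) :=
  measurableSet_ball.inter (LVol_S_closed D e i).measurableSet

/-- A wedge with angle `≥ π/2` takes at least a quarter of the unit ball.  Proof: the half space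
`{inner m₂ v ≤ 0}` takes half of the ball (`v ↦ -v` preserves volume; the plane is a null set).
It is the union of `S = {m₁ ≤ 0, m₂ ≤ 0}` and `S' = {0 ≤ m₁, m₂ ≤ 0}`.  The reflection
`v ↦ v - 2 (inner m₁ v) m₁` preserves volume and the ball and maps `S'` into `S`, because
`m₂(v*) = m₂ v - 2 (inner m₁ m₂) (m₁ v) ≤ m₂ v ≤ 0` and `m₁(v*) = - m₁ v ≤ 0`.  So
`vol S ≥ vol S'` and `vol S ≥ 1/4`. -/
theorem quarter {m₁ m₂ : E3} (h1 : ‖m₁‖ = 1) (h2 : ‖m₂‖ = 1) (h : 0 ≤ inner ℝ m₁ m₂) :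
    volume.real (ball (0 : E3) 1) / 4 ≤
      volume.real {v ∈ ball (0 : E3) 1 | inner ℝ m₁ v ≤ 0 ∧ inner ℝ m₂ v ≤ 0} := by
  have h3 := LVol_split (m₁ := m₁) (m₂ := m₂)
  have h4 : volume.real {v ∈ ball (0 : E3) 1 | 0 ≤ inner ℝ m₁ v ∧ inner ℝ m₂ v ≤ 0} ≤
      volume.real {v ∈ ball (0 : E3) 1 | inner ℝ m₁ v ≤ 0 ∧ inner ℝ m₂ v ≤ 0} := by
    refine LVol_inv (LVolRefl m₁ h1) (LVol_m2 m₁ m₂) (fun v hv => hv.1) ?_
    rintro v ⟨hv, p, q⟩
    refine ⟨?_, ?_, ?_⟩
    · rw [mem_ball_zero_iff, LinearIsometryEquiv.norm_map]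
      exact mem_ball_zero_iff.1 hv
    · rw [LVolRefl_inner]; linarith
    · rw [LVolRefl_inner2]
      have := mul_nonneg h p
      nlinarith
  linarith

/-- Strictly more if the inner product is positive: with `g = inner m₁ m₂ > 0` the points of
`S` with `m₂ v - 2 g (m₁ v) > 0` are not images of `S'`; `{v ∈ ball | m₁ v < 0, m₂ v < 0,
m₂ v - 2 g m₁ v > 0}` is open and nonempty (a small multiple of `- m₁`), so it has positive
volume. -/
theorem quarter_lt {m₁ m₂ : E3} (h1 : ‖m₁‖ = 1) (h2 : ‖m₂‖ = 1) (h : 0 < inner ℝ m₁ m₂) :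
    volume.real (ball (0 : E3) 1) / 4 <
      volume.real {v ∈ ball (0 : E3) 1 | inner ℝ m₁ v ≤ 0 ∧ inner ℝ m₂ v ≤ 0} := by
  have h3 := LVol_split (m₁ := m₁) (m₂ := m₂)
  set R : Set E3 := ball (0 : E3) 1 ∩ ({v | inner ℝ m₁ v < 0} ∩ ({v | inner ℝ m₂ v < 0} ∩
    {v | 0 < inner ℝ m₂ v - 2 * inner ℝ m₁ m₂ * inner ℝ m₁ v})) with hR
  have hRo : IsOpen R := isOpen_ball.inter ((isOpen_lt (by fun_prop) continuous_const).inter
    ((isOpen_lt (by fun_prop) continuous_const).inter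
      (isOpen_lt continuous_const (by fun_prop))))
  have hRn : R.Nonempty := by
    have h5 : inner ℝ m₁ m₁ = 1 := by rw [real_inner_self_eq_norm_sq, h1]; norm_num
    have h6 : inner ℝ m₂ m₁ = inner ℝ m₁ m₂ := real_inner_comm _ _
    refine ⟨(-(1 / 2 : ℝ)) • m₁, ?_, ?_, ?_, ?_⟩
    · rw [mem_ball_zero_iff, norm_smul, h1]; norm_num
    · show inner ℝ m₁ ((-(1 / 2 : ℝ)) • m₁) < 0
      rw [inner_smul_right, h5]; norm_num
    · show inner ℝ m₂ ((-(1 / 2 : ℝ)) • m₁) < 0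
      rw [inner_smul_right, h6]; linarith
    · show 0 < inner ℝ m₂ ((-(1 / 2 : ℝ)) • m₁) - 2 * inner ℝ m₁ m₂ *
        inner ℝ m₁ ((-(1 / 2 : ℝ)) • m₁)
      rw [inner_smul_right, inner_smul_right, h5, h6]; linarith
  have hRp : 0 < volume.real R := by
    rw [Measure.real]
    exact ENNReal.toReal_pos (hRo.measure_pos volume hRn).ne' (LVol_fin fun v hv => hv.1)
  have hRs : R ⊆ {v ∈ ball (0 : E3) 1 | inner ℝ m₁ v ≤ 0 ∧ inner ℝ m₂ v ≤ 0} := by
    rintro v ⟨a, b, c, -⟩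
    exact ⟨a, (show inner ℝ m₁ v < 0 from b).le, (show inner ℝ m₂ v < 0 from c).le⟩
  have h4 : volume.real {v ∈ ball (0 : E3) 1 | 0 ≤ inner ℝ m₁ v ∧ inner ℝ m₂ v ≤ 0} ≤
      volume.real ({v ∈ ball (0 : E3) 1 | inner ℝ m₁ v ≤ 0 ∧ inner ℝ m₂ v ≤ 0} \ R) := by
    refine LVol_inv (LVolRefl m₁ h1) ((LVol_m2 m₁ m₂).diff hRo.measurableSet)
      (fun v hv => hv.1.1) ?_
    rintro v ⟨hv, p, q⟩
    refine ⟨⟨?_, ?_, ?_⟩, ?_⟩
    · rw [mem_ball_zero_iff, LinearIsometryEquiv.norm_map]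
      exact mem_ball_zero_iff.1 hv
    · rw [LVolRefl_inner]; linarith
    · rw [LVolRefl_inner2]
      have := mul_nonneg h.le p
      nlinarith
    · rintro ⟨-, -, -, h7⟩
      have h8 : 0 < inner ℝ m₂ (LVolRefl m₁ h1 v) - 2 * inner ℝ m₁ m₂ *
        inner ℝ m₁ (LVolRefl m₁ h1 v) := h7
      rw [LVolRefl_inner, LVolRefl_inner2] at h8
      nlinarith
  have h9 : volume.real ({v ∈ ball (0 : E3) 1 | inner ℝ m₁ v ≤ 0 ∧ inner ℝ m₂ v ≤ 0} \ R) =
      volume.real {v ∈ ball (0 : E3) 1 | inner ℝ m₁ v ≤ 0 ∧ inner ℝ m₂ v ≤ 0} -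
        volume.real R :=
    measureReal_sdiff hRs hRo.measurableSet (LVol_fin fun v hv => hv.1)
  linarith

/-- A half space takes at least half of the ball. -/
theorem half_le {m : E3} :
    volume.real (ball (0 : E3) 1) / 2 ≤
      volume.real {v ∈ ball (0 : E3) 1 | inner ℝ m v ≤ 0} := by
  exact LVol_half

/-- Every body containing `e ≠ 0` takes, localised at `e`, at least a quarter of the ball:
at most two faces pass through `e` by `span3` (zero faces: the ball; one: `half_le`; two: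
`quarter` with `gram_nn`). -/
theorem Loc.S_quarter (D : Loc I Φ) {e : E3} (he : e ≠ 0) {x : I} (hx : e ∈ D.T x) :
    volume.real (ball (0 : E3) 1) / 4 ≤ volume.real (ball (0 : E3) 1 ∩ D.S e x) := by
  by_cases h : ∃ k ∈ D.A x, ∃ l ∈ D.A x, k ≠ l ∧ inner ℝ (D.ν x k) e = 0 ∧
      inner ℝ (D.ν x l) e = 0
  · obtain ⟨k, hk, l, hl, hkl, ke, le'⟩ := h
    exact (quarter (D.unit x k) (D.unit x l) (D.gram_nn hk hl hkl)).trans
      (LVol_mono (LVol_sub2 D he hk hl hkl ke le') inter_subset_left)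
  · have h1 : volume.real (ball (0 : E3) 1) / 2 ≤ volume.real (ball (0 : E3) 1 ∩ D.S e x) := by
      by_cases h2 : ∃ k ∈ D.A x, inner ℝ (D.ν x k) e = 0
      · obtain ⟨k, hk, ke⟩ := h2
        refine (LVol_half (m := D.ν x k)).trans (LVol_mono ?_ inter_subset_left)
        rintro v ⟨hv, hv'⟩
        refine ⟨hv, fun f hf hfe => ?_⟩
        by_cases hfk : f = k
        · rw [hfk]; exact hv'
        · exact absurd ⟨f, hf, k, hk, hfk, hfe, ke⟩ h
      · have h3 : ball (0 : E3) 1 ⊆ ball (0 : E3) 1 ∩ D.S e x := fun v hv =>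
          ⟨hv, fun f hf hfe => absurd ⟨f, hf, hfe⟩ h2⟩
        have h4 := LVol_mono h3 inter_subset_left
        have h5 := LVol_pos
        linarith
    have h5 := LVol_pos
    linarith

theorem Loc.S_quarter_lt (D : Loc I Φ) {e : E3} (he : e ≠ 0) {x : I} (hx : e ∈ D.T x)
    {k l : Φ} (hk : k ∈ D.A x) (hl : l ∈ D.A x) (hkl : k ≠ l)
    (ke : inner ℝ (D.ν x k) e = 0) (le : inner ℝ (D.ν x l) e = 0)
    (hp : 0 < inner ℝ (D.ν x k) (D.ν x l)) :
    volume.real (ball (0 : E3) 1) / 4 < volume.real (ball (0 : E3) 1 ∩ D.S e x) := by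
  exact (quarter_lt (D.unit x k) (D.unit x l) hp).trans_le
    (LVol_mono (LVol_sub2 D he hk hl hkl ke le) inter_subset_left)

theorem Loc.S_half (D : Loc I Φ) {e : E3} {x : I}
    (h : ∀ k ∈ D.A x, ∀ l ∈ D.A x, inner ℝ (D.ν x k) e = 0 → inner ℝ (D.ν x l) e = 0 → k = l) :
    volume.real (ball (0 : E3) 1) / 2 ≤ volume.real (ball (0 : E3) 1 ∩ D.S e x) := by
  by_cases h2 : ∃ k ∈ D.A x, inner ℝ (D.ν x k) e = 0
  · obtain ⟨k, hk, ke⟩ := h2
    refine (LVol_half (m := D.ν x k)).trans (LVol_mono ?_ inter_subset_left)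
    rintro v ⟨hv, hv'⟩
    refine ⟨hv, fun f hf hfe => ?_⟩
    rw [h f hf k hk hfe ke]
    exact hv'
  · have h3 : ball (0 : E3) 1 ⊆ ball (0 : E3) 1 ∩ D.S e x := fun v hv =>
      ⟨hv, fun f hf hfe => absurd ⟨f, hf, hfe⟩ h2⟩
    have h4 := LVol_mono h3 inter_subset_left
    have h5 := LVol_pos
    linarith

/-- The localised cones of two bodies containing `e` overlap in a null set: by `loc_disj` a common
point lies in one of the finitely many planes `{v | inner (ν x f) v = 0}`. -/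
theorem Loc.S_disj (D : Loc I Φ) {e : E3} {x y : I} (h : x ≠ y) (hx : e ∈ D.T x)
    (hy : e ∈ D.T y) : volume (D.S e x ∩ D.S e y) = 0 := by
  have h0 : ∀ i f, D.ν i f ≠ 0 := fun i f h => by
    have := D.unit i f
    rw [h, norm_zero] at this
    exact zero_ne_one this
  have h1 : ∀ i, volume (⋃ f ∈ D.A i, {v : E3 | inner ℝ (D.ν i f) v = 0}) = 0 := fun i =>
    (measure_biUnion_null_iff (Finset.countable_toSet (D.A i))).2 fun f _ => LVol_null (h0 i f)
  refine measure_mono_null (t := (⋃ f ∈ D.A x, {v : E3 | inner ℝ (D.ν x f) v = 0}) ∪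
    (⋃ f ∈ D.A y, {v : E3 | inner ℝ (D.ν y f) v = 0})) ?_ (measure_union_null (h1 x) (h1 y))
  rintro v ⟨hvx, hvy⟩
  by_contra hcon
  rw [mem_union, not_or] at hcon
  obtain ⟨c1, c2⟩ := hcon
  refine D.loc_disj h hx hy v (fun f hf hfe => ?_) (fun f hf hfe => ?_)
  · refine lt_of_le_of_ne (hvx f hf hfe) (fun h3 => c1 ?_)
    exact mem_iUnion₂.2 ⟨f, hf, h3⟩
  · refine lt_of_le_of_ne (hvy f hf hfe) (fun h3 => c2 ?_)
    exact mem_iUnion₂.2 ⟨f, hf, h3⟩

/-- So volumes add up to at most the volume of the ball. -/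
theorem Loc.S_sum (D : Loc I Φ) {e : E3} (s : Finset I) (hs : ∀ x ∈ s, e ∈ D.T x) :
    ∑ x ∈ s, volume.real (ball (0 : E3) 1 ∩ D.S e x) ≤ volume.real (ball (0 : E3) 1) := by
  have h1 : volume (⋃ x ∈ s, (ball (0 : E3) 1 ∩ D.S e x)) =
      ∑ x ∈ s, volume (ball (0 : E3) 1 ∩ D.S e x) := by
    refine measure_biUnion_finset₀ ?_ (fun x _ => (LVol_mS D e x).nullMeasurableSet)
    intro x hx y hy hxy
    exact measure_mono_null (show (ball (0 : E3) 1 ∩ D.S e x) ∩ (ball (0 : E3) 1 ∩ D.S e y) ⊆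
      D.S e x ∩ D.S e y from fun v hv => ⟨hv.1.2, hv.2.2⟩) (D.S_disj hxy (hs x hx) (hs y hy))
  have h2 : ∑ x ∈ s, volume (ball (0 : E3) 1 ∩ D.S e x) ≤ volume (ball (0 : E3) 1) := by
    rw [← h1]
    exact measure_mono (iUnion₂_subset fun x _ => inter_subset_left)
  have h3 : ∑ x ∈ s, volume.real (ball (0 : E3) 1 ∩ D.S e x) =
      (∑ x ∈ s, volume (ball (0 : E3) 1 ∩ D.S e x)).toReal := by
    rw [ENNReal.toReal_sum (fun x _ => LVol_fin inter_subset_left)]
    rfl
  rw [h3]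
  exact ENNReal.toReal_mono measure_ball_lt_top.ne h2

/-- Five different bodies cannot contain `e ≠ 0` (`5/4 > 1`). -/
theorem Loc.five (D : Loc I Φ) {e : E3} (he : e ≠ 0) (x : Fin 5 → I)
    (hx : Function.Injective x) (hm : ∀ i, e ∈ D.T (x i)) : False := by
  have h1 := D.S_sum (e := e) (Finset.univ.map ⟨x, hx⟩) (by
    intro y hy
    obtain ⟨i, -, rfl⟩ := Finset.mem_map.1 hy
    exact hm i)
  rw [Finset.sum_map] at h1
  have h2 : ∀ i, volume.real (ball (0 : E3) 1) / 4 ≤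
    volume.real (ball (0 : E3) 1 ∩ D.S e (x i)) := fun i => D.S_quarter he (hm i)
  have h3 : ∑ _i : Fin 5, volume.real (ball (0 : E3) 1) / 4 ≤
      ∑ i : Fin 5, volume.real (ball (0 : E3) 1 ∩ D.S e (x i)) :=
    Finset.sum_le_sum fun i _ => h2 i
  have h4 := h3.trans h1
  rw [Finset.sum_const, Finset.card_univ, Fintype.card_fin] at h4
  have h5 := LVol_pos
  simp only [nsmul_eq_mul] at h4
  push_cast at h4
  linarith

/-- Four different bodies containing `e ≠ 0`: none has an obtuse pair of faces through `e`. -/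
theorem Loc.count4 (D : Loc I Φ) {e : E3} (he : e ≠ 0) (x : Fin 4 → I)
    (hx : Function.Injective x) (hm : ∀ i, e ∈ D.T (x i)) {k l : Φ} (hk : k ∈ D.A (x 0))
    (hl : l ∈ D.A (x 0)) (hkl : k ≠ l)
    (ke : inner ℝ (D.ν (x 0) k) e = 0) (le : inner ℝ (D.ν (x 0) l) e = 0)
    (hp : 0 < inner ℝ (D.ν (x 0) k) (D.ν (x 0) l)) : False := by
  have h1 := D.S_sum (e := e) (Finset.univ.map ⟨x, hx⟩) (by
    intro y hy
    obtain ⟨i, -, rfl⟩ := Finset.mem_map.1 hy
    exact hm i)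
  rw [Finset.sum_map, Fin.sum_univ_four] at h1
  simp only [Function.Embedding.coeFn_mk] at h1
  have h0 := D.S_quarter_lt he (hm 0) hk hl hkl ke le hp
  have h2 := D.S_quarter he (hm 1)
  have h3 := D.S_quarter he (hm 2)
  have h4 := D.S_quarter he (hm 3)
  linarith

/-- Three different bodies containing `e ≠ 0`, the first with an obtuse pair through `e`: then the
second has two different faces through `e` (else the volumes are `> 1/4`, `≥ 1/2`, `≥ 1/4`). -/
theorem Loc.half3 (D : Loc I Φ) {e : E3} (he : e ≠ 0) (x : Fin 3 → I)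
    (hx : Function.Injective x) (hm : ∀ i, e ∈ D.T (x i)) {k l : Φ} (hk : k ∈ D.A (x 0))
    (hl : l ∈ D.A (x 0)) (hkl : k ≠ l)
    (ke : inner ℝ (D.ν (x 0) k) e = 0) (le : inner ℝ (D.ν (x 0) l) e = 0)
    (hp : 0 < inner ℝ (D.ν (x 0) k) (D.ν (x 0) l)) :
    ∀ k' ∈ D.A (x 1), inner ℝ (D.ν (x 1) k') e = 0 →
      ∃ l' ∈ D.A (x 1), l' ≠ k' ∧ inner ℝ (D.ν (x 1) l') e = 0 := by
  intro k' hk' ke'
  by_contra hcon
  push Not at hcon
  have h1 := D.S_sum (e := e) (Finset.univ.map ⟨x, hx⟩) (by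
    intro y hy
    obtain ⟨i, -, rfl⟩ := Finset.mem_map.1 hy
    exact hm i)
  rw [Finset.sum_map, Fin.sum_univ_three] at h1
  simp only [Function.Embedding.coeFn_mk] at h1
  have h0 := D.S_quarter_lt he (hm 0) hk hl hkl ke le hp
  have h2 := D.S_half (e := e) (x := x 1) (by
    intro a ha b hb ea eb
    have e1 : a = k' := by
      by_contra hne
      exact hcon a ha hne ea
    have e2 : b = k' := by
      by_contra hne
      exact hcon b hb hne eb
    rw [e1, e2])
  have h3 := D.S_quarter he (hm 2)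
  linarith

/-- Two different bodies `x, y ∋ e` whose localised cones lie in the half space `0 ≤ m` fill it:
both take a quarter of the ball, together half of it; if a point `v` with `0 ≤ m v` is in neither
(closed) localised cone, then near it there is an open set of points with `0 < m` outside both
(scale into the ball, the localised cones are cones), so the half ball would have volume
`> 1/2`. Here `m ≠ 0`. -/
theorem Loc.two_half (D : Loc I Φ) {e : E3} (he : e ≠ 0) {x y : I} (hxy : x ≠ y)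
    (hx : e ∈ D.T x) (hy : e ∈ D.T y) {m : E3} (hm : m ≠ 0)
    (h1 : ∀ v ∈ D.S e x, 0 ≤ inner ℝ m v) (h2 : ∀ v ∈ D.S e y, 0 ≤ inner ℝ m v)
    {v : E3} (hv : 0 ≤ inner ℝ m v) : v ∈ D.S e x ∨ v ∈ D.S e y := by
  by_contra hcon
  rw [not_or] at hcon
  obtain ⟨c1, c2⟩ := hcon
  -- the open set
  set U : Set E3 := ball (0 : E3) 1 ∩ ({w | 0 < inner ℝ m w} ∩ ((D.S e x)ᶜ ∩ (D.S e y)ᶜ)) with hU
  have hUo : IsOpen U := isOpen_ball.inter ((isOpen_lt continuous_const (by fun_prop)).inter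
    ((LVol_S_closed D e x).isOpen_compl.inter (LVol_S_closed D e y).isOpen_compl))
  have hUn : U.Nonempty := by
    have hO : IsOpen ((D.S e x)ᶜ ∩ (D.S e y)ᶜ) :=
      (LVol_S_closed D e x).isOpen_compl.inter (LVol_S_closed D e y).isOpen_compl
    have hcont : Tendsto (fun δ : ℝ => v + δ • m) (𝓝[>] 0) (𝓝 v) := by
      have h3 : Tendsto (fun δ : ℝ => v + δ • m) (𝓝 0) (𝓝 (v + (0 : ℝ) • m)) :=
        (Continuous.tendsto (by fun_prop) 0)
      rw [zero_smul, add_zero] at h3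
      exact h3.mono_left nhdsWithin_le_nhds
    have hev := hcont.eventually (hO.mem_nhds ⟨c1, c2⟩)
    obtain ⟨δ, hδ, hδ0⟩ := (hev.and self_mem_nhdsWithin).exists
    have hδ0' : 0 < δ := hδ0
    have hmm : 0 < inner ℝ m m := by
      rw [real_inner_self_eq_norm_sq]
      have := norm_pos_iff.2 hm
      positivity
    have hpos : 0 < inner ℝ m (v + δ • m) := by
      rw [inner_add_right, inner_smul_right]
      have := mul_pos hδ0' hmm
      linarith
    set w := v + δ • m with hw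
    have hs : 0 < 1 / (‖w‖ + 1) := by positivity
    refine ⟨(1 / (‖w‖ + 1)) • w, ?_, ?_, ?_, ?_⟩
    · rw [mem_ball_zero_iff, norm_smul, Real.norm_of_nonneg hs.le, one_div,
        inv_mul_lt_iff₀ (by positivity)]
      linarith
    · show 0 < inner ℝ m ((1 / (‖w‖ + 1)) • w)
      rw [inner_smul_right]
      exact mul_pos hs hpos
    · intro h
      exact hδ.1 ((LVol_S_smul D hs).1 h)
    · intro h
      exact hδ.2 ((LVol_S_smul D hs).1 h)
  have hUp : 0 < volume.real U := by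
    rw [Measure.real]
    exact ENNReal.toReal_pos (hUo.measure_pos volume hUn).ne' (LVol_fin fun v hv => hv.1)
  have hsum : volume.real (ball (0 : E3) 1 ∩ D.S e x) + volume.real (ball (0 : E3) 1 ∩ D.S e y) +
      volume.real U ≤ volume.real {v ∈ ball (0 : E3) 1 | 0 ≤ inner ℝ m v} := by
    have e1 : volume.real ((ball (0 : E3) 1 ∩ D.S e x) ∪ (ball (0 : E3) 1 ∩ D.S e y)) =
        volume.real (ball (0 : E3) 1 ∩ D.S e x) + volume.real (ball (0 : E3) 1 ∩ D.S e y) := by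
      refine measureReal_union₀ (LVol_mS D e y).nullMeasurableSet ?_
        (LVol_fin inter_subset_left) (LVol_fin inter_subset_left)
      exact measure_mono_null (show (ball (0 : E3) 1 ∩ D.S e x) ∩ (ball (0 : E3) 1 ∩ D.S e y) ⊆
        D.S e x ∩ D.S e y from fun v hv => ⟨hv.1.2, hv.2.2⟩) (D.S_disj hxy hx hy)
    have e2 : volume.real (((ball (0 : E3) 1 ∩ D.S e x) ∪ (ball (0 : E3) 1 ∩ D.S e y)) ∪ U) =
        volume.real ((ball (0 : E3) 1 ∩ D.S e x) ∪ (ball (0 : E3) 1 ∩ D.S e y)) +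
          volume.real U := by
      refine measureReal_union ?_ hUo.measurableSet
        (LVol_fin (union_subset inter_subset_left inter_subset_left))
        (LVol_fin fun v hv => hv.1)
      refine Set.disjoint_left.2 ?_
      rintro a (ha | ha) hb
      · exact hb.2.2.1 ha.2
      · exact hb.2.2.2 ha.2
    rw [← e1, ← e2]
    refine LVol_mono ?_ (fun v hv => hv.1)
    rintro a ((ha | ha) | ha)
    · exact ⟨ha.1, h1 a ha.2⟩
    · exact ⟨ha.1, h2 a ha.2⟩
    · exact ⟨ha.1, (show 0 < inner ℝ m a from ha.2.1).le⟩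
  have q1 := D.S_quarter he hx
  have q2 := D.S_quarter he hy
  have q3 := LVol_half_eq hm
  linarith

end Pool.TC
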