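import Pool.Agent.W_0c5e58_h61.PBox

/-!
# Deterministic core of the crossing estimate
-/

open MeasureTheory Metric Set Filter
open scoped Topology

namespace Pool.TC

/-- Each of the conditions fails for at most one of three equally spaced values. -/
theorem PCrossDet_aux1 (a b : ℝ) :
    (max |a| |b| / 2 ≤ |a + (-1) * b| ∧ max |a| |b| / 2 ≤ |a + 0 * b|) ∨
    (max |a| |b| / 2 ≤ |a + (-1) * b| ∧ max |a| |b| / 2 ≤ |a + 1 * b|) ∨
    (max |a| |b| / 2 ≤ |a + 0 * b| ∧ max |a| |b| / 2 ≤ |a + 1 * b|) := by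
  set m := max |a| |b| with hm
  have key : ¬ (|a| < m ∧ |b| < m) := fun h => lt_irrefl m (max_lt h.1 h.2)
  rcases le_or_gt (m / 2) |a + (-1) * b| with h1 | h1 <;>
  rcases le_or_gt (m / 2) |a + 0 * b| with h2 | h2 <;>
  rcases le_or_gt (m / 2) |a + 1 * b| with h3 | h3
  · exact Or.inl ⟨h1, h2⟩
  · exact Or.inl ⟨h1, h2⟩
  · exact Or.inr (Or.inl ⟨h1, h3⟩)
  · exfalso
    apply key
    have h4 := abs_lt.1 h2
    have h5 := abs_lt.1 h3
    have h6 := lt_of_le_of_lt (abs_nonneg _) h2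
    exact ⟨abs_lt.2 ⟨by linarith, by linarith⟩, abs_lt.2 ⟨by linarith, by linarith⟩⟩
  · exact Or.inr (Or.inr ⟨h2, h3⟩)
  · exfalso
    apply key
    have h4 := abs_lt.1 h1
    have h5 := abs_lt.1 h3
    have h6 := lt_of_le_of_lt (abs_nonneg _) h1
    exact ⟨abs_lt.2 ⟨by linarith, by linarith⟩, abs_lt.2 ⟨by linarith, by linarith⟩⟩
  · exfalso
    apply key
    have h4 := abs_lt.1 h1
    have h5 := abs_lt.1 h2
    have h6 := lt_of_le_of_lt (abs_nonneg _) h1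
    exact ⟨abs_lt.2 ⟨by linarith, by linarith⟩, abs_lt.2 ⟨by linarith, by linarith⟩⟩
  · exfalso
    apply key
    have h4 := abs_lt.1 h1
    have h5 := abs_lt.1 h2
    have h6 := lt_of_le_of_lt (abs_nonneg _) h1
    exact ⟨abs_lt.2 ⟨by linarith, by linarith⟩, abs_lt.2 ⟨by linarith, by linarith⟩⟩

/-- Three equally spaced values of two affine functions: if `mG = max |G₀| |G₁|`,
`mD = max |D₀| |D₁|` then for some `k ∈ {-1,0,1}` both `|G₀ + k G₁| ≥ mG/2` and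
`|D₀ + k D₁| ≥ mD/2` (each of the two conditions fails for at most one `k`, because two of the
values of an affine function that are `< m/2` in absolute value would force `|G₁| < m` and
`|G₀| < m`). -/
theorem three_points (G₀ G₁ D₀ D₁ : ℝ) : ∃ k : ℝ, (k = -1 ∨ k = 0 ∨ k = 1) ∧
    max |G₀| |G₁| / 2 ≤ |G₀ + k * G₁| ∧ max |D₀| |D₁| / 2 ≤ |D₀ + k * D₁| := by
  rcases PCrossDet_aux1 G₀ G₁ with ⟨h1, h2⟩ | ⟨h1, h2⟩ | ⟨h1, h2⟩ <;>
  rcases PCrossDet_aux1 D₀ D₁ with ⟨h3, h4⟩ | ⟨h3, h4⟩ | ⟨h3, h4⟩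
  · exact ⟨-1, Or.inl rfl, h1, h3⟩
  · exact ⟨-1, Or.inl rfl, h1, h3⟩
  · exact ⟨0, Or.inr (Or.inl rfl), h2, h3⟩
  · exact ⟨-1, Or.inl rfl, h1, h3⟩
  · exact ⟨-1, Or.inl rfl, h1, h3⟩
  · exact ⟨1, Or.inr (Or.inr rfl), h2, h4⟩
  · exact ⟨0, Or.inr (Or.inl rfl), h1, h4⟩
  · exact ⟨1, Or.inr (Or.inr rfl), h2, h4⟩
  · exact ⟨0, Or.inr (Or.inl rfl), h1, h3⟩

theorem PCrossDet_norm (e : OrthonormalBasis (Fin 3) ℝ E3) (g : E3) :
    ‖g‖ ≤ |inner ℝ (e 0) g| + |inner ℝ (e 1) g| + |inner ℝ (e 2) g| := by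
  have h1 := e.sum_repr' g
  have h2 : ‖∑ i, (inner ℝ (e i) g : ℝ) • e i‖ ≤ ∑ i, |inner ℝ (e i) g| := by
    refine (norm_sum_le _ _).trans (le_of_eq ?_)
    refine Finset.sum_congr rfl fun i _ => ?_
    rw [norm_smul, e.norm_eq_one, mul_one, Real.norm_eq_abs]
  rw [h1, Fin.sum_univ_three] at h2
  exact h2

/-- the point `q + s (e₀ + e₁)` -/
theorem PCrossDet_pt (e : OrthonormalBasis (Fin 3) ℝ E3) (q : E3) {s r : ℝ} (hs : 2 * |s| < r) :
    q + s • (e 0 + e 1) ∈ ball q r ∧ inner ℝ (e 0) (q + s • (e 0 + e 1) - q) = s ∧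
      inner ℝ (e 1) (q + s • (e 0 + e 1) - q) = s := by
  have h00 : inner ℝ (e 0) (e 0) = (1 : ℝ) := by
    rw [real_inner_self_eq_norm_sq, e.norm_eq_one, one_pow]
  have h11 : inner ℝ (e 1) (e 1) = (1 : ℝ) := by
    rw [real_inner_self_eq_norm_sq, e.norm_eq_one, one_pow]
  have h01 : inner ℝ (e 0) (e 1) = (0 : ℝ) := e.orthonormal.2 (by decide)
  have h10 : inner ℝ (e 1) (e 0) = (0 : ℝ) := e.orthonormal.2 (by decide)
  refine ⟨?_, ?_, ?_⟩
  · rw [mem_ball, dist_eq_norm, add_sub_cancel_left, norm_smul, Real.norm_eq_abs]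
    have h1 : ‖e 0 + e 1‖ ≤ 2 := by
      refine (norm_add_le _ _).trans ?_
      rw [e.norm_eq_one, e.norm_eq_one]
      norm_num
    have h2 := mul_le_mul_of_nonneg_left h1 (abs_nonneg s)
    linarith
  · rw [add_sub_cancel_left, inner_smul_right, inner_add_right, h00, h01]
    ring
  · rw [add_sub_cancel_left, inner_smul_right, inner_add_right, h10, h11]
    ring

theorem PCrossDet_core (e : OrthonormalBasis (Fin 3) ℝ E3) (q : E3) {r c v Gs Ds : ℝ}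
    {Gf Df : E3 → ℝ} (hr : 0 < r) (hc : 0 ≤ c)
    (hG : ∀ x ∈ ball q r, |Gf x - Gs| ≤ 3 / 10 * |Gs|)
    (hD : ∀ x ∈ ball q r, |Df x - Ds| ≤ 3 / 10 * |Ds|)
    (hcG : 16 * c ≤ |Gs|) (hcD : 16 * c ≤ |Ds|) (hG0 : 0 < |Gs|) (hD0 : 0 < |Ds|)
    (hGr : |Gs| ≤ r) (hDr : |Ds| ≤ r)
    (h2 : ∀ x ∈ ball q r, inner ℝ (e 0) (x - q) < 0 → inner ℝ (e 1) (x - q) < 0 →
        -Gf x < inner ℝ (e 0) (x - q) → -Df x < inner ℝ (e 1) (x - q) → False)
    (h3 : ∀ x ∈ ball q r, c < inner ℝ (e 0) (x - q) → inner ℝ (e 1) (x - q) + Df x < -c →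
        inner ℝ (e 0) (x - q) + Gf x < -c → c < inner ℝ (e 1) (x - q) → False)
    (h4 : volume.real {x ∈ ball q r | -Gf x + c < inner ℝ (e 0) (x - q) ∧
        inner ℝ (e 0) (x - q) < -c ∧ 0 < inner ℝ (e 1) (x - q) ∧
        inner ℝ (e 1) (x - q) < -Df x} ≤ v)
    (h5 : volume.real {x ∈ ball q r | 0 < inner ℝ (e 0) (x - q) ∧
        inner ℝ (e 0) (x - q) < -Gf x ∧ -Df x + c < inner ℝ (e 1) (x - q) ∧
        inner ℝ (e 1) (x - q) < -c} ≤ v) :
    |Gs| * |Ds| * r ≤ 16 * v := by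
  have n0 : ‖e 0‖ = 1 := e.norm_eq_one 0
  have n1 : ‖e 1‖ = 1 := e.norm_eq_one 1
  have n01 : inner ℝ (e 0) (e 1) = (0 : ℝ) := e.orthonormal.2 (by decide)
  have hfin : ∀ P : E3 → Prop, volume {x ∈ ball q r | P x} ≠ ⊤ := by
    intro P
    refine ne_top_of_le_ne_top measure_ball_lt_top.ne (measure_mono (?_ : _ ⊆ ball q r))
    exact fun x hx => hx.1
  rcases le_or_gt 0 Gs with hs | hs <;> rcases le_or_gt 0 Ds with ht | ht
  · -- both positive
    exfalso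
    rw [abs_of_nonneg hs] at hG hG0 hcG hGr
    rw [abs_of_nonneg ht] at hD hD0 hcD hDr
    set s : ℝ := min (r / 4) (min (Gs / 2) (Ds / 2)) with hsd
    have s1 : s ≤ r / 4 := min_le_left _ _
    have s2 : s ≤ Gs / 2 := (min_le_right _ _).trans (min_le_left _ _)
    have s3 : s ≤ Ds / 2 := (min_le_right _ _).trans (min_le_right _ _)
    have s0 : 0 < s := lt_min (by linarith) (lt_min (by linarith) (by linarith))
    have habs : 2 * |-s| < r := by
      rw [abs_neg, abs_of_pos s0]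
      linarith
    obtain ⟨p1, p2, p3⟩ := PCrossDet_pt e q habs
    have g1 := abs_le.1 (hG _ p1)
    have g2 := abs_le.1 (hD _ p1)
    refine h2 _ p1 ?_ ?_ ?_ ?_
    · rw [p2]
      linarith
    · rw [p3]
      linarith
    · rw [p2]
      linarith
    · rw [p3]
      linarith
  · -- Gs > 0, Ds < 0
    rw [abs_of_nonneg hs] at hG hG0 hcG hGr ⊢
    rw [abs_of_neg ht] at hD hD0 hcD hDr ⊢
    have w := wedge_ge n0 n1 n01 q hr (a₁ := -(Gs / 2)) (b₁ := -(Gs / 4)) (a₂ := -Ds / 4)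
      (b₂ := -Ds / 2) (by linarith) (by linarith) (by linarith) (by linarith) (by linarith)
      (by linarith)
    have hsub : {x ∈ ball q r | (-(Gs / 2) < inner ℝ (e 0) (x - q) ∧
        inner ℝ (e 0) (x - q) < -(Gs / 4)) ∧
        (-Ds / 4 < inner ℝ (e 1) (x - q) ∧ inner ℝ (e 1) (x - q) < -Ds / 2)} ⊆
        {x ∈ ball q r | -Gf x + c < inner ℝ (e 0) (x - q) ∧
        inner ℝ (e 0) (x - q) < -c ∧ 0 < inner ℝ (e 1) (x - q) ∧
        inner ℝ (e 1) (x - q) < -Df x} := by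
      rintro x ⟨hx, ⟨k1, k2⟩, k3, k4⟩
      have g1 := abs_le.1 (hG _ hx)
      have g2 := abs_le.1 (hD _ hx)
      exact ⟨hx, by linarith, by linarith, by linarith, by linarith⟩
    have h6 := (w.trans (measureReal_mono hsub (hfin _))).trans h4
    have h7 : (-(Gs / 4) - -(Gs / 2)) * (-Ds / 2 - -Ds / 4) * r = Gs * -Ds * r / 16 := by ring
    rw [h7] at h6
    linarith
  · -- Gs < 0, Ds > 0
    rw [abs_of_neg hs] at hG hG0 hcG hGr ⊢
    rw [abs_of_nonneg ht] at hD hD0 hcD hDr ⊢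
    have w := wedge_ge n0 n1 n01 q hr (a₁ := -Gs / 4) (b₁ := -Gs / 2) (a₂ := -(Ds / 2))
      (b₂ := -(Ds / 4)) (by linarith) (by linarith) (by linarith) (by linarith) (by linarith)
      (by linarith)
    have hsub : {x ∈ ball q r | (-Gs / 4 < inner ℝ (e 0) (x - q) ∧
        inner ℝ (e 0) (x - q) < -Gs / 2) ∧
        (-(Ds / 2) < inner ℝ (e 1) (x - q) ∧ inner ℝ (e 1) (x - q) < -(Ds / 4))} ⊆
        {x ∈ ball q r | 0 < inner ℝ (e 0) (x - q) ∧
        inner ℝ (e 0) (x - q) < -Gf x ∧ -Df x + c < inner ℝ (e 1) (x - q) ∧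
        inner ℝ (e 1) (x - q) < -c} := by
      rintro x ⟨hx, ⟨k1, k2⟩, k3, k4⟩
      have g1 := abs_le.1 (hG _ hx)
      have g2 := abs_le.1 (hD _ hx)
      exact ⟨hx, by linarith, by linarith, by linarith, by linarith⟩
    have h6 := (w.trans (measureReal_mono hsub (hfin _))).trans h5
    have h7 : (-Gs / 2 - -Gs / 4) * (-(Ds / 4) - -(Ds / 2)) * r = -Gs * Ds * r / 16 := by ring
    rw [h7] at h6
    linarith
  · -- both negative
    exfalso
    rw [abs_of_neg hs] at hG hG0 hcG hGr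
    rw [abs_of_neg ht] at hD hD0 hcD hDr
    set μ : ℝ := min (-Gs) (-Ds) with hμ
    have m1 : μ ≤ -Gs := min_le_left _ _
    have m2 : μ ≤ -Ds := min_le_right _ _
    have m0 : 0 < μ := lt_min (by linarith) (by linarith)
    have m3 : 16 * c ≤ μ := le_min hcG hcD
    have habs : 2 * |7 / 20 * μ| < r := by
      rw [abs_of_pos (by positivity)]
      linarith
    obtain ⟨p1, p2, p3⟩ := PCrossDet_pt e q habs
    have g1 := abs_le.1 (hG _ p1)
    have g2 := abs_le.1 (hD _ p1)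
    refine h3 _ p1 ?_ ?_ ?_ ?_
    · rw [p2]
      linarith
    · rw [p3]
      linarith
    · rw [p2]
      linarith
    · rw [p3]
      linarith

/-- **Crossing estimate, deterministic core.**  `e` orthonormal basis, `p` a point,
`y = inner (e 0) (x - p)`, `z = inner (e 1) (x - p)`, `G = G₀ + inner g (x - p)`,
`Dd = D₀ + inner δ (x - p)` small affine functions, `v ≥ 0` the void.  Geometric meaning (all up to
`C₀ v`): body `a = {y ≤ 0, z ≤ 0}`, `b = {y ≥ -G, z ≥ -Dd}`, `c = {y ≥ 0, z ≤ -Dd}`,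
`u = {y ≤ -G, z ≥ 0}`; `h2`: `a, b` do not overlap; `h3`: `c, u` do not overlap; `h4, h5`: regions
of the void.

Proof.  Put `t = σ/4`, `g₂ = inner (e 2) g`, `δ₂ = inner (e 2) δ`, `mG = max |G₀| (t |g₂|)`,
`mD = max |D₀| (t |δ₂|)`.  From `‖g‖ ≤ |g₂| + ‖g‖²/2 + C₀ v` and `‖g‖ ≤ 1`:
`‖g‖ ≤ 2 |g₂| + 2 C₀ v`, so `|G₀| + ‖g‖ ≤ A mG + 2 C₀ v`, `A = 1 + 2/t`; same for `D`.
By `three_points` there is `k` with `|G*| ≥ mG/2`, `|D*| ≥ mD/2`, where `G*, D*` are the values at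
`q = p + (k t) e₂`, `‖q - p‖ ≤ σ/4`.  Note `y = z = 0` at `q`.  Let `σ₁ = min (σ/4) (1/(8A))`,
`K = 16 (C₀ + 1)`.
If `|G*| ≤ K v` then `mG ≤ 2 K v`, `|G₀| + ‖g‖ ≤ (2AK + 2C₀) v` and the other factor is `≤ 2τ`:
done.  Same if `|D*| ≤ K v`.  Otherwise, on `ball q σ₁` the variation of `G` is at most
`σ₁ ‖g‖ ≤ σ₁ (2 A |G*| + 2 C₀ v) ≤ |G*|/4 + |G*|/32`, so `G` has the sign of `G*` and
`|G| ≥ 0.7 |G*|`; same for `Dd`.
(a) `G* > 0, D* > 0`: the point `q - s (e₀ + e₁)` with small `s > 0` contradicts `h2`.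
(b) `G* < 0, D* < 0`: the point `q + s (e₀ + e₁)` with `C₀ v < s < 0.7 min(|G*|,|D*|) - C₀ v`
    contradicts `h3` (`2 C₀ v < 0.7 K v` resp. strict by `|G*|, |D*| > K v`; `s` is small by `τ`).
(c) `G* > 0, D* < 0`: the points of `ball q σ₁` with `-G*/2 < y < -G*/4`,
    `|D*|/4 < z < |D*|/2` are in the set of `h4`; volume `≥ (G*/4) (|D*|/4) σ₁` by `wedge_ge`,
    so `|G* D*| ≤ 16 v / σ₁`.
(d) `G* < 0, D* > 0`: same with `h5`, `|G*|/4 < y < |G*|/2`, `-D*/2 < z < -D*/4`.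
In (c), (d): `mG mD ≤ 4 |G* D*| ≤ 64 v/σ₁` and the product of `A mG + 2C₀v`, `A mD + 2C₀v` is
`≤ C₁ v`. -/
theorem cross_det {σ C₀ : ℝ} (hσ : 0 < σ) (hC : 0 ≤ C₀) :
    ∃ τ > 0, ∃ C₁, 0 ≤ C₁ ∧ ∀ (e : OrthonormalBasis (Fin 3) ℝ E3) (p g δ : E3) (G₀ D₀ v : ℝ),
      0 ≤ v → v ≤ τ → |G₀| ≤ τ → |D₀| ≤ τ → ‖g‖ ≤ τ → ‖δ‖ ≤ τ →
      inner ℝ (e 0) g = - ‖g‖ ^ 2 / 2 → |inner ℝ (e 1) g| ≤ C₀ * v →
      inner ℝ (e 1) δ = - ‖δ‖ ^ 2 / 2 → |inner ℝ (e 0) δ| ≤ C₀ * v →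
      (∀ x ∈ ball p σ, inner ℝ (e 0) (x - p) < 0 → inner ℝ (e 1) (x - p) < 0 →
        -(G₀ + inner ℝ g (x - p)) < inner ℝ (e 0) (x - p) →
        -(D₀ + inner ℝ δ (x - p)) < inner ℝ (e 1) (x - p) → False) →
      (∀ x ∈ ball p σ, C₀ * v < inner ℝ (e 0) (x - p) →
        inner ℝ (e 1) (x - p) + (D₀ + inner ℝ δ (x - p)) < -(C₀ * v) →
        inner ℝ (e 0) (x - p) + (G₀ + inner ℝ g (x - p)) < -(C₀ * v) →
        C₀ * v < inner ℝ (e 1) (x - p) → False) →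
      volume.real {x ∈ ball p σ |
        -(G₀ + inner ℝ g (x - p)) + C₀ * v < inner ℝ (e 0) (x - p) ∧
        inner ℝ (e 0) (x - p) < -(C₀ * v) ∧ 0 < inner ℝ (e 1) (x - p) ∧
        inner ℝ (e 1) (x - p) < -(D₀ + inner ℝ δ (x - p))} ≤ v →
      volume.real {x ∈ ball p σ | 0 < inner ℝ (e 0) (x - p) ∧
        inner ℝ (e 0) (x - p) < -(G₀ + inner ℝ g (x - p)) ∧
        -(D₀ + inner ℝ δ (x - p)) + C₀ * v < inner ℝ (e 1) (x - p) ∧
        inner ℝ (e 1) (x - p) < -(C₀ * v)} ≤ v →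
      (|G₀| + ‖g‖) * (|D₀| + ‖δ‖) ≤ C₁ * v := by
  set t : ℝ := σ / 4 with ht
  have t0 : 0 < t := by positivity
  set A : ℝ := 1 + 2 / t with hA
  have A1 : 1 ≤ A := by
    have : 0 ≤ 2 / t := by positivity
    linarith
  set r : ℝ := min (σ / 4) (1 / (8 * A)) with hr
  have r0 : 0 < r := lt_min (by positivity) (by positivity)
  have r1 : r ≤ σ / 4 := min_le_left _ _
  have r2 : r * A ≤ 1 / 8 := by
    have h1 : r ≤ 1 / (8 * A) := min_le_right _ _
    have h2 := mul_le_mul_of_nonneg_right h1 (by linarith : (0 : ℝ) ≤ A)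
    have h3 : 1 / (8 * A) * A = 1 / 8 := by
      have : A ≠ 0 := by linarith
      field_simp
    linarith
  have r3 : r ≤ 1 / 8 := by nlinarith
  set K : ℝ := 16 * (C₀ + 1) with hK
  have K0 : 0 < K := by positivity
  refine ⟨min 1 (r / (1 + t)), lt_min one_pos (by positivity),
    4 * A * K + 4 * C₀ + 64 * A ^ 2 / r + 4 * A * C₀ + 4 * C₀ ^ 2, by positivity, ?_⟩
  intro e p g δ G₀ D₀ v v0 v1 hG₀ hD₀ hg hδ hg0 hg1 hδ1 hδ0 h2 h3 h4 h5
  set τ : ℝ := min 1 (r / (1 + t)) with hτ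
  have τ1 : τ ≤ 1 := min_le_left _ _
  have τ0 : 0 < τ := lt_min one_pos (by positivity)
  have τ2 : (1 + t) * τ ≤ r := by
    have h6 : τ ≤ r / (1 + t) := min_le_right _ _
    have h7 := mul_le_mul_of_nonneg_left h6 (by positivity : (0 : ℝ) ≤ 1 + t)
    have h8 : (1 + t) * (r / (1 + t)) = r := by
      have : (1 + t) ≠ 0 := by positivity
      field_simp
    linarith
  have ng := norm_nonneg g
  have nδ := norm_nonneg δ
  have vC : 0 ≤ C₀ * v := mul_nonneg hC v0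
  -- the norms
  have bg : ‖g‖ ≤ 2 * |inner ℝ (e 2) g| + 2 * (C₀ * v) := by
    have h6 := PCrossDet_norm e g
    have h7 : |inner ℝ (e 0) g| ≤ ‖g‖ / 2 := by
      rw [hg0, abs_div, abs_neg, abs_of_nonneg (sq_nonneg _), abs_of_pos (by norm_num : (0:ℝ) < 2)]
      nlinarith
    linarith
  have bδ : ‖δ‖ ≤ 2 * |inner ℝ (e 2) δ| + 2 * (C₀ * v) := by
    have h6 := PCrossDet_norm e δ
    have h7 : |inner ℝ (e 1) δ| ≤ ‖δ‖ / 2 := by
      rw [hδ1, abs_div, abs_neg, abs_of_nonneg (sq_nonneg _), abs_of_pos (by norm_num : (0:ℝ) < 2)]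
      nlinarith
    linarith
  obtain ⟨k, hk, kG, kD⟩ := three_points G₀ (t * inner ℝ (e 2) g) D₀ (t * inner ℝ (e 2) δ)
  set mG : ℝ := max |G₀| |t * inner ℝ (e 2) g| with hmG
  set mD : ℝ := max |D₀| |t * inner ℝ (e 2) δ| with hmD
  have mG1 : |G₀| ≤ mG := le_max_left _ _
  have mD1 : |D₀| ≤ mD := le_max_left _ _
  have mG2 : t * |inner ℝ (e 2) g| ≤ mG := by
    have h6 : |t * inner ℝ (e 2) g| ≤ mG := le_max_right _ _
    rwa [abs_mul, abs_of_pos t0] at h6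
  have mD2 : t * |inner ℝ (e 2) δ| ≤ mD := by
    have h6 : |t * inner ℝ (e 2) δ| ≤ mD := le_max_right _ _
    rwa [abs_mul, abs_of_pos t0] at h6
  have mG0 : 0 ≤ mG := (abs_nonneg _).trans mG1
  have mD0 : 0 ≤ mD := (abs_nonneg _).trans mD1
  have dd : ∀ {a m : ℝ}, t * a ≤ m → 2 * a ≤ 2 / t * m := by
    intro a m h
    have h6 := mul_le_mul_of_nonneg_left h (by positivity : (0 : ℝ) ≤ 2 / t)
    have h7 : 2 / t * (t * a) = 2 * a := by
      field_simp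
    linarith
  have sG : |G₀| + ‖g‖ ≤ A * mG + 2 * (C₀ * v) := by
    have h6 := dd mG2
    rw [hA]
    linarith
  have sD : |D₀| + ‖δ‖ ≤ A * mD + 2 * (C₀ * v) := by
    have h6 := dd mD2
    rw [hA]
    linarith
  set Gs : ℝ := G₀ + k * (t * inner ℝ (e 2) g) with hGs
  set Ds : ℝ := D₀ + k * (t * inner ℝ (e 2) δ) with hDs
  have k1 : |k| ≤ 1 := by
    rcases hk with rfl | rfl | rfl <;> simp
  have cs : ∀ x : E3, |inner ℝ (e 2) x| ≤ ‖x‖ := by
    intro x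
    have h6 := abs_real_inner_le_norm (e 2) x
    rwa [e.norm_eq_one, one_mul] at h6
  have upG : |Gs| ≤ r := by
    have h6 : |Gs| ≤ |G₀| + |k| * (t * |inner ℝ (e 2) g|) := by
      rw [hGs]
      refine (abs_add_le _ _).trans ?_
      rw [abs_mul, abs_mul, abs_of_pos t0]
    have h7 := cs g
    have h8 : |k| * (t * |inner ℝ (e 2) g|) ≤ 1 * (t * τ) :=
      mul_le_mul k1 (mul_le_mul_of_nonneg_left (h7.trans hg) t0.le) (by positivity) one_pos.le
    linarith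
  have upD : |Ds| ≤ r := by
    have h6 : |Ds| ≤ |D₀| + |k| * (t * |inner ℝ (e 2) δ|) := by
      rw [hDs]
      refine (abs_add_le _ _).trans ?_
      rw [abs_mul, abs_mul, abs_of_pos t0]
    have h7 := cs δ
    have h8 : |k| * (t * |inner ℝ (e 2) δ|) ≤ 1 * (t * τ) :=
      mul_le_mul k1 (mul_le_mul_of_nonneg_left (h7.trans hδ) t0.le) (by positivity) one_pos.le
    linarith
  have pos1 : 0 ≤ 64 * A ^ 2 / r * v := by positivity
  have pos2 : 0 ≤ 4 * A * C₀ * v := by positivity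
  have pos3 : 0 ≤ 4 * C₀ ^ 2 * v := by positivity
  have pos4 : 0 ≤ 4 * A * K * v := by positivity
  have pos5 : 0 ≤ 4 * C₀ * v := by positivity
  have expand : (4 * A * K + 4 * C₀ + 64 * A ^ 2 / r + 4 * A * C₀ + 4 * C₀ ^ 2) * v =
      4 * A * K * v + 4 * C₀ * v + 64 * A ^ 2 / r * v + 4 * A * C₀ * v + 4 * C₀ ^ 2 * v := by
    ring
  rw [expand]
  have aG := abs_nonneg G₀
  have aD := abs_nonneg D₀
  -- small cases
  have small : ∀ {a b m s : ℝ}, 0 ≤ b → b ≤ 2 → a ≤ A * m + 2 * (C₀ * v) → m / 2 ≤ s →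
      s ≤ K * v → a * b ≤ 4 * A * K * v + 4 * C₀ * v := by
    intro a b m s hb hb2 ha hm hs
    have h6 : A * m ≤ A * (2 * (K * v)) :=
      mul_le_mul_of_nonneg_left (by linarith) (by linarith)
    have h7 : a ≤ 2 * A * K * v + 2 * C₀ * v := by
      have : A * (2 * (K * v)) = 2 * A * K * v := by ring
      linarith
    have h8 : 0 ≤ 2 * A * K * v + 2 * C₀ * v := by positivity
    have h9 : a * b ≤ (2 * A * K * v + 2 * C₀ * v) * b := mul_le_mul_of_nonneg_right h7 hb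
    have h10 : (2 * A * K * v + 2 * C₀ * v) * b ≤ (2 * A * K * v + 2 * C₀ * v) * 2 :=
      mul_le_mul_of_nonneg_left hb2 h8
    linarith
  rcases le_or_gt |Gs| (K * v) with hGK | hGK
  · have h6 := small (b := |D₀| + ‖δ‖) (by positivity) (by linarith) sG kG hGK
    linarith
  rcases le_or_gt |Ds| (K * v) with hDK | hDK
  · have h6 := small (b := |G₀| + ‖g‖) (by positivity) (by linarith) sD kD hDK
    rw [mul_comm] at h6
    linarith
  -- the main case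
  set q : E3 := p + (k * t) • e 2 with hq
  have hqp : q - p = (k * t) • e 2 := by
    rw [hq, add_sub_cancel_left]
  have ball_sub : ∀ x ∈ ball q r, x ∈ ball p σ := by
    intro x hx
    rw [mem_ball, dist_eq_norm] at hx ⊢
    have h6 : x - p = (x - q) + (q - p) := by abel
    have h7 : ‖q - p‖ ≤ t := by
      rw [hqp, norm_smul, e.norm_eq_one, mul_one, Real.norm_eq_abs, abs_mul, abs_of_pos t0]
      nlinarith
    rw [h6]
    have h8 := norm_add_le (x - q) (q - p)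
    linarith
  have o02 : inner ℝ (e 0) (e 2) = (0 : ℝ) := e.orthonormal.2 (by decide)
  have o12 : inner ℝ (e 1) (e 2) = (0 : ℝ) := e.orthonormal.2 (by decide)
  have i0 : ∀ x : E3, inner ℝ (e 0) (x - p) = inner ℝ (e 0) (x - q) := by
    intro x
    have h6 : x - p = (x - q) + (q - p) := by abel
    rw [h6, inner_add_right, hqp, inner_smul_right, o02, mul_zero, add_zero]
  have i1 : ∀ x : E3, inner ℝ (e 1) (x - p) = inner ℝ (e 1) (x - q) := by
    intro x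
    have h6 : x - p = (x - q) + (q - p) := by abel
    rw [h6, inner_add_right, hqp, inner_smul_right, o12, mul_zero, add_zero]
  have iG : ∀ x : E3, G₀ + inner ℝ g (x - p) = Gs + inner ℝ g (x - q) := by
    intro x
    have h6 : x - p = (x - q) + (q - p) := by abel
    rw [h6, inner_add_right, hqp, inner_smul_right, real_inner_comm (e 2) g, hGs]
    ring
  have iD : ∀ x : E3, D₀ + inner ℝ δ (x - p) = Ds + inner ℝ δ (x - q) := by
    intro x
    have h6 : x - p = (x - q) + (q - p) := by abel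
    rw [h6, inner_add_right, hqp, inner_smul_right, real_inner_comm (e 2) δ, hDs]
    ring
  have var : ∀ {w : E3} {a m s : ℝ}, ‖w‖ ≤ a → a ≤ A * m + 2 * (C₀ * v) → m / 2 ≤ |s| →
      K * v < |s| → ∀ x ∈ ball q r, |s + inner ℝ w (x - q) - s| ≤ 3 / 10 * |s| := by
    intro w a m s hw ha hm hs x hx
    rw [add_sub_cancel_left]
    rw [mem_ball, dist_eq_norm] at hx
    have h6 := abs_real_inner_le_norm w (x - q)
    have h7 : ‖w‖ * ‖x - q‖ ≤ ‖w‖ * r := mul_le_mul_of_nonneg_left hx.le (norm_nonneg _)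
    have h8 : 2 * (C₀ * v) ≤ |s| / 8 := by
      have : K * v = 16 * (C₀ * v) + 16 * v := by
        rw [hK]
        ring
      linarith
    have h9 : ‖w‖ ≤ A * (2 * |s|) + |s| / 8 := by
      have := mul_le_mul_of_nonneg_left (by linarith : m ≤ 2 * |s|) (by linarith : (0 : ℝ) ≤ A)
      linarith
    have h10 : ‖w‖ * r ≤ (A * (2 * |s|) + |s| / 8) * r := mul_le_mul_of_nonneg_right h9 r0.le
    have h11 : (A * (2 * |s|) + |s| / 8) * r = 2 * |s| * (r * A) + |s| / 8 * r := by ring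
    have h12 : 2 * |s| * (r * A) ≤ 2 * |s| * (1 / 8) :=
      mul_le_mul_of_nonneg_left r2 (by positivity)
    have h13 : |s| / 8 * r ≤ |s| / 8 * (1 / 8) := mul_le_mul_of_nonneg_left r3 (by positivity)
    have h14 := abs_nonneg s
    linarith
  have hcG : 16 * (C₀ * v) ≤ |Gs| := by
    have : K * v = 16 * (C₀ * v) + 16 * v := by
      rw [hK]
      ring
    linarith
  have hcD : 16 * (C₀ * v) ≤ |Ds| := by
    have : K * v = 16 * (C₀ * v) + 16 * v := by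
      rw [hK]
      ring
    linarith
  have Kv : 0 ≤ K * v := by positivity
  have hfin : ∀ P : E3 → Prop, volume {x ∈ ball p σ | P x} ≠ ⊤ := by
    intro P
    refine ne_top_of_le_ne_top measure_ball_lt_top.ne (measure_mono (?_ : _ ⊆ ball p σ))
    exact fun x hx => hx.1
  have core := PCrossDet_core e q (v := v) (Gf := fun x => Gs + inner ℝ g (x - q))
    (Df := fun x => Ds + inner ℝ δ (x - q)) r0 vC
    (var (by linarith : ‖g‖ ≤ |G₀| + ‖g‖) sG kG hGK)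
    (var (by linarith : ‖δ‖ ≤ |D₀| + ‖δ‖) sD kD hDK) hcG hcD
    (lt_of_le_of_lt Kv hGK) (lt_of_le_of_lt Kv hDK) upG upD
    (fun x hx a1 a2 a3 a4 => h2 x (ball_sub x hx) (by rw [i0]; exact a1) (by rw [i1]; exact a2)
      (by rw [i0, iG]; exact a3) (by rw [i1, iD]; exact a4))
    (fun x hx a1 a2 a3 a4 => h3 x (ball_sub x hx) (by rw [i0]; exact a1)
      (by rw [i1, iD]; exact a2) (by rw [i0, iG]; exact a3) (by rw [i1]; exact a4))
    (le_trans (measureReal_mono (by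
      intro x hx
      obtain ⟨hx1, hx2, hx3, hx4, hx5⟩ := hx
      exact ⟨ball_sub x hx1, by rw [i0, iG]; exact hx2, by rw [i0]; exact hx3,
        by rw [i1]; exact hx4, by rw [i1, iD]; exact hx5⟩) (hfin _)) h4)
    (le_trans (measureReal_mono (by
      intro x hx
      obtain ⟨hx1, hx2, hx3, hx4, hx5⟩ := hx
      exact ⟨ball_sub x hx1, by rw [i0]; exact hx2, by rw [i0, iG]; exact hx3,
        by rw [i1, iD]; exact hx4, by rw [i1]; exact hx5⟩) (hfin _)) h5)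
  -- the final computation
  have f1 : mG * mD ≤ 64 / r * v := by
    have h6 : mG * mD ≤ (2 * |Gs|) * (2 * |Ds|) :=
      mul_le_mul (by linarith) (by linarith) mD0 (by positivity)
    have h7 : |Gs| * |Ds| ≤ 16 * v / r := by
      rw [le_div_iff₀ r0]
      exact core
    have h8 : (2 * |Gs|) * (2 * |Ds|) = 4 * (|Gs| * |Ds|) := by ring
    have h9 : 64 / r * v = 4 * (16 * v / r) := by ring
    linarith
  have f2 : mG ≤ 1 / 4 := by linarith
  have f3 : mD ≤ 1 / 4 := by linarith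
  have f4 : (|G₀| + ‖g‖) * (|D₀| + ‖δ‖) ≤
      (A * mG + 2 * (C₀ * v)) * (A * mD + 2 * (C₀ * v)) :=
    mul_le_mul sG sD (by positivity) (by positivity)
  have f5 : (A * mG + 2 * (C₀ * v)) * (A * mD + 2 * (C₀ * v)) =
      A ^ 2 * (mG * mD) + 2 * A * C₀ * v * (mG + mD) + 4 * C₀ ^ 2 * v * v := by ring
  have f6 : A ^ 2 * (mG * mD) ≤ A ^ 2 * (64 / r * v) :=
    mul_le_mul_of_nonneg_left f1 (by positivity)
  have f7 : A ^ 2 * (64 / r * v) = 64 * A ^ 2 / r * v := by ring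
  have f8 : 2 * A * C₀ * v * (mG + mD) ≤ 2 * A * C₀ * v * 2 :=
    mul_le_mul_of_nonneg_left (by linarith) (by positivity)
  have f9 : 4 * C₀ ^ 2 * v * v ≤ 4 * C₀ ^ 2 * v * 1 :=
    mul_le_mul_of_nonneg_left (by linarith) (by positivity)
  linarith

end Pool.TC
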