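import Pool.Agent.W_0c5e58_h61.PMF
import Pool.Agent.W_0c5e58_h61.PCrossDet

/-!
# Crossing pairs
-/

open MeasureTheory Metric Set Filter
open scoped Topology

namespace Pool.TC

variable {I Φ ι : Type} {D : Loc I Φ} {F : Filter ι}

theorem PCross_opp (D : Loc I Φ) {i : I} {f g : Φ} (hf : f ∈ D.A i) (hg : g ∈ D.A i)
    (h : D.ν i g = - D.ν i f) : False := by
  by_cases hfg : f = g
  · subst hfg
    have h1 := D.unit i f
    have h2 : D.ν i f = 0 := by
      have h3 : (2 : ℝ) • D.ν i f = 0 := by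
        rw [two_smul]
        nth_rewrite 1 [h]
        simp
      simpa using h3
    rw [h2, norm_zero] at h1
    exact zero_ne_one h1
  · have h1 := (D.nu_ne hf hg hfg).2
    apply h1
    rw [h, neg_neg]

theorem PCross_open (A : Finset Φ) (ν : Φ → E3) (f1 f2 : Φ) :
    IsOpen {x : E3 | ∀ f ∈ A, f ≠ f1 → f ≠ f2 → inner ℝ (ν f) x < 0} := by
  have h1 : {x : E3 | ∀ f ∈ A, f ≠ f1 → f ≠ f2 → inner ℝ (ν f) x < 0}
      = ⋂ f ∈ A, {x : E3 | f ≠ f1 → f ≠ f2 → inner ℝ (ν f) x < 0} := by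
    ext x
    simp
  rw [h1]
  refine isOpen_biInter_finset fun f _ => ?_
  by_cases hf1 : f = f1
  · simp [hf1]
  by_cases hf2 : f = f2
  · simp [hf2]
  have h2 : {x : E3 | f ≠ f1 → f ≠ f2 → inner ℝ (ν f) x < 0} = {x : E3 | inner ℝ (ν f) x < 0} := by
    ext x
    simp [hf1, hf2]
  rw [h2]
  exact isOpen_lt (by fun_prop) continuous_const

theorem PCross_small (A : Finset Φ) (ν : Φ → E3) (f1 f2 : Φ) (r v : E3)
    (h : ∀ f ∈ A, f ≠ f1 → f ≠ f2 → inner ℝ (ν f) r < 0) :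
    ∀ᶠ s in 𝓝[>] (0 : ℝ), ∀ f ∈ A, f ≠ f1 → f ≠ f2 → inner ℝ (ν f) (r + s • v) < 0 := by
  have h1 : Tendsto (fun s : ℝ => r + s • v) (𝓝[>] (0 : ℝ)) (𝓝 r) := by
    have h2 : Tendsto (fun s : ℝ => r + s • v) (𝓝 (0 : ℝ)) (𝓝 (r + (0 : ℝ) • v)) := by
      apply Continuous.tendsto
      fun_prop
    rw [zero_smul, add_zero] at h2
    exact h2.mono_left nhdsWithin_le_nhds
  exact h1.eventually ((PCross_open A ν f1 f2).mem_nhds h)

theorem PCross_mac (D : Loc I Φ) {i j : I} {f1 f2 g1 g2 : Φ} {r v : E3} (hij : i ≠ j)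
    (hf1 : f1 ∈ D.A i) (hg1 : g1 ∈ D.A j) (hop : D.ν j g1 = - D.ν i f1)
    (hr1 : inner ℝ (D.ν i f1) r = 0) (hv1 : inner ℝ (D.ν i f1) v = 0)
    (hr2 : inner ℝ (D.ν i f2) r = 0) (hv2 : inner ℝ (D.ν i f2) v < 0)
    (hr3 : inner ℝ (D.ν j g2) r = 0) (hv3 : inner ℝ (D.ν j g2) v < 0)
    (hi : ∀ f ∈ D.A i, f ≠ f1 → f ≠ f2 → inner ℝ (D.ν i f) r < 0)
    (hj : ∀ f ∈ D.A j, f ≠ g1 → f ≠ g2 → inner ℝ (D.ν j f) r < 0) :
    D.Mac i f1 j g1 := by
  have h1 := PCross_small (D.A i) (D.ν i) f1 f2 r v hi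
  have h2 := PCross_small (D.A j) (D.ν j) g1 g2 r v hj
  have h3 : ∀ᶠ s in 𝓝[>] (0 : ℝ), 0 < s := eventually_mem_nhdsWithin
  obtain ⟨s, hs1, hs2, hs3⟩ := (h1.and (h2.and h3)).exists
  refine ⟨r + s • v, hij, hf1, hg1, hop, ?_, ?_, ?_⟩
  · rw [inner_add_right, real_inner_smul_right, hr1, hv1]
    ring
  · intro f hf hne
    by_cases hf2 : f = f2
    · subst hf2
      rw [inner_add_right, real_inner_smul_right, hr2, zero_add]
      exact mul_neg_of_pos_of_neg hs3 hv2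
    · exact hs1 f hf hne hf2
  · intro f hf hne
    by_cases hf2 : f = g2
    · subst hf2
      rw [inner_add_right, real_inner_smul_right, hr3, zero_add]
      exact mul_neg_of_pos_of_neg hs3 hv3
    · exact hs2 f hf hne hf2

theorem PCross_self (D : Loc I Φ) (i : I) (f : Φ) : inner ℝ (D.ν i f) (D.ν i f) = (1 : ℝ) := by
  rw [real_inner_self_eq_norm_sq, D.unit]
  norm_num


/-- The bodies of a crossing are different (equal bodies would have opposite normals on two faces,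
excluded by `nu_ne`; `a = c`: `fn, cn`; `a = u`: `fd, ud`; `c = b`: `cd, bd`; `u = b`: `un, bn`;
`a = b`: `fn, bn`; `c = u`: `cn, un`; one face cannot have the normal `n = -n`). -/
theorem Loc.CrossAt.distinct {a c u b : I} {fn fd cn cd un ud bn bd : Φ} {r : E3}
    (h : D.CrossAt a c u b fn fd cn cd un ud bn bd r) :
    a ≠ c ∧ a ≠ u ∧ a ≠ b ∧ c ≠ u ∧ c ≠ b ∧ u ≠ b := by
  refine ⟨?_, ?_, ?_, ?_, ?_, ?_⟩
  · intro e
    have h1 := h.ccn
    have h2 := h.ecn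
    rw [← e] at h1 h2
    exact PCross_opp D h.afn h1 h2
  · intro e
    have h1 := h.uud
    have h2 := h.eud
    rw [← e] at h1 h2
    exact PCross_opp D h.afd h1 h2
  · intro e
    have h1 := h.bbn
    have h2 := h.ebn
    rw [← e] at h1 h2
    exact PCross_opp D h.afn h1 h2
  · intro e
    have h1 := h.uun
    have h2 := h.eun
    rw [← e] at h1 h2
    refine PCross_opp D h1 h.ccn ?_
    rw [h.ecn, h2]
  · intro e
    have h1 := h.bbd
    have h2 := h.ebd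
    rw [← e] at h1 h2
    refine PCross_opp D h.ccd h1 ?_
    rw [h2, h.ecd]
  · intro e
    have h1 := h.bbn
    have h2 := h.ebn
    rw [← e] at h1 h2
    refine PCross_opp D h.uun h1 ?_
    rw [h2, h.eun]

/-- Neighbours around the ray are in contact: contact points `r - s d` (for `a, c`), `r - s n`
(for `a, u`), `r + s n` (`c, b`), `r + s d` (`u, b`), `s > 0` small, `n = ν a fn`,
`d = ν a fd`. -/
theorem Loc.CrossAt.macs {a c u b : I} {fn fd cn cd un ud bn bd : Φ} {r : E3}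
    (h : D.CrossAt a c u b fn fd cn cd un ud bn bd r) :
    D.Mac a fn c cn ∧ D.Mac a fd u ud ∧ D.Mac c cd b bd ∧ D.Mac u un b bn := by
  obtain ⟨hac, hau, hab, hcu, hcb, hub⟩ := h.distinct
  have hnn := PCross_self D a fn
  have hdd := PCross_self D a fd
  have hdn : inner ℝ (D.ν a fd) (D.ν a fn) = (0 : ℝ) := by
    rw [real_inner_comm]
    exact h.nd
  have hnd := h.nd
  have hrn := h.rn
  have hrd := h.rd
  refine ⟨?_, ?_, ?_, ?_⟩
  · refine PCross_mac D (f2 := fd) (g2 := cd) (r := r) (v := - D.ν a fd) hac h.afn h.ccn h.ecn hrn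
      ?_ hrd ?_ ?_ ?_ h.oa h.oc
    · rw [inner_neg_right, hnd, neg_zero]
    · rw [inner_neg_right, hdd]
      norm_num
    · rw [h.ecd, hrd]
    · rw [h.ecd, inner_neg_right, hdd]
      norm_num
  · refine PCross_mac D (f2 := fn) (g2 := un) (r := r) (v := - D.ν a fn) hau h.afd h.uud h.eud hrd
      ?_ hrn ?_ ?_ ?_ (fun f hf h1 h2 => h.oa f hf h2 h1) (fun f hf h1 h2 => h.ou f hf h2 h1)
    · rw [inner_neg_right, hdn, neg_zero]
    · rw [inner_neg_right, hnn]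
      norm_num
    · rw [h.eun, hrn]
    · rw [h.eun, inner_neg_right, hnn]
      norm_num
  · refine PCross_mac D (f2 := cn) (g2 := bn) (r := r) (v := D.ν a fn) hcb h.ccd h.bbd
      (by rw [h.ebd, h.ecd]) ?_ ?_ ?_ ?_ ?_ ?_ (fun f hf h1 h2 => h.oc f hf h2 h1)
      (fun f hf h1 h2 => h.ob f hf h2 h1)
    · rw [h.ecd, hrd]
    · rw [h.ecd, hdn]
    · rw [h.ecn, inner_neg_left, hrn, neg_zero]
    · rw [h.ecn, inner_neg_left, hnn]
      norm_num
    · rw [h.ebn, inner_neg_left, hrn, neg_zero]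
    · rw [h.ebn, inner_neg_left, hnn]
      norm_num
  · refine PCross_mac D (f2 := ud) (g2 := bd) (r := r) (v := D.ν a fd) hub h.uun h.bbn
      (by rw [h.ebn, h.eun]) ?_ ?_ ?_ ?_ ?_ ?_ h.ou h.ob
    · rw [h.eun, hrn]
    · rw [h.eun, hnd]
    · rw [h.eud, inner_neg_left, hrd, neg_zero]
    · rw [h.eud, inner_neg_left, hdd]
      norm_num
    · rw [h.ebd, inner_neg_left, hrd, neg_zero]
    · rw [h.ebd, inner_neg_left, hdd]
      norm_num

/-- No other body contains `r` (the four bodies cover a neighbourhood of `r`: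
`{n ≤ 0, d ≤ 0}, {n ≥ 0, d ≤ 0}, {n ≤ 0, d ≥ 0}, {n ≥ 0, d ≥ 0}` near `r`; a fifth body has strict
points near `r`, `near_strict`, `strict_mem_false`). -/
theorem Loc.CrossAt.excl {a c u b : I} {fn fd cn cd un ud bn bd : Φ} {r : E3}
    (h : D.CrossAt a c u b fn fd cn cd un ud bn bd r) {z : I} (hz : r ∈ D.T z) :
    z = a ∨ z = c ∨ z = u ∨ z = b := by
  by_contra hcon
  push Not at hcon
  obtain ⟨hza, hzc, hzu, hzb⟩ := hcon
  have hO : IsOpen ({x : E3 | ∀ f ∈ D.A a, f ≠ fn → f ≠ fd → inner ℝ (D.ν a f) x < 0} ∩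
      {x : E3 | ∀ f ∈ D.A c, f ≠ cn → f ≠ cd → inner ℝ (D.ν c f) x < 0} ∩
      {x : E3 | ∀ f ∈ D.A u, f ≠ un → f ≠ ud → inner ℝ (D.ν u f) x < 0} ∩
      {x : E3 | ∀ f ∈ D.A b, f ≠ bn → f ≠ bd → inner ℝ (D.ν b f) x < 0}) :=
    (((PCross_open _ _ _ _).inter (PCross_open _ _ _ _)).inter (PCross_open _ _ _ _)).inter
      (PCross_open _ _ _ _)
  obtain ⟨y, ⟨⟨⟨hya, hyc⟩, hyu⟩, hyb⟩, hy⟩ :=
    D.near_strict hz hO ⟨⟨⟨h.oa, h.oc⟩, h.ou⟩, h.ob⟩
  rcases le_total (inner ℝ (D.ν a fn) y) 0 with h1 | h1 <;>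
    rcases le_total (inner ℝ (D.ν a fd) y) 0 with h2 | h2
  · refine D.strict_mem_false hza hy ?_
    intro f hf
    by_cases e1 : f = fn
    · rw [e1]; exact h1
    by_cases e2 : f = fd
    · rw [e2]; exact h2
    exact (hya f hf e1 e2).le
  · refine D.strict_mem_false hzu hy ?_
    intro f hf
    by_cases e1 : f = un
    · rw [e1, h.eun]; exact h1
    by_cases e2 : f = ud
    · rw [e2, h.eud, inner_neg_left]; linarith
    exact (hyu f hf e1 e2).le
  · refine D.strict_mem_false hzc hy ?_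
    intro f hf
    by_cases e1 : f = cn
    · rw [e1, h.ecn, inner_neg_left]; linarith
    by_cases e2 : f = cd
    · rw [e2, h.ecd]; exact h2
    exact (hyc f hf e1 e2).le
  · refine D.strict_mem_false hzb hy ?_
    intro f hf
    by_cases e1 : f = bn
    · rw [e1, h.ebn, inner_neg_left]; linarith
    by_cases e2 : f = bd
    · rw [e2, h.ebd, inner_neg_left]; linarith
    exact (hyb f hf e1 e2).le

theorem PCross_norm (R : Pert D F) (n : ι) (i : I) (f : Φ) : ‖R.ν n i f‖ = 1 := by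
  have h1 := R.gram n i f f
  rw [PCross_self, real_inner_self_eq_norm_sq] at h1
  have h2 := norm_nonneg (R.ν n i f)
  nlinarith

theorem PCross_inner {x y x' y' : E3} {A B : ℝ} (h1 : ‖x + x'‖ ≤ A) (h2 : ‖y' + y‖ ≤ B)
    (hy : ‖y‖ = 1) (hx' : ‖x'‖ = 1) (h0 : inner ℝ x' y' = 0) : |inner ℝ x y| ≤ A + B := by
  have e1 : inner ℝ x y = inner ℝ (x + x') y - inner ℝ x' (y' + y) := by
    rw [inner_add_left, inner_add_right, h0]
    ring
  have e2 : |inner ℝ (x + x') y| ≤ A := by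
    refine (abs_real_inner_le_norm _ _).trans ?_
    rw [hy, mul_one]
    exact h1
  have e3 : |inner ℝ x' (y' + y)| ≤ B := by
    refine (abs_real_inner_le_norm _ _).trans ?_
    rw [hx', one_mul]
    exact h2
  rw [e1]
  exact (abs_sub _ _).trans (add_le_add e2 e3)

theorem PCross_cont (R : Pert D F) (n : ι) (i : I) (f : Φ) : Continuous (R.ell n i f) := by
  unfold Pert.ell
  fun_prop

theorem PCross_overlap (R : Pert D F) {n : ι} {i j : I} {p₀ : E3} {σ' : ℝ}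
    (hb : ball p₀ σ' ⊆ ball 0 R.ρ)
    (hnull : volume ((bodyS (D.A i) (R.ν n i) (R.γ n i) ∩ bodyS (D.A j) (R.ν n j) (R.γ n j) ∩
      ball 0 R.ρ) \ (tubeS (D.A i) D.lat (D.ν i) (R.ν n i) (R.γ n i) (R.ε n) ∪
        tubeS (D.A j) D.lat (D.ν j) (R.ν n j) (R.γ n j) (R.ε n))) = 0)
    (hnear : ∀ x ∈ ball p₀ σ', ∀ i, ∀ f ∈ D.A i,
      (inner ℝ (D.ν i f) p₀ < 0 → R.ell n i f x < - R.ε n) ∧
      (0 < inner ℝ (D.ν i f) p₀ → 0 < R.ell n i f x))
    {f1 f2 g1 g2 : Φ} (hi0 : inner ℝ (D.ν i f1) (D.ν i f2) = 0)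
    (hj0 : inner ℝ (D.ν j g1) (D.ν j g2) = 0)
    (hi : ∀ f ∈ D.A i, f ≠ f1 → f ≠ f2 → inner ℝ (D.ν i f) p₀ < 0)
    (hj : ∀ f ∈ D.A j, f ≠ g1 → f ≠ g2 → inner ℝ (D.ν j f) p₀ < 0)
    {x : E3} (hx : x ∈ ball p₀ σ') (h1 : R.ell n i f1 x < 0) (h2 : R.ell n i f2 x < 0)
    (h3 : R.ell n j g1 x < 0) (h4 : R.ell n j g2 x < 0) : False := by
  have key : ∀ (i : I) (f1 f2 : Φ), inner ℝ (D.ν i f1) (D.ν i f2) = 0 →
      (∀ f ∈ D.A i, f ≠ f1 → f ≠ f2 → inner ℝ (D.ν i f) p₀ < 0) →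
      ∀ y ∈ ball p₀ σ', R.ell n i f1 y < 0 → R.ell n i f2 y < 0 →
      y ∈ bodyS (D.A i) (R.ν n i) (R.γ n i) ∧
      y ∉ tubeS (D.A i) D.lat (D.ν i) (R.ν n i) (R.γ n i) (R.ε n) := by
    intro i f1 f2 hi0 hi y hy hy1 hy2
    constructor
    · intro f hf
      have h5 : R.ell n i f y ≤ 0 := by
        by_cases e1 : f = f1
        · rw [e1]; exact hy1.le
        by_cases e2 : f = f2
        · rw [e2]; exact hy2.le
        have h6 := (hnear y hy i f hf).1 (hi f hf e1 e2)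
        have h7 := R.εnn n
        linarith
      unfold Pert.ell at h5
      linarith
    · rintro ⟨k, hk, l, hl, hkl, -, -, hpos, hk', hl'⟩
      have hcase : ∀ m ∈ D.A i, R.γ n i m - R.ε n ≤ inner ℝ (R.ν n i m) y → m = f1 ∨ m = f2 := by
        intro m hm hmy
        by_contra hcon
        push Not at hcon
        have h6 := (hnear y hy i m hm).1 (hi m hm hcon.1 hcon.2)
        unfold Pert.ell at h6
        linarith
      rcases hcase k hk hk' with e1 | e1 <;> rcases hcase l hl hl' with e2 | e2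
      · exact hkl (e1.trans e2.symm)
      · rw [e1, e2, hi0] at hpos
        exact lt_irrefl _ hpos
      · rw [e1, e2, real_inner_comm, hi0] at hpos
        exact lt_irrefl _ hpos
      · exact hkl (e1.trans e2.symm)
  set O : Set E3 := ball p₀ σ' ∩ {y | R.ell n i f1 y < 0} ∩ {y | R.ell n i f2 y < 0} ∩
    {y | R.ell n j g1 y < 0} ∩ {y | R.ell n j g2 y < 0} with hO
  have hopen : IsOpen O := by
    rw [hO]
    exact (((isOpen_ball.inter (isOpen_lt (PCross_cont R n i f1) continuous_const)).inter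
      (isOpen_lt (PCross_cont R n i f2) continuous_const)).inter
      (isOpen_lt (PCross_cont R n j g1) continuous_const)).inter
      (isOpen_lt (PCross_cont R n j g2) continuous_const)
  have hne : O.Nonempty := ⟨x, ⟨⟨⟨hx, h1⟩, h2⟩, h3⟩, h4⟩
  have hsub : O ⊆ (bodyS (D.A i) (R.ν n i) (R.γ n i) ∩ bodyS (D.A j) (R.ν n j) (R.γ n j) ∩
      ball 0 R.ρ) \ (tubeS (D.A i) D.lat (D.ν i) (R.ν n i) (R.γ n i) (R.ε n) ∪
        tubeS (D.A j) D.lat (D.ν j) (R.ν n j) (R.γ n j) (R.ε n)) := by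
    rintro y ⟨⟨⟨⟨hy, hy1⟩, hy2⟩, hy3⟩, hy4⟩
    have k1 := key i f1 f2 hi0 hi y hy hy1 hy2
    have k2 := key j g1 g2 hj0 hj y hy hy3 hy4
    refine ⟨⟨⟨k1.1, k2.1⟩, hb hy⟩, ?_⟩
    rintro (h5 | h5)
    · exact k1.2 h5
    · exact k2.2 h5
  have h5 := hopen.measure_pos volume hne
  have h6 := measure_mono_null hsub hnull
  exact h5.ne' h6

theorem PCross_void (R : Pert D F) {n : ι} {S : Set E3} (hS : S ⊆ ball 0 R.ρ)
    (h : ∀ x ∈ S, ∀ i, x ∉ R.body n i) : volume.real S ≤ R.void n := by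
  unfold Pert.void
  refine measureReal_mono ?_ ?_
  · intro x hx
    refine ⟨hS hx, ?_⟩
    intro hx'
    obtain ⟨i, hi⟩ := mem_iUnion.1 hx'
    exact h x hx i hi
  · exact ((measure_mono sdiff_subset).trans_lt measure_ball_lt_top).ne

theorem PCross_notmem (R : Pert D F) {n : ι} {i : I} {f : Φ} (hf : f ∈ D.A i) {x : E3}
    (h : 0 < R.ell n i f x) : x ∉ R.body n i := by
  intro hx
  have h1 := hx f hf
  unfold Pert.ell at h
  linarith

/-- **Crossing estimate.**  With `g = -(ν a fn + ν b bn)`, `δ = -(ν a fd + ν b bd)` (perturbed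
normals) and `G = -(ell a fn + ell b bn)`, `Dd = -(ell a fd + ell b bd)`, affine functions with
gradients `g`, `δ`, `(|G 0| + ‖g‖) (|Dd 0| + ‖δ‖) ≤ C void`.

Proof.  Let `p₀ = (ρ / 2) r / ‖r‖`, `σ'` from `near` at `p₀`; faces through `p₀` are exactly the
eight faces of the crossing; `σ = σ'/2`.  For late `n`: `e 0 = ν n a fn`, `e 1 = ν n a fd` are
orthonormal (`R.gram`), completed by `exists_basis2`; `p = p₀ - ell(a,fn)(p₀) e₀ -
ell(a,fd)(p₀) e₁`, so `ell a fn x = inner (e 0) (x - p)`, `ell a fd x = inner (e 1) (x - p)`,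
`ball p σ ⊆ ball p₀ σ'`.
`inner (e 0) g = - 1 - inner (ν a fn) (ν b bn) = - ‖g‖²/2`.
`inner (e 1) g = - inner (ν a fd) (ν b bn)`; by `mf` for `(a,fd;u,ud)` and `(u,un;b,bn)`,
`ν a fd = - ν u ud + O(v)`, `ν b bn = - ν u un + O(v)`, and `inner (ν u ud) (ν u un) = 0`
(`R.gram`, limit value `inner (-d) n = 0`), so it is `O(v)`.  Same for `δ` with the body `c`.
`mf` for the four contacts gives `C₀` with, in the ball,
`|ell a fn + ell c cn| ≤ C₀ v`, `|ell a fd + ell u ud| ≤ C₀ v`, `|ell c cd + ell b bd| ≤ C₀ v`,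
`|ell u un + ell b bn| ≤ C₀ v`; so `|ell c cd - (z + Dd)| ≤ C₀ v`, `|ell u un - (y + G)| ≤ C₀ v`
where `y = ell a fn`, `z = ell a fd`, `ell b bn = - y - G`, `ell b bd = - z - Dd`.
`h2`: such an `x` is strictly inside `a` and `b` and outside their tubes (near `p₀` only the faces
`fn, fd` of `a` have `ell ≥ - ε`; `inner (D.ν a fn) (D.ν a fd) = 0`, so they are not a tube pair);
the set of such points is open, contained in a null set (`R.null`), so empty.  `h3`: the same for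
`c, u`.  `h4`: such points are in no body: `z > 0` (not `a`), `ell c cn ≥ - y - C₀ v > 0`,
`ell u un ≥ y + G - C₀ v > 0`, `ell b bd = - z - Dd > 0`, other bodies do not contain `p₀`
(`excl`).  `h5` the same.  Apply `cross_det` (everything tends to `0`), and go from `p` to `0`:
`|G 0| ≤ |G p| + ‖g‖ ‖p‖`. -/
theorem Pert.cross_core [Finite I] (R : Pert D F) {a c u b : I}
    {fn fd cn cd un ud bn bd : Φ} {r : E3}
    (h : D.CrossAt a c u b fn fd cn cd un ud bn bd r) :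
    ∃ C, 0 ≤ C ∧ ∀ᶠ n in F,
      (|R.ell n a fn 0 + R.ell n b bn 0| + ‖R.ν n a fn + R.ν n b bn‖) *
      (|R.ell n a fd 0 + R.ell n b bd 0| + ‖R.ν n a fd + R.ν n b bd‖) ≤ C * R.void n := by
  obtain ⟨hac, hau, hab, hcu, hcb, hub⟩ := h.distinct
  obtain ⟨m1, m2, m3, m4⟩ := h.macs
  obtain ⟨C1, hC1, M1⟩ := R.mf m1
  obtain ⟨C2, hC2, M2⟩ := R.mf m2
  obtain ⟨C3, hC3, M3⟩ := R.mf m3
  obtain ⟨C4, hC4, M4⟩ := R.mf m4
  have hrpos : 0 < ‖r‖ := norm_pos_iff.2 h.hr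
  have hρ := R.ρpos
  have ht₀ : 0 < R.ρ / 2 / ‖r‖ := by positivity
  obtain ⟨t₀, ht₀d⟩ : ∃ t₀, t₀ = R.ρ / 2 / ‖r‖ := ⟨_, rfl⟩
  rw [← ht₀d] at ht₀
  obtain ⟨p₀, hp₀d⟩ : ∃ p₀, p₀ = t₀ • r := ⟨_, rfl⟩
  have hp₀n : ‖p₀‖ = R.ρ / 2 := by
    rw [hp₀d, norm_smul, Real.norm_of_nonneg ht₀.le, ht₀d]
    field_simp
  have hp₀ : p₀ ∈ ball (0 : E3) R.ρ := by
    rw [mem_ball_zero_iff, hp₀n]
    linarith
  obtain ⟨σ', hσ', hball, hnear⟩ := R.near hp₀
  have hC₀ : 0 ≤ C1 + C2 + C3 + C4 := by positivity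
  obtain ⟨C₀, hC₀d⟩ : ∃ C₀, C₀ = C1 + C2 + C3 + C4 := ⟨_, rfl⟩
  rw [← hC₀d] at hC₀
  have hσ : 0 < σ' / 2 := by positivity
  obtain ⟨τ, hτ, C5, hC5, hdet⟩ := cross_det (σ := σ' / 2) (C₀ := C₀) hσ hC₀
  -- the limits
  have L1 : ∀ᶠ n in F, R.void n ≤ τ := (R.tvoid).eventually (Iic_mem_nhds hτ)
  have L2 : ∀ (i j : I) (f g : Φ), D.ν j g = - D.ν i f →
      Tendsto (fun n => ‖R.ν n i f + R.ν n j g‖) F (𝓝 0) := by
    intro i j f g hop
    have h1 := ((R.tν i f).add (R.tν j g)).norm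
    rw [hop, add_neg_cancel, norm_zero] at h1
    exact h1
  have L3 : ∀ (i j : I) (f g : Φ), f ∈ D.A i → g ∈ D.A j → D.ν j g = - D.ν i f →
      ∀ᶠ n in F, ‖R.ν n i f + R.ν n j g‖ * R.ρ + |R.γ n i f + R.γ n j g| ≤ τ := by
    intro i j f g hf hg hop
    have h1 := ((L2 i j f g hop).mul_const R.ρ).add ((R.tγ i f hf).add (R.tγ j g hg)).abs
    rw [zero_mul, add_zero, abs_zero, add_zero] at h1
    exact h1.eventually (Iic_mem_nhds hτ)
  have L4 : ∀ (i j : I) (f g : Φ), D.ν j g = - D.ν i f →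
      ∀ᶠ n in F, ‖R.ν n i f + R.ν n j g‖ ≤ τ := by
    intro i j f g hop
    exact (L2 i j f g hop).eventually (Iic_mem_nhds hτ)
  have L5 : ∀ f ∈ D.A a, inner ℝ (D.ν a f) r = 0 →
      ∀ᶠ n in F, |R.ell n a f p₀| < σ' / 4 := by
    intro f hf h0
    have h1 : Tendsto (fun n => |R.ell n a f p₀|) F (𝓝 0) := by
      have h2 : Tendsto (fun n => inner ℝ (R.ν n a f) p₀ - R.γ n a f) F
          (𝓝 (inner ℝ (D.ν a f) p₀ - 0)) :=
        ((R.tν a f).inner tendsto_const_nhds).sub (R.tγ a f hf)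
      have h3 := h2.abs
      rw [hp₀d, real_inner_smul_right, h0, mul_zero, sub_zero, abs_zero, ← hp₀d] at h3
      exact h3
    exact h1.eventually (Iio_mem_nhds (by positivity))
  -- the signs at `p₀`
  have S1 : ∀ (i : I) (f1 f2 : Φ), (∀ f ∈ D.A i, f ≠ f1 → f ≠ f2 → inner ℝ (D.ν i f) r < 0) →
      ∀ f ∈ D.A i, f ≠ f1 → f ≠ f2 → inner ℝ (D.ν i f) p₀ < 0 := by
    intro i f1 f2 hneg f hf e1 e2
    rw [hp₀d, real_inner_smul_right]
    exact mul_neg_of_pos_of_neg ht₀ (hneg f hf e1 e2)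
  have S2 : ∀ z, z ≠ a → z ≠ c → z ≠ u → z ≠ b → ∃ f ∈ D.A z, 0 < inner ℝ (D.ν z f) p₀ := by
    intro z hza hzc hzu hzb
    by_contra hcon
    push Not at hcon
    have hz : r ∈ D.T z := by
      intro f hf
      have h1 := hcon f hf
      rw [hp₀d, real_inner_smul_right] at h1
      by_contra h2
      push Not at h2
      have := mul_pos ht₀ h2
      linarith
    rcases h.excl hz with h1 | h1 | h1 | h1
    · exact hza h1
    · exact hzc h1
    · exact hzu h1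
    · exact hzb h1
  refine ⟨(1 + R.ρ) ^ 2 * C5, by positivity, ?_⟩
  filter_upwards [M1, M2, M3, M4, hnear, R.null, L1, L3 a b fn bn h.afn h.bbn h.ebn,
    L3 a b fd bd h.afd h.bbd h.ebd, L4 a b fn bn h.ebn, L4 a b fd bd h.ebd, L5 fn h.afn h.rn,
    L5 fd h.afd h.rd] with n M1 M2 M3 M4 hnear hnull L1 L3n L3d L4n L4d L5n L5d
  obtain ⟨v, hvd⟩ : ∃ v, v = R.void n := ⟨_, rfl⟩
  rw [← hvd] at M1 M2 M3 M4 L1
  rw [← hvd]
  have hv : 0 ≤ v := by rw [hvd]; exact measureReal_nonneg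
  obtain ⟨M1a, M1b⟩ := M1
  obtain ⟨M2a, M2b⟩ := M2
  obtain ⟨M3a, M3b⟩ := M3
  obtain ⟨M4a, M4b⟩ := M4
  have c1 : C1 * v ≤ C₀ * v := mul_le_mul_of_nonneg_right (by rw [hC₀d]; linarith) hv
  have c2 : C2 * v ≤ C₀ * v := mul_le_mul_of_nonneg_right (by rw [hC₀d]; linarith) hv
  have c3 : C3 * v ≤ C₀ * v := mul_le_mul_of_nonneg_right (by rw [hC₀d]; linarith) hv
  have c4 : C4 * v ≤ C₀ * v := mul_le_mul_of_nonneg_right (by rw [hC₀d]; linarith) hv
  have hnd : inner ℝ (R.ν n a fn) (R.ν n a fd) = (0 : ℝ) := by rw [R.gram, h.nd]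
  obtain ⟨e, he0, he1⟩ := exists_basis2 (PCross_norm R n a fn) (PCross_norm R n a fd) hnd
  have e00 : inner ℝ (e 0) (e 0) = (1 : ℝ) := by
    rw [real_inner_self_eq_norm_sq, e.norm_eq_one]; norm_num
  have e11 : inner ℝ (e 1) (e 1) = (1 : ℝ) := by
    rw [real_inner_self_eq_norm_sq, e.norm_eq_one]; norm_num
  have e01 : inner ℝ (e 0) (e 1) = (0 : ℝ) := by rw [he0, he1]; exact hnd
  have e10 : inner ℝ (e 1) (e 0) = (0 : ℝ) := by rw [real_inner_comm]; exact e01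
  obtain ⟨p, hpd⟩ : ∃ p, p = p₀ - R.ell n a fn p₀ • e 0 - R.ell n a fd p₀ • e 1 := ⟨_, rfl⟩
  have hy : ∀ x, R.ell n a fn x = inner ℝ (e 0) (x - p) := by
    intro x
    rw [hpd, inner_sub_right, inner_sub_right, inner_sub_right, real_inner_smul_right,
      real_inner_smul_right, e00, e01]
    unfold Pert.ell
    rw [← he0]
    ring
  have hz : ∀ x, R.ell n a fd x = inner ℝ (e 1) (x - p) := by
    intro x
    rw [hpd, inner_sub_right, inner_sub_right, inner_sub_right, real_inner_smul_right,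
      real_inner_smul_right, e10, e11]
    unfold Pert.ell
    rw [← he1]
    ring
  have hdist : dist p p₀ < σ' / 2 := by
    rw [dist_eq_norm, hpd]
    have h1 : p₀ - R.ell n a fn p₀ • e 0 - R.ell n a fd p₀ • e 1 - p₀
        = -(R.ell n a fn p₀ • e 0 + R.ell n a fd p₀ • e 1) := by abel
    rw [h1, norm_neg]
    refine (norm_add_le _ _).trans_lt ?_
    rw [norm_smul, norm_smul, e.norm_eq_one, e.norm_eq_one, mul_one, mul_one, Real.norm_eq_abs,
      Real.norm_eq_abs]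
    linarith
  have hsub : ball p (σ' / 2) ⊆ ball p₀ σ' := by
    intro x hx
    rw [mem_ball] at hx ⊢
    have := dist_triangle x p p₀
    linarith
  have hpρ : ‖p‖ ≤ R.ρ := by
    have h1 : p ∈ ball (0 : E3) R.ρ := hball (hsub (mem_ball_self hσ))
    rw [mem_ball_zero_iff] at h1
    exact h1.le
  obtain ⟨g, hgd⟩ : ∃ g, g = -(R.ν n a fn + R.ν n b bn) := ⟨_, rfl⟩
  obtain ⟨δ, hδd⟩ : ∃ δ, δ = -(R.ν n a fd + R.ν n b bd) := ⟨_, rfl⟩
  obtain ⟨G₀, hG₀d⟩ : ∃ G₀, G₀ = -(R.ell n a fn p + R.ell n b bn p) := ⟨_, rfl⟩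
  obtain ⟨D₀, hD₀d⟩ : ∃ D₀, D₀ = -(R.ell n a fd p + R.ell n b bd p) := ⟨_, rfl⟩
  have hG : ∀ x, G₀ + inner ℝ g (x - p) = -(R.ell n a fn x + R.ell n b bn x) := by
    intro x
    rw [hG₀d, hgd, inner_neg_left, inner_sub_right, inner_add_left, inner_add_left]
    unfold Pert.ell
    ring
  have hD : ∀ x, D₀ + inner ℝ δ (x - p) = -(R.ell n a fd x + R.ell n b bd x) := by
    intro x
    rw [hD₀d, hδd, inner_neg_left, inner_sub_right, inner_add_left, inner_add_left]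
    unfold Pert.ell
    ring
  have hgn : ‖g‖ = ‖R.ν n a fn + R.ν n b bn‖ := by rw [hgd, norm_neg]
  have hδn : ‖δ‖ = ‖R.ν n a fd + R.ν n b bd‖ := by rw [hδd, norm_neg]
  have bound : ∀ (f g' : Φ), ‖R.ν n a f + R.ν n b g'‖ * R.ρ + |R.γ n a f + R.γ n b g'| ≤ τ →
      |-(R.ell n a f p + R.ell n b g' p)| ≤ τ := by
    intro f g' hle
    have h1 : -(R.ell n a f p + R.ell n b g' p)
        = (R.γ n a f + R.γ n b g') - inner ℝ (R.ν n a f + R.ν n b g') p := by
      rw [inner_add_left]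
      unfold Pert.ell
      ring
    rw [h1]
    refine (abs_sub _ _).trans ?_
    have h2 : |inner ℝ (R.ν n a f + R.ν n b g') p| ≤ ‖R.ν n a f + R.ν n b g'‖ * R.ρ :=
      (abs_real_inner_le_norm _ _).trans (mul_le_mul_of_nonneg_left hpρ (norm_nonneg _))
    linarith
  have hsq : ∀ (f g' : Φ), inner ℝ (R.ν n a f) (-(R.ν n a f + R.ν n b g'))
      = -‖-(R.ν n a f + R.ν n b g')‖ ^ 2 / 2 := by
    intro f g'
    rw [norm_neg, ← real_inner_self_eq_norm_sq, inner_neg_right, inner_add_left, inner_add_right,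
      inner_add_right, real_inner_self_eq_norm_sq, real_inner_self_eq_norm_sq, PCross_norm,
      PCross_norm, real_inner_comm (R.ν n a f) (R.ν n b g')]
    ring
  have hrec := hdet e p g δ G₀ D₀ v hv L1 (by rw [hG₀d]; exact bound fn bn L3n)
    (by rw [hD₀d]; exact bound fd bd L3d) (by rw [hgn]; exact L4n) (by rw [hδn]; exact L4d)
    (by rw [he0, hgd]; exact hsq fn bn) ?_ (by rw [he1, hδd]; exact hsq fd bd) ?_ ?_ ?_ ?_ ?_
  · -- the final estimate
    have k1 : ∀ (f g' : Φ), |R.ell n a f 0 + R.ell n b g' 0|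
        ≤ |-(R.ell n a f p + R.ell n b g' p)| + ‖R.ν n a f + R.ν n b g'‖ * R.ρ := by
      intro f g'
      have h1 : R.ell n a f 0 + R.ell n b g' 0 = -(-(R.ell n a f p + R.ell n b g' p)) -
          inner ℝ (R.ν n a f + R.ν n b g') p := by
        rw [inner_add_left]
        unfold Pert.ell
        rw [inner_zero_right, inner_zero_right]
        ring
      rw [h1]
      refine (abs_sub _ _).trans ?_
      rw [abs_neg]
      have h2 : |inner ℝ (R.ν n a f + R.ν n b g') p| ≤ ‖R.ν n a f + R.ν n b g'‖ * R.ρ :=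
        (abs_real_inner_le_norm _ _).trans (mul_le_mul_of_nonneg_left hpρ (norm_nonneg _))
      linarith
    have k2 : ∀ (f g' : Φ), |R.ell n a f 0 + R.ell n b g' 0| + ‖R.ν n a f + R.ν n b g'‖
        ≤ (1 + R.ρ) * (|-(R.ell n a f p + R.ell n b g' p)| + ‖R.ν n a f + R.ν n b g'‖) := by
      intro f g'
      have h1 := k1 f g'
      have h2 := abs_nonneg (-(R.ell n a f p + R.ell n b g' p))
      have h3 := mul_nonneg hρ.le h2
      linarith
    have k3 := mul_le_mul (k2 fn bn) (k2 fd bd) (by positivity) (by positivity)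
    rw [← hG₀d, ← hD₀d, ← hgn, ← hδn] at k3
    rw [← hgn, ← hδn]
    calc _ ≤ _ := k3
      _ = (1 + R.ρ) ^ 2 * ((|G₀| + ‖g‖) * (|D₀| + ‖δ‖)) := by ring
      _ ≤ (1 + R.ρ) ^ 2 * (C5 * v) := mul_le_mul_of_nonneg_left hrec (by positivity)
      _ = (1 + R.ρ) ^ 2 * C5 * v := by ring
  · -- `inner (e 1) g`
    have h1 : inner ℝ (R.ν n u ud) (R.ν n u un) = (0 : ℝ) := by
      rw [R.gram, h.eud, h.eun, inner_neg_left, real_inner_comm, h.nd, neg_zero]
    have h2 := PCross_inner M2b M4b (PCross_norm R n b bn) (PCross_norm R n u ud) h1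
    rw [he1, hgd, inner_neg_right, inner_add_right, abs_neg, real_inner_comm, hnd, zero_add]
    refine h2.trans ?_
    rw [hC₀d]
    have := mul_nonneg hC1 hv
    have := mul_nonneg hC3 hv
    linarith
  · -- `inner (e 0) δ`
    have h1 : inner ℝ (R.ν n c cn) (R.ν n c cd) = (0 : ℝ) := by
      rw [R.gram, h.ecn, h.ecd, inner_neg_left, h.nd, neg_zero]
    have h2 := PCross_inner M1b M3b (PCross_norm R n b bd) (PCross_norm R n c cn) h1
    rw [he0, hδd, inner_neg_right, inner_add_right, abs_neg, hnd, zero_add]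
    refine h2.trans ?_
    rw [hC₀d]
    have := mul_nonneg hC2 hv
    have := mul_nonneg hC4 hv
    linarith
  · -- `a` and `b` do not overlap
    intro x hx x1 x2 x3 x4
    rw [hG] at x3
    rw [hD] at x4
    rw [← hy] at x1 x3
    rw [← hz] at x2 x4
    refine PCross_overlap R hball (hnull a b hab) hnear h.nd ?_ (S1 a fn fd h.oa)
      (S1 b bn bd h.ob) (hsub hx) x1 x2 (by linarith) (by linarith)
    rw [h.ebn, h.ebd, inner_neg_left, inner_neg_right, h.nd, neg_zero, neg_zero]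
  · -- `c` and `u` do not overlap
    intro x hx x1 x2 x3 x4
    rw [hD] at x2
    rw [hG] at x3
    rw [← hy] at x1 x3
    rw [← hz] at x2 x4
    have hxb := hball (hsub hx)
    have b1 := (abs_le.1 (M1a x hxb))
    have b2 := (abs_le.1 (M2a x hxb))
    have b3 := (abs_le.1 (M3a x hxb))
    have b4 := (abs_le.1 (M4a x hxb))
    refine PCross_overlap R hball (hnull c u hcu) hnear ?_ ?_ (S1 c cn cd h.oc)
      (S1 u un ud h.ou) (hsub hx) (by linarith) (by linarith) (by linarith) (by linarith)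
    · rw [h.ecn, h.ecd, inner_neg_left, h.nd, neg_zero]
    · rw [h.eun, h.eud, inner_neg_right, h.nd, neg_zero]
  · -- first part of the void
    rw [hvd]
    refine PCross_void R (fun x hx => hball (hsub hx.1)) ?_
    rw [← hvd]
    rintro x ⟨hx, x1, x2, x3, x4⟩ i
    rw [hG] at x1
    rw [hD] at x4
    rw [← hy] at x1 x2
    rw [← hz] at x3 x4
    have hxb := hball (hsub hx)
    have b1 := (abs_le.1 (M1a x hxb))
    have b2 := (abs_le.1 (M2a x hxb))
    have b3 := (abs_le.1 (M3a x hxb))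
    have b4 := (abs_le.1 (M4a x hxb))
    by_cases ia : i = a
    · rw [ia]; exact PCross_notmem R h.afd (by linarith)
    by_cases ic : i = c
    · rw [ic]; exact PCross_notmem R h.ccn (by linarith)
    by_cases iu : i = u
    · rw [iu]; exact PCross_notmem R h.uun (by linarith)
    by_cases ib : i = b
    · rw [ib]; exact PCross_notmem R h.bbd (by linarith)
    obtain ⟨f, hf, hfp⟩ := S2 i ia ic iu ib
    exact PCross_notmem R hf ((hnear x (hsub hx) i f hf).2 hfp)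
  · -- second part of the void
    rw [hvd]
    refine PCross_void R (fun x hx => hball (hsub hx.1)) ?_
    rw [← hvd]
    rintro x ⟨hx, x1, x2, x3, x4⟩ i
    rw [hG] at x2
    rw [hD] at x3
    rw [← hy] at x1 x2
    rw [← hz] at x3 x4
    have hxb := hball (hsub hx)
    have b1 := (abs_le.1 (M1a x hxb))
    have b2 := (abs_le.1 (M2a x hxb))
    have b3 := (abs_le.1 (M3a x hxb))
    have b4 := (abs_le.1 (M4a x hxb))
    by_cases ia : i = a
    · rw [ia]; exact PCross_notmem R h.afn (by linarith)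
    by_cases ic : i = c
    · rw [ic]; exact PCross_notmem R h.ccd (by linarith)
    by_cases iu : i = u
    · rw [iu]; exact PCross_notmem R h.uud (by linarith)
    by_cases ib : i = b
    · rw [ib]; exact PCross_notmem R h.bbn (by linarith)
    obtain ⟨f, hf, hfp⟩ := S2 i ia ic iu ib
    exact PCross_notmem R hf ((hnear x (hsub hx) i f hf).2 hfp)

end Pool.TC
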