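import Pool.Agent.W_0c5e58_h61.PDefs
import Pool.Agent.W_0c5e58_h61.PBox
import Pool.Agent.W_0c5e58_h61.LBasic

/-!
# Macroscopic contacts are rigid up to `C * void`
-/

open MeasureTheory Metric Set Filter
open scoped Topology

namespace Pool.TC

variable {I Φ ι : Type} {D : Loc I Φ} {F : Filter ι}

theorem PMF_gap [Finite I] (D : Loc I Φ) (p : E3) : ∃ δ > 0, ∀ i, ∀ f ∈ D.A i,
    inner ℝ (D.ν i f) p ≠ 0 → δ ≤ |inner ℝ (D.ν i f) p| := by
  have h1 : ∀ i, ∀ᶠ δ in 𝓝[>] (0 : ℝ), ∀ f ∈ D.A i,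
      inner ℝ (D.ν i f) p ≠ 0 → δ ≤ |inner ℝ (D.ν i f) p| := by
    intro i
    refine (Filter.eventually_all_finset _).2 fun f _ => ?_
    by_cases h : inner ℝ (D.ν i f) p = 0
    · exact Filter.Eventually.of_forall fun δ h' => absurd h h'
    · have h2 : ∀ᶠ δ in 𝓝[>] (0 : ℝ), δ < |inner ℝ (D.ν i f) p| :=
        mem_nhdsWithin_of_mem_nhds (Iio_mem_nhds (abs_pos.2 h))
      exact h2.mono fun δ h' _ => h'.le
  have h2 : ∀ᶠ δ in 𝓝[>] (0 : ℝ), ∀ i, ∀ f ∈ D.A i,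
      inner ℝ (D.ν i f) p ≠ 0 → δ ≤ |inner ℝ (D.ν i f) p| := Filter.eventually_all.2 h1
  obtain ⟨δ, h3, h4⟩ := (h2.and self_mem_nhdsWithin).exists
  exact ⟨δ, h4, h3⟩

/-- Near a point `p` of the ball only the faces through `p` count, for all late `n`.
For fixed `i, f`: `|ell n i f x - inner (D.ν i f) p| ≤ ‖ν n i f - D.ν i f‖ * ‖x‖ + ‖x - p‖ +
|γ n i f|`; choose `σ` smaller than a quarter of all nonzero `|inner (D.ν i f) p|`. -/
theorem Pert.near [Finite I] (R : Pert D F) {p : E3} (hp : p ∈ ball (0 : E3) R.ρ) :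
    ∃ σ > 0, ball p σ ⊆ ball 0 R.ρ ∧ ∀ᶠ n in F, ∀ x ∈ ball p σ, ∀ i, ∀ f ∈ D.A i,
      (inner ℝ (D.ν i f) p < 0 → R.ell n i f x < - R.ε n) ∧
      (0 < inner ℝ (D.ν i f) p → 0 < R.ell n i f x) := by
  obtain ⟨δ, hδ, hδ'⟩ : ∃ δ > 0, ∀ i, ∀ f ∈ D.A i, inner ℝ (D.ν i f) p ≠ 0 →
      δ ≤ |inner ℝ (D.ν i f) p| := PMF_gap D p
  have hp' : ‖p‖ < R.ρ := by rwa [mem_ball, dist_zero_right] at hp
  have hρ := R.ρpos
  obtain ⟨σ, hσ⟩ : ∃ σ, σ = min (R.ρ - ‖p‖) (δ / 4) := ⟨_, rfl⟩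
  have hσ0 : 0 < σ := hσ ▸ lt_min (by linarith) (by linarith)
  have hσ1 : σ ≤ R.ρ - ‖p‖ := hσ ▸ min_le_left _ _
  have hσ2 : σ ≤ δ / 4 := hσ ▸ min_le_right _ _
  have hsub : ball p σ ⊆ ball 0 R.ρ := by
    refine ball_subset_ball' ?_
    rw [dist_zero_right]
    linarith
  refine ⟨σ, hσ0, hsub, ?_⟩
  have e1 : ∀ᶠ n in F, ∀ i, ∀ f ∈ D.A i, ‖R.ν n i f - D.ν i f‖ < δ / (8 * R.ρ) := by
    refine Filter.eventually_all.2 fun i => (Filter.eventually_all_finset _).2 fun f _ => ?_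
    have := (Metric.tendsto_nhds.1 (R.tν i f)) (δ / (8 * R.ρ)) (by positivity)
    simpa only [dist_eq_norm] using this
  have e2 : ∀ᶠ n in F, ∀ i, ∀ f ∈ D.A i, |R.γ n i f| < δ / 8 := by
    refine Filter.eventually_all.2 fun i => (Filter.eventually_all_finset _).2 fun f hf => ?_
    have := (Metric.tendsto_nhds.1 (R.tγ i f hf)) (δ / 8) (by positivity)
    simpa only [Real.dist_eq, sub_zero] using this
  have e3 : ∀ᶠ n in F, |R.ε n| < δ / 8 := by
    have := (Metric.tendsto_nhds.1 R.tε) (δ / 8) (by positivity)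
    simpa only [Real.dist_eq, sub_zero] using this
  filter_upwards [e1, e2, e3] with n h1 h2 h3 x hx i f hf
  have hx' : ‖x‖ < R.ρ := by
    have := hsub hx
    rwa [mem_ball, dist_zero_right] at this
  have hxp : ‖x - p‖ < σ := by rwa [mem_ball, dist_eq_norm] at hx
  have a1 : |inner ℝ (R.ν n i f - D.ν i f) x| ≤ δ / 8 := by
    refine (abs_real_inner_le_norm _ _).trans ?_
    calc ‖R.ν n i f - D.ν i f‖ * ‖x‖ ≤ δ / (8 * R.ρ) * R.ρ :=
          mul_le_mul (h1 i f hf).le hx'.le (norm_nonneg _) (by positivity)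
      _ = δ / 8 := by field_simp
  have a2 : |inner ℝ (D.ν i f) (x - p)| ≤ δ / 4 := by
    refine (abs_real_inner_le_norm _ _).trans ?_
    rw [D.unit, one_mul]
    exact hxp.le.trans hσ2
  have a3 : R.ell n i f x = inner ℝ (D.ν i f) p + inner ℝ (R.ν n i f - D.ν i f) x +
      inner ℝ (D.ν i f) (x - p) - R.γ n i f := by
    rw [Pert.ell, inner_sub_left, inner_sub_right]
    ring
  have a4 := abs_le.1 (h2 i f hf).le
  have a5 := abs_le.1 a1
  have a6 := abs_le.1 a2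
  have a7 := abs_lt.1 h3
  constructor
  · intro hneg
    have h5 := hδ' i f hf hneg.ne
    rw [abs_of_neg hneg] at h5
    rw [a3]
    linarith [a4.1, a5.2, a6.2, a7.2]
  · intro hpos
    have h5 := hδ' i f hf hpos.ne'
    rw [abs_of_pos hpos] at h5
    rw [a3]
    linarith [a4.2, a5.1, a6.1]

/-- Deterministic core.  Two half spaces `{ν x ≤ α}`, `{μ x ≤ β}` with nearly opposite unit normals
whose interiors do not meet in `ball p σ`; then the sum `s = (ν x - α) + (μ x - β)` is controlled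
by the volume between them.

Proof.  `w = ν + μ`, `c = p - (inner ν p - α) ν`, so `inner ν c = α`, `‖c - p‖ ≤ σ/32`.  For
`u ⊥ ν`, `‖u‖ ≤ σ/3`: `s (c + u) ≥ 0`, since otherwise `inner ν x = α`, `inner μ x < β` at
`x = c + u ∈ ball p σ` and `x - t ν`, `t > 0` small, violates `hno`.  So `s c ≥ 0` and, with
`w⊥ = w - (inner w ν) ν`, `s c ≥ (σ/3) ‖w⊥‖`.  As `inner w ν = 1 + inner μ ν = ‖w‖²/2`,
`‖w‖ ≤ ‖w⊥‖ + ‖w‖²/2 ≤ ‖w⊥‖ + ‖w‖/2`, so `‖w‖ ≤ 2 ‖w⊥‖ ≤ (6/σ) s c`.
`s c ≤ |s p| + ‖w‖ σ/32 ≤ σ/16`.  On `ball c (σ/12)`: `s ≥ s c - ‖w‖ σ/12 ≥ (s c)/2`, so the points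
with `0 < inner ν (x - c) < (s c)/2` satisfy `α < inner ν x`, `β < inner μ x`; they have volume
`≥ (s c)/2 * (σ/12)²` (`slab_ge`).  Hence `s c ≤ (288/σ²) V`, and
`|s p| ≤ s c + ‖w‖ σ/32 ≤ 2 s c`, `‖w‖ ≤ (6/σ) s c`. -/
theorem mf_core {ν μ p : E3} {α β σ : ℝ} (hν : ‖ν‖ = 1) (hμ : ‖μ‖ = 1) (hσ : 0 < σ)
    (hno : ∀ x ∈ ball p σ, inner ℝ ν x < α → inner ℝ μ x < β → False)
    (ha : |inner ℝ ν p - α| ≤ σ / 32) (hw : ‖ν + μ‖ ≤ 1)
    (hs : |(inner ℝ ν p - α) + (inner ℝ μ p - β)| ≤ σ / 32) :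
    |(inner ℝ ν p - α) + (inner ℝ μ p - β)| + ‖ν + μ‖ ≤
      (2 + 6 / σ) * (288 / σ ^ 2) * volume.real {x ∈ ball p σ | α < inner ℝ ν x ∧
        β < inner ℝ μ x} := by
  obtain ⟨w, hwdef⟩ : ∃ w, w = ν + μ := ⟨_, rfl⟩
  obtain ⟨c, hc⟩ : ∃ c, c = p - (inner ℝ ν p - α) • ν := ⟨_, rfl⟩
  have hνν : inner ℝ ν ν = (1 : ℝ) := by rw [real_inner_self_eq_norm_sq, hν]; norm_num
  have hνc : inner ℝ ν c = α := by
    rw [hc, inner_sub_right, real_inner_smul_right, hνν]
    ring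
  have hcp : ‖c - p‖ ≤ σ / 32 := by
    have h1 : c - p = -((inner ℝ ν p - α) • ν) := by rw [hc]; abel
    rw [h1, norm_neg, norm_smul, hν, mul_one, Real.norm_eq_abs]
    exact ha
  have hs_eq : ∀ x : E3, (inner ℝ ν x - α) + (inner ℝ μ x - β) = inner ℝ w x - (α + β) := by
    intro x
    rw [hwdef, inner_add_left]
    ring
  obtain ⟨sc, hsc⟩ : ∃ sc, sc = inner ℝ w c - (α + β) := ⟨_, rfl⟩
  obtain ⟨sp, hsp⟩ : ∃ sp, sp = inner ℝ w p - (α + β) := ⟨_, rfl⟩
  rw [hs_eq, ← hwdef, ← hsp]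
  rw [hs_eq, ← hsp] at hs
  rw [← hwdef] at hw
  -- claim 1
  have c1 : ∀ u : E3, inner ℝ ν u = 0 → ‖u‖ ≤ σ / 3 → 0 ≤ sc + inner ℝ w u := by
    intro u hu hu'
    by_contra hneg
    push Not at hneg
    have h1 : inner ℝ μ (c + u) < β := by
      have h2 : inner ℝ w (c + u) = inner ℝ ν (c + u) + inner ℝ μ (c + u) := by
        rw [hwdef, inner_add_left]
      have h3 : inner ℝ ν (c + u) = α := by rw [inner_add_right, hνc, hu, add_zero]
      rw [inner_add_right] at h2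
      linarith
    obtain ⟨t, ht0, ht1, ht2⟩ : ∃ t : ℝ, 0 < t ∧ t ≤ σ / 3 ∧ t < β - inner ℝ μ (c + u) := by
      refine ⟨min (σ / 3) ((β - inner ℝ μ (c + u)) / 2), lt_min (by linarith) (by linarith),
        min_le_left _ _, (min_le_right _ _).trans_lt (by linarith)⟩
    refine hno (c + u - t • ν) ?_ ?_ ?_
    · rw [mem_ball, dist_eq_norm]
      have h2 : c + u - t • ν - p = (c - p) + u - t • ν := by abel
      rw [h2]
      have h3 := norm_sub_le ((c - p) + u) (t • ν)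
      have h4 := norm_add_le (c - p) u
      have h5 : ‖t • ν‖ = t := by rw [norm_smul, hν, mul_one, Real.norm_of_nonneg ht0.le]
      linarith
    · rw [inner_sub_right, inner_add_right, real_inner_smul_right, hνc, hu, hνν]
      linarith
    · rw [inner_sub_right, real_inner_smul_right]
      have h2 : |inner ℝ μ ν| ≤ 1 := by
        refine (abs_real_inner_le_norm _ _).trans ?_
        rw [hν, hμ, one_mul]
      have h3 := (abs_le.1 h2).1
      nlinarith
  have hsc0 : 0 ≤ sc := by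
    have := c1 0 (inner_zero_right _) (by rw [norm_zero]; linarith)
    rwa [inner_zero_right, add_zero] at this
  -- claim 2
  obtain ⟨v, hv⟩ : ∃ v, v = w - (inner ℝ w ν) • ν := ⟨_, rfl⟩
  have hνv : inner ℝ ν v = 0 := by
    rw [hv, inner_sub_right, real_inner_smul_right, hνν, real_inner_comm ν w]
    ring
  have hwv : inner ℝ w v = ‖v‖ ^ 2 := by
    have h1 : w = v + (inner ℝ w ν) • ν := by rw [hv]; abel
    have h2 : inner ℝ w v = inner ℝ v v + (inner ℝ w ν) * inner ℝ ν v := by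
      conv_lhs => rw [h1]
      rw [inner_add_left, real_inner_smul_left]
    rw [h2, hνv, mul_zero, add_zero, real_inner_self_eq_norm_sq]
  have c2 : σ / 3 * ‖v‖ ≤ sc := by
    by_cases h0 : ‖v‖ = 0
    · rw [h0, mul_zero]
      exact hsc0
    · have hv0 : 0 < ‖v‖ := lt_of_le_of_ne (norm_nonneg _) (Ne.symm h0)
      have h1 := c1 ((-(σ / 3 / ‖v‖)) • v) (by rw [real_inner_smul_right, hνv, mul_zero]) (by
        rw [norm_smul, norm_neg, Real.norm_of_nonneg (by positivity), div_mul_cancel₀ _ h0])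
      rw [real_inner_smul_right, hwv] at h1
      have h2 : -(σ / 3 / ‖v‖) * ‖v‖ ^ 2 = -(σ / 3 * ‖v‖) := by field_simp
      rw [h2] at h1
      linarith
  -- claim 3
  have hwν : inner ℝ w ν = ‖w‖ ^ 2 / 2 := by
    have h1 : ‖w‖ ^ 2 = 2 + 2 * inner ℝ ν μ := by
      rw [hwdef, norm_add_sq_real, hν, hμ]
      ring
    have h2 : inner ℝ w ν = 1 + inner ℝ ν μ := by
      rw [hwdef, inner_add_left, hνν, real_inner_comm]
    rw [h1, h2]
    ring
  have hwn := norm_nonneg w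
  have c3 : ‖w‖ ≤ 2 * ‖v‖ := by
    have h1 : ‖w‖ ≤ ‖v‖ + ‖w‖ ^ 2 / 2 := by
      have h2 : w = v + (inner ℝ w ν) • ν := by rw [hv]; abel
      calc ‖w‖ = ‖v + (inner ℝ w ν) • ν‖ := by rw [← h2]
        _ ≤ ‖v‖ + ‖(inner ℝ w ν) • ν‖ := norm_add_le _ _
        _ = ‖v‖ + ‖w‖ ^ 2 / 2 := by
            rw [norm_smul, hν, mul_one, hwν, Real.norm_of_nonneg (by positivity)]
    nlinarith
  have c3' : σ * ‖w‖ ≤ 6 * sc := by nlinarith
  -- claim 4
  have hdiff : ∀ x : E3, |(inner ℝ w x - (α + β)) - sc| ≤ ‖w‖ * ‖x - c‖ := by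
    intro x
    have h1 : (inner ℝ w x - (α + β)) - sc = inner ℝ w (x - c) := by
      rw [hsc, inner_sub_right]
      ring
    rw [h1]
    exact abs_real_inner_le_norm _ _
  have c4 : |sp - sc| ≤ ‖w‖ * (σ / 32) := by
    have h1 := hdiff p
    rw [← hsp, norm_sub_rev] at h1
    exact h1.trans (mul_le_mul_of_nonneg_left hcp hwn)
  have c4' := abs_le.1 c4
  have hs' := abs_le.1 hs
  have c5 : sc ≤ σ / 16 := by nlinarith
  -- claim 5
  have c6 : sc / 2 * (σ / 12) ^ 2 ≤ volume.real {x ∈ ball p σ | α < inner ℝ ν x ∧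
        β < inner ℝ μ x} := by
    refine (slab_ge hν c (r := σ / 12) (τ := sc / 2) (by linarith) (by linarith)
      (by linarith)).trans (measureReal_mono ?_ ?_)
    · rintro x ⟨hx, hx1, hx2⟩
      rw [mem_ball, dist_eq_norm] at hx
      rw [inner_sub_right, hνc] at hx1 hx2
      have h1 := (abs_le.1 ((hdiff x).trans
        (mul_le_mul_of_nonneg_left hx.le hwn))).1
      have h2 := hs_eq x
      refine ⟨?_, by linarith, ?_⟩
      · rw [mem_ball, dist_eq_norm]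
        have h3 : x - p = (x - c) + (c - p) := by abel
        rw [h3]
        have h4 := norm_add_le (x - c) (c - p)
        linarith
      · nlinarith
    · exact ((measure_mono (sep_subset _ _)).trans_lt measure_ball_lt_top).ne
  -- conclusion
  obtain ⟨V, hV⟩ : ∃ V, V = volume.real {x ∈ ball p σ | α < inner ℝ ν x ∧
        β < inner ℝ μ x} := ⟨_, rfl⟩
  rw [← hV] at c6 ⊢
  have c7 : sc ≤ 288 / σ ^ 2 * V := by
    rw [div_mul_eq_mul_div, le_div_iff₀ (by positivity)]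
    nlinarith
  have c8 : |sp| ≤ 2 * sc := by
    rw [abs_le]
    constructor <;> nlinarith [c4'.1, c4'.2]
  have c9 : ‖w‖ ≤ 6 / σ * sc := by
    rw [div_mul_eq_mul_div, le_div_iff₀ hσ]
    linarith
  calc |sp| + ‖w‖ ≤ (2 + 6 / σ) * sc := by linarith
    _ ≤ (2 + 6 / σ) * (288 / σ ^ 2 * V) := mul_le_mul_of_nonneg_left c7 (by positivity)
    _ = (2 + 6 / σ) * (288 / σ ^ 2) * V := by ring

theorem PMF_unit (R : Pert D F) (n : ι) (i : I) (f : Φ) : ‖R.ν n i f‖ = 1 := by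
  have h1 := R.gram n i f f
  rw [real_inner_self_eq_norm_sq, real_inner_self_eq_norm_sq, D.unit] at h1
  have h2 := norm_nonneg (R.ν n i f)
  nlinarith

theorem PMF_in (R : Pert D F) {p : E3} {σ : ℝ} {n : ι} (h1 : ∀ x ∈ ball p σ, ∀ i, ∀ f ∈ D.A i,
      (inner ℝ (D.ν i f) p < 0 → R.ell n i f x < - R.ε n) ∧
      (0 < inner ℝ (D.ν i f) p → 0 < R.ell n i f x)) {y : E3} (hy : y ∈ ball p σ) {a : I} {f : Φ}
    (hfo : ∀ f' ∈ D.A a, f' ≠ f → inner ℝ (D.ν a f') p < 0) (hε : 0 ≤ R.ε n)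
    (hy1 : inner ℝ (R.ν n a f) y < R.γ n a f) : y ∈ bodyS (D.A a) (R.ν n a) (R.γ n a) := by
  classical
  intro k hk
  by_cases hkf : k = f
  · rw [hkf]
    exact hy1.le
  · have h2 := (h1 y hy a k hk).1 (hfo k hk hkf)
    rw [Pert.ell] at h2
    linarith

theorem PMF_tube (R : Pert D F) {p : E3} {σ : ℝ} {n : ι} (h1 : ∀ x ∈ ball p σ, ∀ i, ∀ f ∈ D.A i,
      (inner ℝ (D.ν i f) p < 0 → R.ell n i f x < - R.ε n) ∧
      (0 < inner ℝ (D.ν i f) p → 0 < R.ell n i f x)) {y : E3} (hy : y ∈ ball p σ) {a : I} {f : Φ}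
    (hfo : ∀ f' ∈ D.A a, f' ≠ f → inner ℝ (D.ν a f') p < 0)
    (hy1 : y ∈ tubeS (D.A a) D.lat (D.ν a) (R.ν n a) (R.γ n a) (R.ε n)) : False := by
  classical
  obtain ⟨k, hk, l, hl, hkl, -, -, -, h2, h3⟩ := hy1
  by_cases hkf : k = f
  · have h4 := (h1 y hy a l hl).1 (hfo l hl fun h => hkl (hkf.trans h.symm))
    rw [Pert.ell] at h4
    linarith
  · have h4 := (h1 y hy a k hk).1 (hfo k hk hkf)
    rw [Pert.ell] at h4
    linarith

/-- **Contact Lemma.**  Scale the contact point `p` of the `Mac` into the ball (`MacAt.smul`), take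
`σ` from `near`.  For late `n`: in `ball p σ`, the points with `ell a f < 0`, `ell b g < 0` lie in
both bodies and outside both tubes (a tube needs two faces with `ell ≥ - ε`); this open set is null
by `R.null`, so empty: `hno` of `mf_core`.  The points with `ell a f > 0`, `ell b g > 0` are in the
void (other bodies do not contain `p` by `MacAt.excl`, so they have a face with
`0 < inner (D.ν z f) p`).  `ha, hw, hs` hold for late `n` by convergence (`D.ν b g = - D.ν a f`,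
`inner (D.ν a f) p = 0`).  Finally `|s x| ≤ |s p| + ‖w‖ * (2 ρ)`. -/
theorem Pert.mf [Finite I] (R : Pert D F) {a b : I} {f g : Φ} (h : D.Mac a f b g) :
    ∃ C, 0 ≤ C ∧ ∀ᶠ n in F, (∀ x ∈ ball (0 : E3) R.ρ,
      |R.ell n a f x + R.ell n b g x| ≤ C * R.void n) ∧
      ‖R.ν n a f + R.ν n b g‖ ≤ C * R.void n := by
  obtain ⟨p₀, hp₀⟩ := h
  have hρ := R.ρpos
  obtain ⟨t, ht, htp⟩ : ∃ t : ℝ, 0 < t ∧ ‖t • p₀‖ < R.ρ := by
    refine ⟨R.ρ / (‖p₀‖ + 1), by positivity, ?_⟩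
    rw [norm_smul, Real.norm_of_nonneg (by positivity), div_mul_eq_mul_div,
      div_lt_iff₀ (by positivity)]
    nlinarith [norm_nonneg p₀]
  have hm := hp₀.smul ht
  obtain ⟨p, hp⟩ : ∃ p, p = t • p₀ := ⟨_, rfl⟩
  rw [← hp] at hm htp
  obtain ⟨σ, hσ, hsub, hev⟩ := R.near (p := p) (by rwa [mem_ball, dist_zero_right])
  obtain ⟨hab, hfa, hgb, hopp, hin, hfo, hgo⟩ := id hm
  have hinb : inner ℝ (D.ν b g) p = 0 := by rw [hopp, inner_neg_left, hin, neg_zero]
  refine ⟨(1 + 2 * R.ρ) * ((2 + 6 / σ) * (288 / σ ^ 2)), by positivity, ?_⟩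
  have ta : Tendsto (fun n => inner ℝ (R.ν n a f) p - R.γ n a f) F (𝓝 0) := by
    have h1 := ((R.tν a f).inner (tendsto_const_nhds (x := p))).sub (R.tγ a f hfa)
    rwa [hin, sub_zero] at h1
  have tb : Tendsto (fun n => inner ℝ (R.ν n b g) p - R.γ n b g) F (𝓝 0) := by
    have h1 := ((R.tν b g).inner (tendsto_const_nhds (x := p))).sub (R.tγ b g hgb)
    rwa [hinb, sub_zero] at h1
  have tab := ta.add tb
  rw [add_zero] at tab
  have tw : Tendsto (fun n => R.ν n a f + R.ν n b g) F (𝓝 0) := by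
    have h1 := (R.tν a f).add (R.tν b g)
    rwa [hopp, add_neg_cancel] at h1
  have ea : ∀ᶠ n in F, |inner ℝ (R.ν n a f) p - R.γ n a f| ≤ σ / 32 := by
    have := (Metric.tendsto_nhds.1 ta) (σ / 32) (by positivity)
    exact this.mono fun n hn => by
      rw [Real.dist_eq, sub_zero] at hn
      exact hn.le
  have es : ∀ᶠ n in F, |(inner ℝ (R.ν n a f) p - R.γ n a f) +
      (inner ℝ (R.ν n b g) p - R.γ n b g)| ≤ σ / 32 := by
    have := (Metric.tendsto_nhds.1 tab) (σ / 32) (by positivity)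
    exact this.mono fun n hn => by
      rw [Real.dist_eq, sub_zero] at hn
      exact hn.le
  have ew : ∀ᶠ n in F, ‖R.ν n a f + R.ν n b g‖ ≤ 1 := by
    have := (Metric.tendsto_nhds.1 tw) 1 one_pos
    exact this.mono fun n hn => by
      rw [dist_zero_right] at hn
      exact hn.le
  filter_upwards [hev, R.null, ea, es, ew] with n h1 h2 h3 h4 h5
  have hno : ∀ x ∈ ball p σ, inner ℝ (R.ν n a f) x < R.γ n a f →
      inner ℝ (R.ν n b g) x < R.γ n b g → False := by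
    intro x hx hx1 hx2
    obtain ⟨O, hO⟩ : ∃ O : Set E3, O = ball p σ ∩ {x | inner ℝ (R.ν n a f) x < R.γ n a f} ∩
      {x | inner ℝ (R.ν n b g) x < R.γ n b g} := ⟨_, rfl⟩
    have hOo : IsOpen O := by
      rw [hO]
      exact (isOpen_ball.inter (isOpen_lt (by fun_prop) continuous_const)).inter
        (isOpen_lt (by fun_prop) continuous_const)
    have hO0 : volume O = 0 := by
      refine measure_mono_null ?_ (h2 a b hab)
      intro y hy
      rw [hO] at hy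
      obtain ⟨⟨hy0, hy1⟩, hy2⟩ := hy
      refine ⟨⟨⟨?_, ?_⟩, hsub hy0⟩, ?_⟩
      · exact PMF_in R h1 hy0 hfo (R.εnn n) hy1
      · exact PMF_in R h1 hy0 hgo (R.εnn n) hy2
      · rintro (hy3 | hy3)
        · exact PMF_tube R h1 hy0 hfo hy3
        · exact PMF_tube R h1 hy0 hgo hy3
    have hO1 : O = ∅ := (hOo.measure_eq_zero_iff volume).1 hO0
    have : x ∈ O := by
      rw [hO]
      exact ⟨⟨hx, hx1⟩, hx2⟩
    rw [hO1] at this
    exact this
  have hnu : ∀ i k, ‖R.ν n i k‖ = 1 := fun i k => PMF_unit R n i k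
  have hcore := mf_core (hnu a f) (hnu b g) hσ hno h3 h5 h4
  have hvoid : volume.real {x ∈ ball p σ | R.γ n a f < inner ℝ (R.ν n a f) x ∧
      R.γ n b g < inner ℝ (R.ν n b g) x} ≤ R.void n := by
    refine measureReal_mono ?_ ?_
    · rintro x ⟨hx, hx1, hx2⟩
      refine ⟨hsub hx, ?_⟩
      intro hx3
      obtain ⟨z, hz⟩ := mem_iUnion.1 hx3
      by_cases hpz : p ∈ D.T z
      · rcases Loc.MacAt.excl D hm hpz with rfl | rfl
        · exact absurd (hz f hfa) (not_le.2 hx1)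
        · exact absurd (hz g hgb) (not_le.2 hx2)
      · have h6 : ∃ k ∈ D.A z, 0 < inner ℝ (D.ν z k) p := by
          by_contra hcon
          push Not at hcon
          exact hpz hcon
        obtain ⟨k, hk, hk'⟩ := h6
        have h7 := (h1 x hx z k hk).2 hk'
        have h8 : inner ℝ (R.ν n z k) x ≤ R.γ n z k := hz k hk
        rw [Pert.ell] at h7
        linarith
    · exact ((measure_mono sdiff_subset).trans_lt measure_ball_lt_top).ne
  have hK : 0 ≤ (2 + 6 / σ) * (288 / σ ^ 2) := by positivity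
  have hcore' := hcore.trans (mul_le_mul_of_nonneg_left hvoid hK)
  have hvn : 0 ≤ R.void n := measureReal_nonneg
  have hs0 := abs_nonneg ((inner ℝ (R.ν n a f) p - R.γ n a f) +
      (inner ℝ (R.ν n b g) p - R.γ n b g))
  have hw0 := norm_nonneg (R.ν n a f + R.ν n b g)
  constructor
  · intro x hx
    rw [mem_ball, dist_zero_right] at hx
    have h6 : R.ell n a f x + R.ell n b g x = ((inner ℝ (R.ν n a f) p - R.γ n a f) +
      (inner ℝ (R.ν n b g) p - R.γ n b g)) + inner ℝ (R.ν n a f + R.ν n b g) (x - p) := by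
      rw [Pert.ell, Pert.ell, inner_add_left, inner_sub_right, inner_sub_right]
      ring
    have h7 : |inner ℝ (R.ν n a f + R.ν n b g) (x - p)| ≤
        ‖R.ν n a f + R.ν n b g‖ * (2 * R.ρ) := by
      refine (abs_real_inner_le_norm _ _).trans (mul_le_mul_of_nonneg_left ?_ hw0)
      have := norm_sub_le x p
      linarith
    rw [h6]
    refine (abs_add_le _ _).trans ?_
    nlinarith
  · nlinarith

theorem PMF_flush [Finite I] (R : Pert D F) {a b : I} (h : D.Flush a b) :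
    ∃ f g, f ∈ D.A a ∧ g ∈ D.A b ∧ ∃ C : ℝ, 0 ≤ C ∧ ∀ᶠ n in F, ∀ x ∈ ball (0 : E3) R.ρ,
      |R.ell n a f x + R.ell n b g x| ≤ C * R.void n := by
  obtain ⟨f, g, h | ⟨u, f₁, c, f₂, h1, h2, h3⟩⟩ := h
  · obtain ⟨C, hC, hev⟩ := R.mf h
    obtain ⟨p, hp⟩ := h
    exact ⟨f, g, hp.2.1, hp.2.2.1, C, hC, hev.mono fun n hn => hn.1⟩
  · obtain ⟨C1, hC1, hev1⟩ := R.mf h1
    obtain ⟨C2, hC2, hev2⟩ := R.mf h2
    obtain ⟨C3, hC3, hev3⟩ := R.mf h3
    obtain ⟨p, hp⟩ := h1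
    obtain ⟨q, hq⟩ := h3
    refine ⟨f, g, hp.2.1, hq.2.2.1, C1 + C2 + C3, by positivity, ?_⟩
    filter_upwards [hev1, hev2, hev3] with n e1 e2 e3 x hx
    have a1 := abs_le.1 (e1.1 x hx)
    have a2 := abs_le.1 (e2.1 x hx)
    have a3 := abs_le.1 (e3.1 x hx)
    rw [abs_le]
    constructor
    · nlinarith [a1.1, a2.2, a3.1]
    · nlinarith [a1.2, a2.1, a3.2]

theorem PMF_side (R : Pert D F) (a : I) (f : Φ) (hf : f ∈ D.A a) (C : ℝ) (hC : 0 ≤ C) :
    ∃ M : ℝ, 0 ≤ M ∧ ∀ (n : ι) (S : Set E3), (∀ x ∈ S, x ∈ ball (0 : E3) R.ρ ∧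
      |R.ell n a f x| ≤ C * R.void n ∧ x ∈ R.body n a ∧ x ∈ R.tube n a) →
      volume.real S ≤ R.void n * ((R.ε n + C * R.void n) * M) := by
  classical
  have hρ := R.ρpos
  refine ⟨∑ m ∈ (D.A a).filter (fun m => m ≠ f),
    8 * C * R.ρ / √(1 - (inner ℝ (D.ν a f) (D.ν a m)) ^ 2),
    Finset.sum_nonneg fun m _ => by positivity, fun n S hS => ?_⟩
  have hvn : 0 ≤ R.void n := measureReal_nonneg
  have hεn := R.εnn n
  have hnu : ∀ i k, ‖R.ν n i k‖ = 1 := fun i k => PMF_unit R n i k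
  obtain ⟨Tm, hTm⟩ : ∃ Tm : Φ → Set E3, Tm = fun m => {x | x ∈ ball (0 : E3) R.ρ ∧
      |R.ell n a f x| ≤ C * R.void n ∧ |R.ell n a m x| ≤ R.ε n} := ⟨_, rfl⟩
  have hcov : S ⊆ ⋃ m ∈ (D.A a).filter (fun m => m ≠ f), Tm m := by
    intro x hx
    obtain ⟨hx0, hx1, hx2, hx3⟩ := hS x hx
    obtain ⟨k, hk, l, hl, hkl, -, -, -, h2, h3⟩ := hx3
    have hb : ∀ m ∈ D.A a, R.γ n a m - R.ε n ≤ inner ℝ (R.ν n a m) x → m ≠ f →
        x ∈ ⋃ m ∈ (D.A a).filter (fun m => m ≠ f), Tm m := by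
      intro m hm h4 hmf
      refine mem_iUnion₂.2 ⟨m, Finset.mem_filter.2 ⟨hm, hmf⟩, ?_⟩
      rw [hTm]
      refine ⟨hx0, hx1, ?_⟩
      have h5 : inner ℝ (R.ν n a m) x ≤ R.γ n a m := hx2 m hm
      rw [Pert.ell, abs_le]
      constructor <;> linarith
    by_cases hkf : k = f
    · exact hb l hl h3 fun h => hkl (hkf.trans h.symm)
    · exact hb k hk h2 hkf
  have hfinT : ∀ m, volume (Tm m) ≠ ⊤ := by
    intro m
    rw [hTm]
    exact ((measure_mono (t := ball (0 : E3) R.ρ) fun x hx => hx.1).trans_lt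
      measure_ball_lt_top).ne
  have hfin : volume (⋃ m ∈ (D.A a).filter (fun m => m ≠ f), Tm m) ≠ ⊤ := by
    refine ((measure_mono (t := ball (0 : E3) R.ρ) ?_).trans_lt measure_ball_lt_top).ne
    refine iUnion₂_subset fun m _ => ?_
    rw [hTm]
    exact fun x hx => hx.1
  have hTv : ∀ m ∈ (D.A a).filter (fun m => m ≠ f), volume.real (Tm m) ≤
      8 * (C * R.void n) * ((R.ε n + C * R.void n) /
        √(1 - (inner ℝ (D.ν a f) (D.ν a m)) ^ 2)) * R.ρ := by
    intro m hm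
    obtain ⟨hm1, hm2⟩ := Finset.mem_filter.1 hm
    have g1 := D.gram_nn hf hm1 (Ne.symm hm2)
    have g2 := D.gram_lt hf hm1 (Ne.symm hm2)
    refine upper2 (hnu a f) (hnu a m) (R.gram n a f m) (by nlinarith)
      (c₁ := R.γ n a f) (c₂ := R.γ n a m) (mul_nonneg hC hvn) hεn hρ.le fun x hx => ?_
    rw [hTm] at hx
    obtain ⟨hx0, hx1, hx2⟩ := hx
    rw [mem_ball, dist_zero_right] at hx0
    exact ⟨hx0.le, hx1, hx2⟩
  calc volume.real S ≤ volume.real (⋃ m ∈ (D.A a).filter (fun m => m ≠ f), Tm m) :=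
        measureReal_mono hcov hfin
    _ ≤ ∑ m ∈ (D.A a).filter (fun m => m ≠ f), volume.real (Tm m) :=
        measureReal_biUnion_finset_le _ _
    _ ≤ ∑ m ∈ (D.A a).filter (fun m => m ≠ f), 8 * (C * R.void n) * ((R.ε n + C * R.void n) /
        √(1 - (inner ℝ (D.ν a f) (D.ν a m)) ^ 2)) * R.ρ := Finset.sum_le_sum hTv
    _ = R.void n * ((R.ε n + C * R.void n) * ∑ m ∈ (D.A a).filter (fun m => m ≠ f),
        8 * C * R.ρ / √(1 - (inner ℝ (D.ν a f) (D.ν a m)) ^ 2)) := by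
        rw [Finset.mul_sum, Finset.mul_sum]
        refine Finset.sum_congr rfl fun m _ => ?_
        ring

/-- **Flush Bound.**  By `mf` (once, or three times for a chain:
`ell a f + ell b g = (ell a f + ell u f₁) - (ell c f₂ + ell u f₁) + (ell c f₂ + ell b g)`),
`|ell a f + ell b g| ≤ C v` in the ball, `v = void n`.  In the overlap both are `≤ 0`, so
`|ell a f| ≤ C v` and `|ell b g| ≤ C v`.  By `R.null` the overlap is, up to a null set, in the tube
of `a` or of `b`.  In the tube of `a`: two different faces `k, l` with `- ε ≤ ell ≤ 0`, one of them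
is `m ≠ f`.  So this part is covered by the finitely many sets `|ell a f| ≤ C v`, `|ell a m| ≤ ε`,
`m ∈ A a`, `m ≠ f`, each of volume `≤ 8 C v (ε + C v) / √(1 - g²) * ρ` by `upper2`
(`g = inner (D.ν a f) (D.ν a m) ∈ [0,1)` by `gram_nn`, `gram_lt`, the same for all `n` by `R.gram`).
As `ε, v → 0` this is `≤ δ v` for late `n`. -/
theorem Pert.flush_bound [Finite I] (R : Pert D F) {a b : I} (hab : a ≠ b) (h : D.Flush a b)
    {δ : ℝ} (hδ : 0 < δ) : ∀ᶠ n in F,
      volume.real (R.body n a ∩ R.body n b ∩ ball 0 R.ρ) ≤ δ * R.void n := by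
  classical
  obtain ⟨f, g, hfa, hgb, C, hC, hev⟩ := PMF_flush R h
  obtain ⟨Ma, hMa, hMa'⟩ := PMF_side R a f hfa C hC
  obtain ⟨Mb, hMb, hMb'⟩ := PMF_side R b g hgb C hC
  have t1 : Tendsto (fun n => (R.ε n + C * R.void n) * (Ma + Mb)) F (𝓝 0) := by
    have h1 : Tendsto (fun n => (R.ε n + C * R.void n) * (Ma + Mb)) F
        (𝓝 ((0 + C * 0) * (Ma + Mb))) := (R.tε.add (R.tvoid.const_mul C)).mul_const (Ma + Mb)
    rwa [mul_zero, add_zero, zero_mul] at h1
  have e1 : ∀ᶠ n in F, (R.ε n + C * R.void n) * (Ma + Mb) ≤ δ := by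
    have := (Metric.tendsto_nhds.1 t1) δ hδ
    exact this.mono fun n hn => by
      rw [Real.dist_eq, sub_zero] at hn
      exact (le_abs_self _).trans hn.le
  filter_upwards [hev, R.null, e1] with n h1 h2 h3
  have hvn : 0 ≤ R.void n := measureReal_nonneg
  obtain ⟨O, hO⟩ : ∃ O : Set E3, O = R.body n a ∩ R.body n b ∩ ball 0 R.ρ := ⟨_, rfl⟩
  have hOfin : volume O ≠ ⊤ := by
    rw [hO]
    exact ((measure_mono inter_subset_right).trans_lt measure_ball_lt_top).ne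
  have hOab : ∀ x ∈ O, |R.ell n a f x| ≤ C * R.void n ∧ |R.ell n b g x| ≤ C * R.void n := by
    intro x hx
    rw [hO] at hx
    obtain ⟨⟨hxa, hxb⟩, hx0⟩ := hx
    have h4 := abs_le.1 (h1 x hx0)
    have h5 : inner ℝ (R.ν n a f) x ≤ R.γ n a f := hxa f hfa
    have h6 : inner ℝ (R.ν n b g) x ≤ R.γ n b g := hxb g hgb
    have h7 : R.ell n a f x ≤ 0 := by rw [Pert.ell]; linarith
    have h8 : R.ell n b g x ≤ 0 := by rw [Pert.ell]; linarith
    constructor
    · rw [abs_of_nonpos h7]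
      linarith [h4.1]
    · rw [abs_of_nonpos h8]
      linarith [h4.1]
  have hsplit : volume.real O ≤ volume.real (O ∩ R.tube n a) + volume.real (O ∩ R.tube n b) := by
    have h4 : O = (O ∩ R.tube n a) ∪ (O ∩ R.tube n b) ∪ (O \ (R.tube n a ∪ R.tube n b)) := by
      rw [← inter_union_distrib_left, inter_union_sdiff]
    have h5 : volume.real (O \ (R.tube n a ∪ R.tube n b)) = 0 := by
      rw [measureReal_def, hO]
      have := h2 a b hab
      rw [show volume ((R.body n a ∩ R.body n b ∩ ball 0 R.ρ) \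
        (R.tube n a ∪ R.tube n b)) = 0 from this]
      rfl
    calc volume.real O ≤ volume.real ((O ∩ R.tube n a) ∪ (O ∩ R.tube n b)) +
          volume.real (O \ (R.tube n a ∪ R.tube n b)) := by
          conv_lhs => rw [h4]
          exact measureReal_union_le _ _
      _ ≤ _ := by
          rw [h5, add_zero]
          exact measureReal_union_le _ _
  have hA : volume.real (O ∩ R.tube n a) ≤ R.void n * ((R.ε n + C * R.void n) * Ma) := by
    refine hMa' n (O ∩ R.tube n a) fun x hx => ⟨?_, ?_, ?_, hx.2⟩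
    · have := hx.1
      rw [hO] at this
      exact this.2
    · exact (hOab x hx.1).1
    · have := hx.1
      rw [hO] at this
      exact this.1.1
  have hB : volume.real (O ∩ R.tube n b) ≤ R.void n * ((R.ε n + C * R.void n) * Mb) := by
    refine hMb' n (O ∩ R.tube n b) fun x hx => ⟨?_, ?_, ?_, hx.2⟩
    · have := hx.1
      rw [hO] at this
      exact this.2
    · exact (hOab x hx.1).2
    · have := hx.1
      rw [hO] at this
      exact this.1.2
  rw [← hO]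
  calc volume.real O ≤ R.void n * ((R.ε n + C * R.void n) * Ma) +
        R.void n * ((R.ε n + C * R.void n) * Mb) := by linarith
    _ = R.void n * ((R.ε n + C * R.void n) * (Ma + Mb)) := by ring
    _ ≤ R.void n * δ := mul_le_mul_of_nonneg_left h3 hvn
    _ = δ * R.void n := mul_comm _ _

end Pool.TC
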